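import Pool.Agent.Run7.h693.Pair

set_option linter.unusedSectionVars false
set_option linter.deprecated false

open Finset Filter Topology Module
open scoped ContDiff

namespace Run7.h693

variable {E : Type*} [NormedAddCommGroup E] [InnerProductSpace ℝ E] [FiniteDimensional ℝ E]

variable (L : StratLie E)

theorem BS.cont_mul {k : ℕ} {ν w : (Fin k → E) → ℝ} (hν : Continuous ν) (hw : BS w) :
    BS (fun g => ν g * w g) := by
  obtain ⟨C, R, hC0, hR0, hC, hR⟩ := hw.nonneg_bounds
  obtain ⟨M, hM⟩ := (isCompact_closedBall (0 : Fin k → E) R).exists_bound_of_continuousOn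
    hν.continuousOn
  have hM0 : 0 ≤ M := (norm_nonneg _).trans (hM 0 (by simpa using hR0))
  refine ⟨M * C, R, fun g => ?_, fun g hg => by simp only [hR g hg, mul_zero]⟩
  by_cases hg : ‖g‖ ≤ R
  · rw [abs_mul]
    exact mul_le_mul (hM g (by simpa using hg)) (hC g) (abs_nonneg _) hM0
  · simp only [hR g (not_le.1 hg), mul_zero, abs_zero]
    positivity

section

variable {n : ℕ} {b : Basis (Fin (n + 1)) ℝ E}

theorem continuous_repr {k : ℕ} (b : Basis (Fin k) ℝ E) (c : Fin k) :
    Continuous fun y : E => b.repr y c := by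
  let T : E →L[ℝ] (Fin k → ℝ) := b.equivFunL
  have h2 : Continuous fun y : E => T y c := (continuous_apply c).comp T.continuous
  exact h2

/-- The volume of the simplex with vertices `g`, up to normalisation. -/
noncomputable def nu (b : Basis (Fin (n + 1)) ℝ E) (g : Fin (n + 2) → E) : ℝ :=
  b.det fun j => g j.succ - g j.castSucc

theorem continuous_nu : Continuous (nu b) := by
  unfold nu
  simp only [Basis.det_apply]
  apply Continuous.matrix_det
  refine continuous_matrix fun i j => ?_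
  simp only [Basis.toMatrix_apply]
  apply (continuous_repr b i).comp
  fun_prop

theorem nu_cons (x : E) (y : Fin (n + 1) → E) : nu b (Fin.cons x y) =
    (Matrix.of fun i j : Fin (n + 1) => b.repr (y j - x) i).det := by
  unfold nu
  rw [Basis.det_apply]
  symm
  apply Matrix.det_eq_of_forall_col_eq_smul_add_pred (fun _ => 1)
  · intro i
    rw [Matrix.of_apply, Basis.toMatrix_apply]
    simp
  · intro i j
    rw [Matrix.of_apply, Matrix.of_apply, Basis.toMatrix_apply]
    rw [one_mul, ← Finsupp.add_apply, ← map_add]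
    congr 2
    have e1 : (Fin.cons x y : Fin (n + 2) → E) j.succ.castSucc = y j.castSucc := by
      rw [← Fin.succ_castSucc]; simp
    rw [e1, Fin.cons_succ]
    abel

variable {wt : Fin (n + 1) → ℕ} (hmono : Monotone wt)
  (hb : ∀ a, b a ∈ L.V (wt a)) {f : E → ℝ} (hf : ContDiff ℝ ∞ f) (hfc : HasCompactSupport f)

include hmono hb hf hfc

/-- The main term. -/
theorem main_term : powF (KE b) (n + 2) (fun g => nu b g * ww L b f g) =
    KE b f * (((n + 1).factorial : ℝ) *
      (Matrix.of fun a c : Fin (n + 1) => KE b fun y => L.dv (b a) f y * b.repr y c).det) := by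
  set M : Matrix (Fin (n + 1)) (Fin (n + 1)) ℝ :=
    Matrix.of fun a c : Fin (n + 1) => KE b fun y => L.dv (b a) f y * b.repr y c with hM
  have hΛ1 := isFun_KE b
  have hΛ := isFun_powF hΛ1 (n + 1)
  have hfbs : BS f := BS_of_compact hf.continuous hfc
  have hbs : ∀ (a c : Fin (n + 1)) (x : E), BS fun y => L.dv (b a) f y * b.repr (y - x) c := by
    intro a c x
    apply BS_of_compact
    · apply (contDiff_dv L (b a) hf).continuous.mul
      apply (continuous_repr b c).comp
      fun_prop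
    · exact (compact_dv L (b a) hfc).mul_right
  have hKE : ∀ (a c : Fin (n + 1)) (x : E),
      (KE b fun y => L.dv (b a) f y * b.repr (y - x) c) = M a c := by
    intro a c x
    have e1 : (fun y => L.dv (b a) f y * b.repr (y - x) c) =
        (fun y => L.dv (b a) f y * b.repr y c) - (b.repr x c) • (L.dv (b a) f) := by
      funext y
      rw [map_sub, Finsupp.sub_apply, Pi.sub_apply, Pi.smul_apply, smul_eq_mul]
      ring
    have hb1 : BS fun y : E => L.dv (b a) f y * b.repr y c :=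
      BS_of_compact ((contDiff_dv L (b a) hf).continuous.mul (continuous_repr b c))
        (compact_dv L (b a) hfc).mul_right
    have hb2 : BS (L.dv (b a) f) :=
      BS_of_compact (contDiff_dv L (b a) hf).continuous (compact_dv L (b a) hfc)
    rw [e1, hΛ1.sub hb1 (hb2.smul _), hΛ1.smul _ _ hb2,
      KE_dv L hmono hb (L.one_le_wt hb a) (hb a) hf hfc, mul_zero, sub_zero, hM, Matrix.of_apply]
  have hinner : ∀ x : E, powF (KE b) (n + 1)
      (fun y => nu b (Fin.cons x y) * ww L b f (Fin.cons x y)) =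
      (((n + 1).factorial : ℝ) * M.det) * f x := by
    intro x
    have hbsP : ∀ π τ : Equiv.Perm (Fin (n + 1)), BS (fun y : Fin (n + 1) → E =>
        ∏ j, L.dv (b (π j)) f (y j) * b.repr (y j - x) (τ j)) := by
      intro π τ
      exact BS.prod (F := fun j y => L.dv (b (π j)) f y * b.repr (y - x) (τ j))
        fun j => hbs (π j) (τ j) x
    have e1 : (fun y : Fin (n + 1) → E => nu b (Fin.cons x y) * ww L b f (Fin.cons x y)) =
        fun y => f x * ∑ π : Equiv.Perm (Fin (n + 1)), ∑ τ : Equiv.Perm (Fin (n + 1)),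
          (Equiv.Perm.sign π : ℝ) * ((Equiv.Perm.sign τ : ℝ) *
          ∏ j, L.dv (b (π j)) f (y j) * b.repr (y j - x) (τ j)) := by
      funext y
      rw [nu_cons, ww, Matrix.det_apply', Matrix.det_apply']
      simp only [Fin.cons_zero, Fin.cons_succ, Matrix.of_apply, prod_mul_distrib]
      rw [mul_left_comm, sum_mul_sum, sum_comm]
      congr 1
      refine sum_congr rfl fun π _ => sum_congr rfl fun τ _ => ?_
      ring
    rw [e1, hΛ.of_mul]
    swap
    · apply BS.of_sum
      intro π _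
      apply BS.of_sum
      intro τ _
      exact ((hbsP π τ).smul _).smul _
    rw [hΛ.of_sum]
    swap
    · intro π _
      apply BS.of_sum
      intro τ _
      exact ((hbsP π τ).smul _).smul _
    have e2 : ∀ π : Equiv.Perm (Fin (n + 1)), powF (KE b) (n + 1) (fun y =>
        ∑ τ : Equiv.Perm (Fin (n + 1)), (Equiv.Perm.sign π : ℝ) * ((Equiv.Perm.sign τ : ℝ) *
          ∏ j, L.dv (b (π j)) f (y j) * b.repr (y j - x) (τ j))) =
        ∑ τ : Equiv.Perm (Fin (n + 1)), (Equiv.Perm.sign π : ℝ) * ((Equiv.Perm.sign τ : ℝ) *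
          ∏ j, M (π j) (τ j)) := by
      intro π
      rw [hΛ.of_sum]
      swap
      · intro τ _
        exact ((hbsP π τ).smul _).smul _
      refine sum_congr rfl fun τ _ => ?_
      have hb1 : BS (fun y : Fin (n + 1) → E => (Equiv.Perm.sign τ : ℝ) *
          ∏ j, L.dv (b (π j)) f (y j) * b.repr (y j - x) (τ j)) := (hbsP π τ).smul _
      rw [hΛ.of_mul _ hb1, hΛ.of_mul _ (hbsP π τ)]
      congr 2
      have := powF_prod hΛ1 (F := fun j y => L.dv (b (π j)) f y * b.repr (y - x) (τ j))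
        fun j => hbs (π j) (τ j) x
      rw [this]
      refine prod_congr rfl fun j _ => ?_
      exact hKE _ _ _
    rw [sum_congr rfl fun π _ => e2 π, double_perm]
    ring
  change KE b (fun x => powF (KE b) (n + 1)
    fun y => nu b (Fin.cons x y) * ww L b f (Fin.cons x y)) = _
  simp only [hinner]
  rw [hΛ1.of_mul _ hfbs]
  ring

end

theorem exists_adapted' {N : ℕ} (hN : finrank ℝ E = N) : ∃ (b : Basis (Fin N) ℝ E)
    (wt : Fin N → ℕ), Monotone wt ∧ ∀ a, b a ∈ L.V (wt a) := by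
  subst hN
  exact L.exists_adapted

theorem det_dil' {N : ℕ} (hN : finrank ℝ E = N) {b : Basis (Fin N) ℝ E} {wt : Fin N → ℕ}
    (hb : ∀ a, b a ∈ L.V (wt a)) (t : ℝ) :
    LinearMap.det (L.dil t : E →ₗ[ℝ] E) = t ^ (∑ a, wt a) := by
  subst hN
  exact L.det_dil hb t

theorem card_lt_sum_wt' {N : ℕ} (hN : finrank ℝ E = N) (hs : 2 ≤ L.step) {b : Basis (Fin N) ℝ E}
    {wt : Fin N → ℕ} (hb : ∀ a, b a ∈ L.V (wt a)) : N < ∑ a, wt a := by
  subst hN
  exact L.card_lt_sum_wt hs hb

theorem two_le_finrank (hs : 2 ≤ L.step) : 2 ≤ finrank ℝ E := by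
  by_contra h
  have h1 : finrank ℝ E ≤ 1 := by omega
  rw [finrank_le_one_iff] at h1
  obtain ⟨v, hv⟩ := h1
  have hbr : ∀ x y : E, L.br x y = 0 := by
    intro x y
    obtain ⟨c, rfl⟩ := hv x
    obtain ⟨d, rfl⟩ := hv y
    simp [L.br_self]
  apply L.last
  have h2 := L.gen (L.step - 1) (by omega)
  have h3 : L.step - 1 + 1 = L.step := by omega
  rw [h3] at h2
  rw [← h2, Submodule.span_eq_bot]
  rintro _ ⟨x, _, y, _, rfl⟩
  exact hbr x y

/-- The homogeneous dimension. -/
theorem sum_wt_eq {N : ℕ} {b : Basis (Fin N) ℝ E} {wt : Fin N → ℕ}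
    (hb : ∀ a, b a ∈ L.V (wt a)) :
    (∑ a, (wt a : ℝ)) = ∑ i ∈ range (L.step + 1), (i : ℝ) * (finrank ℝ (L.V i) : ℝ) := by
  classical
  have h1 : LinearMap.trace ℝ E (L.D : E →ₗ[ℝ] E) = ∑ a, (wt a : ℝ) := by
    rw [LinearMap.trace_eq_matrix_trace ℝ b, Matrix.trace]
    refine sum_congr rfl fun a _ => ?_
    rw [Matrix.diag_apply, LinearMap.toMatrix_apply, ContinuousLinearMap.coe_coe,
      L.D_of_mem (hb a), map_smul, Finsupp.smul_apply, Basis.repr_self, Finsupp.single_eq_same,
      smul_eq_mul, mul_one]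
  have h2 : LinearMap.trace ℝ E (L.D : E →ₗ[ℝ] E) =
      ∑ i ∈ range (L.step + 1), (i : ℝ) * (finrank ℝ (L.V i) : ℝ) := by
    have e : (L.D : E →ₗ[ℝ] E) =
        ∑ i ∈ range (L.step + 1), (i : ℝ) • (L.proj i : E →ₗ[ℝ] E) := by
      ext x
      simp [StratLie.D]
    rw [e, map_sum]
    refine sum_congr rfl fun i _ => ?_
    rw [map_smul, smul_eq_mul]
    congr 1
    apply LinearMap.IsProj.trace
    exact ⟨fun x => L.proj_mem i x, fun x hx => L.proj_of_mem hx⟩
  rw [← h1, h2]

theorem final' (R : ℝ) {a : ℕ → ℝ} {n : ℕ} (hn : 1 ≤ n)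
    (ob : OrthonormalBasis (Fin (n + 1)) ℝ E) (ha : ∀ k, 1 ≤ k → k ≤ n → 1 ≤ a k)
    (hEF : ∀ k, 1 ≤ k → k ≤ n → L.EF k (a k)) : ∃ C : ℝ, 0 < C ∧ ∀ t : ℝ, 1 ≤ t →
    ∃ (K : ℝ) (β : (Fin (n + 1) → E) → ℝ), 0 ≤ K ∧ (∀ x g, β (L.lact x g) = β g) ∧
      (∀ g, L.Adm R g → |β g| ≤ K) ∧ ∀ g : Fin (n + 2) → E, L.Adm R g →
      |kap (n + 1) * ob.toBasis.det (fun j => L.dil t (g j.succ) - L.dil t (g j.castSucc)) +
        dS β g| ≤ C * t ^ (ex a n) := by
  obtain ⟨m, rfl⟩ : ∃ m, n = m + 1 := ⟨n - 1, by omega⟩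
  exact final L R ob ha hEF

/-- **Main theorem**: the homogeneous dimension is at most the product of the exponents of the
filling functions. -/
theorem product_ineq (hn : 2 ≤ finrank ℝ E) {a : ℕ → ℝ}
    (ha : ∀ k, 1 ≤ k → k + 1 ≤ finrank ℝ E → 1 ≤ a k)
    (hEF : ∀ k, 1 ≤ k → k + 1 ≤ finrank ℝ E → L.EF k (a k)) :
    ∑ i ∈ range (L.step + 1), (i : ℝ) * (finrank ℝ (L.V i) : ℝ) ≤ ex a (finrank ℝ E - 1) := by
  classical
  by_contra hcon
  push Not at hcon
  obtain ⟨m, hm⟩ : ∃ m, finrank ℝ E = m + 1 := ⟨finrank ℝ E - 1, by omega⟩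
  have hm1 : 1 ≤ m := by omega
  let ob : OrthonormalBasis (Fin (m + 1)) ℝ E := (stdOrthonormalBasis ℝ E).reindex (finCongr hm)
  obtain ⟨b, wt, hmono, hb⟩ := exists_adapted' L hm
  -- the bump function
  set rI : ℝ := ∑ i, ‖b i‖ + 1 with hrI
  have hrI0 : 0 < rI := by positivity
  let bump : ContDiffBump (0 : E) := ⟨rI, rI + 1, hrI0, by linarith⟩
  set f : E → ℝ := fun x => bump x with hfdef
  have hf : ContDiff ℝ ∞ f := bump.contDiff
  have hfc : HasCompactSupport f := bump.hasCompactSupport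
  have hfbs : BS f := BS_of_compact hf.continuous hfc
  have hfpos : 0 < KE b f := by
    apply KE_pos b hfbs (fun x => bump.nonneg)
    intro x hx
    have h1 : ‖x‖ ≤ rI := by
      rw [← b.sum_repr x]
      refine (norm_sum_le _ _).trans ?_
      have h2 : ∀ i ∈ (univ : Finset (Fin (m + 1))), ‖b.repr x i • b i‖ ≤ ‖b i‖ := by
        intro i _
        rw [norm_smul, Real.norm_eq_abs, abs_of_nonneg (hx i).1]
        exact mul_le_of_le_one_left (norm_nonneg _) (hx i).2.le
      refine (sum_le_sum h2).trans ?_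
      rw [hrI]; linarith
    have h2 : f x = 1 := bump.one_of_mem_closedBall (by simpa using h1)
    exact h2.ge
  -- the weight
  have hww : BS (ww L b f) := BS_ww L hmono hb hf hfc
  obtain ⟨Cw, Rw, _, _, _, hRw⟩ := hww.nonneg_bounds
  obtain ⟨B1, hB1⟩ := bounded_inv L Rw
  obtain ⟨R, hR⟩ := bounded_mul L B1 Rw
  have hadm : ∀ g, ww L b f g ≠ 0 → L.Adm R g := by
    intro g hg
    have h1 : ‖g‖ ≤ Rw := by
      by_contra h
      exact hg (hRw g (not_le.1 h))
    intro i j
    exact hR _ _ (hB1 _ ((norm_le_pi_norm g i).trans h1)) ((norm_le_pi_norm g j).trans h1)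
  obtain ⟨C, hC, hfinal⟩ := final' L R (a := a) hm1 ob (fun k hk hk' => ha k hk (by omega))
    (fun k hk hk' => hEF k hk (by omega))
  -- the functional
  have hΛ := isFun_powF (isFun_KE b) (m + 2)
  set Λ := powF (KE b) (m + 2) with hΛdef
  set A : ℝ := Λ (fun g => nu b g * ww L b f g) with hA
  have hA0 : A ≠ 0 := by
    have h1 := main_term L hmono hb hf hfc
    rw [hA, hΛdef, h1]
    apply mul_ne_zero hfpos.ne'
    apply mul_ne_zero
    · exact_mod_cast Nat.factorial_ne_zero _
    · exact det_main L hmono hb hf hfc hfpos.ne'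
  set W : ℝ := Λ (fun g => |ww L b f g|) with hW
  have hW0 : 0 ≤ W := hΛ.nonneg _ hww.abs fun g => abs_nonneg _
  set c1 : ℝ := kap (m + 1) * ob.toBasis.det b with hc1
  have hc10 : c1 ≠ 0 := mul_ne_zero (kap_pos _).ne' (ob.toBasis.isUnit_det b).ne_zero
  set Q : ℕ := ∑ a, wt a with hQ
  have hQ' : ex a m < (Q : ℝ) := by
    have h1 := sum_wt_eq L hb
    have h2 : (Q : ℝ) = ∑ i, (wt i : ℝ) := by rw [hQ]; push_cast; rfl
    rw [h2, h1]
    have h3 : finrank ℝ E - 1 = m := by omega
    rw [h3] at hcon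
    exact hcon
  have hnuw : BS (fun g => nu b g * ww L b f g) := BS.cont_mul continuous_nu hww
  have hdet : ∀ (t : ℝ) (g : Fin (m + 2) → E), kap (m + 1) *
      ob.toBasis.det (fun j => L.dil t (g j.succ) - L.dil t (g j.castSucc)) =
      c1 * t ^ Q * nu b g := by
    intro t g
    have h1 : (fun j : Fin (m + 1) => L.dil t (g j.succ) - L.dil t (g j.castSucc)) =
        (L.dil t : E →ₗ[ℝ] E) ∘ fun j => g j.succ - g j.castSucc := by
      funext j
      simp
    rw [h1, Basis.det_comp, det_dil' L hm hb t]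
    have h2 : ob.toBasis.det (fun j : Fin (m + 1) => g j.succ - g j.castSucc) =
        ob.toBasis.det b * nu b g := by
      have := congrArg (fun F : E [⋀^Fin (m + 1)]→ₗ[ℝ] ℝ =>
        F fun j : Fin (m + 1) => g j.succ - g j.castSucc)
        (AlternatingMap.eq_smul_basis_det b ob.toBasis.det)
      exact this
    rw [h2, hc1]
    ring
  have key : ∀ t : ℝ, 1 ≤ t → |c1 * A| * t ^ ((Q : ℝ) - ex a m) ≤ C * W := by
    intro t ht
    obtain ⟨K, β, hK0, hinv, hbound, hineq⟩ := hfinal t ht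
    let β' : (Fin (m + 1) → E) → ℝ := fun u => if L.Adm R u then β u else 0
    have hβ' : Bdd β' := by
      refine ⟨K, fun u => ?_⟩
      simp only [β']
      split_ifs with h
      · exact hbound u h
      · simpa using hK0
    have hinv' : ∀ x u, β' (L.lact x u) = β' u := by
      intro x u
      simp only [β', adm_lact, hinv]
    have hpair : Λ (fun g => dS β' g * ww L b f g) = 0 :=
      dS_pairing L hmono hb hf hfc hβ' hinv'
    have hdS : ∀ g, L.Adm R g → dS β' g = dS β g := by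
      intro g hg
      apply dS_congr L _ hg
      intro u hu
      simp only [β', if_pos hu]
    have hdSbs : BS (fun g => dS β' g * ww L b f g) := by
      apply BS.bdd_mul _ hww
      obtain ⟨K', hK'⟩ := hβ'
      refine ⟨∑ _i : Fin (m + 2), K', fun g => ?_⟩
      unfold dS
      refine (abs_sum_le_sum_abs _ _).trans (sum_le_sum fun i _ => ?_)
      rw [zsmul_eq_mul, abs_mul]
      push_cast
      rw [abs_pow, abs_neg, abs_one, one_pow, one_mul]
      exact hK' _
    have h1 : |Λ ((c1 * t ^ Q) • (fun g => nu b g * ww L b f g) +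
        fun g => dS β' g * ww L b f g)| ≤ Λ ((C * t ^ (ex a m)) • fun g => |ww L b f g|) := by
      apply hΛ.abs_le ((hnuw.smul _).add hdSbs) (hww.abs.smul _)
      intro g
      simp only [Pi.add_apply, Pi.smul_apply, smul_eq_mul]
      have e1 : c1 * t ^ Q * (nu b g * ww L b f g) + dS β' g * ww L b f g =
          (c1 * t ^ Q * nu b g + dS β' g) * ww L b f g := by ring
      rw [e1, abs_mul]
      by_cases hg : ww L b f g = 0
      · rw [hg, abs_zero, mul_zero, mul_zero]
      · have h2 := hineq g (hadm g hg)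
        rw [hdet, ← hdS g (hadm g hg)] at h2
        exact mul_le_mul_of_nonneg_right h2 (abs_nonneg _)
    rw [hΛ.add _ _ (hnuw.smul _) hdSbs, hpair, add_zero, hΛ.smul _ _ hnuw,
      hΛ.smul _ _ hww.abs] at h1
    have ht0 : 0 < t := by linarith
    have h2 : |c1 * A| * t ^ Q ≤ C * W * t ^ (ex a m) := by
      have e2 : |c1 * t ^ Q * A| = |c1 * A| * t ^ Q := by
        rw [show c1 * t ^ Q * A = (c1 * A) * t ^ Q by ring, abs_mul (c1 * A) (t ^ Q),
          abs_of_pos (pow_pos ht0 Q)]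
      rw [e2] at h1
      refine h1.trans (le_of_eq ?_)
      ring
    have h3 : t ^ Q = t ^ ((Q : ℝ) - ex a m) * t ^ (ex a m) := by
      rw [← Real.rpow_add ht0, sub_add_cancel, Real.rpow_natCast]
    rw [h3, ← mul_assoc] at h2
    exact le_of_mul_le_mul_right h2 (Real.rpow_pos_of_pos ht0 _)
  have hpos : 0 < |c1 * A| := abs_pos.2 (mul_ne_zero hc10 hA0)
  have hlim := tendsto_rpow_atTop (sub_pos.2 hQ')
  obtain ⟨t, ht1, ht2⟩ := ((hlim.eventually_gt_atTop (C * W / |c1 * A|)).and
    (eventually_ge_atTop (1 : ℝ))).exists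
  have h1 := key t ht2
  rw [div_lt_iff₀ hpos] at ht1
  linarith

/-- The statement for all dimensions. -/
theorem product_ineq' {a : ℕ → ℝ}
    (ha : ∀ k, 1 ≤ k → k + 1 ≤ finrank ℝ E → 1 ≤ a k)
    (hEF : ∀ k, 1 ≤ k → k + 1 ≤ finrank ℝ E → L.EF k (a k)) :
    ∑ i ∈ range (L.step + 1), (i : ℝ) * (finrank ℝ (L.V i) : ℝ) ≤
      ∏ k ∈ Finset.Ico 1 (finrank ℝ E), a k := by
  have hex : ∏ k ∈ Finset.Ico 1 (finrank ℝ E), a k = ex a (finrank ℝ E - 1) := by
    rw [ex, Finset.prod_Ico_eq_prod_range]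
    exact prod_congr rfl fun i _ => by rw [add_comm]
  rw [hex]
  by_cases hn : 2 ≤ finrank ℝ E
  · exact product_ineq L hn ha hEF
  · have hs : L.step ≤ 1 := by
      by_contra hs
      exact hn (two_le_finrank L (by omega))
    have h0 : finrank ℝ E - 1 = 0 := by omega
    rw [h0, ex_zero]
    have h1 : ∑ i ∈ range (L.step + 1), (i : ℝ) * (finrank ℝ (L.V i) : ℝ) ≤
        ∑ i ∈ range 2, (i : ℝ) * (finrank ℝ (L.V i) : ℝ) :=
      sum_le_sum_of_subset_of_nonneg (range_mono (by omega)) fun i _ _ => by positivity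
    refine h1.trans ?_
    rw [sum_range_succ, sum_range_one]
    have h2 : finrank ℝ (L.V 1) ≤ 1 := (Submodule.finrank_le _).trans (by omega)
    have h3 : (finrank ℝ (L.V 1) : ℝ) ≤ 1 := by exact_mod_cast h2
    simpa using h3

/-- The product of the Euclidean exponents. -/
theorem prod_euclidean (n : ℕ) : ex (fun k => ((k : ℝ) + 1) / k) n = n + 1 := by
  induction n with
  | zero => simp [ex_zero]
  | succ n ih =>
    rw [ex_succ, ih]
    push_cast
    have : (n : ℝ) + 1 ≠ 0 := by positivity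
    field_simp

/-- Non-abelian groups have a super-Euclidean filling function. -/
theorem super_euclidean (hs : 2 ≤ L.step) :
    ∃ k : ℕ, 1 ≤ k ∧ k + 1 ≤ finrank ℝ E ∧ ¬ L.EF k (((k : ℝ) + 1) / k) := by
  by_contra hcon
  push Not at hcon
  have hn := two_le_finrank L hs
  have h1 := product_ineq L hn (a := fun k => ((k : ℝ) + 1) / k) (fun k hk _ => by
    have : (0 : ℝ) < k := by exact_mod_cast hk
    rw [le_div_iff₀ this]
    linarith) hcon
  rw [prod_euclidean] at h1
  obtain ⟨b, wt, -, hb⟩ := exists_adapted' L rfl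
  have h2 := card_lt_sum_wt' L rfl hs hb
  have h3 := sum_wt_eq L hb
  have h4 : ((finrank ℝ E : ℕ) : ℝ) < ∑ i, (wt i : ℝ) := by exact_mod_cast h2
  have h5 : ((finrank ℝ E - 1 : ℕ) : ℝ) + 1 = finrank ℝ E := by
    rw [Nat.cast_sub (by omega)]
    push_cast
    ring
  linarith

end Run7.h693
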