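import Pool.Agent.Run7.h693.Transfer
import Pool.Agent.Run7.h693.Main

/-!
The filling functions of an arbitrary non-abelian stratified Lie group structure on `E`.
-/

set_option linter.unusedSectionVars false
set_option linter.deprecated false

open Topology Finset MeasureTheory
open scoped ENNReal RealInnerProductSpace ContDiff

namespace Run7.h693

variable {E : Type*} [NormedAddCommGroup E] [InnerProductSpace ℝ E] [FiniteDimensional ℝ E]

/-- A group law whose Lie bracket vanishes is commutative. -/
theorem mul_comm_of_bracket_zero (L : StratLie E) (G : GroupLaw E)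
    (hGL : ∀ v w, G.bracket v w = L.group.bracket v w) (h : ∀ v w, L.br v w = 0) (x y : E) :
    G.mul x y = G.mul y x := by
  obtain ⟨ψ, hψ, h0, hD⟩ := exists_dev L G hGL
  have hbij := dev_bijective L G hψ h0 hD
  have hA : ∀ c, L.A c = 1 := by
    intro c
    apply L.clm_ext_layers
    intro i _ _ x hx
    symm
    apply L.eq_A c hx
    · rw [ContinuousLinearMap.one_apply, sub_self]
      exact Submodule.zero_mem _
    · rw [ContinuousLinearMap.one_apply, h, sub_zero, L.D_of_mem hx]
  have hmul : ∀ a b, L.mul a b = a + b := by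
    intro a b
    rw [StratLie.mul, hA]
    rfl
  apply hbij.1
  rw [dev_mul L G hψ h0 hD, dev_mul L G hψ h0 hD, hmul, hmul, add_comm]

theorem fillingBound_iff (L : StratLie E) (G : GroupLaw E)
    (hGL : ∀ v w, G.bracket v w = L.group.bracket v w) (k : ℕ) (a : ℝ) :
    G.FillingBound k a ↔ L.EF k a := by
  unfold GroupLaw.FillingBound StratLie.EF
  simp only [FV_eq_model L G hGL, L.group_FV]

theorem twist_bracket (G : GroupLaw E) (S : G.Stratification) (v w : E) :
    G.bracket v w = S.toStratLie.twist.group.bracket v w := by
  rw [← S.toStratLie_br]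
  exact (S.toStratLie.lieGroup_bracket v w).symm

/-- The homogeneous dimension is at most the product of the exponents of the filling
functions. -/
theorem group_product (G : GroupLaw E) (S : G.Stratification) {a : ℕ → ℝ}
    (ha : ∀ k, 1 ≤ k → k + 1 ≤ Module.finrank ℝ E → 1 ≤ a k ∧ G.FillingBound k (a k)) :
    S.homDim ≤ ∏ k ∈ Finset.Ico 1 (Module.finrank ℝ E), a k := by
  refine product_ineq' S.toStratLie.twist (fun k hk hk' => (ha k hk hk').1) fun k hk hk' => ?_
  exact (fillingBound_iff _ G (twist_bracket G S) k (a k)).1 (ha k hk hk').2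

theorem group_super_euclidean (G : GroupLaw E) (S : G.Stratification)
    (hG : ∃ x y, G.mul x y ≠ G.mul y x) :
    ∃ k : ℕ, 1 ≤ k ∧ k + 1 ≤ Module.finrank ℝ E ∧ G.SuperEuclidean k := by
  have hGL := twist_bracket G S
  set L := S.toStratLie with hL
  have hne : ∃ x y, L.twist.br x y ≠ 0 := by
    by_contra hcon
    push Not at hcon
    obtain ⟨x, y, hxy⟩ := hG
    exact hxy (mul_comm_of_bracket_zero L.twist G hGL hcon x y)
  obtain ⟨k, hk1, hk2, hk3⟩ := super_euclidean L.twist (L.twist.two_le_step hne)
  exact ⟨k, hk1, hk2, fun h => hk3 ((fillingBound_iff L.twist G hGL k _).1 h)⟩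

/-- Every stratified Lie algebra structure on `E` comes from a stratified group law: the class
of groups in the main theorem contains all stratified groups. -/
theorem exists_group (L : StratLie E) : ∃ (G : GroupLaw E) (S : G.Stratification),
    (∀ v w, G.bracket v w = L.br v w) ∧ S.step = L.step ∧ S.V = L.V := by
  refine ⟨L.lieGroup, ⟨L.step, L.V, L.internal, L.V_zero, L.V_high, ?_, L.last⟩,
    L.lieGroup_bracket, rfl, rfl⟩
  intro i hi
  simp only [L.lieGroup_bracket]
  exact L.gen i hi

end Run7.h693
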