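import Pool.Agent.Run7.h693.Vol

set_option linter.unusedSectionVars false
set_option linter.deprecated false

open Finset MeasureTheory Filter Topology Module
open scoped ENNReal RealInnerProductSpace

namespace Run7.h693

variable {E : Type*} [NormedAddCommGroup E] [InnerProductSpace ℝ E] [FiniteDimensional ℝ E]

variable (L : StratLie E)

/-- `A g` as a continuous linear equivalence. -/
noncomputable def StratLie.AE (g : E) : E ≃L[ℝ] E :=
  ContinuousLinearEquiv.equivOfInverse (L.A g) (L.Ai g) (L.Ai_A g) (L.A_Ai g)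

/-- The left translate of a singular simplex. -/
noncomputable def StratLie.tr {k : ℕ} (g : E) (σ : Simp E k) : Simp E k where
  toFun s := L.mul g (σ.toFun s)
  lip := by
    obtain ⟨K, hK⟩ := σ.lip
    refine ⟨‖L.A g‖₊ * K, ?_⟩
    have h1 := (L.A g).lipschitz.comp hK
    intro s t
    have h2 := h1 s t
    simp only [StratLie.mul, Function.comp_apply] at h2 ⊢
    rwa [edist_add_left]

theorem tr_face {k : ℕ} (g : E) (σ : Simp E (k + 1)) (i : Fin (k + 2)) :
    (L.tr g σ).face i = L.tr g (σ.face i) := rfl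

theorem tr_tr {k : ℕ} (g h : E) (σ : Simp E k) : L.tr g (L.tr h σ) = L.tr (L.mul g h) σ := by
  apply Simp.ext
  funext s
  exact (L.mul_assoc' g h _).symm

theorem tr_zero {k : ℕ} (σ : Simp E k) : L.tr 0 σ = σ := by
  apply Simp.ext
  funext s
  exact L.zero_mul' _

theorem fderiv_tr {k : ℕ} (g : E) (σ : Simp E k) (x : Fin k → ℝ) :
    fderiv ℝ (fun y => (L.tr g σ).toFun (chart y)) x =
      (L.A g).comp (fderiv ℝ (fun y => σ.toFun (chart y)) x) := by
  have h1 : (fun y => (L.tr g σ).toFun (chart y)) = fun y => g + (L.AE g) (σ.toFun (chart y)) :=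
    rfl
  rw [h1, fderiv_const_add]
  exact (L.AE g).comp_fderiv

theorem simpMass_tr {k : ℕ} (g : E) (σ : Simp E k) : L.simpMass (L.tr g σ) = L.simpMass σ := by
  rw [simpMass_eq, simpMass_eq]
  congr 1
  funext x
  have h1 : ∀ v : E, L.Ai ((L.tr g σ).toFun (chart x)) (L.A g v) =
      L.Ai (σ.toFun (chart x)) v := by
    intro v
    apply L.A_injective (σ.toFun (chart x))
    apply L.A_injective g
    rw [L.A_Ai, ← L.A_mul_apply]
    exact L.A_Ai _ _
  have h2 : (L.gramAt ((L.tr g σ).toFun (chart x)) fun j =>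
      fderiv ℝ (fun y => (L.tr g σ).toFun (chart y)) x (Pi.single j 1)) =
      L.gramAt (σ.toFun (chart x)) fun j =>
      fderiv ℝ (fun y => σ.toFun (chart y)) x (Pi.single j 1) := by
    unfold StratLie.gramAt
    ext i j
    simp only [Matrix.of_apply, fderiv_tr]
    rw [ContinuousLinearMap.comp_apply, ContinuousLinearMap.comp_apply, h1, h1]
  rw [h2]

theorem volC_tr {m : ℕ} (b : Basis (Fin (m + 1)) ℝ E) (g : E) (σ : Simp E (m + 1)) :
    volC b (L.tr g σ) = volC b σ := by
  unfold volC
  congr 1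
  funext p
  rw [fderiv_tr]
  have := Basis.det_comp b (L.A g : E →ₗ[ℝ] E)
    (fun j => fderiv ℝ (fun x => σ.1 (chart x)) p (Pi.single j 1))
  rw [L.det_A, one_mul] at this
  exact this

/-! ### Mass of chains -/

theorem mass_eq_sum {k : ℕ} (a : Chain E k) {s : Finset (Simp E k)} (h : a.support ⊆ s) :
    L.mass a = ∑ σ ∈ s, ((a σ).natAbs : ℝ≥0∞) * L.simpMass σ := by
  unfold StratLie.mass
  apply sum_subset h
  intro σ _ hσ
  rw [Finsupp.notMem_support_iff.1 hσ]
  simp

theorem mass_zero {k : ℕ} : L.mass (0 : Chain E k) = 0 := by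
  simp [StratLie.mass]

theorem mass_add_le {k : ℕ} (a b : Chain E k) : L.mass (a + b) ≤ L.mass a + L.mass b := by
  classical
  have h1 : (a + b).support ⊆ a.support ∪ b.support := Finsupp.support_add
  rw [mass_eq_sum L (a + b) h1, mass_eq_sum L a subset_union_left,
    mass_eq_sum L b subset_union_right, ← sum_add_distrib]
  refine sum_le_sum fun σ _ => ?_
  rw [← add_mul]
  gcongr
  rw [Finsupp.add_apply]
  exact_mod_cast Int.natAbs_add_le (a σ) (b σ)

theorem mass_zsmul {k : ℕ} (c : ℤ) (a : Chain E k) :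
    L.mass (c • a) = (c.natAbs : ℝ≥0∞) * L.mass a := by
  have h1 : (c • a).support ⊆ a.support := Finsupp.support_smul
  rw [mass_eq_sum L _ h1]
  unfold StratLie.mass
  rw [mul_sum]
  refine sum_congr rfl fun σ _ => ?_
  rw [Finsupp.smul_apply, smul_eq_mul, Int.natAbs_mul]
  push_cast
  ring

theorem mass_neg {k : ℕ} (a : Chain E k) : L.mass (-a) = L.mass a := by
  have := mass_zsmul L (-1) a
  simpa using this

theorem mass_sub_le {k : ℕ} (a b : Chain E k) : L.mass (a - b) ≤ L.mass a + L.mass b := by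
  rw [sub_eq_add_neg, ← mass_neg L b]
  exact mass_add_le L _ _

theorem mass_sum_le {k : ℕ} {ι : Type*} (s : Finset ι) (f : ι → Chain E k) :
    L.mass (∑ i ∈ s, f i) ≤ ∑ i ∈ s, L.mass (f i) := by
  classical
  induction s using Finset.induction_on with
  | empty => simp [mass_zero]
  | insert i s hi ih =>
    rw [sum_insert hi, sum_insert hi]
    exact (mass_add_le L _ _).trans (by gcongr)

theorem mass_neg_one_pow {k : ℕ} (n : ℕ) (a : Chain E k) : L.mass ((-1 : ℤ) ^ n • a) = L.mass a := by
  rw [mass_zsmul]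
  have : ((-1 : ℤ) ^ n).natAbs = 1 := by
    rw [Int.natAbs_pow]; simp
  rw [this]
  simp

theorem mass_single {k : ℕ} (σ : Simp E k) : L.mass (Finsupp.single σ 1) = L.simpMass σ := by
  rw [mass_eq_sum L _ Finsupp.support_single_subset]
  simp

/-- Left translation of chains. -/
noncomputable def StratLie.Tr {k : ℕ} (g : E) : Chain E k →ₗ[ℤ] Chain E k :=
  Finsupp.linearCombination ℤ fun σ => Finsupp.single (L.tr g σ) (1 : ℤ)

theorem Tr_single {k : ℕ} (g : E) (σ : Simp E k) :
    L.Tr g (Finsupp.single σ 1) = Finsupp.single (L.tr g σ) 1 := by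
  simp [StratLie.Tr]

theorem boundary_single {k : ℕ} (σ : Simp E (k + 1)) : boundary (Finsupp.single σ 1) =
    ∑ i : Fin (k + 2), (-1 : ℤ) ^ (i : ℕ) • Finsupp.single (σ.face i) (1 : ℤ) := by
  simp [boundary]

theorem chain_hom_ext {k : ℕ} {M : Type*} [AddCommGroup M] {f g : Chain E k →ₗ[ℤ] M}
    (h : ∀ σ, f (Finsupp.single σ 1) = g (Finsupp.single σ 1)) : f = g := by
  apply Finsupp.lhom_ext'
  intro σ
  apply LinearMap.ext_ring
  exact h σ

theorem boundary_Tr {k : ℕ} (g : E) (a : Chain E (k + 1)) :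
    boundary (L.Tr g a) = L.Tr g (boundary a) := by
  have h : (boundary : Chain E (k + 1) →ₗ[ℤ] Chain E k) ∘ₗ L.Tr g = L.Tr g ∘ₗ boundary := by
    apply chain_hom_ext
    intro σ
    simp only [LinearMap.comp_apply, Tr_single, boundary_single, map_sum, map_smul, tr_face]
  exact congrArg (fun f => f a) h

theorem Tr_Tr {k : ℕ} (g h : E) (a : Chain E k) : L.Tr g (L.Tr h a) = L.Tr (L.mul g h) a := by
  have e : (L.Tr g : Chain E k →ₗ[ℤ] Chain E k) ∘ₗ L.Tr h = L.Tr (L.mul g h) := by
    apply chain_hom_ext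
    intro σ
    simp only [LinearMap.comp_apply, Tr_single, tr_tr]
  exact congrArg (fun f => f a) e

theorem Tr_zero {k : ℕ} (a : Chain E k) : L.Tr 0 a = a := by
  have e : (L.Tr 0 : Chain E k →ₗ[ℤ] Chain E k) = LinearMap.id := by
    apply chain_hom_ext
    intro σ
    simp only [Tr_single, tr_zero, LinearMap.id_apply]
  rw [e]; rfl

theorem mass_Tr_le {k : ℕ} (g : E) (a : Chain E k) : L.mass (L.Tr g a) ≤ L.mass a := by
  have h1 : L.Tr g a = ∑ σ ∈ a.support, a σ • Finsupp.single (L.tr g σ) (1 : ℤ) := by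
    simp [StratLie.Tr, Finsupp.linearCombination_apply, Finsupp.sum]
  rw [h1]
  refine (mass_sum_le L _ _).trans ?_
  unfold StratLie.mass
  refine sum_le_sum fun σ _ => ?_
  have := mass_zsmul L (a σ) (Finsupp.single (L.tr g σ) 1)
  rw [mass_single, simpMass_tr] at this
  exact this.le

theorem VolC_Tr {m : ℕ} (b : Basis (Fin (m + 1)) ℝ E) (g : E) (a : Chain E (m + 1)) :
    VolC b (L.Tr g a) = VolC b a := by
  have e : VolC b ∘ₗ L.Tr g = VolC b := by
    apply chain_hom_ext
    intro σ
    simp only [LinearMap.comp_apply, Tr_single, VolC, Finsupp.linearCombination_single, one_smul,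
      volC_tr]
  exact congrArg (fun f => f a) e

theorem abs_VolC_le {m : ℕ} (ob : OrthonormalBasis (Fin (m + 1)) ℝ E) (a : Chain E (m + 1)) :
    ENNReal.ofReal |VolC ob.toBasis a| ≤ L.mass a := by
  have h1 : VolC ob.toBasis a = ∑ σ ∈ a.support, a σ • volC ob.toBasis σ := by
    simp [VolC, Finsupp.linearCombination_apply, Finsupp.sum]
  rw [h1]
  refine (ENNReal.ofReal_le_ofReal (abs_sum_le_sum_abs _ _)).trans ?_
  rw [ENNReal.ofReal_sum_of_nonneg (fun _ _ => abs_nonneg _)]
  unfold StratLie.mass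
  refine sum_le_sum fun σ _ => ?_
  rw [zsmul_eq_mul, abs_mul, ENNReal.ofReal_mul (abs_nonneg _)]
  gcongr
  · rw [← Int.cast_abs, Int.abs_eq_natAbs]
    simp
  · exact abs_volC_le L ob σ

/-! ### Affine simplices -/

/-- The affine simplex with vertices `p`. -/
noncomputable def aff {k : ℕ} (p : Fin (k + 1) → E) : Simp E k where
  toFun s := ∑ j, s j • p j
  lip := by
    let T : (Fin (k + 1) → ℝ) →L[ℝ] E :=
      ∑ j, (ContinuousLinearMap.proj (R := ℝ) (φ := fun _ : Fin (k + 1) => ℝ) j).smulRight (p j)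
    refine ⟨‖T‖₊, ?_⟩
    intro s t
    have h := T.lipschitz s.1 t.1
    have e : ∀ u : stdSimplex ℝ (Fin (k + 1)), T u.1 = ∑ j, u j • p j := by
      intro u
      simp only [T, ContinuousLinearMap.sum_apply, ContinuousLinearMap.smulRight_apply,
        ContinuousLinearMap.proj_apply]
      rfl
    rw [e, e] at h
    exact h

theorem aff_apply {k : ℕ} (p : Fin (k + 1) → E) (s : stdSimplex ℝ (Fin (k + 1))) :
    (aff p).toFun s = ∑ j, s j • p j := rfl

theorem aff_face {k : ℕ} (p : Fin (k + 2) → E) (i : Fin (k + 2)) :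
    (aff p).face i = aff (p ∘ i.succAbove) := by
  apply Simp.ext
  funext s
  change ∑ j, (stdSimplex.map (S := ℝ) i.succAbove s) j • p j = ∑ j, s j • p (i.succAbove j)
  rw [Fin.sum_univ_succAbove _ i, map_succAbove_self, zero_smul, zero_add]
  refine sum_congr rfl fun q _ => ?_
  rw [map_succAbove_succAbove]

theorem tr_aff {k : ℕ} (g : E) (p : Fin (k + 1) → E) :
    L.tr g (aff p) = aff fun j => L.mul g (p j) := by
  apply Simp.ext
  funext s
  change g + L.A g (∑ j, s j • p j) = ∑ j, s j • (g + L.A g (p j))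
  simp only [smul_add, sum_add_distrib, ← sum_smul, stdSimplex.sum_eq_one, one_smul, map_sum,
    map_smul]

/-- The chain of an affine simplex. -/
noncomputable def affC {k : ℕ} (p : Fin (k + 1) → E) : Chain E k := Finsupp.single (aff p) 1

theorem boundary_affC {k : ℕ} (p : Fin (k + 2) → E) : boundary (affC p) =
    ∑ i : Fin (k + 2), (-1 : ℤ) ^ (i : ℕ) • affC (p ∘ i.succAbove) := by
  simp only [affC, boundary_single, aff_face]

theorem Tr_affC {k : ℕ} (g : E) (p : Fin (k + 1) → E) :
    L.Tr g (affC p) = affC fun j => L.mul g (p j) := by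
  rw [affC, Tr_single, tr_aff, affC]

theorem aff_chart {k : ℕ} (p : Fin (k + 1) → E) {x : Fin k → ℝ} (hx : x ∈ ordSimplex k) :
    (aff p).toFun (chart x) = p 0 + ∑ j : Fin k, x j • (p j.succ - p j.castSucc) := by
  change ∑ j, bary x j • p j = _
  have hc : ∀ j : Fin k, cumE x ((j : ℕ) + 1) = x j := by
    intro j
    rw [cumE, if_pos (by have := j.2; omega)]
    exact cum_of_mem hx j
  simp only [bary, sub_smul, sum_sub_distrib]
  rw [Fin.sum_univ_succ, Fin.sum_univ_castSucc (fun j : Fin (k + 1) => cumE x (↑j + 1) • p j)]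
  simp only [Fin.val_zero, cumE_zero, one_smul, Fin.val_succ, hc, Fin.val_castSucc, Fin.val_last]
  have h1 : cumE x (k + 1) = 0 := by rw [cumE, if_neg (by omega)]
  rw [h1, zero_smul, add_zero]
  simp only [smul_sub, sum_sub_distrib]
  abel

theorem fderiv_aff {k : ℕ} (p : Fin (k + 1) → E) {x : Fin k → ℝ} (hx : x ∈ ordInt k)
    (j : Fin k) : fderiv ℝ (fun y => (aff p).toFun (chart y)) x (Pi.single j 1) =
      p j.succ - p j.castSucc := by
  have h1 : (fun y => (aff p).toFun (chart y)) =ᶠ[𝓝 x]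
      fun y => p 0 + ∑ j : Fin k, y j • (p j.succ - p j.castSucc) := by
    filter_upwards [(isOpen_ordInt k).mem_nhds hx] with y hy
    exact aff_chart p (ordInt_subset k hy)
  rw [h1.fderiv_eq, fderiv_const_add]
  let T : (Fin k → ℝ) →L[ℝ] E :=
    ∑ j : Fin k, (ContinuousLinearMap.proj (R := ℝ) (φ := fun _ : Fin k => ℝ) j).smulRight
      (p j.succ - p j.castSucc)
  have h2 : (fun y : Fin k → ℝ => ∑ j : Fin k, y j • (p j.succ - p j.castSucc)) = T := by
    funext y
    simp [T]
  rw [h2, T.fderiv]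
  simp only [T, ContinuousLinearMap.sum_apply, ContinuousLinearMap.smulRight_apply,
    ContinuousLinearMap.proj_apply]
  rw [sum_eq_single j]
  · simp
  · intro l _ hl
    rw [Pi.single_eq_of_ne hl, zero_smul]
  · intro h; exact absurd (mem_univ _) h

theorem ordInt_nonempty (k : ℕ) : (ordInt k).Nonempty := by
  refine ⟨fun i => ((k : ℝ) - (i : ℕ)) / ((k : ℝ) + 1), ?_, ?_⟩
  · intro i j hij
    have h : ((i : ℕ) : ℝ) < ((j : ℕ) : ℝ) := by exact_mod_cast hij
    simp only
    rw [div_lt_div_iff_of_pos_right (by positivity)]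
    linarith
  · intro i
    have h : ((i : ℕ) : ℝ) < (k : ℝ) := by exact_mod_cast i.2
    have h0 : (0 : ℝ) ≤ ((i : ℕ) : ℝ) := Nat.cast_nonneg _
    have hp : (0 : ℝ) < (k : ℝ) + 1 := by positivity
    constructor
    · exact div_pos (by linarith) hp
    · rw [div_lt_one hp]; linarith

theorem volume_ordInt_le (k : ℕ) : volume (ordInt k) ≤ 1 := by
  refine (measure_mono (ordInt_subset_cube k)).trans ?_
  rw [Grid.cube, Real.volume_pi_Ico]
  simp

/-- The volume of the order simplex. -/
noncomputable def kap (k : ℕ) : ℝ := (volume (ordInt k)).toReal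

theorem kap_pos (k : ℕ) : 0 < kap k := by
  rw [kap, ENNReal.toReal_pos_iff]
  exact ⟨(isOpen_ordInt k).measure_pos volume (ordInt_nonempty k),
    lt_of_le_of_lt (volume_ordInt_le k) ENNReal.one_lt_top⟩

theorem volC_aff {m : ℕ} (b : Basis (Fin (m + 1)) ℝ E) (p : Fin (m + 2) → E) :
    volC b (aff p) = kap (m + 1) * b.det fun j => p j.succ - p j.castSucc := by
  rw [volC_eq]
  have h1 : Set.EqOn (fun x : Fin (m + 1) → ℝ => b.det fun j =>
      fderiv ℝ (fun x => (aff p).1 (chart x)) x (Pi.single j 1))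
      (fun _ => b.det fun j : Fin (m + 1) => p j.succ - p j.castSucc) (ordInt (m + 1)) := by
    intro x hx
    simp only [fderiv_aff p hx]
  rw [setIntegral_congr_fun (isOpen_ordInt _).measurableSet h1, setIntegral_const, smul_eq_mul]
  rfl

theorem VolC_affC {m : ℕ} (b : Basis (Fin (m + 1)) ℝ E) (p : Fin (m + 2) → E) :
    VolC b (affC p) = kap (m + 1) * b.det fun j => p j.succ - p j.castSucc := by
  rw [VolC, affC, Finsupp.linearCombination_single, one_smul, volC_aff]

theorem norm_aff_le {k : ℕ} {p : Fin (k + 1) → E} {R : ℝ} (hp : ∀ j, ‖p j‖ ≤ R)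
    (s : stdSimplex ℝ (Fin (k + 1))) : ‖(aff p).toFun s‖ ≤ R := by
  rw [aff_apply]
  refine (norm_sum_le _ _).trans ?_
  calc ∑ j, ‖s j • p j‖ ≤ ∑ j, s j * R := by
        refine sum_le_sum fun j _ => ?_
        rw [norm_smul, Real.norm_eq_abs, abs_of_nonneg (stdSimplex.zero_le s j)]
        exact mul_le_mul_of_nonneg_left (hp j) (stdSimplex.zero_le s j)
    _ = R := by rw [← sum_mul, stdSimplex.sum_eq_one, one_mul]

theorem simpMass_aff_le (k : ℕ) (R : ℝ) : ∃ C : ℝ, ∀ p : Fin (k + 1) → E, (∀ j, ‖p j‖ ≤ R) →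
    L.simpMass (aff p) ≤ ENNReal.ofReal C := by
  have hcomp : IsCompact (Metric.closedBall (0 : E) R) := isCompact_closedBall 0 R
  obtain ⟨M, hM⟩ := hcomp.exists_bound_of_continuousOn
    (f := fun g => L.Ai g) L.continuous_Ai.continuousOn
  have hM' : ∀ g : E, ‖g‖ ≤ R → ‖L.Ai g‖ ≤ M := fun g hg => hM g (by simpa using hg)
  refine ⟨Real.sqrt (Nat.factorial k * ((M * (2 * R)) ^ 2) ^ k), fun p hp => ?_⟩
  rw [simpMass_eq]
  have hR : 0 ≤ R := (norm_nonneg _).trans (hp 0)
  have hM0 : 0 ≤ M := (norm_nonneg _).trans (hM' 0 (by simpa using hR))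
  calc _ ≤ ∫⁻ _x in ordInt k, ENNReal.ofReal
        (Real.sqrt (Nat.factorial k * ((M * (2 * R)) ^ 2) ^ k)) := by
        apply setLIntegral_mono' (isOpen_ordInt k).measurableSet
        intro x hx
        apply ENNReal.ofReal_le_ofReal
        apply Real.sqrt_le_sqrt
        have h1 := Matrix.det_le (A := L.gramAt ((aff p).toFun (chart x)) fun j =>
          fderiv ℝ (fun y => (aff p).toFun (chart y)) x (Pi.single j 1))
          (abv := AbsoluteValue.abs) (x := (M * (2 * R)) ^ 2) ?_
        · rw [Fintype.card_fin, nsmul_eq_mul] at h1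
          exact (le_abs_self _).trans h1
        · intro i j
          simp only [StratLie.gramAt, Matrix.of_apply, fderiv_aff p hx]
          have h2 : ∀ i : Fin k, ‖L.Ai ((aff p).toFun (chart x)) (p i.succ - p i.castSucc)‖ ≤
              M * (2 * R) := by
            intro i
            refine (ContinuousLinearMap.le_opNorm _ _).trans ?_
            apply mul_le_mul (hM' _ (norm_aff_le hp _)) _ (norm_nonneg _) hM0
            refine (norm_sub_le _ _).trans ?_
            linarith [hp i.succ, hp i.castSucc]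
          refine (abs_real_inner_le_norm _ _).trans ?_
          rw [sq]
          exact mul_le_mul (h2 i) (h2 j) (norm_nonneg _) (by positivity)
    _ ≤ _ := by
        rw [setLIntegral_const]
        calc _ ≤ ENNReal.ofReal (Real.sqrt (Nat.factorial k * ((M * (2 * R)) ^ 2) ^ k)) * 1 := by
              gcongr
              exact volume_ordInt_le k
          _ = _ := mul_one _

/-- The mass of a horizontal segment. -/
theorem simpMass_horizontal {X : E} (hX : X ∈ L.V 1) :
    L.simpMass (aff ![0, X]) ≤ ENNReal.ofReal ‖X‖ := by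
  rw [simpMass_eq]
  calc _ ≤ ∫⁻ _x in ordInt 1, ENNReal.ofReal ‖X‖ := by
        apply setLIntegral_mono' (isOpen_ordInt 1).measurableSet
        intro x hx
        apply ENNReal.ofReal_le_ofReal
        have h1 : (aff ![0, X]).toFun (chart x) = x 0 • X := by
          rw [aff_chart _ (ordInt_subset 1 hx)]
          simp
        rw [Matrix.det_fin_one]
        simp only [StratLie.gramAt, Matrix.of_apply, fderiv_aff _ hx, h1]
        have h2 : L.Ai (x 0 • X) (![0, X] (0 : Fin 1).succ - ![0, X] (0 : Fin 1).castSucc) = X := by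
          apply L.A_injective (x 0 • X)
          rw [L.A_Ai, L.A_smul_self hX]
          simp
        rw [h2, real_inner_self_eq_norm_sq, Real.sqrt_sq (norm_nonneg _)]
    _ ≤ _ := by
        rw [setLIntegral_const]
        calc _ ≤ ENNReal.ofReal ‖X‖ * 1 := by
              gcongr
              exact volume_ordInt_le 1
          _ = _ := mul_one _

end Run7.h693
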