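import Mathlib

/-!
Stratified Lie algebras on Euclidean spaces and the simply connected group with that Lie algebra,
realised on the vector space itself by a simply transitive affine action.
-/

set_option linter.unusedSectionVars false
set_option linter.deprecated false

namespace Run7.h693

/-- A stratified nilpotent Lie algebra whose underlying vector space is the Euclidean space `E`:
`br` is the Lie bracket, `V 1, ..., V step` are the layers. -/
structure StratLie (E : Type*) [NormedAddCommGroup E] [InnerProductSpace ℝ E] where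
  /-- the Lie bracket -/
  br : E →L[ℝ] E →L[ℝ] E
  br_self : ∀ x, br x x = 0
  jacobi : ∀ x y z, br x (br y z) + br y (br z x) + br z (br x y) = 0
  /-- the number of layers -/
  step : ℕ
  /-- the layers `V 1, ..., V step` (all other `V i` are zero) -/
  V : ℕ → Submodule ℝ E
  internal : DirectSum.IsInternal V
  V_zero : V 0 = ⊥
  V_high : ∀ i, step < i → V i = ⊥
  gen : ∀ i, 1 ≤ i → Submodule.span ℝ {z | ∃ x ∈ V 1, ∃ y ∈ V i, z = br x y} = V (i + 1)
  last : V step ≠ ⊥

variable {E : Type*} [NormedAddCommGroup E] [InnerProductSpace ℝ E] [FiniteDimensional ℝ E]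

namespace StratLie

variable (L : StratLie E)

/-- The projection of `E = V 1 ⊕ ... ⊕ V step` to the layer `V i`. -/
noncomputable def proj (i : ℕ) : E →L[ℝ] E :=
  LinearMap.toContinuousLinearMap
    ((L.V i).subtype ∘ₗ DirectSum.component ℝ ℕ (fun j => L.V j) i ∘ₗ
      (LinearEquiv.ofBijective (DirectSum.coeLinearMap L.V) L.internal).symm.toLinearMap)

/-- The degree derivation: multiplication by `i` on `V i`. -/
noncomputable def D : E →L[ℝ] E := ∑ i ∈ Finset.range (L.step + 1), (i : ℝ) • L.proj i

/-- The inverse of `D - i` on the sum of the layers `V j`, `j > i`. -/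
noncomputable def res (i : ℕ) : E →L[ℝ] E :=
  ∑ j ∈ Finset.Ioc i L.step, ((j : ℝ) - (i : ℝ))⁻¹ • L.proj j

/-- The linear part `A c` of the left translation by `c`. It is the unique linear map with
`(D - ad c) ∘ A c = A c ∘ D` which is the identity modulo higher layers on each layer. -/
noncomputable def A (c : E) : E →L[ℝ] E :=
  ∑ i ∈ Finset.range (L.step + 1), ∑ m ∈ Finset.range (L.step + 1),
    (L.res i * L.br c) ^ m * L.proj i

/-- The group law. -/
noncomputable def mul (x y : E) : E := x + L.A x y

/-- The group inverse. -/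
noncomputable def inv (x : E) : E := -(Ring.inverse (L.A x) x)

theorem proj_apply (i : ℕ) (x : E) : L.proj i x =
    (((LinearEquiv.ofBijective (DirectSum.coeLinearMap L.V) L.internal).symm x i : L.V i) : E) :=
  rfl

theorem proj_mem (i : ℕ) (x : E) : L.proj i x ∈ L.V i := by
  rw [proj_apply]
  exact Submodule.coe_mem _

theorem proj_of_mem {i : ℕ} {x : E} (hx : x ∈ L.V i) : L.proj i x = x := by
  rw [proj_apply, L.internal.ofBijective_coeLinearMap_of_mem hx]

theorem proj_of_mem_ne {i j : ℕ} {x : E} (hx : x ∈ L.V j) (h : j ≠ i) : L.proj i x = 0 := by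
  rw [proj_apply, L.internal.ofBijective_coeLinearMap_of_mem_ne h hx]
  rfl

theorem layer_induction {P : E → Prop} (h0 : P 0) (hadd : ∀ x y, P x → P y → P (x + y))
    (hV : ∀ i, 1 ≤ i → i ≤ L.step → ∀ x ∈ L.V i, P x) (x : E) : P x := by
  have hx : x ∈ ⨆ i, L.V i := by rw [L.internal.submodule_iSup_eq_top]; trivial
  refine Submodule.iSup_induction L.V (motive := P) hx ?_ h0 hadd
  intro i y hy
  rcases Nat.eq_zero_or_pos i with rfl | hi
  · rw [L.V_zero, Submodule.mem_bot] at hy
    rw [hy]; exact h0
  · rcases Nat.lt_or_ge L.step i with h | h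
    · rw [L.V_high i h, Submodule.mem_bot] at hy
      rw [hy]; exact h0
    · exact hV i hi h y hy

theorem sum_proj (x : E) : ∑ i ∈ Finset.range (L.step + 1), L.proj i x = x := by
  induction x using L.layer_induction with
  | h0 => simp
  | hadd x y hx hy => simp only [map_add, Finset.sum_add_distrib, hx, hy]
  | hV i hi his x hx =>
    rw [Finset.sum_eq_single i]
    · exact L.proj_of_mem hx
    · intro j _ hj
      exact L.proj_of_mem_ne hx (Ne.symm hj)
    · intro h
      exact absurd (Finset.mem_range.2 (by omega)) h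

theorem proj_proj_self (i : ℕ) (x : E) : L.proj i (L.proj i x) = L.proj i x :=
  L.proj_of_mem (L.proj_mem i x)

theorem proj_proj_ne {i j : ℕ} (h : i ≠ j) (x : E) : L.proj i (L.proj j x) = 0 :=
  L.proj_of_mem_ne (L.proj_mem j x) h.symm

theorem proj_zero_layer (x : E) : L.proj 0 x = 0 := by
  have := L.proj_mem 0 x
  rwa [L.V_zero, Submodule.mem_bot] at this

theorem proj_high {i : ℕ} (hi : L.step < i) (x : E) : L.proj i x = 0 := by
  have := L.proj_mem i x
  rwa [L.V_high i hi, Submodule.mem_bot] at this

theorem eq_zero_of_proj {x : E} (h : ∀ i, L.proj i x = 0) : x = 0 := by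
  rw [← L.sum_proj x]
  exact Finset.sum_eq_zero fun i _ => h i

theorem ext_proj {x y : E} (h : ∀ i, L.proj i x = L.proj i y) : x = y := by
  rw [← sub_eq_zero]
  exact L.eq_zero_of_proj fun i => by rw [map_sub, h i, sub_self]

/-- Two linear maps agreeing on the layers agree. -/
theorem clm_ext_layers {f g : E →L[ℝ] E}
    (h : ∀ i, 1 ≤ i → i ≤ L.step → ∀ x ∈ L.V i, f x = g x) : f = g := by
  ext x
  refine L.layer_induction (P := fun x => f x = g x) (by simp)
    (fun x y hx hy => by simp [hx, hy]) (fun i hi his x hx => h i hi his x hx) x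

theorem br_swap (x y : E) : L.br x y = - L.br y x := by
  have h := L.br_self (x + y)
  simp only [map_add, ContinuousLinearMap.add_apply, L.br_self, zero_add, add_zero] at h
  exact eq_neg_of_add_eq_zero_right h

theorem jacobi' (x y z : E) : L.br x (L.br y z) = L.br (L.br x y) z + L.br y (L.br x z) := by
  have h := L.jacobi x y z
  rw [L.br_swap z x, L.br_swap z (L.br x y)] at h
  simp only [map_neg] at h
  rw [← sub_eq_zero]
  rw [← h]
  abel

theorem br_mem {i j : ℕ} {x y : E} (hx : x ∈ L.V i) (hy : y ∈ L.V j) : L.br x y ∈ L.V (i + j) := by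
  induction i generalizing x j y with
  | zero =>
    rw [L.V_zero, Submodule.mem_bot] at hx
    simp [hx]
  | succ i ih =>
    rcases Nat.eq_zero_or_pos j with rfl | hj
    · rw [L.V_zero, Submodule.mem_bot] at hy
      simp [hy]
    · rcases Nat.eq_zero_or_pos i with rfl | hi
      · have : L.br x y ∈ L.V (j + 1) := by
          rw [← L.gen j hj]
          exact Submodule.subset_span ⟨x, hx, y, hy, rfl⟩
        have e : 0 + 1 + j = j + 1 := by omega
        rw [e]; exact this
      · rw [← L.gen i hi] at hx
        refine Submodule.span_induction (p := fun x _ => L.br x y ∈ L.V (i + 1 + j))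
          ?_ ?_ ?_ ?_ hx
        · rintro _ ⟨a, ha, b, hb, rfl⟩
          have h1 : L.br a (L.br b y) ∈ L.V (i + 1 + j) := by
            have h2 : L.br b y ∈ L.V (i + j) := ih hb hy
            have : L.br a (L.br b y) ∈ L.V (i + j + 1) := by
              rw [← L.gen (i + j) (by omega)]
              exact Submodule.subset_span ⟨a, ha, _, h2, rfl⟩
            have e : i + 1 + j = i + j + 1 := by omega
            rw [e]; exact this
          have h2 : L.br b (L.br a y) ∈ L.V (i + 1 + j) := by
            have h3 : L.br a y ∈ L.V (j + 1) := by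
              rw [← L.gen j hj]
              exact Submodule.subset_span ⟨a, ha, y, hy, rfl⟩
            have := ih hb h3
            have e : i + 1 + j = i + (j + 1) := by omega
            rw [e]; exact this
          have h3 : L.br (L.br a b) y = L.br a (L.br b y) - L.br b (L.br a y) := by
            rw [L.jacobi' a b y]; abel
          rw [h3]
          exact Submodule.sub_mem _ h1 h2
        · simp
        · intro a b _ _ ha hb
          simp only [map_add, ContinuousLinearMap.add_apply]
          exact Submodule.add_mem _ ha hb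
        · intro r a _ ha
          simp only [map_smul, ContinuousLinearMap.smul_apply]
          exact Submodule.smul_mem _ _ ha

/-- The filtration by `V i ⊕ V (i+1) ⊕ ...`. -/
def F (i : ℕ) : Submodule ℝ E where
  carrier := {x | ∀ j < i, L.proj j x = 0}
  add_mem' := fun {x y} hx hy j hj => by rw [map_add, hx j hj, hy j hj, add_zero]
  zero_mem' := fun j _ => map_zero _
  smul_mem' := fun r x hx j hj => by rw [map_smul, hx j hj, smul_zero]

theorem mem_F {i : ℕ} {x : E} : x ∈ L.F i ↔ ∀ j < i, L.proj j x = 0 := Iff.rfl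

theorem F_antitone {i j : ℕ} (h : i ≤ j) : L.F j ≤ L.F i :=
  fun _ hx k hk => hx k (lt_of_lt_of_le hk h)

theorem V_le_F {i j : ℕ} (h : i ≤ j) : L.V j ≤ L.F i :=
  fun _ hx k hk => L.proj_of_mem_ne hx (by omega)

theorem mem_F_one (x : E) : x ∈ L.F 1 := by
  intro j hj
  have : j = 0 := by omega
  rw [this]
  exact L.proj_zero_layer x

theorem mem_F_zero (x : E) : x ∈ L.F 0 := fun j hj => absurd hj (by omega)

theorem F_high {i : ℕ} (hi : L.step < i) {x : E} (hx : x ∈ L.F i) : x = 0 := by
  apply L.eq_zero_of_proj
  intro j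
  rcases Nat.lt_or_ge j i with h | h
  · exact hx j h
  · exact L.proj_high (by omega) x

theorem mem_F_succ {i : ℕ} {x : E} (hx : x ∈ L.F i) (h : L.proj i x = 0) : x ∈ L.F (i + 1) := by
  intro j hj
  rcases Nat.lt_or_ge j i with h' | h'
  · exact hx j h'
  · have : j = i := by omega
    rw [this]; exact h

theorem sub_proj_mem {i : ℕ} {x : E} (hx : x ∈ L.F i) : x - L.proj i x ∈ L.F (i + 1) := by
  apply L.mem_F_succ
  · exact Submodule.sub_mem _ hx (L.V_le_F le_rfl (L.proj_mem i x))
  · rw [map_sub, L.proj_proj_self, sub_self]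

theorem proj_br (l : ℕ) (x y : E) : L.proj l (L.br x y) =
    ∑ a ∈ Finset.range (L.step + 1), ∑ b ∈ Finset.range (L.step + 1),
      if a + b = l then L.br (L.proj a x) (L.proj b y) else 0 := by
  conv_lhs => rw [← L.sum_proj x, ← L.sum_proj y]
  simp only [map_sum, ContinuousLinearMap.sum_apply]
  rw [Finset.sum_comm]
  refine Finset.sum_congr rfl fun a _ => Finset.sum_congr rfl fun b _ => ?_
  have h := L.br_mem (L.proj_mem a x) (L.proj_mem b y)
  split_ifs with hab
  · rw [← hab]; exact L.proj_of_mem h
  · exact L.proj_of_mem_ne h hab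

theorem br_mem_F {i j : ℕ} {x y : E} (hx : x ∈ L.F i) (hy : y ∈ L.F j) :
    L.br x y ∈ L.F (i + j) := by
  intro l hl
  rw [L.proj_br]
  refine Finset.sum_eq_zero fun a _ => Finset.sum_eq_zero fun b _ => ?_
  split_ifs with hab
  · rcases Nat.lt_or_ge a i with h | h
    · rw [hx a h]; simp
    · have : b < j := by omega
      rw [hy b this]; simp
  · rfl

theorem D_of_mem {i : ℕ} {x : E} (hx : x ∈ L.V i) : L.D x = (i : ℝ) • x := by
  simp only [D, ContinuousLinearMap.sum_apply, ContinuousLinearMap.smul_apply]
  rcases Nat.lt_or_ge L.step i with h | h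
  · have : x = 0 := by rwa [L.V_high i h, Submodule.mem_bot] at hx
    simp [this]
  · rw [Finset.sum_eq_single i]
    · rw [L.proj_of_mem hx]
    · intro j _ hj
      rw [L.proj_of_mem_ne hx (Ne.symm hj), smul_zero]
    · intro h'
      exact absurd (Finset.mem_range.2 (by omega)) h'

theorem D_proj (i : ℕ) (x : E) : L.D (L.proj i x) = (i : ℝ) • L.proj i x :=
  L.D_of_mem (L.proj_mem i x)

theorem proj_D (i : ℕ) (x : E) : L.proj i (L.D x) = (i : ℝ) • L.proj i x := by
  refine L.layer_induction (P := fun x => L.proj i (L.D x) = (i : ℝ) • L.proj i x)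
    (by simp) (fun x y hx hy => by simp only [map_add, hx, hy, smul_add]) ?_ x
  intro j _ _ x hx
  rw [L.D_of_mem hx, map_smul]
  by_cases h : j = i
  · rw [h]
  · rw [L.proj_of_mem_ne hx h]; simp

theorem D_br (x y : E) : L.D (L.br x y) = L.br (L.D x) y + L.br x (L.D y) := by
  refine L.layer_induction (P := fun x => L.D (L.br x y) = L.br (L.D x) y + L.br x (L.D y))
    (by simp) ?_ ?_ x
  · intro x x' hx hx'
    simp only [map_add, ContinuousLinearMap.add_apply, hx, hx']
    abel
  · intro i _ _ x hx
    refine L.layer_induction (P := fun y => L.D (L.br x y) = L.br (L.D x) y + L.br x (L.D y))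
      (by simp) ?_ ?_ y
    · intro y y' hy hy'
      simp only [map_add, hy, hy']
      abel
    · intro j _ _ y hy
      rw [L.D_of_mem (L.br_mem hx hy), L.D_of_mem hx, L.D_of_mem hy]
      simp only [map_smul, ContinuousLinearMap.smul_apply]
      rw [← add_smul]
      push_cast
      rfl

end StratLie

end Run7.h693
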