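import Pool.Agent.Run7.h693.Alg

set_option linter.unusedSectionVars false
set_option linter.deprecated false

namespace Run7.h693

variable {E : Type*} [NormedAddCommGroup E] [InnerProductSpace ℝ E] [FiniteDimensional ℝ E]

namespace StratLie

variable (L : StratLie E)

theorem proj_res (i j : ℕ) (x : E) : L.proj j (L.res i x) =
    if i < j then ((j : ℝ) - (i : ℝ))⁻¹ • L.proj j x else 0 := by
  simp only [res, ContinuousLinearMap.sum_apply, ContinuousLinearMap.smul_apply, map_sum, map_smul]
  by_cases hj : j ∈ Finset.Ioc i L.step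
  · rw [Finset.sum_eq_single j]
    · rw [L.proj_proj_self, if_pos (Finset.mem_Ioc.1 hj).1]
    · intro k _ hk
      rw [L.proj_proj_ne (Ne.symm hk), smul_zero]
    · intro h; exact absurd hj h
  · rw [Finset.sum_eq_zero]
    · split_ifs with h
      · have : L.step < j := by
          rw [Finset.mem_Ioc] at hj
          omega
        rw [L.proj_high this, smul_zero]
      · rfl
    · intro k hk
      have : k ≠ j := fun h => hj (h ▸ hk)
      rw [L.proj_proj_ne (Ne.symm this), smul_zero]

theorem res_mem_F {i j : ℕ} {x : E} (hx : x ∈ L.F j) : L.res i x ∈ L.F j := by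
  intro l hl
  rw [L.proj_res]
  split_ifs
  · rw [hx l hl, smul_zero]
  · rfl

theorem D_res {i : ℕ} {x : E} (hx : x ∈ L.F (i + 1)) :
    L.D (L.res i x) - (i : ℝ) • L.res i x = x := by
  apply L.ext_proj
  intro l
  rw [map_sub, map_smul, L.proj_D, L.proj_res, ← sub_smul]
  split_ifs with h
  · have : ((l : ℝ) - (i : ℝ)) ≠ 0 := by
      have : (i : ℝ) < (l : ℝ) := by exact_mod_cast h
      linarith
    rw [smul_smul, mul_inv_cancel₀ this, one_smul]
  · rw [smul_zero, hx l (by omega)]

/-- The partial sums defining `A`. -/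
theorem A_apply_of_mem (c : E) {i : ℕ} {x : E} (hx : x ∈ L.V i) : L.A c x =
    ∑ m ∈ Finset.range (L.step + 1), ((L.res i * L.br c) ^ m) x := by
  simp only [A, ContinuousLinearMap.sum_apply, ContinuousLinearMap.mul_apply]
  rcases Nat.lt_or_ge L.step i with h | h
  · have : x = 0 := by rwa [L.V_high i h, Submodule.mem_bot] at hx
    simp only [this, map_zero, Finset.sum_const_zero]
  · rw [Finset.sum_eq_single i]
    · rw [L.proj_of_mem hx]
    · intro j _ hj
      rw [L.proj_of_mem_ne hx (Ne.symm hj)]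
      simp only [map_zero, Finset.sum_const_zero]
    · intro h'
      exact absurd (Finset.mem_range.2 (by omega)) h'

theorem pow_mem_F (c : E) (i m : ℕ) {j : ℕ} {x : E} (hx : x ∈ L.F j) :
    ((L.res i * L.br c) ^ m) x ∈ L.F (j + m) := by
  induction m with
  | zero => simpa using hx
  | succ m ih =>
    rw [pow_succ']
    have h : L.br c (((L.res i * L.br c) ^ m) x) ∈ L.F (1 + (j + m)) :=
      L.br_mem_F (L.mem_F_one c) ih
    have e : j + (m + 1) = 1 + (j + m) := by omega
    rw [e]
    exact L.res_mem_F h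

theorem A_sub_mem (c : E) {i : ℕ} {x : E} (hx : x ∈ L.V i) : L.A c x - x ∈ L.F (i + 1) := by
  rw [L.A_apply_of_mem c hx, Finset.sum_range_succ', pow_zero, ContinuousLinearMap.one_apply,
    add_sub_cancel_right]
  refine Submodule.sum_mem _ fun m _ => ?_
  exact L.F_antitone (by omega) (L.pow_mem_F c i (m + 1) (L.V_le_F le_rfl hx))

theorem A_eigen (c : E) {i : ℕ} {x : E} (hx : x ∈ L.V i) :
    L.D (L.A c x) - L.br c (L.A c x) = (i : ℝ) • L.A c x := by
  have hxF : x ∈ L.F i := L.V_le_F le_rfl hx
  set T : E →L[ℝ] E := L.res i * L.br c with hT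
  have h1 : L.A c x = x + ∑ m ∈ Finset.range L.step, (T ^ (m + 1)) x := by
    rw [L.A_apply_of_mem c hx, Finset.sum_range_succ', pow_zero, ContinuousLinearMap.one_apply,
      add_comm]
  have h2 : L.A c x = (∑ m ∈ Finset.range L.step, (T ^ m) x) + (T ^ L.step) x := by
    rw [L.A_apply_of_mem c hx, Finset.sum_range_succ]
  have h3 : L.br c ((T ^ L.step) x) = 0 := by
    apply L.F_high (i := 1 + (i + L.step))
    · rcases Nat.eq_zero_or_pos i with h | h
      · omega
      · omega
    · exact L.br_mem_F (L.mem_F_one c) (L.pow_mem_F c i L.step hxF)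
  have h4 : L.D (L.A c x) - (i : ℝ) • L.A c x =
      ∑ m ∈ Finset.range L.step, L.br c ((T ^ m) x) := by
    rw [h1]
    simp only [map_add, map_sum, smul_add, Finset.smul_sum]
    rw [L.D_of_mem hx, add_sub_add_left_eq_sub, ← Finset.sum_sub_distrib]
    refine Finset.sum_congr rfl fun m _ => ?_
    have h5 : L.br c ((T ^ m) x) ∈ L.F (i + 1) := by
      have := L.br_mem_F (L.mem_F_one c) (L.pow_mem_F c i m hxF)
      exact L.F_antitone (by omega) this
    have h6 : (T ^ (m + 1)) x = L.res i (L.br c ((T ^ m) x)) := by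
      rw [pow_succ']; rfl
    rw [h6, L.D_res h5]
  have h7 : L.br c (L.A c x) = ∑ m ∈ Finset.range L.step, L.br c ((T ^ m) x) := by
    rw [h2, map_add, map_sum, h3, add_zero]
  rw [h7, ← h4]
  abel

/-- An eigenvector of `D - ad c` for the eigenvalue `m` with no component in the layers up to
`m` vanishes. -/
theorem eigen_zero (c : E) {m : ℕ} {z : E} (hz : z ∈ L.F (m + 1))
    (h : L.D z - L.br c z = (m : ℝ) • z) : z = 0 := by
  have key : ∀ j, z ∈ L.F (m + 1 + j) := by
    intro j
    induction j with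
    | zero => simpa using hz
    | succ j ih =>
      apply L.mem_F_succ ih
      have h1 : L.br c z ∈ L.F (1 + (m + 1 + j)) := L.br_mem_F (L.mem_F_one c) ih
      have h2 : L.proj (m + 1 + j) (L.br c z) = 0 := h1 _ (by omega)
      have h3 := congrArg (L.proj (m + 1 + j)) h
      rw [map_sub, h2, sub_zero, L.proj_D, map_smul, ← sub_eq_zero, ← sub_smul] at h3
      have h4 : (((m + 1 + j : ℕ) : ℝ) - (m : ℝ)) ≠ 0 := by
        push_cast
        have : (0 : ℝ) ≤ (j : ℝ) := Nat.cast_nonneg j
        linarith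
      exact (smul_eq_zero.1 h3).resolve_left h4
  exact L.F_high (i := m + 1 + L.step) (by omega) (key L.step)

/-- The characterisation of `A c`. -/
theorem eq_A (c : E) {i : ℕ} {x z : E} (hx : x ∈ L.V i) (hz : z - x ∈ L.F (i + 1))
    (h : L.D z - L.br c z = (i : ℝ) • z) : z = L.A c x := by
  rw [← sub_eq_zero]
  apply L.eigen_zero c (m := i)
  · have := Submodule.sub_mem _ hz (L.A_sub_mem c hx)
    rwa [sub_sub_sub_cancel_right] at this
  · rw [map_sub, map_sub, smul_sub, ← L.A_eigen c hx, ← h]
    abel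

theorem A_D (c x : E) : L.A c (L.D x) = L.D (L.A c x) - L.br c (L.A c x) := by
  refine L.layer_induction (P := fun x => L.A c (L.D x) = L.D (L.A c x) - L.br c (L.A c x))
    (by simp) (fun x y hx hy => by simp only [map_add, hx, hy]; abel) ?_ x
  intro i _ _ x hx
  rw [L.A_eigen c hx, L.D_of_mem hx, map_smul]

theorem A_sub_mem_F (c : E) {i : ℕ} {x : E} (hx : x ∈ L.F i) : L.A c x - x ∈ L.F (i + 1) := by
  rw [← L.sum_proj x, map_sum, ← Finset.sum_sub_distrib]
  refine Submodule.sum_mem _ fun j _ => ?_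
  rcases Nat.lt_or_ge j i with h | h
  · rw [hx j h]; simp
  · exact L.F_antitone (by omega) (L.A_sub_mem c (L.proj_mem j x))

theorem A_mem_F (c : E) {i : ℕ} {x : E} (hx : x ∈ L.F i) : L.A c x ∈ L.F i := by
  have h := L.F_antitone (Nat.le_succ i) (L.A_sub_mem_F c hx)
  have := Submodule.add_mem _ h hx
  rwa [sub_add_cancel] at this

theorem proj_A_of_mem (c : E) {i : ℕ} {x : E} (hx : x ∈ L.V i) : L.proj i (L.A c x) = x := by
  have h := L.A_sub_mem c hx i (Nat.lt_succ_self i)
  rw [map_sub, sub_eq_zero, L.proj_of_mem hx] at h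
  exact h

/-- `A c` is a Lie algebra homomorphism. -/
theorem A_br (c x y : E) : L.A c (L.br x y) = L.br (L.A c x) (L.A c y) := by
  refine L.layer_induction (P := fun x => L.A c (L.br x y) = L.br (L.A c x) (L.A c y))
    (by simp) ?_ ?_ x
  · intro x x' hx hx'
    simp only [map_add, ContinuousLinearMap.add_apply, hx, hx']
  · intro i _ _ x hx
    refine L.layer_induction (P := fun y => L.A c (L.br x y) = L.br (L.A c x) (L.A c y))
      (by simp) ?_ ?_ y
    · intro y y' hy hy'
      simp only [map_add, hy, hy']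
    · intro j _ _ y hy
      symm
      apply L.eq_A c (L.br_mem hx hy)
      · have e : L.br (L.A c x) (L.A c y) - L.br x y =
            L.br (L.A c x - x) (L.A c y) + L.br x (L.A c y - y) := by
          simp only [map_sub, ContinuousLinearMap.sub_apply]; abel
        rw [e]
        apply Submodule.add_mem
        · have := L.br_mem_F (L.A_sub_mem c hx) (L.A_mem_F c (L.V_le_F le_rfl hy))
          exact L.F_antitone (by omega) this
        · have := L.br_mem_F (L.V_le_F le_rfl hx) (L.A_sub_mem c hy)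
          exact L.F_antitone (by omega) this
      · have hx' := L.A_eigen c hx
        have hy' := L.A_eigen c hy
        rw [L.D_br, L.jacobi' c]
        have e1 : L.D (L.A c x) = (i : ℝ) • L.A c x + L.br c (L.A c x) := by
          rw [← hx']; abel
        have e2 : L.D (L.A c y) = (j : ℝ) • L.A c y + L.br c (L.A c y) := by
          rw [← hy']; abel
        rw [e1, e2]
        simp only [map_add, map_smul, ContinuousLinearMap.add_apply,
          ContinuousLinearMap.smul_apply]
        push_cast
        rw [add_smul]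
        abel

theorem A_zero : L.A 0 = 1 := by
  apply L.clm_ext_layers
  intro i _ _ x hx
  symm
  apply L.eq_A 0 hx
  · simp
  · simp [L.D_of_mem hx]

theorem A_zero_apply (x : E) : L.A 0 x = x := by rw [L.A_zero]; rfl

/-- The cocycle identity. -/
theorem A_mul (x y : E) : L.A (L.mul x y) = L.A x * L.A y := by
  apply L.clm_ext_layers
  intro i _ _ u hu
  symm
  apply L.eq_A _ hu
  · have e : (L.A x * L.A y) u - u = L.A x (L.A y u - u) + (L.A x u - u) := by
      rw [ContinuousLinearMap.mul_apply, map_sub]; abel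
    rw [e]
    exact Submodule.add_mem _ (L.A_mem_F x (L.A_sub_mem y hu)) (L.A_sub_mem x hu)
  · rw [ContinuousLinearMap.mul_apply, mul, map_add, ContinuousLinearMap.add_apply, ← L.A_br]
    have h1 := L.A_D x (L.A y u)
    have h2 := L.A_eigen y hu
    rw [← map_smul, ← h2, map_sub, h1]
    abel

theorem A_mul_apply (x y u : E) : L.A (L.mul x y) u = L.A x (L.A y u) := by
  rw [L.A_mul]; rfl

theorem A_injective (c : E) : Function.Injective (L.A c) := by
  rw [injective_iff_map_eq_zero]
  intro x hx
  have key : ∀ i, x ∈ L.F i := by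
    intro i
    induction i with
    | zero => exact L.mem_F_zero x
    | succ i ih =>
      have := L.A_sub_mem_F c ih
      rw [hx, zero_sub] at this
      simpa using Submodule.neg_mem _ this
  exact L.F_high (Nat.lt_succ_self _) (key (L.step + 1))

theorem A_bijective (c : E) : Function.Bijective (L.A c) :=
  ⟨L.A_injective c, (LinearMap.injective_iff_surjective (f := (L.A c : E →ₗ[ℝ] E))).1
    (L.A_injective c)⟩

theorem isUnit_A (c : E) : IsUnit (L.A c) := by
  rw [ContinuousLinearMap.isUnit_iff_bijective]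
  exact L.A_bijective c

/-- The inverse of `A c`. -/
noncomputable def Ai (c : E) : E →L[ℝ] E := Ring.inverse (L.A c)

theorem Ai_mul (c : E) : L.Ai c * L.A c = 1 := Ring.inverse_mul_cancel _ (L.isUnit_A c)

theorem mul_Ai (c : E) : L.A c * L.Ai c = 1 := Ring.mul_inverse_cancel _ (L.isUnit_A c)

theorem Ai_A (c x : E) : L.Ai c (L.A c x) = x := by
  have := congrArg (fun f : E →L[ℝ] E => f x) (L.Ai_mul c)
  simpa using this

theorem A_Ai (c x : E) : L.A c (L.Ai c x) = x := by
  have := congrArg (fun f : E →L[ℝ] E => f x) (L.mul_Ai c)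
  simpa using this

theorem mul_zero' (x : E) : L.mul x 0 = x := by simp [mul]

theorem zero_mul' (x : E) : L.mul 0 x = x := by simp [mul, L.A_zero_apply]

theorem mul_assoc' (x y z : E) : L.mul (L.mul x y) z = L.mul x (L.mul y z) := by
  simp only [mul, map_add]
  have := L.A_mul_apply x y z
  rw [mul] at this
  rw [this]
  abel

theorem mul_inv' (x : E) : L.mul x (L.inv x) = 0 := by
  have := L.A_Ai x x
  rw [mul, inv, map_neg]
  rw [Ai] at this
  rw [this]
  abel

theorem inv_mul' (x : E) : L.mul (L.inv x) x = 0 := by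
  have h : L.mul (L.inv x) (L.inv (L.inv x)) = 0 := L.mul_inv' _
  have h2 : L.inv (L.inv x) = x := by
    have : L.mul x (L.mul (L.inv x) (L.inv (L.inv x))) = x := by rw [h, L.mul_zero']
    rw [← L.mul_assoc', L.mul_inv', L.zero_mul'] at this
    exact this
  rwa [h2] at h

theorem inv_mul_cancel_left' (x y : E) : L.mul (L.inv x) (L.mul x y) = y := by
  rw [← L.mul_assoc', L.inv_mul', L.zero_mul']

theorem mul_inv_cancel_left' (x y : E) : L.mul x (L.mul (L.inv x) y) = y := by
  rw [← L.mul_assoc', L.mul_inv', L.zero_mul']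

theorem mul_inv_rev' (x y : E) : L.inv (L.mul x y) = L.mul (L.inv y) (L.inv x) := by
  have h : L.mul (L.mul x y) (L.mul (L.inv y) (L.inv x)) = 0 := by
    rw [L.mul_assoc', L.mul_inv_cancel_left', L.mul_inv']
  calc L.inv (L.mul x y) = L.mul (L.inv (L.mul x y)) 0 := (L.mul_zero' _).symm
    _ = _ := by rw [← h, L.inv_mul_cancel_left']

theorem inv_zero' : L.inv 0 = 0 := by simp [inv]

theorem inv_inv' (x : E) : L.inv (L.inv x) = x := by
  have : L.mul x (L.mul (L.inv x) (L.inv (L.inv x))) = x := by rw [L.mul_inv', L.mul_zero']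
  rw [L.mul_inv_cancel_left'] at this
  exact this

theorem A_inv (x : E) : L.A (L.inv x) = L.Ai x := by
  have h : L.A (L.inv x) * L.A x = 1 := by rw [← L.A_mul, L.inv_mul', L.A_zero]
  calc L.A (L.inv x) = L.A (L.inv x) * (L.A x * L.Ai x) := by rw [L.mul_Ai, mul_one]
    _ = _ := by rw [← mul_assoc, h, one_mul]

theorem mul_injective_right (x : E) : Function.Injective (L.mul x) := by
  intro a b h
  have := congrArg (L.mul (L.inv x)) h
  rwa [L.inv_mul_cancel_left', L.inv_mul_cancel_left'] at this

/-- For `x` in a layer, `A (s x) x = x`. -/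
theorem A_smul_self {i : ℕ} {x : E} (hx : x ∈ L.V i) (s : ℝ) : L.A (s • x) x = x := by
  symm
  apply L.eq_A _ hx
  · simp
  · rw [map_smul, ContinuousLinearMap.smul_apply, L.br_self, smul_zero, sub_zero, L.D_of_mem hx]

theorem mul_smul_smul {i : ℕ} {x : E} (hx : x ∈ L.V i) (s r : ℝ) :
    L.mul (s • x) (r • x) = (s + r) • x := by
  rw [mul, map_smul, L.A_smul_self hx, add_smul]

/-- `A c` raises degrees by the degree of `c`. -/
theorem A_raise {w i : ℕ} {c x : E} (hc : c ∈ L.F w) (hx : x ∈ L.F i) :
    L.A c x - x ∈ L.F (i + w) := by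
  rw [← L.sum_proj x, map_sum, ← Finset.sum_sub_distrib]
  refine Submodule.sum_mem _ fun j _ => ?_
  rcases Nat.lt_or_ge j i with h | h
  · rw [hx j h]; simp
  · apply L.F_antitone (show i + w ≤ j + w by omega)
    set u := L.proj j x with hu
    have hu' : u ∈ L.V j := L.proj_mem j x
    intro l hl
    rcases eq_or_ne l j with rfl | hlj
    · exact L.A_sub_mem c hu' l (Nat.lt_succ_self l)
    · have h1 := L.A_eigen c hu'
      have h2 : L.br c (L.A c u) ∈ L.F (w + j) :=
        L.br_mem_F hc (L.A_mem_F c (L.V_le_F le_rfl hu'))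
      have h3 := congrArg (L.proj l) h1
      rw [map_sub, L.proj_D, h2 l (by omega), sub_zero, map_smul, ← sub_eq_zero, ← sub_smul] at h3
      have h4 : ((l : ℝ) - (j : ℝ)) ≠ 0 := by
        rw [sub_ne_zero]; exact_mod_cast hlj
      have h5 := (smul_eq_zero.1 h3).resolve_left h4
      rw [map_sub, h5, L.proj_of_mem_ne hu' (Ne.symm hlj), sub_zero]

/-- The dilation by `t`. -/
noncomputable def dil (t : ℝ) : E →L[ℝ] E := ∑ i ∈ Finset.range (L.step + 1), t ^ i • L.proj i

theorem dil_of_mem (t : ℝ) {i : ℕ} {x : E} (hx : x ∈ L.V i) : L.dil t x = t ^ i • x := by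
  simp only [dil, ContinuousLinearMap.sum_apply, ContinuousLinearMap.smul_apply]
  rcases Nat.lt_or_ge L.step i with h | h
  · have : x = 0 := by rwa [L.V_high i h, Submodule.mem_bot] at hx
    simp [this]
  · rw [Finset.sum_eq_single i]
    · rw [L.proj_of_mem hx]
    · intro j _ hj
      rw [L.proj_of_mem_ne hx (Ne.symm hj), smul_zero]
    · intro h'
      exact absurd (Finset.mem_range.2 (by omega)) h'

theorem proj_dil (t : ℝ) (i : ℕ) (x : E) : L.proj i (L.dil t x) = t ^ i • L.proj i x := by
  refine L.layer_induction (P := fun x => L.proj i (L.dil t x) = t ^ i • L.proj i x)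
    (by simp) (fun x y hx hy => by simp only [map_add, hx, hy, smul_add]) ?_ x
  intro j _ _ x hx
  rw [L.dil_of_mem t hx, map_smul]
  by_cases h : j = i
  · rw [h]
  · rw [L.proj_of_mem_ne hx h]; simp

theorem dil_mem_V (t : ℝ) {i : ℕ} {x : E} (hx : x ∈ L.V i) : L.dil t x ∈ L.V i := by
  rw [L.dil_of_mem t hx]; exact Submodule.smul_mem _ _ hx

theorem dil_mem_F (t : ℝ) {i : ℕ} {x : E} (hx : x ∈ L.F i) : L.dil t x ∈ L.F i := by
  intro j hj
  rw [L.proj_dil, hx j hj, smul_zero]

theorem dil_D (t : ℝ) (x : E) : L.dil t (L.D x) = L.D (L.dil t x) := by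
  apply L.ext_proj
  intro i
  rw [L.proj_dil, L.proj_D, L.proj_D, L.proj_dil, smul_comm]

theorem dil_br (t : ℝ) (x y : E) : L.dil t (L.br x y) = L.br (L.dil t x) (L.dil t y) := by
  refine L.layer_induction (P := fun x => L.dil t (L.br x y) = L.br (L.dil t x) (L.dil t y))
    (by simp) ?_ ?_ x
  · intro x x' hx hx'
    simp only [map_add, ContinuousLinearMap.add_apply, hx, hx']
  · intro i _ _ x hx
    refine L.layer_induction (P := fun y => L.dil t (L.br x y) = L.br (L.dil t x) (L.dil t y))
      (by simp) ?_ ?_ y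
    · intro y y' hy hy'
      simp only [map_add, hy, hy']
    · intro j _ _ y hy
      rw [L.dil_of_mem t (L.br_mem hx hy), L.dil_of_mem t hx, L.dil_of_mem t hy]
      simp only [map_smul, ContinuousLinearMap.smul_apply]
      rw [smul_smul, ← pow_add, Nat.add_comm]

theorem dil_A (t : ℝ) (c x : E) : L.dil t (L.A c x) = L.A (L.dil t c) (L.dil t x) := by
  refine L.layer_induction (P := fun x => L.dil t (L.A c x) = L.A (L.dil t c) (L.dil t x))
    (by simp) (fun x y hx hy => by simp only [map_add, hx, hy]) ?_ x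
  intro i _ _ x hx
  rw [L.dil_of_mem t hx]
  apply L.eq_A _ (Submodule.smul_mem _ _ hx)
  · rw [← L.dil_of_mem t hx, ← map_sub]
    exact L.dil_mem_F t (L.A_sub_mem c hx)
  · rw [← L.dil_D, ← L.dil_br, ← map_sub, L.A_eigen c hx, map_smul]

theorem dil_mul (t : ℝ) (x y : E) :
    L.dil t (L.mul x y) = L.mul (L.dil t x) (L.dil t y) := by
  rw [mul, mul, map_add, L.dil_A t x y]

theorem dil_zero (t : ℝ) : L.dil t 0 = 0 := map_zero _

theorem dil_inv (t : ℝ) (x : E) : L.dil t (L.inv x) = L.inv (L.dil t x) := by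
  have h : L.mul (L.dil t x) (L.dil t (L.inv x)) = 0 := by
    rw [← L.dil_mul, L.mul_inv', map_zero]
  calc L.dil t (L.inv x) = L.mul (L.inv (L.dil t x)) (L.mul (L.dil t x) (L.dil t (L.inv x))) := by
        rw [L.inv_mul_cancel_left']
    _ = _ := by rw [h, L.mul_zero']

end StratLie

end Run7.h693
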