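import Pool.Agent.Run7.h693.Alg2

set_option linter.unusedSectionVars false
set_option linter.deprecated false

open Module

namespace Run7.h693

variable {E : Type*} [NormedAddCommGroup E] [InnerProductSpace ℝ E] [FiniteDimensional ℝ E]

namespace StratLie

variable (L : StratLie E)

theorem contDiff_A {n : WithTop ℕ∞} : ContDiff ℝ n L.A := by
  unfold A
  fun_prop

theorem contDiff_mul {n : WithTop ℕ∞} : ContDiff ℝ n (fun p : E × E => L.mul p.1 p.2) := by
  have h := L.contDiff_A (n := n)
  unfold mul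
  exact contDiff_fst.add ((h.comp contDiff_fst).clm_apply contDiff_snd)

theorem contDiff_Ai {n : WithTop ℕ∞} : ContDiff ℝ n L.Ai := by
  rw [contDiff_iff_contDiffAt]
  intro x
  obtain ⟨u, hu⟩ := L.isUnit_A x
  have h1 : ContDiffAt ℝ n Ring.inverse (L.A x) := by
    rw [← hu]; exact contDiffAt_ringInverse ℝ u
  exact h1.comp x L.contDiff_A.contDiffAt

theorem contDiff_inv {n : WithTop ℕ∞} : ContDiff ℝ n L.inv := by
  have h := L.contDiff_Ai (n := n)
  exact (h.clm_apply contDiff_id).neg

theorem continuous_A : Continuous L.A := (L.contDiff_A (n := 0)).continuous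

theorem continuous_Ai : Continuous L.Ai := (L.contDiff_Ai (n := 0)).continuous

theorem continuous_mul' : Continuous (fun p : E × E => L.mul p.1 p.2) :=
  (L.contDiff_mul (n := 0)).continuous

theorem continuous_inv' : Continuous L.inv := (L.contDiff_inv (n := 0)).continuous

theorem A_smul_eq (η : E) (s : ℝ) : L.A (s • η) =
    ∑ i ∈ Finset.range (L.step + 1), ∑ m ∈ Finset.range (L.step + 1),
      s ^ m • ((L.res i * L.br η) ^ m * L.proj i) := by
  unfold A
  refine Finset.sum_congr rfl fun i _ => Finset.sum_congr rfl fun m _ => ?_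
  rw [map_smul, mul_smul_comm, smul_pow, smul_mul_assoc]

theorem hasDerivAt_A_smul (η : E) : HasDerivAt (fun s : ℝ => L.A (s • η))
    (∑ i ∈ Finset.range (L.step + 1), L.res i * L.br η * L.proj i) 0 := by
  have h1 : (fun s : ℝ => L.A (s • η)) = fun s : ℝ =>
      ∑ i ∈ Finset.range (L.step + 1), ∑ m ∈ Finset.range (L.step + 1),
      s ^ m • ((L.res i * L.br η) ^ m * L.proj i) := funext fun s => L.A_smul_eq η s
  rw [h1]
  apply HasDerivAt.fun_sum
  intro i _
  have h2 : L.res i * L.br η * L.proj i = ∑ m ∈ Finset.range (L.step + 1),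
      ((m : ℝ) * (0 : ℝ) ^ (m - 1)) • ((L.res i * L.br η) ^ m * L.proj i) := by
    rcases Nat.eq_zero_or_pos L.step with h | h
    · exfalso
      have := L.last
      rw [h] at this
      exact this L.V_zero
    · rw [Finset.sum_eq_single 1]
      · simp
      · intro m _ hm
        rcases Nat.eq_zero_or_pos m with rfl | hm0
        · simp
        · have : m - 1 ≠ 0 := by omega
          rw [zero_pow this, mul_zero, zero_smul]
      · intro h'
        exact absurd (Finset.mem_range.2 (by omega)) h'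
  rw [h2]
  apply HasDerivAt.fun_sum
  intro m _
  exact (hasDerivAt_pow m (0 : ℝ)).smul_const ((L.res i * L.br η) ^ m * L.proj i)

theorem res_br_sum {w : ℕ} (hw : 1 ≤ w) {η : E} (hη : η ∈ L.V w) (g : E) :
    (∑ i ∈ Finset.range (L.step + 1), L.res i * L.br η * L.proj i) g =
      (w : ℝ)⁻¹ • L.br η g := by
  simp only [ContinuousLinearMap.sum_apply, ContinuousLinearMap.mul_apply]
  have h : ∀ i ∈ Finset.range (L.step + 1), L.res i (L.br η (L.proj i g)) =
      (w : ℝ)⁻¹ • L.br η (L.proj i g) := by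
    intro i _
    apply L.ext_proj
    intro l
    have hm := L.br_mem hη (L.proj_mem i g)
    rw [L.proj_res, map_smul]
    by_cases hl : w + i = l
    · rw [if_pos (by omega), ← hl]
      push_cast
      rw [add_sub_cancel_right]
    · rw [L.proj_of_mem_ne hm hl]; simp
  rw [Finset.sum_congr rfl h, ← Finset.smul_sum, ← map_sum, L.sum_proj]

/-- The generator of left translations: `vf η g = D η + [η, g]`. -/
noncomputable def vf (η g : E) : E := L.D η + L.br η g

theorem hasDerivAt_flow_zero {w : ℕ} (hw : 1 ≤ w) {η : E} (hη : η ∈ L.V w) (g : E) :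
    HasDerivAt (fun s : ℝ => L.mul (s • η) g) ((w : ℝ)⁻¹ • L.vf η g) 0 := by
  have h1 := L.hasDerivAt_A_smul η
  have h2 : HasDerivAt (fun s : ℝ => L.A (s • η) g) ((w : ℝ)⁻¹ • L.br η g) 0 := by
    rw [← L.res_br_sum hw hη g]
    have := h1.clm_apply (hasDerivAt_const (0 : ℝ) g)
    simpa using this
  have h3 : HasDerivAt (fun s : ℝ => s • η) η 0 := by
    simpa using (hasDerivAt_id (0 : ℝ)).smul_const η
  have h4 := h3.add h2
  have e : (w : ℝ)⁻¹ • L.vf η g = η + (w : ℝ)⁻¹ • L.br η g := by
    have hw' : (w : ℝ) ≠ 0 := by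
      have : 0 < w := hw
      positivity
    rw [vf, L.D_of_mem hη, smul_add, smul_smul, inv_mul_cancel₀ hw', one_smul]
  rw [e]
  exact h4

theorem flow_add {w : ℕ} {η : E} (hη : η ∈ L.V w) (s r : ℝ) (g : E) :
    L.mul (s • η) (L.mul (r • η) g) = L.mul ((s + r) • η) g := by
  rw [← L.mul_assoc', L.mul_smul_smul hη]

theorem hasDerivAt_flow {w : ℕ} (hw : 1 ≤ w) {η : E} (hη : η ∈ L.V w) (g : E) (s : ℝ) :
    HasDerivAt (fun s : ℝ => L.mul (s • η) g) ((w : ℝ)⁻¹ • L.vf η (L.mul (s • η) g)) s := by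
  have h1 := L.hasDerivAt_flow_zero hw hη (L.mul (s • η) g)
  have h2 : HasDerivAt (fun r : ℝ => r - s) 1 s := (hasDerivAt_id s).sub_const s
  have h3 := HasDerivAt.scomp s (h := fun r : ℝ => r - s)
    (g₁ := fun r : ℝ => L.mul (r • η) (L.mul (s • η) g)) (by rw [sub_self]; exact h1) h2
  rw [one_smul] at h3
  have h4 : ((fun r : ℝ => L.mul (r • η) (L.mul (s • η) g)) ∘ fun r : ℝ => r - s) =
      fun r : ℝ => L.mul (r • η) g := by
    funext r
    simp only [Function.comp_apply]
    rw [L.flow_add hη, sub_add_cancel]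
  rw [h4] at h3
  exact h3

/-- A homogeneous basis ordered by degree. -/
theorem exists_adapted : ∃ (b : Basis (Fin (finrank ℝ E)) ℝ E) (wt : Fin (finrank ℝ E) → ℕ),
    Monotone wt ∧ ∀ a, b a ∈ L.V (wt a) := by
  classical
  set B := L.internal.collectedBasis (fun i => Module.finBasis ℝ (L.V i)) with hB
  have : Finite (Σ i, Fin (finrank ℝ (L.V i))) := Module.Finite.finite_basis B
  let _ : Fintype (Σ i, Fin (finrank ℝ (L.V i))) := Fintype.ofFinite _
  have hcard : Fintype.card (Σ i, Fin (finrank ℝ (L.V i))) = finrank ℝ E :=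
    (Module.finrank_eq_card_basis B).symm
  let e : (Σ i, Fin (finrank ℝ (L.V i))) ≃ Fin (finrank ℝ E) := Fintype.equivFinOfCardEq hcard
  let wt' : Fin (finrank ℝ E) → ℕ := fun a => (e.symm a).1
  let σ := Tuple.sort wt'
  refine ⟨B.reindex (e.trans σ.symm), wt' ∘ σ, Tuple.monotone_sort wt', ?_⟩
  intro a
  have h : (B.reindex (e.trans σ.symm)) a = B (e.symm (σ a)) := by
    simp [Basis.reindex_apply]
  rw [h]
  exact L.internal.collectedBasis_mem _ _

section adapted

variable {ι : Type*} {b : Basis ι ℝ E} {wt : ι → ℕ}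

theorem repr_proj [Fintype ι] (hb : ∀ a, b a ∈ L.V (wt a)) (j : ℕ) (x : E) (a : ι) :
    b.repr (L.proj j x) a = if wt a = j then b.repr x a else 0 := by
  classical
  have hx : x = ∑ c, b.repr x c • b c := (b.sum_repr x).symm
  conv_lhs => rw [hx]
  simp only [map_sum, map_smul, Finsupp.coe_finset_sum, Finset.sum_apply, Finsupp.smul_apply,
    smul_eq_mul]
  have h : ∀ c, b.repr x c * b.repr (L.proj j (b c)) a =
      if c = a then (if wt a = j then b.repr x a else 0) else 0 := by
    intro c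
    by_cases hc : wt c = j
    · have : L.proj j (b c) = b c := by
        rw [← hc]; exact L.proj_of_mem (hb c)
      rw [this, b.repr_self, Finsupp.single_apply]
      by_cases hca : c = a
      · subst hca; simp [hc]
      · simp [hca]
    · rw [L.proj_of_mem_ne (hb c) hc]
      by_cases hca : c = a
      · subst hca; simp [hc]
      · simp [hca]
  rw [Finset.sum_congr rfl fun c _ => h c]
  simp

theorem repr_of_mem_F [Fintype ι] (hb : ∀ a, b a ∈ L.V (wt a)) {j : ℕ} {x : E} (hx : x ∈ L.F j)
    {a : ι} (ha : wt a < j) : b.repr x a = 0 := by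
  have h := L.repr_proj hb (wt a) x a
  rw [if_pos rfl, hx (wt a) ha] at h
  simpa using h.symm

end adapted

theorem det_A (c : E) : LinearMap.det (L.A c : E →ₗ[ℝ] E) = 1 := by
  obtain ⟨b, wt, hmono, hb⟩ := L.exists_adapted
  rw [← LinearMap.det_toMatrix b]
  have hentry : ∀ i j : Fin (finrank ℝ E), wt i ≤ wt j →
      LinearMap.toMatrix b b (L.A c : E →ₗ[ℝ] E) i j = if i = j then 1 else 0 := by
    intro i j hij
    have h := L.A_sub_mem c (hb j)
    have h1 := L.repr_of_mem_F hb h (a := i) (by omega)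
    rw [map_sub, Finsupp.sub_apply, sub_eq_zero, b.repr_self, Finsupp.single_apply] at h1
    rw [LinearMap.toMatrix_apply]
    change b.repr (L.A c (b j)) i = _
    rw [h1]
    by_cases hij' : j = i
    · simp [hij']
    · simp [hij', Ne.symm hij']
  rw [Matrix.det_of_lowerTriangular]
  · apply Finset.prod_eq_one
    intro i _
    rw [hentry i i le_rfl, if_pos rfl]
  · intro i j hij
    have hij' : i < j := hij
    rw [hentry i j (hmono hij'.le), if_neg hij'.ne]

theorem det_Ai (c : E) : LinearMap.det (L.Ai c : E →ₗ[ℝ] E) = 1 := by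
  rw [← L.A_inv]; exact L.det_A _

theorem one_le_wt {ι : Type*} {b : Basis ι ℝ E} {wt : ι → ℕ}
    (hb : ∀ a, b a ∈ L.V (wt a)) (a : ι) : 1 ≤ wt a := by
  by_contra h
  have h0 : wt a = 0 := by omega
  have h1 := hb a
  rw [h0, L.V_zero, Submodule.mem_bot] at h1
  exact b.ne_zero a h1

theorem det_dil {b : Basis (Fin (finrank ℝ E)) ℝ E} {wt : Fin (finrank ℝ E) → ℕ}
    (hb : ∀ a, b a ∈ L.V (wt a)) (t : ℝ) :
    LinearMap.det (L.dil t : E →ₗ[ℝ] E) = t ^ (∑ a, wt a) := by
  rw [← LinearMap.det_toMatrix b]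
  have h : LinearMap.toMatrix b b (L.dil t : E →ₗ[ℝ] E) =
      Matrix.diagonal (fun a => t ^ wt a) := by
    ext i j
    rw [LinearMap.toMatrix_apply, Matrix.diagonal_apply]
    change b.repr (L.dil t (b j)) i = _
    rw [L.dil_of_mem t (hb j), map_smul, Finsupp.smul_apply, b.repr_self, Finsupp.single_apply,
      smul_eq_mul]
    by_cases hij : i = j
    · subst hij; simp
    · simp [hij, Ne.symm hij]
  rw [h, Matrix.det_diagonal, Finset.prod_pow_eq_pow_sum]

theorem card_lt_sum_wt (hs : 2 ≤ L.step) {b : Basis (Fin (finrank ℝ E)) ℝ E}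
    {wt : Fin (finrank ℝ E) → ℕ} (hb : ∀ a, b a ∈ L.V (wt a)) :
    finrank ℝ E < ∑ a, wt a := by
  have hex : ∃ a, wt a = L.step := by
    by_contra hne
    push Not at hne
    apply L.last
    rw [Submodule.eq_bot_iff]
    intro x hx
    have hx' := L.proj_of_mem hx
    apply b.ext_elem
    intro a
    rw [← hx', L.repr_proj hb, if_neg (hne a), map_zero, Finsupp.zero_apply]
  obtain ⟨a, ha⟩ := hex
  have h1 : ∑ _a : Fin (finrank ℝ E), 1 < ∑ a, wt a := by
    apply Finset.sum_lt_sum
    · intro i _; exact L.one_le_wt hb i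
    · exact ⟨a, Finset.mem_univ a, by omega⟩
  simpa using h1

end StratLie

end Run7.h693
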