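import Mathlib

set_option linter.unusedSectionVars false
set_option linter.deprecated false

open Finset

namespace Run7.h693

/-- Cancellation of the second order terms. -/
theorem alt_cancel {n : ℕ} (p : Fin (n + 1) → Fin (n + 1) → ℝ)
    (q γ : Fin (n + 1) → Fin (n + 1) → Fin (n + 1) → ℝ)
    (hq : ∀ a c j, q a c j - q c a j = - ∑ k, γ a c k * p k j)
    (h1 : ∀ a c, γ a c a = 0) (h2 : ∀ a c, γ a c c = 0) :
    ∑ π : Equiv.Perm (Fin (n + 1)), (Equiv.Perm.sign π : ℝ) *
      ∑ l ∈ univ.erase (0 : Fin (n + 1)), q (π 0) (π l) l *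
        ∏ j ∈ (univ.erase (0 : Fin (n + 1))).erase l, p (π j) j = 0 := by
  set S : Fin (n + 1) → ℝ := fun l => ∑ π : Equiv.Perm (Fin (n + 1)), (Equiv.Perm.sign π : ℝ) *
    (q (π 0) (π l) l * ∏ j ∈ (univ.erase (0 : Fin (n + 1))).erase l, p (π j) j) with hS
  set U : Fin (n + 1) → Fin (n + 1) → ℝ := fun l i => ∑ π : Equiv.Perm (Fin (n + 1)),
    (Equiv.Perm.sign π : ℝ) * (γ (π 0) (π l) (π i) * p (π i) l *
      ∏ j ∈ (univ.erase (0 : Fin (n + 1))).erase l, p (π j) j) with hU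
  have hswap : ∀ (a b : Fin (n + 1)) (hab : a ≠ b) (F : Equiv.Perm (Fin (n + 1)) → ℝ),
      ∑ π : Equiv.Perm (Fin (n + 1)), (Equiv.Perm.sign π : ℝ) * F π =
      - ∑ π : Equiv.Perm (Fin (n + 1)), (Equiv.Perm.sign π : ℝ) * F (π * Equiv.swap a b) := by
    intro a b hab F
    rw [← Finset.sum_neg_distrib]
    refine (Fintype.sum_equiv (Equiv.mulRight (Equiv.swap a b)) _ _ fun π => ?_).symm
    rw [Equiv.coe_mulRight, Equiv.Perm.sign_mul, Equiv.Perm.sign_swap hab]
    push_cast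
    ring
  have hSl : ∀ l ∈ univ.erase (0 : Fin (n + 1)), 2 * S l = - ∑ i, U l i := by
    intro l hl
    have hl0 : l ≠ 0 := (mem_erase.1 hl).1
    have e1 : S l = - ∑ π : Equiv.Perm (Fin (n + 1)), (Equiv.Perm.sign π : ℝ) *
        (q (π l) (π 0) l * ∏ j ∈ (univ.erase (0 : Fin (n + 1))).erase l, p (π j) j) := by
      simp only [hS]
      rw [hswap 0 l hl0.symm]
      congr 1
      refine sum_congr rfl fun π _ => ?_
      congr 1
      rw [Equiv.Perm.mul_apply, Equiv.Perm.mul_apply, Equiv.swap_apply_left,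
        Equiv.swap_apply_right]
      congr 1
      refine prod_congr rfl fun j hj => ?_
      have hj1 := mem_erase.1 hj
      have hj2 := mem_erase.1 hj1.2
      rw [Equiv.Perm.mul_apply, Equiv.swap_apply_of_ne_of_ne hj2.1 hj1.1]
    have e2 : 2 * S l = ∑ π : Equiv.Perm (Fin (n + 1)), (Equiv.Perm.sign π : ℝ) *
        ((q (π 0) (π l) l - q (π l) (π 0) l) *
          ∏ j ∈ (univ.erase (0 : Fin (n + 1))).erase l, p (π j) j) := by
      have e0 : 2 * S l = (∑ π : Equiv.Perm (Fin (n + 1)), (Equiv.Perm.sign π : ℝ) *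
          (q (π 0) (π l) l * ∏ j ∈ (univ.erase (0 : Fin (n + 1))).erase l, p (π j) j)) +
          - ∑ π : Equiv.Perm (Fin (n + 1)), (Equiv.Perm.sign π : ℝ) *
          (q (π l) (π 0) l * ∏ j ∈ (univ.erase (0 : Fin (n + 1))).erase l, p (π j) j) := by
        rw [← e1]
        simp only [hS]
        ring
      rw [e0, ← sub_eq_add_neg, ← sum_sub_distrib]
      refine sum_congr rfl fun π _ => ?_
      ring
    rw [e2]
    simp only [hU]
    rw [sum_comm, ← sum_neg_distrib]
    refine sum_congr rfl fun π _ => ?_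
    rw [hq, ← Equiv.sum_comp π (fun k => γ (π 0) (π l) k * p k l)]
    rw [neg_mul, mul_neg, sum_mul, mul_sum]
  have hU0 : ∀ l, U l 0 = 0 := by
    intro l
    simp only [hU, h1, zero_mul, mul_zero, sum_const_zero]
  have hUl : ∀ l, U l l = 0 := by
    intro l
    simp only [hU, h2, zero_mul, mul_zero, sum_const_zero]
  have hanti : ∀ l ∈ univ.erase (0 : Fin (n + 1)), ∀ i ∈ univ.erase (0 : Fin (n + 1)),
      U l i = - U i l := by
    intro l hl i hi
    have hl0 : l ≠ 0 := (mem_erase.1 hl).1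
    have hi0 : i ≠ 0 := (mem_erase.1 hi).1
    by_cases hil : i = l
    · subst hil; rw [hUl, neg_zero]
    · simp only [hU]
      rw [hswap i l hil]
      congr 1
      refine sum_congr rfl fun π _ => ?_
      congr 1
      rw [Equiv.Perm.mul_apply, Equiv.Perm.mul_apply, Equiv.Perm.mul_apply,
        Equiv.swap_apply_of_ne_of_ne (Ne.symm hi0) (Ne.symm hl0),
        Equiv.swap_apply_right, Equiv.swap_apply_left]
      have m1 : i ∈ (univ.erase (0 : Fin (n + 1))).erase l :=
        mem_erase.2 ⟨hil, hi⟩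
      have m2 : l ∈ (univ.erase (0 : Fin (n + 1))).erase i :=
        mem_erase.2 ⟨Ne.symm hil, hl⟩
      rw [← mul_prod_erase _ _ m1, ← mul_prod_erase _ _ m2, Equiv.Perm.mul_apply,
        Equiv.swap_apply_left, erase_right_comm (a := l) (b := i)]
      have e3 : ∏ x ∈ ((univ.erase (0 : Fin (n + 1))).erase i).erase l,
          p ((π * Equiv.swap i l) x) x =
          ∏ x ∈ ((univ.erase (0 : Fin (n + 1))).erase i).erase l, p (π x) x := by
        refine prod_congr rfl fun j hj => ?_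
        have hj1 := mem_erase.1 hj
        have hj2 := mem_erase.1 hj1.2
        rw [Equiv.Perm.mul_apply, Equiv.swap_apply_of_ne_of_ne hj2.1 hj1.1]
      rw [e3]
      ring
  have hW : ∑ l ∈ univ.erase (0 : Fin (n + 1)), ∑ i ∈ univ.erase (0 : Fin (n + 1)), U l i = 0 := by
    have e1 : ∑ l ∈ univ.erase (0 : Fin (n + 1)), ∑ i ∈ univ.erase (0 : Fin (n + 1)), U l i =
        - ∑ l ∈ univ.erase (0 : Fin (n + 1)), ∑ i ∈ univ.erase (0 : Fin (n + 1)), U l i := by
      conv_rhs => rw [sum_comm]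
      rw [← sum_neg_distrib]
      refine sum_congr rfl fun l hl => ?_
      rw [← sum_neg_distrib]
      exact sum_congr rfl fun i hi => hanti l hl i hi
    linarith
  have hsum : 2 * ∑ l ∈ univ.erase (0 : Fin (n + 1)), S l = 0 := by
    rw [mul_sum, sum_congr rfl hSl, sum_neg_distrib]
    have : ∀ l ∈ univ.erase (0 : Fin (n + 1)), ∑ i, U l i =
        ∑ i ∈ univ.erase (0 : Fin (n + 1)), U l i := by
      intro l _
      rw [← add_sum_erase _ _ (mem_univ (0 : Fin (n + 1))), hU0, zero_add]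
    rw [sum_congr rfl this, hW, neg_zero]
  have hfin : ∑ π : Equiv.Perm (Fin (n + 1)), (Equiv.Perm.sign π : ℝ) *
      ∑ l ∈ univ.erase (0 : Fin (n + 1)), q (π 0) (π l) l *
        ∏ j ∈ (univ.erase (0 : Fin (n + 1))).erase l, p (π j) j =
      ∑ l ∈ univ.erase (0 : Fin (n + 1)), S l := by
    simp only [hS, mul_sum]
    rw [sum_comm]
  rw [hfin]
  linarith

/-- The double permutation sum. -/
theorem double_perm {n : ℕ} (M : Matrix (Fin n) (Fin n) ℝ) :
    ∑ π : Equiv.Perm (Fin n), ∑ τ : Equiv.Perm (Fin n), (Equiv.Perm.sign π : ℝ) *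
      ((Equiv.Perm.sign τ : ℝ) * ∏ j, M (π j) (τ j)) = (n.factorial : ℝ) * M.det := by
  have h : ∀ π : Equiv.Perm (Fin n), ∑ τ : Equiv.Perm (Fin n), (Equiv.Perm.sign π : ℝ) *
      ((Equiv.Perm.sign τ : ℝ) * ∏ j, M (π j) (τ j)) = M.det := by
    intro π
    rw [← Matrix.det_transpose, Matrix.det_apply']
    rw [← Equiv.sum_comp (Equiv.mulRight π)]
    refine sum_congr rfl fun τ _ => ?_
    rw [Equiv.coe_mulRight, Equiv.Perm.sign_mul]
    have e1 : ∏ j, M (π j) ((τ * π) j) = ∏ j, M.transpose (τ j) j := by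
      rw [← Equiv.prod_comp π (fun j => M.transpose (τ j) j)]
      rfl
    rw [e1]
    have e2 : ((Equiv.Perm.sign π : ℤ) : ℝ) * ((Equiv.Perm.sign π : ℤ) : ℝ) = 1 := by
      rcases Int.units_eq_one_or (Equiv.Perm.sign π) with h | h <;> simp [h]
    push_cast
    calc _ = (((Equiv.Perm.sign π : ℤ) : ℝ) * ((Equiv.Perm.sign π : ℤ) : ℝ)) *
          ((Equiv.Perm.sign τ : ℝ) * ∏ j, M.transpose (τ j) j) := by ring
      _ = _ := by rw [e2, one_mul]
  rw [sum_congr rfl fun π _ => h π, sum_const, card_univ, Fintype.card_perm, Fintype.card_fin,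
    nsmul_eq_mul]

end Run7.h693
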