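import Mathlib

/-!
Filling functions of Lie groups whose underlying manifold is a Euclidean space `E` (a real
finite-dimensional inner product space) and whose identity is `0`: definitions.
-/

open scoped ENNReal RealInnerProductSpace ContDiff

namespace Run7.h693

/-! ### Lipschitz chains in `E` -/

theorem lipschitz_map {k l : ℕ} (f : Fin k → Fin l) :
    ∃ K, LipschitzWith K (stdSimplex.map (S := ℝ) f) := by
  refine ⟨‖LinearMap.toContinuousLinearMap (FunOnFinite.linearMap ℝ ℝ f)‖₊, ?_⟩
  have h := (LinearMap.toContinuousLinearMap (FunOnFinite.linearMap ℝ ℝ f)).lipschitz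
  intro x y
  exact h x.1 y.1

/-- A Lipschitz singular simplex of dimension `k` in `E`: a Lipschitz map from the standard simplex
to `E`. (On compact sets the distance of `E` and any Riemannian distance are bi-Lipschitz
equivalent, so these are the Lipschitz singular simplices for any Riemannian metric on `E`.) -/
@[ext]
structure Simp (E : Type*) [NormedAddCommGroup E] (k : ℕ) where
  /-- the underlying map of the standard simplex -/
  toFun : stdSimplex ℝ (Fin (k + 1)) → E
  lip : ∃ K, LipschitzWith K toFun

section chains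

variable {E : Type*} [NormedAddCommGroup E]

/-- The `i`-th face of a singular simplex. -/
noncomputable def Simp.face {k : ℕ} (i : Fin (k + 2)) (σ : Simp E (k + 1)) : Simp E k :=
  ⟨fun s => σ.1 (stdSimplex.map i.succAbove s), by
    obtain ⟨K, hK⟩ := σ.2
    obtain ⟨K', hK'⟩ := lipschitz_map i.succAbove
    exact ⟨K * K', hK.comp hK'⟩⟩

variable (E) in
/-- Lipschitz `k`-chains with integer coefficients. -/
abbrev Chain (k : ℕ) : Type _ := Simp E k →₀ ℤ

/-- The boundary operator. -/
noncomputable def boundary {k : ℕ} : Chain E (k + 1) →ₗ[ℤ] Chain E k :=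
  Finsupp.linearCombination ℤ fun σ =>
    ∑ i : Fin (k + 2), (-1 : ℤ) ^ (i : ℕ) • Finsupp.single (σ.face i) (1 : ℤ)

/-- Cycles. -/
def IsCycle : ∀ {k : ℕ}, Chain E k → Prop
  | 0, _ => True
  | _ + 1, a => boundary a = 0

/-- The simplex `1 ≥ x 0 ≥ x 1 ≥ ... ≥ x (k - 1) ≥ 0` in `ℝ ^ k`. -/
def ordSimplex (k : ℕ) : Set (Fin k → ℝ) := {x | Antitone x ∧ ∀ i, 0 ≤ x i ∧ x i ≤ 1}

/-- The barycentric coordinates `(1 - x 0, x 0 - x 1, ..., x (k - 2) - x (k - 1), x (k - 1))` of the
point `x` of the simplex `ordSimplex k`. -/
def coords {k : ℕ} (x : Fin k → ℝ) (j : Fin (k + 1)) : ℝ :=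
  Fin.cons (α := fun _ => ℝ) 1 x j - Fin.snoc (α := fun _ => ℝ) x 0 j

open Classical in
/-- The map `σ` in the affine coordinates `x ∈ ordSimplex k` of the standard simplex. (The value
outside `ordSimplex k`, where `coords x` is not in the standard simplex, plays no role.) -/
noncomputable def Simp.param {k : ℕ} (σ : Simp E k) (x : Fin k → ℝ) : E :=
  if h : coords x ∈ stdSimplex ℝ (Fin (k + 1)) then σ.toFun ⟨coords x, h⟩ else 0

end chains

/-! ### Lie groups -/

/-- A Lie group structure on the manifold `E` with identity `0`. -/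
structure GroupLaw (E : Type*) [NormedAddCommGroup E] [InnerProductSpace ℝ E] where
  /-- the multiplication -/
  mul : E → E → E
  /-- the inversion -/
  inv : E → E
  mul_assoc : ∀ x y z, mul (mul x y) z = mul x (mul y z)
  zero_mul : ∀ x, mul 0 x = x
  mul_zero : ∀ x, mul x 0 = x
  inv_mul : ∀ x, mul (inv x) x = 0
  mul_inv : ∀ x, mul x (inv x) = 0
  smooth_mul : ContDiff ℝ ∞ fun p : E × E => mul p.1 p.2
  smooth_inv : ContDiff ℝ ∞ inv

namespace GroupLaw

variable {E : Type*} [NormedAddCommGroup E] [InnerProductSpace ℝ E] (G : GroupLaw E)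

/-- The left-invariant vector field with value `v` at the identity: its value at `g` is the
image of `v` under the derivative of the left translation by `g`. -/
noncomputable def field (v : E) : E → E := fun g => fderiv ℝ (G.mul g) 0 v

/-- The bracket of the Lie algebra of the group, on the tangent space `E` at the identity: the
value at the identity of the Lie bracket of the left-invariant vector fields. -/
noncomputable def bracket (v w : E) : E := VectorField.lieBracket ℝ (G.field v) (G.field w) 0

/-- A stratification of the Lie algebra `(E, G.bracket)` of `G`: a direct sum decomposition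
`E = V 1 ⊕ ... ⊕ V step` with `[V 1, V i] = V (i + 1)` (which is zero for `i ≥ step`) and
`V step ≠ 0`. -/
structure Stratification where
  /-- the number of layers -/
  step : ℕ
  /-- the layers `V 1, ..., V step` (all other `V i` are zero) -/
  V : ℕ → Submodule ℝ E
  internal : DirectSum.IsInternal V
  V_zero : V 0 = ⊥
  V_high : ∀ i, step < i → V i = ⊥
  gen : ∀ i, 1 ≤ i →
    Submodule.span ℝ {z | ∃ x ∈ V 1, ∃ y ∈ V i, z = G.bracket x y} = V (i + 1)
  last : V step ≠ ⊥

/-- The left-invariant Riemannian metric which is the inner product of `E` at the identity: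
`metric p v w` is the inner product at `p` of the tangent vectors `v` and `w`. -/
noncomputable def metric (p v w : E) : ℝ :=
  ⟪fderiv ℝ (G.mul (G.inv p)) p v, fderiv ℝ (G.mul (G.inv p)) p w⟫

/-- The pullback of the metric by the singular simplex `σ`: the matrix of the inner products of
its partial derivatives at the point `x` of `ordSimplex k`. -/
noncomputable def gram {k : ℕ} (σ : Simp E k) (x : Fin k → ℝ) : Matrix (Fin k) (Fin k) ℝ :=
  Matrix.of fun i j => G.metric (σ.param x)
    (fderivWithin ℝ σ.param (ordSimplex k) x (Pi.single i 1))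
    (fderivWithin ℝ σ.param (ordSimplex k) x (Pi.single j 1))

/-- The mass of a singular Lipschitz simplex: its Riemannian volume, counted with
multiplicity. -/
noncomputable def simpMass {k : ℕ} (σ : Simp E k) : ℝ≥0∞ :=
  ∫⁻ x in ordSimplex k, ENNReal.ofReal (Real.sqrt (G.gram σ x).det)

/-- The mass of a Lipschitz chain `∑ a σ • σ` is `∑ |a σ| * mass σ`. -/
noncomputable def mass {k : ℕ} (a : Chain E k) : ℝ≥0∞ :=
  ∑ σ ∈ a.support, ((a σ).natAbs : ℝ≥0∞) * G.simpMass σ

/-- The filling function for `k`-cycles: the supremum over the `k`-cycles `a` of mass at most `r`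
of the infimum of the masses of the `(k+1)`-chains with boundary `a`. -/
noncomputable def FV (k : ℕ) (r : ℝ) : ℝ≥0∞ :=
  ⨆ (a : Chain E k) (_ : IsCycle a) (_ : G.mass a ≤ ENNReal.ofReal r),
    ⨅ (b : Chain E (k + 1)) (_ : boundary b = a), G.mass b

/-- The bound `FV^{k+1} ≼ r ^ a` for the filling function in dimension `k`, up to the usual
equivalence. -/
def FillingBound (k : ℕ) (a : ℝ) : Prop :=
  ∃ C : ℝ, 0 < C ∧ ∀ r : ℝ, 0 ≤ r →
    G.FV k r ≤ ENNReal.ofReal (C * (C * r + C) ^ a + C * r + C)

/-- The filling function in dimension `k` is super-Euclidean: it is not bounded, up to the usual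
equivalence, by `r ^ ((k+1)/k)`. -/
def SuperEuclidean (k : ℕ) : Prop := ¬ G.FillingBound k (((k : ℝ) + 1) / (k : ℝ))

/-- The homogeneous dimension `∑ i * dim (V i)`. -/
noncomputable def Stratification.homDim {G : GroupLaw E} (S : G.Stratification) : ℝ :=
  ∑ i ∈ Finset.range (S.step + 1), (i : ℝ) * (Module.finrank ℝ (S.V i) : ℝ)

end GroupLaw

end Run7.h693
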