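import Pool.Agent.Run7.h693.Alg3
import Pool.Agent.Run7.h693.Defs

/-!
Lipschitz singular chains in the group `(E, L.mul)`, their mass for the left-invariant Riemannian
metric which is the inner product of `E` at the identity `0`, and filling functions.
-/

set_option linter.unusedSectionVars false
set_option linter.deprecated false

open Finset

namespace Run7.h693

/-- The number `min (1, x 0, ..., x (j - 1))`, each `x i` being clipped to `[0, 1]`.
If `1 ≥ x 0 ≥ x 1 ≥ ... ≥ x (k - 1) ≥ 0`, this is `1` for `j = 0` and `x (j - 1)` for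
`1 ≤ j ≤ k`. -/
noncomputable def cum {k : ℕ} (x : Fin k → ℝ) (j : ℕ) : Set.Icc (0 : ℝ) 1 :=
  Finset.univ.inf fun i : Fin k => if (i : ℕ) < j then Set.projIcc 0 1 zero_le_one (x i) else ⊤

/-- `cum` extended by zero to the indices larger than `k`. -/
noncomputable def cumE {k : ℕ} (x : Fin k → ℝ) (j : ℕ) : ℝ := if j ≤ k then (cum x j : ℝ) else 0

section chart

variable {k : ℕ} (x : Fin k → ℝ)

theorem cum_zero : cum x 0 = ⊤ := by
  simp [cum]

theorem cum_succ {j : ℕ} (hj : j < k) :
    cum x (j + 1) = cum x j ⊓ Set.projIcc 0 1 zero_le_one (x ⟨j, hj⟩) := by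
  apply le_antisymm
  · apply le_inf
    · unfold cum
      apply Finset.le_inf
      intro i _
      split_ifs with h
      · refine (Finset.inf_le (mem_univ i)).trans ?_
        rw [if_pos (by omega)]
      · exact le_top
    · unfold cum
      refine (Finset.inf_le (mem_univ (⟨j, hj⟩ : Fin k))).trans ?_
      rw [if_pos (by simp)]
  · unfold cum
    apply Finset.le_inf
    intro i _
    split_ifs with h
    · rcases Nat.lt_or_ge (i : ℕ) j with h' | h'
      · refine inf_le_left.trans ?_
        refine (Finset.inf_le (mem_univ i)).trans ?_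
        rw [if_pos h']
      · have : i = ⟨j, hj⟩ := Fin.ext (by simp only; omega)
        rw [this]
        exact inf_le_right
    · exact le_top

theorem cum_le {j : ℕ} (i : Fin k) (h : (i : ℕ) < j) :
    cum x j ≤ Set.projIcc 0 1 zero_le_one (x i) := by
  unfold cum
  refine (Finset.inf_le (mem_univ i)).trans ?_
  rw [if_pos h]

theorem le_cum {j : ℕ} {a : Set.Icc (0 : ℝ) 1}
    (h : ∀ i : Fin k, (i : ℕ) < j → a ≤ Set.projIcc 0 1 zero_le_one (x i)) : a ≤ cum x j := by
  unfold cum
  apply Finset.le_inf
  intro i _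
  split_ifs with h'
  · exact h i h'
  · exact le_top

theorem cum_anti {i j : ℕ} (h : i ≤ j) : cum x j ≤ cum x i :=
  le_cum x fun l hl => cum_le x l (lt_of_lt_of_le hl h)

theorem cum_congr {x x' : Fin k → ℝ} {j : ℕ} (h : ∀ i : Fin k, (i : ℕ) < j → x i = x' i) :
    cum x j = cum x' j := by
  apply le_antisymm
  · exact le_cum x' fun i hi => (h i hi) ▸ cum_le x i hi
  · exact le_cum x fun i hi => (h i hi) ▸ cum_le x' i hi

theorem cumE_zero : cumE x 0 = 1 := by
  rw [cumE, if_pos (Nat.zero_le k), cum_zero]
  rfl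

theorem cumE_anti {i j : ℕ} (h : i ≤ j) : cumE x j ≤ cumE x i := by
  unfold cumE
  split_ifs with h1 h2 h2
  · exact cum_anti x h
  · omega
  · exact (cum x i).2.1
  · exact le_rfl

theorem cumE_nonneg (j : ℕ) : 0 ≤ cumE x j := by
  unfold cumE
  split_ifs
  · exact (cum x j).2.1
  · exact le_rfl

/-- The barycentric coordinates `cumE x j - cumE x (j + 1)`. -/
noncomputable def bary (j : Fin (k + 1)) : ℝ := cumE x j - cumE x (j + 1)

theorem bary_mem : bary x ∈ stdSimplex ℝ (Fin (k + 1)) := by
  constructor
  · intro j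
    exact sub_nonneg.2 (cumE_anti x (Nat.le_succ _))
  · have h : ∑ j : Fin (k + 1), bary x j = ∑ j ∈ range (k + 1), (cumE x j - cumE x (j + 1)) := by
      rw [← Fin.sum_univ_eq_sum_range (fun j => cumE x j - cumE x (j + 1))]
      rfl
    rw [h, sum_range_sub', cumE_zero]
    have : cumE x (k + 1) = 0 := by
      rw [cumE, if_neg (by omega)]
    rw [this, sub_zero]

/-- The parametrisation of the standard simplex by `ordSimplex k`: on `ordSimplex k` it is the
affine map `x ↦ (1 - x 0, x 0 - x 1, ..., x (k - 2) - x (k - 1), x (k - 1))`. -/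
noncomputable def chart : stdSimplex ℝ (Fin (k + 1)) := ⟨bary x, bary_mem x⟩

theorem chart_apply (j : Fin (k + 1)) : (chart x : Fin (k + 1) → ℝ) j = bary x j := rfl

end chart

theorem cum_of_mem {k : ℕ} {x : Fin k → ℝ} (hx : x ∈ ordSimplex k) (j : Fin k) :
    (cum x (j + 1) : ℝ) = x j := by
  have h1 : cum x (j + 1) = Set.projIcc 0 1 zero_le_one (x j) := by
    apply le_antisymm
    · exact cum_le x j (Nat.lt_succ_self _)
    · apply le_cum
      intro i hi
      exact Set.monotone_projIcc zero_le_one (hx.1 (by rw [Fin.le_def]; omega))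
  rw [h1, Set.projIcc_of_mem zero_le_one ⟨(hx.2 j).1, (hx.2 j).2⟩]

theorem lipschitz_cum {k : ℕ} (j : ℕ) : LipschitzWith 1 (fun x : Fin k → ℝ => (cum x j : ℝ)) := by
  induction j with
  | zero =>
    simp only [cum_zero]
    exact LipschitzWith.const' _
  | succ j ih =>
    by_cases hj : j < k
    · have h1 : (fun x : Fin k → ℝ => (cum x (j + 1) : ℝ)) = fun x : Fin k → ℝ =>
          min (cum x j : ℝ) (Set.projIcc 0 1 zero_le_one (x ⟨j, hj⟩) : ℝ) := by
        funext x
        rw [cum_succ x hj]
        exact (Subtype.mono_coe _).map_min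
      rw [h1]
      have h2 : LipschitzWith 1 (fun x : Fin k → ℝ =>
          (Set.projIcc 0 1 zero_le_one (x ⟨j, hj⟩) : ℝ)) := by
        have h3 : LipschitzWith 1 (fun x : Fin k → ℝ => x ⟨j, hj⟩) := LipschitzWith.eval _
        have h4 := (LipschitzWith.subtype_val (Set.Icc (0 : ℝ) 1)).comp
          ((LipschitzWith.projIcc (zero_le_one (α := ℝ))).comp h3)
        have e : (1 : NNReal) * (1 * 1) = 1 := by norm_num
        rw [e] at h4
        exact h4
      simpa using ih.min h2
    · have h1 : (fun x : Fin k → ℝ => (cum x (j + 1) : ℝ)) = fun x : Fin k → ℝ =>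
          (cum x j : ℝ) := by
        funext x
        congr 1
        apply le_antisymm (cum_anti x (Nat.le_succ j))
        apply le_cum
        intro i _
        exact cum_le x i (by omega)
      rw [h1]
      exact ih

theorem lipschitz_cumE {k : ℕ} (j : ℕ) : LipschitzWith 1 (fun x : Fin k → ℝ => cumE x j) := by
  unfold cumE
  split_ifs
  · exact lipschitz_cum j
  · exact LipschitzWith.const' _

theorem lipschitz_chart {k : ℕ} : LipschitzWith 2 (chart : (Fin k → ℝ) → _) := by
  rw [lipschitzWith_iff_dist_le_mul]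
  intro x y
  rw [Subtype.dist_eq]
  rw [dist_pi_le_iff (by positivity)]
  intro j
  change dist (bary x j) (bary y j) ≤ _
  have h1 := (lipschitz_cumE (k := k) j).dist_le_mul x y
  have h2 := (lipschitz_cumE (k := k) (j + 1)).dist_le_mul x y
  unfold bary
  rw [Real.dist_eq] at *
  have : cumE x j - cumE x (j + 1) - (cumE y j - cumE y (j + 1)) =
    (cumE x j - cumE y j) - (cumE x (j + 1) - cumE y (j + 1)) := by ring
  rw [this]
  refine (abs_sub _ _).trans ?_
  simp only [NNReal.coe_one, NNReal.coe_ofNat] at *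
  linarith

/-- On the order simplex the chart has the barycentric coordinates `coords`. -/
theorem coords_eq {k : ℕ} {x : Fin k → ℝ} (hx : x ∈ ordSimplex k) : coords x = bary x := by
  funext j
  unfold coords bary
  congr 1
  · refine Fin.cases ?_ (fun i => ?_) j
    · rw [Fin.cons_zero, Fin.val_zero, cumE_zero]
    · rw [Fin.cons_succ, Fin.val_succ, cumE, if_pos (by have := i.2; omega)]
      exact (cum_of_mem hx i).symm
  · refine Fin.lastCases ?_ (fun i => ?_) j
    · rw [Fin.snoc_last, Fin.val_last, cumE, if_neg (by omega)]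
    · rw [Fin.snoc_castSucc, Fin.val_castSucc, cumE, if_pos (by have := i.2; omega)]
      exact (cum_of_mem hx i).symm

theorem param_eq {E : Type*} [NormedAddCommGroup E] {k : ℕ} (σ : Simp E k) {x : Fin k → ℝ}
    (hx : x ∈ ordSimplex k) : σ.param x = σ.toFun (chart x) := by
  have h : coords x ∈ stdSimplex ℝ (Fin (k + 1)) := by
    rw [coords_eq hx]
    exact bary_mem x
  rw [Simp.param, dif_pos h]
  congr 1
  exact Subtype.ext (coords_eq hx)

variable {E : Type*} [NormedAddCommGroup E] [InnerProductSpace ℝ E] [FiniteDimensional ℝ E]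

namespace StratLie

variable (L : StratLie E)

open scoped ENNReal RealInnerProductSpace

/-- The matrix of the pullback, at the point `x` of `ordSimplex k`, of the left-invariant
Riemannian metric under the singular simplex `σ`. The metric at `g` is the one for which
`A g`, the derivative at the identity of the left translation by `g`, is an isometry. -/
noncomputable def gram {k : ℕ} (σ : Simp E k) (x : Fin k → ℝ) : Matrix (Fin k) (Fin k) ℝ :=
  Matrix.of fun i j =>
    ⟪Ring.inverse (L.A (σ.1 (chart x)))
        (fderivWithin ℝ (fun y => σ.1 (chart y)) (ordSimplex k) x (Pi.single i 1)),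
      Ring.inverse (L.A (σ.1 (chart x)))
        (fderivWithin ℝ (fun y => σ.1 (chart y)) (ordSimplex k) x (Pi.single j 1))⟫

/-- The mass (Riemannian volume) of a Lipschitz singular simplex. -/
noncomputable def simpMass {k : ℕ} (σ : Simp E k) : ℝ≥0∞ :=
  ∫⁻ x in ordSimplex k, ENNReal.ofReal (Real.sqrt (L.gram σ x).det)

/-- The mass of a chain. -/
noncomputable def mass {k : ℕ} (a : Chain E k) : ℝ≥0∞ :=
  ∑ σ ∈ a.support, ((a σ).natAbs : ℝ≥0∞) * L.simpMass σ

/-- The filling function for `k`-cycles. -/
noncomputable def FV (k : ℕ) (r : ℝ) : ℝ≥0∞ :=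
  ⨆ (a : Chain E k) (_ : IsCycle a) (_ : L.mass a ≤ ENNReal.ofReal r),
    ⨅ (b : Chain E (k + 1)) (_ : boundary b = a), L.mass b

end StratLie

end Run7.h693
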