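import Pool.Agent.Run7.h693.Dev
import Pool.Agent.Run7.h693.Act

/-!
The developing map is bijective: it is a covering of the simply connected space `E`.
-/

set_option linter.unusedSectionVars false
set_option linter.deprecated false

open Topology
open scoped ENNReal RealInnerProductSpace ContDiff

namespace Run7.h693

namespace GroupLaw

variable {E : Type*} [NormedAddCommGroup E] [InnerProductSpace ℝ E]

/-- The underlying space of a group law. -/
def Car (_ : GroupLaw E) : Type _ := E

variable (G : GroupLaw E)

instance : TopologicalSpace G.Car := inferInstanceAs (TopologicalSpace E)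

noncomputable instance : Group G.Car where
  mul x y := G.mul x y
  one := (0 : E)
  inv x := G.inv x
  mul_assoc x y z := G.mul_assoc x y z
  one_mul x := G.zero_mul x
  mul_one x := G.mul_zero x
  inv_mul_cancel x := G.inv_mul x

instance : IsTopologicalGroup G.Car where
  continuous_mul := G.smooth_mul.continuous
  continuous_inv := G.smooth_inv.continuous

/-- The derivative of the left translation as an equivalence. -/
noncomputable def lE (g : E) : E ≃L[ℝ] E :=
  ContinuousLinearEquiv.equivOfInverse (G.l g) (G.om g) (G.om_l g) (G.l_om g)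

end GroupLaw

variable {E : Type*} [NormedAddCommGroup E] [InnerProductSpace ℝ E] [FiniteDimensional ℝ E]

variable (L : StratLie E) (G : GroupLaw E)

theorem dev_hasStrict {ψ : E → E} (hψ : ContDiff ℝ ∞ ψ)
    (hD : ∀ x v, fderiv ℝ ψ x (G.l x v) = L.A (ψ x) v) (x : E) :
    HasStrictFDerivAt ψ (((G.lE x).symm.trans (L.AE (ψ x)) : E ≃L[ℝ] E) : E →L[ℝ] E) x := by
  have h1 : HasStrictFDerivAt ψ (fderiv ℝ ψ x) x :=
    hψ.contDiffAt.hasStrictFDerivAt (by simp)
  have h2 : fderiv ℝ ψ x = (((G.lE x).symm.trans (L.AE (ψ x)) : E ≃L[ℝ] E) : E →L[ℝ] E) := by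
    ext v
    have h3 := hD x (G.om x v)
    rw [G.l_om] at h3
    exact h3
  rwa [h2] at h1

theorem dev_bijective {ψ : E → E} (hψ : ContDiff ℝ ∞ ψ) (h0 : ψ 0 = 0)
    (hD : ∀ x v, fderiv ℝ ψ x (G.l x v) = L.A (ψ x) v) : Function.Bijective ψ := by
  let Ψ : G.Car →* L.group.Car :=
    { toFun := ψ
      map_one' := h0
      map_mul' := dev_mul L G hψ h0 hD }
  have hcont : Continuous Ψ := hψ.continuous
  have hopen' : IsOpenMap ψ := isOpenMap_of_hasStrictFDerivAt_equiv (dev_hasStrict L G hψ hD)
  have hopen : IsOpenMap Ψ := hopen'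
  have : PreconnectedSpace L.group.Car := inferInstanceAs (PreconnectedSpace E)
  have : PreconnectedSpace G.Car := inferInstanceAs (PreconnectedSpace E)
  have : SimplyConnectedSpace L.group.Car := inferInstanceAs (SimplyConnectedSpace E)
  have : LocallyPathConnectedSpace L.group.Car := inferInstanceAs (LocallyPathConnectedSpace E)
  have hsurj : Function.Surjective Ψ := by
    have h1 : IsOpen (Ψ.range : Set L.group.Car) := by
      rw [MonoidHom.coe_range]
      exact hopen.isOpen_range
    have h2 : IsClopen (Ψ.range : Set L.group.Car) := ⟨Subgroup.isClosed_of_isOpen _ h1, h1⟩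
    have h3 := h2.eq_univ ⟨1, Ψ.range.one_mem⟩
    rw [MonoidHom.coe_range] at h3
    exact Set.range_eq_univ.1 h3
  have hq : IsQuotientMap Ψ := hopen.isQuotientMap hcont hsurj
  have hdisc : IsDiscrete (Ψ.ker : Set G.Car) := by
    constructor
    have h1 := (dev_hasStrict L G hψ hD 0).eventually_left_inverse
    obtain ⟨U, hU, hUo, hU0⟩ := eventually_nhds_iff.1 h1
    have h2 : DiscreteTopology Ψ.ker := by
      apply discreteTopology_of_isOpen_singleton_one
      have h3 : ({1} : Set Ψ.ker) = Subtype.val ⁻¹' (U : Set G.Car) := by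
        ext x
        simp only [Set.mem_singleton_iff]
        constructor
        · rintro rfl
          exact hU0
        · intro hx
          apply Subtype.ext
          have e1 := hU _ hx
          have e2 := hU _ hU0
          have e3 : ψ x.1 = ψ 0 := by
            have := x.2
            rw [MonoidHom.mem_ker] at this
            rw [h0]
            exact this
          rw [e3, e2] at e1
          exact e1.symm
      rw [h3]
      exact hUo.preimage continuous_subtype_val
    exact h2
  have cov : IsCoveringMap Ψ :=
    (hq.isQuotientCoveringMap_of_isDiscrete_ker_monoidHom hdisc).isCoveringMap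
  obtain ⟨s, ⟨hs0, hs1⟩, _⟩ := cov.existsUnique_continuousMap_lifts
    (ContinuousMap.id L.group.Car) 1 1 (map_one Ψ)
  have h1 : s ∘ Ψ = id := by
    apply cov.eq_of_comp_eq (s.continuous.comp hcont) continuous_id _ 1
    · simp [hs0]
    · rw [← Function.comp_assoc, hs1]
      rfl
  refine ⟨?_, hsurj⟩
  intro x y hxy
  have e1 := congrFun h1 x
  have e2 := congrFun h1 y
  have e3 : Ψ x = Ψ y := hxy
  rw [Function.comp_apply, id] at e1 e2
  rw [← e1, ← e2, e3]

end Run7.h693
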