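import Pool.Agent.Run7.h693.Lie

/-!
The developing map of a Lie group structure on `E` into the model group with the same Lie algebra:
integration of the Maurer-Cartan form, layer by layer.
-/

set_option linter.unusedSectionVars false
set_option linter.deprecated false

open scoped ENNReal RealInnerProductSpace ContDiff

namespace Run7.h693

variable {E : Type*} [NormedAddCommGroup E] [InnerProductSpace ℝ E] [FiniteDimensional ℝ E]

namespace StratLie

variable (L : StratLie E)

theorem Ai_mem_F (c : E) {i : ℕ} {x : E} (hx : x ∈ L.F i) : L.Ai c x ∈ L.F i := by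
  rw [← L.A_inv]
  exact L.A_mem_F _ hx

theorem A_sub_A_mem {i : ℕ} {c c' : E} (h : c' - c ∈ L.F i) (x : E) :
    L.A c' x - L.A c x ∈ L.F (i + 1) := by
  set u := L.Ai c (c' - c) with hu
  have hu1 : u ∈ L.F i := L.Ai_mem_F c h
  have hc : c' = L.mul c u := by
    rw [mul, hu, L.A_Ai]
    abel
  rw [hc, L.A_mul_apply, ← map_sub, add_comm]
  exact L.A_mem_F c (L.A_raise hu1 (L.mem_F_one x))

theorem proj_A_congr {i j : ℕ} {c c' : E} (h : c' - c ∈ L.F i) (hj : j < i + 1) (x : E) :
    L.proj j (L.A c' x) = L.proj j (L.A c x) := by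
  have h1 := L.A_sub_A_mem h x j hj
  rwa [map_sub, sub_eq_zero] at h1

theorem proj_fderiv_A {i j : ℕ} (c : E) {u : E} (hu : u ∈ L.F i) (hj : j < i + 1) (x : E) :
    L.proj j (fderiv ℝ L.A c u x) = 0 := by
  have hA : HasFDerivAt L.A (fderiv ℝ L.A c) c :=
    ((L.contDiff_A (n := 1)).differentiable (by simp) c).hasFDerivAt
  have h1 : HasDerivAt (fun s : ℝ => L.A (c + s • u)) (fderiv ℝ L.A c u) 0 :=
    hA.hasLineDerivAt u
  have h2 : HasDerivAt (fun s : ℝ => L.proj j (L.A (c + s • u) x))
      (L.proj j (fderiv ℝ L.A c u x)) 0 := by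
    have h3 : HasDerivAt (fun s : ℝ => L.A (c + s • u) x) (fderiv ℝ L.A c u x) 0 := by
      simpa using h1.clm_apply (hasDerivAt_const (0 : ℝ) x)
    exact (L.proj j).hasFDerivAt.comp_hasDerivAt (0 : ℝ) h3
  have h5 : (fun s : ℝ => L.proj j (L.A (c + s • u) x)) = fun _ => L.proj j (L.A c x) := by
    funext s
    apply L.proj_A_congr _ hj
    rw [add_sub_cancel_left]
    exact Submodule.smul_mem _ _ hu
  rw [h5] at h2
  exact h2.unique (hasDerivAt_const _ _)

theorem group_l : L.group.l = L.A := by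
  funext g
  exact L.fderiv_mul g 0

/-- The structure equation of the model. -/
theorem A_structure (c v w : E) :
    fderiv ℝ L.A c (L.A c v) w - fderiv ℝ L.A c (L.A c w) v = L.A c (L.group.bracket v w) := by
  have h := L.group.structure_eq c v w
  rwa [group_l] at h

end StratLie

variable (L : StratLie E) (G : GroupLaw E)

/-- The developing map modulo the layers above `i`. -/
theorem exists_dev_aux (hGL : ∀ v w, G.bracket v w = L.group.bracket v w) (i : ℕ) :
    ∃ ψ : E → E, ContDiff ℝ ∞ ψ ∧ ψ 0 = 0 ∧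
      ∀ x v, fderiv ℝ ψ x (G.l x v) - L.A (ψ x) v ∈ L.F (i + 1) := by
  induction i with
  | zero => exact ⟨fun _ => 0, contDiff_const, rfl, fun x v => L.mem_F_one _⟩
  | succ i ih =>
    obtain ⟨ψ, hψ, hψ0, hD⟩ := ih
    set P : E →L[ℝ] E := L.proj (i + 1) with hP
    set η : E → E →L[ℝ] E := fun x => (P.comp (L.A (ψ x))).comp (G.om x) with hη
    have hAψ : ContDiff ℝ ∞ fun x => L.A (ψ x) := L.contDiff_A.comp hψ
    have hηs : ContDiff ℝ ∞ η := (contDiff_const.clm_comp hAψ).clm_comp G.smooth_om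
    have hηl : ∀ x b, η x (G.l x b) = P (L.A (ψ x) b) := by
      intro x b
      simp only [hη, ContinuousLinearMap.comp_apply, G.om_l]
    have hηd : ∀ x, HasFDerivAt η (fderiv ℝ η x) x := fun x =>
      (hηs.differentiable (by simp) x).hasFDerivAt
    have hld : ∀ x, HasFDerivAt G.l (fderiv ℝ G.l x) x := fun x =>
      (G.smooth_l.differentiable (by simp) x).hasFDerivAt
    have hψd : ∀ x, HasFDerivAt ψ (fderiv ℝ ψ x) x := fun x =>
      (hψ.differentiable (by simp) x).hasFDerivAt
    have hAd : ∀ c, HasFDerivAt L.A (fderiv ℝ L.A c) c := fun c =>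
      ((L.contDiff_A (n := 1)).differentiable (by simp) c).hasFDerivAt
    -- differentiate `η x (l x b) = P (A (ψ x) b)`
    have h1 : ∀ x u b, fderiv ℝ η x u (G.l x b) + η x (fderiv ℝ G.l x u b) =
        P (fderiv ℝ L.A (ψ x) (fderiv ℝ ψ x u) b) := by
      intro x u b
      have e1 : HasFDerivAt (fun y => G.l y b) ((fderiv ℝ G.l x).flip b) x := by
        have := (hld x).clm_apply (hasFDerivAt_const b x)
        rwa [ContinuousLinearMap.comp_zero, zero_add] at this
      have e2 := (hηd x).clm_apply e1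
      have e3 : HasFDerivAt (fun y => L.A (ψ y) b)
          (((fderiv ℝ L.A (ψ x)).comp (fderiv ℝ ψ x)).flip b) x := by
        have := ((hAd (ψ x)).comp x (hψd x)).clm_apply (hasFDerivAt_const b x)
        rwa [ContinuousLinearMap.comp_zero, zero_add] at this
      have e4 := P.hasFDerivAt.comp x e3
      have e5 : (fun y => η y (G.l y b)) = P ∘ fun y => L.A (ψ y) b := by
        funext y
        exact hηl y b
      rw [e5] at e2
      have e6 := congrArg (fun f : E →L[ℝ] E => f u) (e2.unique e4)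
      simp only [ContinuousLinearMap.add_apply, ContinuousLinearMap.comp_apply,
        ContinuousLinearMap.flip_apply] at e6
      rw [← e6, add_comm]
    -- closedness on the frame
    have h2 : ∀ x a b, fderiv ℝ η x (G.l x a) (G.l x b) = fderiv ℝ η x (G.l x b) (G.l x a) := by
      intro x a b
      have e1 := h1 x (G.l x a) b
      have e2 := h1 x (G.l x b) a
      have e3 : ∀ a b, P (fderiv ℝ L.A (ψ x) (fderiv ℝ ψ x (G.l x a)) b) =
          P (fderiv ℝ L.A (ψ x) (L.A (ψ x) a) b) := by
        intro a b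
        have e4 := L.proj_fderiv_A (ψ x) (hD x a) (Nat.lt_succ_self (i + 1)) b
        rw [map_sub, ContinuousLinearMap.sub_apply, map_sub, sub_eq_zero] at e4
        exact e4
      rw [e3] at e1 e2
      have e5 : P (fderiv ℝ L.A (ψ x) (L.A (ψ x) a) b) - P (fderiv ℝ L.A (ψ x) (L.A (ψ x) b) a) =
          P (L.A (ψ x) (G.bracket a b)) := by
        rw [← map_sub, L.A_structure, hGL]
      have e6 : η x (fderiv ℝ G.l x (G.l x a) b) - η x (fderiv ℝ G.l x (G.l x b) a) =
          P (L.A (ψ x) (G.bracket a b)) := by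
        rw [← map_sub, G.structure_eq, hηl]
      rw [← e1, ← e2, ← e6] at e5
      rw [← sub_eq_zero]
      have e7 := sub_eq_zero.2 e5
      rw [← e7]
      abel
    have h3 : ∀ x u v, fderiv ℝ η x u v = fderiv ℝ η x v u := by
      intro x u v
      have := h2 x (G.om x u) (G.om x v)
      rwa [G.l_om, G.l_om] at this
    obtain ⟨f, hf⟩ := (convex_univ (𝕜 := ℝ) (E := E)).exists_forall_hasFDerivAt_of_fderiv_symmetric
      isOpen_univ (hηs.differentiable (by simp)).differentiableOn fun x _ u v => h3 x u v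
    have hf' : ∀ x, HasFDerivAt f (η x) x := fun x => hf x (Set.mem_univ x)
    have hfs : ContDiff ℝ ∞ f := by
      rw [contDiff_infty_iff_fderiv]
      refine ⟨fun x => (hf' x).differentiableAt, ?_⟩
      have : fderiv ℝ f = η := funext fun x => (hf' x).fderiv
      rw [this]
      exact hηs
    refine ⟨fun x => ψ x - P (ψ x) + P (f x - f 0), ?_, ?_, ?_⟩
    · exact (hψ.sub (P.contDiff.comp hψ)).add (P.contDiff.comp (hfs.sub contDiff_const))
    · simp [hψ0]
    · intro x v
      have e1 : HasFDerivAt (fun x => ψ x - P (ψ x) + P (f x - f 0))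
          (fderiv ℝ ψ x - P.comp (fderiv ℝ ψ x) + P.comp (η x)) x :=
        ((hψd x).sub (P.hasFDerivAt.comp x (hψd x))).add
          (P.hasFDerivAt.comp x ((hf' x).sub_const (f 0)))
      rw [e1.fderiv]
      set e := fderiv ℝ ψ x (G.l x v) - L.A (ψ x) v with he
      have e2 : (fderiv ℝ ψ x - P.comp (fderiv ℝ ψ x) + P.comp (η x)) (G.l x v) =
          e - P e + L.A (ψ x) v := by
        simp only [ContinuousLinearMap.add_apply, ContinuousLinearMap.sub_apply,
          ContinuousLinearMap.comp_apply, hηl, he, map_sub]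
        have : P (P (L.A (ψ x) v)) = P (L.A (ψ x) v) := L.proj_proj_self _ _
        rw [this]
        abel
      rw [e2]
      have e3 : e - P e ∈ L.F (i + 1 + 1) := L.sub_proj_mem (hD x v)
      have e4 : L.A (ψ x) v - L.A (ψ x - P (ψ x) + P (f x - f 0)) v ∈ L.F (i + 1 + 1) := by
        apply L.A_sub_A_mem
        have : ψ x - (ψ x - P (ψ x) + P (f x - f 0)) = P (ψ x - (f x - f 0)) := by
          simp only [map_sub]
          abel
        rw [this]
        exact L.V_le_F le_rfl (L.proj_mem _ _)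
      have e5 := Submodule.add_mem _ e3 e4
      rw [← add_sub_assoc] at e5
      exact e5

/-- The developing map. -/
theorem exists_dev (hGL : ∀ v w, G.bracket v w = L.group.bracket v w) :
    ∃ ψ : E → E, ContDiff ℝ ∞ ψ ∧ ψ 0 = 0 ∧ ∀ x v, fderiv ℝ ψ x (G.l x v) = L.A (ψ x) v := by
  obtain ⟨ψ, h1, h2, h3⟩ := exists_dev_aux L G hGL L.step
  refine ⟨ψ, h1, h2, fun x v => ?_⟩
  rw [← sub_eq_zero]
  exact L.F_high (Nat.lt_succ_self _) (h3 x v)

/-- Uniqueness of developing maps. -/
theorem dev_unique {f₁ f₂ : E → E} (h₁ : Differentiable ℝ f₁) (h₂ : Differentiable ℝ f₂)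
    (h0 : f₁ 0 = f₂ 0) (hD₁ : ∀ x v, fderiv ℝ f₁ x (G.l x v) = L.A (f₁ x) v)
    (hD₂ : ∀ x v, fderiv ℝ f₂ x (G.l x v) = L.A (f₂ x) v) : f₁ = f₂ := by
  have key : ∀ i, ∀ x, f₁ x - f₂ x ∈ L.F i := by
    intro i
    induction i with
    | zero => exact fun x => L.mem_F_zero _
    | succ i ih =>
      have h1 : ∀ x, fderiv ℝ (fun x => L.proj i (f₁ x - f₂ x)) x = 0 := by
        intro x
        have e1 : HasFDerivAt (fun x => L.proj i (f₁ x - f₂ x))
            ((L.proj i).comp (fderiv ℝ f₁ x - fderiv ℝ f₂ x)) x :=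
          (L.proj i).hasFDerivAt.comp x ((h₁ x).hasFDerivAt.sub (h₂ x).hasFDerivAt)
        rw [e1.fderiv]
        ext v
        have e2 : v = G.l x (G.om x v) := (G.l_om x v).symm
        rw [ContinuousLinearMap.comp_apply, ContinuousLinearMap.sub_apply, e2, hD₁, hD₂]
        exact L.A_sub_A_mem (ih x) _ i (Nat.lt_succ_self i)
      have h2 : Differentiable ℝ (fun x => L.proj i (f₁ x - f₂ x)) :=
        (L.proj i).differentiable.comp (h₁.sub h₂)
      intro x
      apply L.mem_F_succ (ih x)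
      have h3 : L.proj i (f₁ x - f₂ x) = L.proj i (f₁ 0 - f₂ 0) :=
        is_const_of_fderiv_eq_zero h2 h1 x 0
      rw [h3, h0, sub_self, map_zero]
  funext x
  rw [← sub_eq_zero]
  exact L.F_high (Nat.lt_succ_self L.step) (key _ x)

/-- The developing map is a homomorphism. -/
theorem dev_mul {ψ : E → E} (hψ : ContDiff ℝ ∞ ψ) (h0 : ψ 0 = 0)
    (hD : ∀ x v, fderiv ℝ ψ x (G.l x v) = L.A (ψ x) v) (g x : E) :
    ψ (G.mul g x) = L.mul (ψ g) (ψ x) := by
  have hd : Differentiable ℝ ψ := hψ.differentiable (by simp)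
  have h := dev_unique L G (f₁ := fun x => ψ (G.mul g x)) (f₂ := fun x => L.mul (ψ g) (ψ x))
    (hd.comp (G.differentiable_mul_left g)) ?_ ?_ ?_ ?_
  · exact congrFun h x
  · exact ((L.A (ψ g)).differentiable.comp hd).const_add (ψ g)
  · simp only [G.mul_zero, h0, L.mul_zero']
  · intro x v
    have e1 : HasFDerivAt (fun x => ψ (G.mul g x))
        ((fderiv ℝ ψ (G.mul g x)).comp (fderiv ℝ (G.mul g) x)) x :=
      (hd _).hasFDerivAt.comp x (G.differentiable_mul_left g x).hasFDerivAt
    rw [e1.fderiv, ContinuousLinearMap.comp_apply, G.fderiv_mul_l, hD]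
  · intro x v
    have e1 : HasFDerivAt (fun x => L.mul (ψ g) (ψ x)) ((L.A (ψ g)).comp (fderiv ℝ ψ x)) x :=
      ((L.A (ψ g)).hasFDerivAt.comp x (hd x).hasFDerivAt).const_add (ψ g)
    rw [e1.fderiv, ContinuousLinearMap.comp_apply, hD, L.A_mul_apply]

end Run7.h693
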