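import Pool.Agent.Run7.h693.Horiz

set_option linter.unusedSectionVars false
set_option linter.deprecated false

open Finset MeasureTheory Filter Topology Module
open scoped ENNReal RealInnerProductSpace

namespace Run7.h693

variable {E : Type*} [NormedAddCommGroup E] [InnerProductSpace ℝ E] [FiniteDimensional ℝ E]

variable (L : StratLie E)

/-- Left translation of tuples. -/
noncomputable def StratLie.lact {k : ℕ} (x : E) (g : Fin k → E) : Fin k → E :=
  fun j => L.mul x (g j)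

/-- Tuples of bounded diameter. -/
def StratLie.Adm (R : ℝ) {k : ℕ} (g : Fin k → E) : Prop :=
  ∀ i j, ‖L.mul (L.inv (g i)) (g j)‖ ≤ R

theorem Adm.comp {R : ℝ} {k l : ℕ} {g : Fin k → E} (h : L.Adm R g) (f : Fin l → Fin k) :
    L.Adm R (g ∘ f) := fun i j => h (f i) (f j)

theorem inv_mul_lact (x u v : E) :
    L.mul (L.inv (L.mul x u)) (L.mul x v) = L.mul (L.inv u) v := by
  rw [L.mul_inv_rev', L.mul_assoc', L.inv_mul_cancel_left']

theorem adm_lact {R : ℝ} {k : ℕ} (x : E) (g : Fin k → E) :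
    L.Adm R (L.lact x g) ↔ L.Adm R g := by
  unfold StratLie.Adm StratLie.lact
  simp only [inv_mul_lact]

/-- The simplicial coboundary of a function of tuples. -/
def dS {M : Type*} [AddCommGroup M] {k : ℕ} (Z : (Fin (k + 1) → E) → M) (g : Fin (k + 2) → E) : M :=
  ∑ i : Fin (k + 2), (-1 : ℤ) ^ (i : ℕ) • Z (g ∘ i.succAbove)

theorem dS_dS {M : Type*} [AddCommGroup M] {k : ℕ} (Z : (Fin (k + 1) → E) → M)
    (g : Fin (k + 3) → E) : dS (dS Z) g = 0 := by
  unfold dS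
  simp only [smul_sum, smul_smul, ← pow_add]
  rw [← Fintype.sum_prod_type' (f := fun (i : Fin (k + 3)) (j : Fin (k + 2)) =>
    (-1 : ℤ) ^ ((i : ℕ) + (j : ℕ)) • Z ((g ∘ i.succAbove) ∘ j.succAbove))]
  refine sum_involution (fun p _ => (p.1.succAbove p.2, p.2.predAbove p.1)) ?_ ?_ ?_ ?_
  · rintro ⟨i, j⟩ _
    simp only
    rw [Fin.neg_one_pow_succAbove_add_predAbove]
    have : (g ∘ (i.succAbove j).succAbove) ∘ (j.predAbove i).succAbove =
        (g ∘ i.succAbove) ∘ j.succAbove := by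
      funext l
      simp only [Function.comp_apply]
      rw [Fin.succAbove_succAbove_succAbove_predAbove]
    rw [this, neg_smul, add_neg_cancel]
  · rintro ⟨i, j⟩ _ _ h
    have := congrArg Prod.fst h
    exact Fin.succAbove_ne i j this
  · intro _ _; exact mem_univ _
  · rintro ⟨i, j⟩ _
    simp only [Prod.mk.injEq]
    exact ⟨Fin.succAbove_succAbove_predAbove i j, Fin.predAbove_predAbove_succAbove i j⟩

theorem dS_map {M N : Type*} [AddCommGroup M] [AddCommGroup N] (f : M →ₗ[ℤ] N) {k : ℕ}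
    (Z : (Fin (k + 1) → E) → M) (g : Fin (k + 2) → E) :
    f (dS Z g) = dS (fun u => f (Z u)) g := by
  unfold dS
  rw [map_sum]
  refine sum_congr rfl fun i _ => ?_
  rw [map_smul]

theorem dS_sub {M : Type*} [AddCommGroup M] {k : ℕ} (Z Z' : (Fin (k + 1) → E) → M)
    (g : Fin (k + 2) → E) : dS (fun u => Z u - Z' u) g = dS Z g - dS Z' g := by
  unfold dS
  rw [← sum_sub_distrib]
  refine sum_congr rfl fun i _ => ?_
  rw [smul_sub]

theorem dS_congr {M : Type*} [AddCommGroup M] {R : ℝ} {k : ℕ} {Z Z' : (Fin (k + 1) → E) → M}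
    (h : ∀ u, L.Adm R u → Z u = Z' u) {g : Fin (k + 2) → E} (hg : L.Adm R g) :
    dS Z g = dS Z' g := by
  unfold dS
  refine sum_congr rfl fun i _ => ?_
  rw [h _ (Adm.comp L hg i.succAbove)]

/-- Equivariance of chain valued functions of tuples. -/
def StratLie.EqV (t : ℝ) {k l : ℕ} (Z : (Fin k → E) → Chain E l) : Prop :=
  ∀ x g, Z (L.lact x g) = L.Tr (L.dil t x) (Z g)

theorem EqV.dS {t : ℝ} {k l : ℕ} {Z : (Fin (k + 1) → E) → Chain E l} (h : L.EqV t Z) :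
    L.EqV t (dS Z) := by
  intro x g
  rw [dS_map]
  unfold Run7.h693.dS
  refine sum_congr rfl fun i _ => ?_
  have := h x (g ∘ i.succAbove)
  change _ = (-1 : ℤ) ^ (i : ℕ) • L.Tr (L.dil t x) (Z (g ∘ i.succAbove))
  rw [← this]
  rfl

theorem EqV.sub {t : ℝ} {k l : ℕ} {Z Z' : (Fin k → E) → Chain E l} (h : L.EqV t Z)
    (h' : L.EqV t Z') : L.EqV t (fun g => Z g - Z' g) := by
  intro x g
  simp only
  rw [h x g, h' x g, map_sub]

/-- The filling function is at most `r ^ a`, up to the usual equivalence. -/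
def StratLie.EF (k : ℕ) (a : ℝ) : Prop := ∃ C : ℝ, 0 < C ∧ ∀ r : ℝ, 0 ≤ r → L.FV k r ≤
    ENNReal.ofReal (C * (C * r + C) ^ a + C * r + C)

theorem exists_fill {k : ℕ} {r B : ℝ} (hB : L.FV (k + 1) r < ENNReal.ofReal B)
    {a : Chain E (k + 1)} (ha : boundary a = 0) (hm : L.mass a ≤ ENNReal.ofReal r) :
    ∃ b : Chain E (k + 2), boundary b = a ∧ L.mass b ≤ ENNReal.ofReal B := by
  have h1 : (⨅ (b : Chain E (k + 2)) (_ : boundary b = a), L.mass b) ≤ L.FV (k + 1) r := by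
    unfold StratLie.FV
    exact le_iSup_of_le a (le_iSup_of_le ha (le_iSup_of_le hm le_rfl))
  have h2 := lt_of_le_of_lt h1 hB
  rw [iInf_lt_iff] at h2
  obtain ⟨b, hb⟩ := h2
  rw [iInf_lt_iff] at hb
  obtain ⟨hb1, hb2⟩ := hb
  exact ⟨b, hb1, hb2.le⟩

/-- Equivariant fillings. -/
theorem equiv_fill {k m : ℕ} {t : ℝ} {Z : (Fin (m + 1) → E) → Chain E (k + 1)} (hZ : L.EqV t Z)
    {R r B : ℝ} (hB : L.FV (k + 1) r < ENNReal.ofReal B)
    (hcyc : ∀ g, L.Adm R g → boundary (Z g) = 0 ∧ L.mass (Z g) ≤ ENNReal.ofReal r) :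
    ∃ Φ : (Fin (m + 1) → E) → Chain E (k + 2), L.EqV t Φ ∧
      ∀ g, L.Adm R g → boundary (Φ g) = Z g ∧ L.mass (Φ g) ≤ ENNReal.ofReal B := by
  classical
  let c : (Fin (m + 1) → E) → Chain E (k + 2) := fun u =>
    if h : ∃ b : Chain E (k + 2), boundary b = Z u ∧ L.mass b ≤ ENNReal.ofReal B then h.choose
    else 0
  have hc : ∀ u, L.Adm R u → boundary (c u) = Z u ∧ L.mass (c u) ≤ ENNReal.ofReal B := by
    intro u hu
    have h := exists_fill L hB (hcyc u hu).1 (hcyc u hu).2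
    simp only [c, dif_pos h]
    exact h.choose_spec
  refine ⟨fun g => L.Tr (L.dil t (g 0)) (c (L.lact (L.inv (g 0)) g)), ?_, ?_⟩
  · intro x g
    simp only
    have h1 : L.lact (L.inv (L.lact x g 0)) (L.lact x g) = L.lact (L.inv (g 0)) g := by
      funext j
      exact inv_mul_lact L x (g 0) (g j)
    rw [h1, Tr_Tr, ← L.dil_mul]
    rfl
  · intro g hg
    have hu : L.Adm R (L.lact (L.inv (g 0)) g) := (adm_lact L _ g).2 hg
    obtain ⟨h1, h2⟩ := hc _ hu
    constructor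
    · rw [boundary_Tr, h1, ← hZ]
      congr 1
      funext j
      exact L.mul_inv_cancel_left' (g 0) (g j)
    · exact (mass_Tr_le L _ _).trans h2

/-- The reference simplices: affine simplices with vertices `δ_t g_i`. -/
noncomputable def StratLie.affD (t : ℝ) {k : ℕ} (g : Fin (k + 1) → E) : Chain E k :=
  affC fun j => L.dil t (g j)

theorem boundary_affD (t : ℝ) {k : ℕ} (g : Fin (k + 2) → E) :
    boundary (L.affD t g) = dS (L.affD t) g := by
  rw [StratLie.affD, boundary_affC]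
  rfl

theorem eqV_affD (t : ℝ) {k : ℕ} : L.EqV t (L.affD t (k := k)) := by
  intro x g
  rw [StratLie.affD, StratLie.affD, Tr_affC]
  congr 1
  funext j
  exact L.dil_mul t x (g j)

theorem mass_affD_le (t R : ℝ) (k : ℕ) : ∃ C : ℝ, 0 ≤ C ∧ ∀ g : Fin (k + 1) → E, L.Adm R g →
    L.mass (L.affD t g) ≤ ENNReal.ofReal C := by
  obtain ⟨C, hC⟩ := simpMass_aff_le L k (‖L.dil t‖ * R)
  refine ⟨max C 0, le_max_right _ _, fun g hg => ?_⟩
  have h1 : g = L.lact (g 0) (L.lact (L.inv (g 0)) g) := by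
    funext j
    exact (L.mul_inv_cancel_left' (g 0) (g j)).symm
  rw [h1, eqV_affD]
  refine (mass_Tr_le L _ _).trans ?_
  rw [StratLie.affD, affC, mass_single]
  refine (hC _ fun j => ?_).trans (ENNReal.ofReal_le_ofReal (le_max_left _ _))
  exact ((L.dil t).le_opNorm _).trans (mul_le_mul_of_nonneg_left (hg 0 j) (norm_nonneg _))

theorem mass_dS_le {R c : ℝ} {k l : ℕ} {Z : (Fin (k + 1) → E) → Chain E l}
    (h : ∀ g, L.Adm R g → L.mass (Z g) ≤ ENNReal.ofReal c) {g : Fin (k + 2) → E}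
    (hg : L.Adm R g) : L.mass (dS Z g) ≤ ENNReal.ofReal (((k : ℝ) + 2) * c) := by
  unfold dS
  refine (mass_sum_le L _ _).trans ?_
  have h1 : ∀ i ∈ (univ : Finset (Fin (k + 2))),
      L.mass ((-1 : ℤ) ^ (i : ℕ) • Z (g ∘ i.succAbove)) ≤ ENNReal.ofReal c := by
    intro i _
    rw [mass_neg_one_pow]
    exact h _ (Adm.comp L hg i.succAbove)
  refine (sum_le_sum h1).trans ?_
  rw [sum_const, card_univ, Fintype.card_fin, nsmul_eq_mul]
  rw [ENNReal.ofReal_mul (by positivity)]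
  gcongr
  rw [← ENNReal.ofReal_natCast]
  apply ENNReal.ofReal_le_ofReal
  push_cast
  exact le_rfl

/-- Scaling of the bound for the filling function. -/
theorem EF.scale {k : ℕ} {a : ℝ} (ha : 1 ≤ a) (h : L.EF k a) {C₀ s : ℝ} (hC₀ : 0 ≤ C₀)
    (hs : 0 ≤ s) : ∃ C₁ : ℝ, 0 < C₁ ∧ ∀ t : ℝ, 1 ≤ t →
      L.FV k (C₀ * t ^ s) < ENNReal.ofReal (C₁ * t ^ (s * a)) := by
  obtain ⟨C, hC, hF⟩ := h
  refine ⟨C * (C * C₀ + C) ^ a + C * C₀ + C + 1, by positivity, fun t ht => ?_⟩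
  have ht0 : (0 : ℝ) < t := by linarith
  have h1 := hF (C₀ * t ^ s) (by positivity)
  refine lt_of_le_of_lt h1 ?_
  have hts : (1 : ℝ) ≤ t ^ s := Real.one_le_rpow ht hs
  have hsa : s ≤ s * a := by nlinarith
  have hts1 : (1 : ℝ) ≤ t ^ (s * a) := Real.one_le_rpow ht (hs.trans hsa)
  have hts2 : t ^ s ≤ t ^ (s * a) := Real.rpow_le_rpow_of_exponent_le ht hsa
  rw [ENNReal.ofReal_lt_ofReal_iff (by positivity)]
  have h2 : (C * (C₀ * t ^ s) + C) ^ a ≤ (C * C₀ + C) ^ a * t ^ (s * a) := by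
    have h3 : C * (C₀ * t ^ s) + C ≤ (C * C₀ + C) * t ^ s := by nlinarith
    have h4 : (t ^ s : ℝ) ^ a = t ^ (s * a) := by rw [← Real.rpow_mul ht0.le]
    calc (C * (C₀ * t ^ s) + C) ^ a ≤ ((C * C₀ + C) * t ^ s) ^ a :=
          Real.rpow_le_rpow (by positivity) h3 (by positivity)
      _ = (C * C₀ + C) ^ a * t ^ (s * a) := by
          rw [Real.mul_rpow (by positivity) (by positivity), h4]
  have h5 : C * (C * (C₀ * t ^ s) + C) ^ a ≤ C * (C * C₀ + C) ^ a * t ^ (s * a) := by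
    rw [mul_assoc]
    exact mul_le_mul_of_nonneg_left h2 hC.le
  have h6 : C * (C₀ * t ^ s) ≤ C * C₀ * t ^ (s * a) := by
    rw [← mul_assoc]
    exact mul_le_mul_of_nonneg_left hts2 (by positivity)
  have h7 : C ≤ C * t ^ (s * a) := by nlinarith
  nlinarith

/-- The exponent `a 1 * a 2 * ... * a k`. -/
noncomputable def ex (a : ℕ → ℝ) (k : ℕ) : ℝ := ∏ i ∈ range k, a (i + 1)

theorem ex_zero (a : ℕ → ℝ) : ex a 0 = 1 := by simp [ex]

theorem ex_succ (a : ℕ → ℝ) (k : ℕ) : ex a (k + 1) = ex a k * a (k + 1) := by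
  rw [ex, prod_range_succ]
  rfl

theorem ex_nonneg {a : ℕ → ℝ} {m : ℕ} (ha : ∀ k, 1 ≤ k → k ≤ m → 1 ≤ a k) {k : ℕ} (hk : k ≤ m) :
    0 ≤ ex a k := by
  apply prod_nonneg
  intro i hi
  rw [mem_range] at hi
  linarith [ha (i + 1) (by omega) (by omega)]

/-- The inductive statement: for every `t ≥ 1` there are equivariant families `φ` of
`(k+1)`-chains with mass `O(t^s)` and `h` of `(k+2)`-chains which are compatible. -/
def StratLie.Stage (R : ℝ) (s : ℝ) (k : ℕ) : Prop :=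
  ∃ C : ℝ, 0 < C ∧ ∀ t : ℝ, 1 ≤ t → ∃ (K : ℝ) (φ : (Fin (k + 2) → E) → Chain E (k + 1))
    (h : (Fin (k + 2) → E) → Chain E (k + 2)), 0 ≤ K ∧ L.EqV t φ ∧ L.EqV t h ∧
    (∀ g, L.Adm R g → L.mass (φ g) ≤ ENNReal.ofReal (C * t ^ s) ∧
      L.mass (h g) ≤ ENNReal.ofReal K) ∧
    ∀ g : Fin (k + 3) → E, L.Adm R g → boundary (dS φ g) = 0 ∧
      boundary (dS h g) = dS φ g - dS (L.affD t) g

theorem stage_zero (R : ℝ) {a : ℝ} (ha : 1 ≤ a) (h1 : L.EF 1 a) : L.Stage R 1 0 := by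
  classical
  obtain ⟨C, hC, hpath⟩ := exists_path L R
  refine ⟨C, hC, fun t ht => ?_⟩
  have ht0 : 0 ≤ t := by linarith
  let c : E → Chain E 1 := fun u => if h : ∃ c : Chain E 1,
    boundary c = affC (fun _ : Fin 1 => L.dil t u) - affC (fun _ : Fin 1 => (0 : E)) ∧
      L.mass c ≤ ENNReal.ofReal (C * t) then h.choose else 0
  have hc : ∀ u : E, ‖u‖ ≤ R → boundary (c u) =
      affC (fun _ : Fin 1 => L.dil t u) - affC (fun _ : Fin 1 => (0 : E)) ∧
      L.mass (c u) ≤ ENNReal.ofReal (C * t) := by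
    intro u hu
    have h := hpath t ht0 u hu
    simp only [c, dif_pos h]
    exact h.choose_spec
  let φ : (Fin 2 → E) → Chain E 1 := fun g =>
    L.Tr (L.dil t (g 0)) (c (L.mul (L.inv (g 0)) (g 1)))
  have hφE : L.EqV t φ := by
    intro x g
    simp only [φ, StratLie.lact, inv_mul_lact]
    rw [Tr_Tr, ← L.dil_mul]
  have hφ : ∀ g, L.Adm R g → boundary (φ g) = dS (L.affD t) g ∧
      L.mass (φ g) ≤ ENNReal.ofReal (C * t) := by
    intro g hg
    obtain ⟨h2, h3⟩ := hc _ (hg 0 1)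
    refine ⟨?_, (mass_Tr_le L _ _).trans h3⟩
    simp only [φ]
    rw [boundary_Tr, h2, map_sub, Tr_affC, Tr_affC]
    simp only [← L.dil_mul, L.mul_inv_cancel_left', L.mul_zero']
    unfold dS
    rw [Fin.sum_univ_two]
    have e1 : L.affD t (g ∘ (0 : Fin 2).succAbove) = affC fun _ : Fin 1 => L.dil t (g 1) := by
      unfold StratLie.affD
      congr 1
      funext i
      fin_cases i
      rfl
    have e2 : L.affD t (g ∘ (1 : Fin 2).succAbove) = affC fun _ : Fin 1 => L.dil t (g 0) := by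
      unfold StratLie.affD
      congr 1
      funext i
      fin_cases i
      rfl
    rw [e1, e2]
    simp only [Fin.val_zero, pow_zero, one_smul, Fin.val_one, pow_one, neg_smul]
    abel
  obtain ⟨M, hM0, hM⟩ := mass_affD_le L t R 1
  obtain ⟨C₁, hC₁, hF⟩ := EF.scale L ha h1 (C₀ := C * t + M) (s := 1) (by positivity)
    zero_le_one
  have hB := hF 1 le_rfl
  rw [Real.one_rpow, Real.one_rpow, mul_one, mul_one] at hB
  have hZE : L.EqV t (fun g => φ g - L.affD t g) := EqV.sub L hφE (eqV_affD L t)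
  obtain ⟨h, hE, hh⟩ := equiv_fill L hZE (R := R) hB (fun g hg => by
    constructor
    · rw [map_sub, (hφ g hg).1, boundary_affD, sub_self]
    · refine (mass_sub_le L _ _).trans ?_
      rw [ENNReal.ofReal_add (by positivity) hM0]
      exact add_le_add (hφ g hg).2 (hM g hg))
  refine ⟨C₁, φ, h, hC₁.le, hφE, hE, fun g hg => ⟨?_, (hh g hg).2⟩, fun g hg => ⟨?_, ?_⟩⟩
  · simpa using (hφ g hg).2
  · rw [dS_map, dS_congr L (fun u hu => (hφ u hu).1) hg, dS_dS]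
  · rw [dS_map, dS_congr L (fun u hu => (hh u hu).1) hg, dS_sub]

/-- The filling step for `φ`. -/
theorem fill_phi (R : ℝ) {k : ℕ} {a s : ℝ} (ha : 1 ≤ a) (hs : 0 ≤ s) (hk : L.EF (k + 1) a)
    {C : ℝ} (hC : 0 < C) :
    ∃ C' : ℝ, 0 < C' ∧ ∀ t : ℝ, 1 ≤ t → ∀ φ : (Fin (k + 2) → E) → Chain E (k + 1),
      L.EqV t φ → (∀ g, L.Adm R g → L.mass (φ g) ≤ ENNReal.ofReal (C * t ^ s)) →
      (∀ g : Fin (k + 3) → E, L.Adm R g → boundary (dS φ g) = 0) →
      ∃ φ' : (Fin (k + 3) → E) → Chain E (k + 2), L.EqV t φ' ∧ ∀ g, L.Adm R g →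
        boundary (φ' g) = dS φ g ∧ L.mass (φ' g) ≤ ENNReal.ofReal (C' * t ^ (s * a)) := by
  obtain ⟨C₁, hC₁, hF⟩ := EF.scale L ha hk
    (C₀ := ((k + 1 : ℕ) + 2 : ℝ) * C) (s := s) (by positivity) hs
  refine ⟨C₁, hC₁, fun t ht φ hφE hφ hcyc => ?_⟩
  refine equiv_fill L (EqV.dS L hφE) (R := R) (hF t ht) (fun g hg => ⟨hcyc g hg, ?_⟩)
  have := mass_dS_le L (c := C * t ^ s) hφ hg
  rw [← mul_assoc] at this
  exact this

theorem stage_succ (R : ℝ) {k : ℕ} {a a' s : ℝ} (ha : 1 ≤ a) (ha' : 1 ≤ a') (hs : 0 ≤ s)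
    (hk : L.EF (k + 1) a) (hk' : L.EF (k + 2) a') (hS : L.Stage R s k) :
    L.Stage R (s * a) (k + 1) := by
  obtain ⟨C, hC, hS⟩ := hS
  obtain ⟨C', hC', hfill⟩ := fill_phi L R ha hs hk hC
  refine ⟨C', hC', fun t ht => ?_⟩
  obtain ⟨K, φ, h, hK, hφE, hhE, hmass, hbd⟩ := hS t ht
  obtain ⟨φ', hφ'E, hφ'⟩ := hfill t ht φ hφE (fun g hg => (hmass g hg).1)
    (fun g hg => (hbd g hg).1)
  obtain ⟨M, hM0, hM⟩ := mass_affD_le L t R (k + 2)
  have ht0 : 0 ≤ t := by linarith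
  obtain ⟨C₁, hC₁, hF⟩ := EF.scale L ha' hk'
    (C₀ := C' * t ^ (s * a) + M + ((k + 1 : ℕ) + 2 : ℝ) * K) (s := 1) (by positivity) zero_le_one
  have hB := hF 1 le_rfl
  rw [Real.one_rpow, Real.one_rpow, mul_one, mul_one] at hB
  have hZE : L.EqV t (fun g => (φ' g - L.affD t g) - dS h g) :=
    EqV.sub L (EqV.sub L hφ'E (eqV_affD L t)) (EqV.dS L hhE)
  obtain ⟨h', hh'E, hh'⟩ := equiv_fill L hZE (R := R) hB (fun g hg => by
    constructor
    · rw [map_sub, map_sub, (hφ' g hg).1, boundary_affD, (hbd g hg).2, sub_self]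
    · refine (mass_sub_le L _ _).trans ?_
      rw [ENNReal.ofReal_add (by positivity) (by positivity),
        ENNReal.ofReal_add (by positivity) hM0]
      refine add_le_add ((mass_sub_le L _ _).trans (add_le_add (hφ' g hg).2 (hM g hg))) ?_
      exact mass_dS_le L (fun g hg => (hmass g hg).2) hg)
  refine ⟨C₁, φ', h', hC₁.le, hφ'E, hh'E, fun g hg => ⟨(hφ' g hg).2, (hh' g hg).2⟩,
    fun g hg => ⟨?_, ?_⟩⟩
  · rw [dS_map, dS_congr L (fun u hu => (hφ' u hu).1) hg, dS_dS]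
  · rw [dS_map, dS_congr L (fun u hu => (hh' u hu).1) hg, dS_sub, dS_sub, dS_dS, sub_zero]

theorem stage_all (R : ℝ) {a : ℕ → ℝ} (m : ℕ) (ha : ∀ k, 1 ≤ k → k ≤ m + 1 → 1 ≤ a k)
    (hEF : ∀ k, 1 ≤ k → k ≤ m + 1 → L.EF k (a k)) : L.Stage R (ex a m) m := by
  induction m with
  | zero =>
    rw [ex_zero]
    exact stage_zero L R (ha 1 le_rfl le_rfl) (hEF 1 le_rfl le_rfl)
  | succ m ih =>
    rw [ex_succ]
    exact stage_succ L R (ha (m + 1) (by omega) (by omega)) (ha (m + 2) (by omega) (by omega))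
      (ex_nonneg ha (by omega)) (hEF (m + 1) (by omega) (by omega))
      (hEF (m + 2) (by omega) (by omega))
      (ih (fun k hk hk' => ha k hk (by omega)) fun k hk hk' => hEF k hk (by omega))

/-- The outcome of the construction. -/
theorem final (R : ℝ) {a : ℕ → ℝ} {m : ℕ} (ob : OrthonormalBasis (Fin (m + 2)) ℝ E)
    (ha : ∀ k, 1 ≤ k → k ≤ m + 1 → 1 ≤ a k)
    (hEF : ∀ k, 1 ≤ k → k ≤ m + 1 → L.EF k (a k)) : ∃ C : ℝ, 0 < C ∧ ∀ t : ℝ, 1 ≤ t →
    ∃ (K : ℝ) (β : (Fin (m + 2) → E) → ℝ), 0 ≤ K ∧ (∀ x g, β (L.lact x g) = β g) ∧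
      (∀ g, L.Adm R g → |β g| ≤ K) ∧ ∀ g : Fin (m + 3) → E, L.Adm R g →
      |kap (m + 2) * ob.toBasis.det (fun j => L.dil t (g j.succ) - L.dil t (g j.castSucc)) +
        dS β g| ≤ C * t ^ (ex a (m + 1)) := by
  obtain ⟨C, hC, hS⟩ := stage_all L R m ha hEF
  obtain ⟨C', hC', hfill⟩ := fill_phi L R (ha (m + 1) (by omega) le_rfl)
    (ex_nonneg (k := m) ha (by omega)) (hEF (m + 1) (by omega) le_rfl) hC
  rw [← ex_succ] at hfill
  refine ⟨C', hC', fun t ht => ?_⟩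
  obtain ⟨K, φ, h, hK, hφE, hhE, hmass, hbd⟩ := hS t ht
  obtain ⟨φ', hφ'E, hφ'⟩ := hfill t ht φ hφE (fun g hg => (hmass g hg).1)
    (fun g hg => (hbd g hg).1)
  have ht0 : 0 ≤ t := by linarith
  refine ⟨K, fun g => VolC ob.toBasis (h g), hK, ?_, ?_, ?_⟩
  · intro x g
    simp only
    rw [hhE, VolC_Tr]
  · intro g hg
    have h1 := (abs_VolC_le L ob (h g)).trans (hmass g hg).2
    exact (ENNReal.ofReal_le_ofReal_iff hK).1 h1
  · intro g hg
    have h1 : boundary ((φ' g - L.affD t g) - dS h g) = 0 := by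
      rw [map_sub, map_sub, (hφ' g hg).1, boundary_affD, (hbd g hg).2, sub_self]
    have h2 := VolC_cycle ob.toBasis h1
    rw [map_sub, map_sub, dS_map] at h2
    have h3 : VolC ob.toBasis (L.affD t g) = kap (m + 2) *
        ob.toBasis.det (fun j => L.dil t (g j.succ) - L.dil t (g j.castSucc)) :=
      VolC_affC ob.toBasis _
    have h4 : kap (m + 2) * ob.toBasis.det
        (fun j => L.dil t (g j.succ) - L.dil t (g j.castSucc)) +
        dS (fun u => VolC ob.toBasis (h u)) g = VolC ob.toBasis (φ' g) := by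
      rw [← h3]; linarith
    rw [h4]
    have h5 := (abs_VolC_le L ob (φ' g)).trans (hφ' g hg).2
    exact (ENNReal.ofReal_le_ofReal_iff (by positivity)).1 h5

end Run7.h693
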