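import Pool.Agent.Run7.h693.Func
import Pool.Agent.Run7.h693.Alt
import Pool.Agent.Run7.h693.Fill

set_option linter.unusedSectionVars false
set_option linter.deprecated false

open Finset Filter Topology Module
open scoped ContDiff

namespace Run7.h693

variable {E : Type*} [NormedAddCommGroup E] [InnerProductSpace ℝ E] [FiniteDimensional ℝ E]

variable (L : StratLie E)

theorem BS_of_compact {X : Type*} [NormedAddCommGroup X] {f : X → ℝ} (hc : Continuous f)
    (hs : HasCompactSupport f) : BS f := by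
  obtain ⟨C, hC⟩ := hs.exists_bound_of_continuous hc
  obtain ⟨R, hR⟩ := hs.isCompact.isBounded.subset_closedBall 0
  refine ⟨C, R, fun x => hC x, fun x hx => ?_⟩
  by_contra h
  have h1 := hR (subset_tsupport f h)
  rw [mem_closedBall_zero_iff] at h1
  exact absurd h1 (not_le.2 hx)

/-- The flow pairing: the functional applied to an invariant function times a derivative along the
generator of left translations vanishes. -/
theorem flow_pairing {n : ℕ} {b : Basis (Fin n) ℝ E} {wt : Fin n → ℕ} (hmono : Monotone wt)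
    (hb : ∀ a, b a ∈ L.V (wt a)) {m : ℕ} (η : E)
    {F G : (Fin m → E) → ℝ} (hF : BS F) (hG : BS G) (hGc : Continuous G)
    (hder : ∀ (u : Fin m → E) (s : ℝ), HasDerivAt (fun s : ℝ => F (L.lact (s • η) u))
      (G (L.lact (s • η) u)) s) {β : (Fin m → E) → ℝ}
    (hβ : Bdd β) (hinv : ∀ x u, β (L.lact x u) = β u) :
    powF (KE b) m (fun u => β u * G u) = 0 := by
  have hΛ : IsFun (powF (KE b) m) := isFun_powF (isFun_KE b) m
  have hβ' := hβ
  obtain ⟨K, hK⟩ := hβ
  have hK0 : 0 ≤ K := (abs_nonneg _).trans (hK 0)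
  obtain ⟨CF, RF, _, hRF0, _, hRF⟩ := hF.nonneg_bounds
  obtain ⟨CG, RG, _, hRG0, _, hRG⟩ := hG.nonneg_bounds
  obtain ⟨B1, hB1⟩ := bounded_inv L ‖η‖
  obtain ⟨B, hB⟩ := bounded_mul L B1 (max RF RG)
  set B' : ℝ := max B (max RF RG) with hB'
  have hB'0 : 0 ≤ B' := hRF0.trans ((le_max_left _ _).trans (le_max_right _ _))
  have hsη : ∀ s : ℝ, |s| ≤ 1 → ‖s • η‖ ≤ ‖η‖ := by
    intro s hs
    rw [norm_smul, Real.norm_eq_abs]
    exact mul_le_of_le_one_left (norm_nonneg _) hs
  -- points outside the ball of radius `B'` stay outside the supports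
  have hout : ∀ (u : Fin m → E) (s : ℝ), |s| ≤ 1 → B' < ‖u‖ →
      max RF RG < ‖L.lact (s • η) u‖ := by
    intro u s hs hu
    by_contra h
    rw [not_lt] at h
    apply absurd hu
    rw [not_lt, pi_norm_le_iff_of_nonneg hB'0]
    intro j
    have h1 : u j = L.mul (L.inv (s • η)) (L.lact (s • η) u j) := by
      rw [StratLie.lact, L.inv_mul_cancel_left']
    rw [h1]
    exact (hB _ _ (hB1 _ (hsη s hs)) ((norm_le_pi_norm _ j).trans h)).trans (le_max_left _ _)
  have hlact0 : ∀ u : Fin m → E, L.lact ((0 : ℝ) • η) u = u := by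
    intro u
    funext j
    rw [StratLie.lact, zero_smul, L.zero_mul']
  have hcont : Continuous fun p : ℝ × (Fin m → E) => G (L.lact (p.1 • η) p.2) := by
    apply hGc.comp
    refine continuous_pi fun j => ?_
    have h1 : Continuous fun p : ℝ × (Fin m → E) => ((p.1 • η, p.2 j) : E × E) := by fun_prop
    exact L.continuous_mul'.comp h1
  have hinvΛ : ∀ (s : ℝ) (f : (Fin m → E) → ℝ), BS f →
      powF (KE b) m (fun u => f (L.lact (s • η) u)) = powF (KE b) m f := by
    intro s f hf
    exact powF_map (isFun_KE b) (T := L.mul (s • η))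
      (fun f hf => KE_mul L hmono hb (s • η) hf) hf
  set Λ := powF (KE b) m with hΛdef
  have key : ∀ ε : ℝ, 0 < ε → |Λ (fun u => β u * G u)| ≤ K * ε * Λ (ind B') := by
    intro ε hε
    have hcomp : IsCompact (Set.Icc (0 : ℝ) 1 ×ˢ Metric.closedBall (0 : Fin m → E) B') :=
      isCompact_Icc.prod (isCompact_closedBall 0 B')
    have huc := hcomp.uniformContinuousOn_of_continuous hcont.continuousOn
    rw [Metric.uniformContinuousOn_iff] at huc
    obtain ⟨δ, hδ, hδ'⟩ := huc ε hε
    set s : ℝ := min (δ / 2) 1 with hs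
    have hs0 : 0 < s := lt_min (by positivity) one_pos
    have hs1 : s ≤ 1 := min_le_right _ _
    have hsδ : s < δ := lt_of_le_of_lt (min_le_left _ _) (by linarith)
    have habs : |s| ≤ 1 := by rw [abs_of_pos hs0]; exact hs1
    -- pointwise estimate
    have hpt : ∀ u : Fin m → E,
        |F (L.lact (s • η) u) - F u - s * G u| ≤ s * ε * ind B' u := by
      intro u
      by_cases hu : ‖u‖ ≤ B'
      · obtain ⟨r, hr, hr'⟩ := exists_hasDerivAt_eq_slope
          (fun s : ℝ => F (L.lact (s • η) u)) (fun s : ℝ => G (L.lact (s • η) u)) hs0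
          (fun x _ => (hder u x).continuousAt.continuousWithinAt) (fun x _ => hder u x)
        simp only [hlact0, sub_zero] at hr'
        have h1 : F (L.lact (s • η) u) - F u = s * G (L.lact (r • η) u) := by
          rw [hr']; field_simp
        have h2 := hδ' (r, u) ⟨⟨hr.1.le, hr.2.le.trans hs1⟩, by simpa using hu⟩
          (0, u) ⟨⟨le_rfl, zero_le_one⟩, by simpa using hu⟩ (by
            rw [Prod.dist_eq, dist_self, max_lt_iff]
            refine ⟨?_, hδ⟩
            rw [Real.dist_eq, sub_zero, abs_of_pos hr.1]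
            exact hr.2.trans hsδ)
        simp only [hlact0] at h2
        rw [Real.dist_eq] at h2
        rw [h1, ← mul_sub, abs_mul, abs_of_pos hs0, ind, if_pos hu, mul_one]
        exact mul_le_mul_of_nonneg_left h2.le hs0.le
      · have hu' := not_le.1 hu
        have h1 := hout u s habs hu'
        have h2 : max RF RG < ‖u‖ := lt_of_le_of_lt (le_max_right _ _) hu'
        rw [hRF _ (lt_of_le_of_lt (le_max_left _ _) h1),
          hRF _ (lt_of_le_of_lt (le_max_left _ _) h2),
          hRG _ (lt_of_le_of_lt (le_max_right _ _) h2), ind, if_neg hu]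
        simp
    -- the functional
    have hFs : BS (fun u => F (L.lact (s • η) u)) := by
      have := hF.comp (ProperT.pi (properT_mul L (s • η)) (m := m))
      exact this
    have h1 : Λ (fun u => β u * (F (L.lact (s • η) u) - F u)) = 0 := by
      have e1 : (fun u => β u * (F (L.lact (s • η) u) - F u)) =
          (fun u => β (L.lact (s • η) u) * F (L.lact (s • η) u)) - fun u => β u * F u := by
        funext u
        simp only [Pi.sub_apply, hinv]
        ring
      have hβF : BS (fun u => β u * F u) := BS.bdd_mul hβ' hF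
      have hβF' : BS (fun u => β (L.lact (s • η) u) * F (L.lact (s • η) u)) := by
        simp only [hinv]
        exact BS.bdd_mul hβ' hFs
      rw [e1, hΛ.sub hβF' hβF, hinvΛ s _ hβF, sub_self]
    have hβG : BS (fun u => β u * G u) := BS.bdd_mul hβ' hG
    have hbs1 : BS (fun u => β u * (F (L.lact (s • η) u) - F u)) :=
      BS.bdd_mul hβ' (hFs.sub hF)
    have h2 : |Λ ((fun u => β u * (F (L.lact (s • η) u) - F u)) -
        s • fun u => β u * G u)| ≤ Λ ((K * (s * ε)) • ind B') := by
      apply hΛ.abs_le (hbs1.sub (hβG.smul s)) ((BS_ind B').smul _)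
      intro u
      simp only [Pi.sub_apply, Pi.smul_apply, smul_eq_mul]
      have e1 : β u * (F (L.lact (s • η) u) - F u) - s * (β u * G u) =
          β u * (F (L.lact (s • η) u) - F u - s * G u) := by ring
      rw [e1, abs_mul, mul_assoc]
      exact mul_le_mul (hK u) (hpt u) (abs_nonneg _) hK0
    rw [hΛ.sub hbs1 (hβG.smul s), h1, zero_sub, abs_neg, hΛ.smul _ _ hβG,
      hΛ.smul _ _ (BS_ind B'), abs_mul, abs_of_pos hs0] at h2
    have h3 : s * |Λ (fun u => β u * G u)| ≤ s * (K * ε * Λ (ind B')) := by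
      refine h2.trans (le_of_eq ?_)
      ring
    exact le_of_mul_le_mul_left h3 hs0
  have hnn : 0 ≤ Λ (ind B') := hΛ.nonneg _ (BS_ind B') fun u => by
    unfold ind; split_ifs <;> simp
  by_contra hne
  have hpos : 0 < |Λ (fun u => β u * G u)| := abs_pos.2 hne
  have hd : 0 < K * Λ (ind B') + 1 := by positivity
  have h1 := key (|Λ (fun u => β u * G u)| / (2 * (K * Λ (ind B') + 1))) (by positivity)
  have h2 : K * (|Λ (fun u => β u * G u)| / (2 * (K * Λ (ind B') + 1))) * Λ (ind B') =
      |Λ (fun u => β u * G u)| * ((K * Λ (ind B')) / (2 * (K * Λ (ind B') + 1))) := by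
    ring
  rw [h2] at h1
  have h3 : (K * Λ (ind B')) / (2 * (K * Λ (ind B') + 1)) < 1 := by
    rw [div_lt_one (by positivity)]
    have : 0 ≤ K * Λ (ind B') := by positivity
    linarith
  have h4 : |Λ (fun u => β u * G u)| * ((K * Λ (ind B')) / (2 * (K * Λ (ind B') + 1))) <
      |Λ (fun u => β u * G u)| * 1 := mul_lt_mul_of_pos_left h3 hpos
  linarith

/-- The derivative of `F` along the generator `vf η`. -/
noncomputable def StratLie.dv (η : E) (F : E → ℝ) : E → ℝ := fun g => fderiv ℝ F g (L.vf η g)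

theorem contDiff_vf (η : E) : ContDiff ℝ ∞ (L.vf η) := by
  unfold StratLie.vf
  fun_prop

theorem contDiff_dv (η : E) {F : E → ℝ} (hF : ContDiff ℝ ∞ F) : ContDiff ℝ ∞ (L.dv η F) := by
  unfold StratLie.dv
  have h1 : ContDiff ℝ ∞ (fderiv ℝ F) := hF.fderiv_right (by simp)
  exact h1.clm_apply (contDiff_vf L η)

theorem compact_dv (η : E) {F : E → ℝ} (hF : HasCompactSupport F) :
    HasCompactSupport (L.dv η F) := by
  have h1 := hF.fderiv (𝕜 := ℝ)
  refine h1.mono ?_
  intro g hg
  rw [Function.mem_support] at hg ⊢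
  intro h
  apply hg
  unfold StratLie.dv
  rw [h]; rfl

theorem hasDerivAt_comp_flow {w : ℕ} (hw : 1 ≤ w) {η : E} (hη : η ∈ L.V w) {F : E → ℝ}
    (hF : ContDiff ℝ ∞ F) (g : E) (s : ℝ) :
    HasDerivAt (fun s : ℝ => F (L.mul (s • η) g)) ((w : ℝ)⁻¹ * L.dv η F (L.mul (s • η) g)) s := by
  have h1 : HasFDerivAt F (fderiv ℝ F (L.mul (s • η) g)) (L.mul (s • η) g) :=
    (hF.differentiable (by simp) _).hasFDerivAt
  have h2 := h1.comp_hasDerivAt s (L.hasDerivAt_flow hw hη g s)
  rw [map_smul, smul_eq_mul] at h2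
  exact h2

theorem update_prod {m : ℕ} (F : Fin m → E → ℝ) (l : Fin m) (H : E → ℝ) (u : Fin m → E) :
    ∏ j, (Function.update F l H) j (u j) = H (u l) * ∏ j ∈ univ.erase l, F j (u j) := by
  rw [← mul_prod_erase univ _ (mem_univ l), Function.update_self]
  congr 1
  refine prod_congr rfl fun j hj => ?_
  rw [Function.update_of_ne (mem_erase.1 hj).1]

theorem prod_pairing {n : ℕ} {b : Basis (Fin n) ℝ E} {wt : Fin n → ℕ} (hmono : Monotone wt)
    (hb : ∀ a, b a ∈ L.V (wt a)) {m : ℕ} {w : ℕ} (hw : 1 ≤ w) {η : E} (hη : η ∈ L.V w)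
    {F : Fin m → E → ℝ} (hF : ∀ j, ContDiff ℝ ∞ (F j)) (hFc : ∀ j, HasCompactSupport (F j))
    {β : (Fin m → E) → ℝ} (hβ : Bdd β) (hinv : ∀ x u, β (L.lact x u) = β u) :
    powF (KE b) m (fun u => β u * ∑ l, ∏ j, (Function.update F l (L.dv η (F l))) j (u j)) = 0 := by
  have hupd : ∀ l j, ContDiff ℝ ∞ ((Function.update F l (L.dv η (F l))) j) := by
    intro l j
    by_cases h : j = l
    · subst h; rw [Function.update_self]; exact contDiff_dv L η (hF j)
    · rw [Function.update_of_ne h]; exact hF j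
  have hupdc : ∀ l j, HasCompactSupport ((Function.update F l (L.dv η (F l))) j) := by
    intro l j
    by_cases h : j = l
    · subst h; rw [Function.update_self]; exact compact_dv L η (hFc j)
    · rw [Function.update_of_ne h]; exact hFc j
  have hbs : ∀ l, BS (fun u : Fin m → E => ∏ j, (Function.update F l (L.dv η (F l))) j (u j)) :=
    fun l => BS.prod fun j => BS_of_compact (hupd l j).continuous (hupdc l j)
  have hbsF : BS (fun u : Fin m → E => ∏ j, F j (u j)) :=
    BS.prod fun j => BS_of_compact (hF j).continuous (hFc j)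
  have hsum : BS (fun u : Fin m → E => ∑ l, ∏ j,
      (Function.update F l (L.dv η (F l))) j (u j)) := by
    have := BS.sum univ fun l _ => hbs l
    convert this using 1
    funext u
    rw [Finset.sum_apply]
  have hG : BS (fun u : Fin m → E => (w : ℝ)⁻¹ * ∑ l, ∏ j,
      (Function.update F l (L.dv η (F l))) j (u j)) := hsum.smul ((w : ℝ)⁻¹)
  have hGc : Continuous (fun u : Fin m → E => (w : ℝ)⁻¹ * ∑ l, ∏ j,
      (Function.update F l (L.dv η (F l))) j (u j)) := by
    refine continuous_const.mul (continuous_finset_sum _ fun l _ =>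
      continuous_finset_prod _ fun j _ => ?_)
    exact (hupd l j).continuous.comp (continuous_apply j)
  have h1 := flow_pairing L hmono hb η hbsF hG hGc (fun u s => by
    have h2 := HasDerivAt.fun_finset_prod (u := (univ : Finset (Fin m)))
      (f := fun j s => F j (L.lact (s • η) u j))
      (f' := fun j => (w : ℝ)⁻¹ * L.dv η (F j) (L.lact (s • η) u j)) (x := s)
      (fun j _ => hasDerivAt_comp_flow L hw hη (hF j) (u j) s)
    refine h2.congr_deriv ?_
    rw [mul_sum]
    refine sum_congr rfl fun l _ => ?_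
    rw [update_prod, smul_eq_mul]
    ring) hβ hinv
  have hw0 : (w : ℝ)⁻¹ ≠ 0 := by
    have : 0 < w := hw
    positivity
  have e1 : (fun u : Fin m → E => β u * ((w : ℝ)⁻¹ * ∑ l, ∏ j,
      (Function.update F l (L.dv η (F l))) j (u j))) =
      (w : ℝ)⁻¹ • fun u => β u * ∑ l, ∏ j, (Function.update F l (L.dv η (F l))) j (u j) := by
    funext u
    simp only [Pi.smul_apply, smul_eq_mul]
    ring
  rw [e1, (isFun_powF (isFun_KE b) m).smul _ _ (BS.bdd_mul hβ hsum)] at h1
  exact (mul_eq_zero.1 h1).resolve_left hw0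

theorem KE_dv {n : ℕ} {b : Basis (Fin n) ℝ E} {wt : Fin n → ℕ} (hmono : Monotone wt)
    (hb : ∀ a, b a ∈ L.V (wt a)) {w : ℕ} (hw : 1 ≤ w) {η : E} (hη : η ∈ L.V w)
    {F : E → ℝ} (hF : ContDiff ℝ ∞ F) (hFc : HasCompactSupport F) : KE b (L.dv η F) = 0 := by
  have h := prod_pairing L hmono hb hw hη (m := 1) (F := fun _ => F) (fun _ => hF)
    (fun _ => hFc) (β := fun _ => 1) ⟨1, fun _ => by simp⟩ (fun _ _ => rfl)
  simp only [one_mul, Fin.sum_univ_one, Fin.prod_univ_one, Function.update_self] at h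
  exact h

/-- The commutator of two generators. -/
theorem dv_comm (a c : E) {F : E → ℝ} (hF : ContDiff ℝ ∞ F) (g : E) :
    L.dv a (L.dv c F) g - L.dv c (L.dv a F) g = - L.dv (L.br a c) F g := by
  have hd : ∀ c : E, ∀ v : E, fderiv ℝ (L.dv c F) g v =
      fderiv ℝ (fderiv ℝ F) g v (L.vf c g) + fderiv ℝ F g (L.br c v) := by
    intro c v
    have h1 : HasFDerivAt (fderiv ℝ F) (fderiv ℝ (fderiv ℝ F) g) g := by
      have h2 : ContDiff ℝ ∞ (fderiv ℝ F) := hF.fderiv_right (by simp)
      exact (h2.differentiable (by simp) g).hasFDerivAt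
    have h2 : HasFDerivAt (L.vf c) (L.br c) g := by
      unfold StratLie.vf
      exact (L.br c).hasFDerivAt.const_add _
    have h3 := h1.clm_apply h2
    have h4 : fderiv ℝ (L.dv c F) g = _ := h3.fderiv
    rw [h4]
    simp [add_comm]
  have hs : fderiv ℝ (fderiv ℝ F) g (L.vf a g) (L.vf c g) =
      fderiv ℝ (fderiv ℝ F) g (L.vf c g) (L.vf a g) := by
    have h1 : IsSymmSndFDerivAt ℝ F g :=
      ContDiffAt.isSymmSndFDerivAt hF.contDiffAt (by
        rw [minSmoothness_of_isRCLikeNormedField]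
        exact WithTop.coe_le_coe.2 le_top)
    exact h1 _ _
  have e1 : L.dv a (L.dv c F) g = fderiv ℝ (L.dv c F) g (L.vf a g) := rfl
  have e2 : L.dv c (L.dv a F) g = fderiv ℝ (L.dv a F) g (L.vf c g) := rfl
  rw [e1, e2, hd, hd, hs, add_sub_add_left_eq_sub, ← map_sub]
  unfold StratLie.dv
  rw [← map_neg]
  congr 1
  unfold StratLie.vf
  rw [L.D_br, map_add, map_add, L.jacobi' a c g, L.br_swap c (L.D a)]
  abel

theorem dv_sum {ι : Type*} (s : Finset ι) (r : ι → ℝ) (η : ι → E) (F : E → ℝ) (g : E) :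
    L.dv (∑ i ∈ s, r i • η i) F g = ∑ i ∈ s, r i * L.dv (η i) F g := by
  unfold StratLie.dv
  have : L.vf (∑ i ∈ s, r i • η i) g = ∑ i ∈ s, r i • L.vf (η i) g := by
    unfold StratLie.vf
    simp only [map_sum, map_smul, ContinuousLinearMap.sum_apply, ContinuousLinearMap.smul_apply,
      smul_add, sum_add_distrib]
  rw [this, map_sum]
  refine sum_congr rfl fun i _ => ?_
  rw [map_smul, smul_eq_mul]

end Run7.h693
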