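import Pool.Agent.Run7.h693.Act

set_option linter.unusedSectionVars false
set_option linter.deprecated false

open Finset MeasureTheory Filter Topology Module
open scoped ENNReal RealInnerProductSpace

namespace Run7.h693

variable {E : Type*} [NormedAddCommGroup E] [InnerProductSpace ℝ E] [FiniteDimensional ℝ E]

variable (L : StratLie E)

theorem bounded_mul (R R' : ℝ) : ∃ B : ℝ, ∀ u v : E, ‖u‖ ≤ R → ‖v‖ ≤ R' → ‖L.mul u v‖ ≤ B := by
  have h : IsCompact (Metric.closedBall (0 : E) R ×ˢ Metric.closedBall (0 : E) R') :=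
    (isCompact_closedBall 0 R).prod (isCompact_closedBall 0 R')
  obtain ⟨B, hB⟩ := h.exists_bound_of_continuousOn (f := fun p : E × E => L.mul p.1 p.2)
    L.continuous_mul'.continuousOn
  exact ⟨B, fun u v hu hv => hB (u, v) ⟨by simpa using hu, by simpa using hv⟩⟩

theorem bounded_inv (R : ℝ) : ∃ B : ℝ, ∀ u : E, ‖u‖ ≤ R → ‖L.inv u‖ ≤ B := by
  have h : IsCompact (Metric.closedBall (0 : E) R) := isCompact_closedBall 0 R
  obtain ⟨B, hB⟩ := h.exists_bound_of_continuousOn (f := L.inv) L.continuous_inv'.continuousOn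
  exact ⟨B, fun u hu => hB u (by simpa using hu)⟩

/-- The product of a list. -/
noncomputable def StratLie.lprod (l : List E) : E := l.foldr L.mul 0

theorem lprod_append (l l' : List E) : L.lprod (l ++ l') = L.mul (L.lprod l) (L.lprod l') := by
  induction l with
  | nil => simp [StratLie.lprod, L.zero_mul']
  | cons h l ih =>
    change L.mul h (L.lprod (l ++ l')) = L.mul (L.mul h (L.lprod l)) (L.lprod l')
    rw [ih, L.mul_assoc']

/-- `u` is a product of at most `N` horizontal elements of norm at most `C`. -/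
def StratLie.Reach (N : ℕ) (C : ℝ) (u : E) : Prop :=
  ∃ l : List E, l.length ≤ N ∧ (∀ h ∈ l, h ∈ L.V 1 ∧ ‖h‖ ≤ C) ∧ L.lprod l = u

theorem Reach.mono {N N' : ℕ} {C C' : ℝ} {u : E} (h : L.Reach N C u) (hN : N ≤ N')
    (hC : C ≤ C') : L.Reach N' C' u := by
  obtain ⟨l, h1, h2, h3⟩ := h
  exact ⟨l, h1.trans hN, fun x hx => ⟨(h2 x hx).1, (h2 x hx).2.trans hC⟩, h3⟩

theorem reach_zero (N : ℕ) (C : ℝ) : L.Reach N C 0 := ⟨[], by simp, by simp, rfl⟩

theorem reach_one {x : E} (hx : x ∈ L.V 1) {C : ℝ} (hC : ‖x‖ ≤ C) : L.Reach 1 C x := by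
  refine ⟨[x], by simp, ?_, ?_⟩
  · intro h hh
    rw [List.mem_singleton] at hh
    rw [hh]
    exact ⟨hx, hC⟩
  · change L.mul x 0 = x
    exact L.mul_zero' x

theorem reach_mul {N N' : ℕ} {C C' : ℝ} {u v : E} (hu : L.Reach N C u) (hv : L.Reach N' C' v) :
    L.Reach (N + N') (max C C') (L.mul u v) := by
  obtain ⟨l, h1, h2, h3⟩ := hu
  obtain ⟨l', h1', h2', h3'⟩ := hv
  refine ⟨l ++ l', ?_, ?_, ?_⟩
  · rw [List.length_append]; omega
  · intro x hx
    rw [List.mem_append] at hx
    rcases hx with hx | hx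
    · exact ⟨(h2 x hx).1, (h2 x hx).2.trans (le_max_left _ _)⟩
    · exact ⟨(h2' x hx).1, (h2' x hx).2.trans (le_max_right _ _)⟩
  · rw [lprod_append, h3, h3']

theorem inv_of_mem {i : ℕ} {x : E} (hx : x ∈ L.V i) : L.inv x = -x := by
  have h1 : L.A x x = x := by
    have := L.A_smul_self hx 1
    rwa [one_smul] at this
  have h2 : L.mul x (-x) = 0 := by
    rw [StratLie.mul, map_neg, h1]; abel
  calc L.inv x = L.mul (L.inv x) (L.mul x (-x)) := by rw [h2, L.mul_zero']
    _ = -x := L.inv_mul_cancel_left' x (-x)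

theorem reach_inv {N : ℕ} {C : ℝ} {u : E} (hu : L.Reach N C u) : L.Reach N C (L.inv u) := by
  obtain ⟨l, h1, h2, h3⟩ := hu
  refine ⟨(l.map fun x => -x).reverse, ?_, ?_, ?_⟩
  · simpa using h1
  · intro x hx
    rw [List.mem_reverse, List.mem_map] at hx
    obtain ⟨y, hy, rfl⟩ := hx
    exact ⟨Submodule.neg_mem _ (h2 y hy).1, by rw [norm_neg]; exact (h2 y hy).2⟩
  · rw [← h3]
    clear h3 h1
    induction l with
    | nil => simp [StratLie.lprod, L.inv_zero']
    | cons h l ih =>
      have e1 : L.lprod (h :: l) = L.mul h (L.lprod l) := rfl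
      rw [List.map_cons, List.reverse_cons, lprod_append,
        ih (fun x hx => h2 x (List.mem_cons_of_mem _ hx)), e1, L.mul_inv_rev',
        inv_of_mem L (h2 h List.mem_cons_self).1]
      congr 1
      exact L.mul_zero' _

theorem reach_bounded (N : ℕ) (C : ℝ) : ∃ B : ℝ, ∀ u : E, L.Reach N C u → ‖u‖ ≤ B := by
  induction N with
  | zero =>
    refine ⟨0, ?_⟩
    rintro u ⟨l, h1, _, h3⟩
    have : l = [] := List.length_eq_zero_iff.1 (by omega)
    rw [this] at h3
    rw [← h3]
    simp [StratLie.lprod]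
  | succ N ih =>
    obtain ⟨B, hB⟩ := ih
    obtain ⟨B', hB'⟩ := bounded_mul L C B
    refine ⟨max 0 B', ?_⟩
    rintro u ⟨l, h1, h2, h3⟩
    cases l with
    | nil => rw [← h3]; simp [StratLie.lprod]
    | cons h l =>
      have e1 : L.lprod (h :: l) = L.mul h (L.lprod l) := rfl
      rw [← h3, e1]
      refine (hB' _ _ (h2 h List.mem_cons_self).2 (hB _ ⟨l, ?_, ?_, rfl⟩)).trans (le_max_right _ _)
      · rw [List.length_cons] at h1; omega
      · exact fun x hx => h2 x (List.mem_cons_of_mem _ hx)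

/-- The leading term of a commutator. -/
theorem comm_lead {j : ℕ} (hj : 1 ≤ j) {x y w : E} (hx : x ∈ L.V 1) (hy : y ∈ L.V j)
    (hw : w ∈ L.F j) (hwy : w - y ∈ L.F (j + 1)) :
    L.mul (L.mul x w) (L.inv (L.mul w x)) ∈ L.F (j + 1) ∧
    L.mul (L.mul x w) (L.inv (L.mul w x)) - (1 + (j : ℝ)⁻¹) • L.br x y ∈ L.F (j + 2) := by
  set c := L.mul (L.mul x w) (L.inv (L.mul w x)) with hc
  set d := L.mul x w - L.mul w x with hd
  have hxF : x ∈ L.F 1 := L.V_le_F le_rfl hx
  have hyF : y ∈ L.F j := L.V_le_F le_rfl hy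
  have hbr : L.br x y ∈ L.V (j + 1) := by
    have := L.br_mem hx hy
    rwa [Nat.add_comm] at this
  have hd' : d = (L.A x w - w) - (L.A w x - x) := by
    rw [hd, StratLie.mul, StratLie.mul]; abel
  have hd1 : d ∈ L.F (j + 1) := by
    rw [hd']
    apply Submodule.sub_mem
    · exact L.A_sub_mem_F x hw
    · have := L.A_raise hw hxF
      rwa [Nat.add_comm] at this
  have hcd : c = d - (L.A c (L.mul w x) - L.mul w x) := by
    have h1 : L.mul c (L.mul w x) = L.mul x w := by
      rw [hc, L.mul_assoc', L.inv_mul', L.mul_zero']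
    rw [StratLie.mul] at h1
    rw [hd, ← h1]
    abel
  have hcl : ∀ l, l ≤ j + 1 → c ∈ L.F l := by
    intro l
    induction l with
    | zero => intro _; exact L.mem_F_zero c
    | succ l ih =>
      intro hl
      rw [hcd]
      apply Submodule.sub_mem
      · exact L.F_antitone hl hd1
      · have := L.A_raise (ih (by omega)) (L.mem_F_one (L.mul w x))
        rwa [Nat.add_comm] at this
  have hc1 : c ∈ L.F (j + 1) := hcl (j + 1) le_rfl
  refine ⟨hc1, ?_⟩
  have hcd2 : c - d ∈ L.F (j + 2) := by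
    have h1 : c - d = -(L.A c (L.mul w x) - L.mul w x) := by
      conv_lhs => rw [hcd]
      abel
    rw [h1]
    apply Submodule.neg_mem
    have := L.A_raise hc1 (L.mem_F_one (L.mul w x))
    exact L.F_antitone (by omega) this
  -- the leading term of `d`
  have hwF : w - y ∈ L.F (j + 1) := hwy
  have p1 : L.proj (j + 1) (L.A x w - w) = L.br x y := by
    have e1 : L.A x w - w = (L.A x y - y) + (L.A x (w - y) - (w - y)) := by
      rw [map_sub]; abel
    have e2 : L.proj (j + 1) (L.A x (w - y) - (w - y)) = 0 :=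
      L.A_sub_mem_F x hwF (j + 1) (Nat.lt_succ_self _)
    have e3 := congrArg (L.proj (j + 1)) (L.A_eigen x hy)
    rw [map_sub, L.proj_D, map_smul] at e3
    have e4 : L.proj (j + 1) (L.br x (L.A x y)) = L.br x y := by
      have e5 : L.br x (L.A x y) = L.br x y + L.br x (L.A x y - y) := by
        rw [map_sub]; abel
      have e6 : L.proj (j + 1) (L.br x (L.A x y - y)) = 0 :=
        L.br_mem_F hxF (L.A_sub_mem x hy) (j + 1) (by omega)
      rw [e5, map_add, e6, add_zero, L.proj_of_mem hbr]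
    rw [e4] at e3
    have e7 : L.proj (j + 1) y = 0 := L.proj_of_mem_ne hy (by omega)
    rw [e1, map_add, e2, add_zero, map_sub, e7, sub_zero]
    push_cast at e3
    rw [add_smul, one_smul] at e3
    have e8 : L.proj (j + 1) (L.A x y) - L.br x y = 0 := by
      have : (j : ℝ) • L.proj (j + 1) (L.A x y) + L.proj (j + 1) (L.A x y) - L.br x y -
        (j : ℝ) • L.proj (j + 1) (L.A x y) = 0 := by rw [e3, sub_self]
      rw [← this]; abel
    exact sub_eq_zero.1 e8
  have p2 : L.proj (j + 1) (L.A w x - x) = -((j : ℝ)⁻¹ • L.br x y) := by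
    have e3 := congrArg (L.proj (j + 1)) (L.A_eigen w hx)
    rw [map_sub, L.proj_D, map_smul] at e3
    have e4 : L.proj (j + 1) (L.br w (L.A w x)) = -L.br x y := by
      have e5 : L.br w (L.A w x) = L.br y x + (L.br y (L.A w x - x) + L.br (w - y) (L.A w x)) := by
        simp only [map_sub, ContinuousLinearMap.sub_apply]; abel
      have e6 : L.proj (j + 1) (L.br y (L.A w x - x)) = 0 :=
        L.br_mem_F hyF (L.A_sub_mem w hx) (j + 1) (by omega)
      have e7 : L.proj (j + 1) (L.br (w - y) (L.A w x)) = 0 :=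
        L.br_mem_F hwF (L.A_mem_F w hxF) (j + 1) (by omega)
      rw [e5, map_add, map_add, e6, e7, add_zero, add_zero, L.br_swap y x, map_neg,
        L.proj_of_mem hbr]
    rw [e4] at e3
    have e7 : L.proj (j + 1) x = 0 := L.proj_of_mem_ne hx (by omega)
    have hj0 : (j : ℝ) ≠ 0 := by
      have : 0 < j := hj
      positivity
    rw [map_sub, e7, sub_zero]
    push_cast at e3
    rw [add_smul, one_smul] at e3
    have e8 : (j : ℝ) • L.proj (j + 1) (L.A w x) = -L.br x y := by
      have : (j : ℝ) • L.proj (j + 1) (L.A w x) + L.proj (j + 1) (L.A w x) - -L.br x y -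
        L.proj (j + 1) (L.A w x) = 0 := by rw [e3, sub_self]
      rw [← sub_eq_zero, ← this]; abel
    rw [← smul_neg, ← e8, smul_smul, inv_mul_cancel₀ hj0, one_smul]
  have p3 : L.proj (j + 1) d = (1 + (j : ℝ)⁻¹) • L.br x y := by
    rw [hd', map_sub, p1, p2, add_smul, one_smul]; abel
  have h2 : d - (1 + (j : ℝ)⁻¹) • L.br x y ∈ L.F (j + 2) := by
    have := L.sub_proj_mem hd1
    rwa [p3] at this
  have := Submodule.add_mem _ hcd2 h2
  have e : c - d + (d - (1 + (j : ℝ)⁻¹) • L.br x y) = c - (1 + (j : ℝ)⁻¹) • L.br x y := by abel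
  rwa [e] at this

/-- Leading terms of products of elements of `F j`. -/
theorem mul_lead {j : ℕ} (hj : 1 ≤ j) {u v y z : E} (hu : u ∈ L.F j) (hv : v ∈ L.F j)
    (huy : u - y ∈ L.F (j + 1)) (hvz : v - z ∈ L.F (j + 1)) :
    L.mul u v ∈ L.F j ∧ L.mul u v - (y + z) ∈ L.F (j + 1) := by
  have h1 : L.A u v - v ∈ L.F (j + 1) := L.F_antitone (by omega) (L.A_raise hu hv)
  constructor
  · rw [StratLie.mul]
    exact Submodule.add_mem _ hu (L.A_mem_F u hv)
  · have e : L.mul u v - (y + z) = (u - y) + ((v - z) + (L.A u v - v)) := by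
      rw [StratLie.mul]; abel
    rw [e]
    exact Submodule.add_mem _ huy (Submodule.add_mem _ hvz h1)

theorem lead_reach (j : ℕ) (hj : 1 ≤ j) : ∀ R : ℝ, ∃ (N : ℕ) (C : ℝ), ∀ y ∈ L.V j, ‖y‖ ≤ R →
    ∃ u, L.Reach N C u ∧ u ∈ L.F j ∧ u - y ∈ L.F (j + 1) := by
  induction j, hj using Nat.le_induction with
  | base =>
    intro R
    refine ⟨1, R, fun y hy hyR => ⟨y, reach_one L hy hyR, L.V_le_F le_rfl hy, ?_⟩⟩
    rw [sub_self]; exact Submodule.zero_mem _
  | succ j hj ih =>
    -- the set of good directions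
    have hP : ∀ y ∈ L.V (j + 1), ∀ R : ℝ, ∃ (N : ℕ) (C : ℝ), ∀ r : ℝ, |r| ≤ R →
        ∃ u, L.Reach N C u ∧ u ∈ L.F (j + 1) ∧ u - r • y ∈ L.F (j + 1 + 1) := by
      intro y hy
      rw [← L.gen j hj] at hy
      refine Submodule.span_induction (p := fun y _ => ∀ R : ℝ, ∃ (N : ℕ) (C : ℝ), ∀ r : ℝ,
        |r| ≤ R → ∃ u, L.Reach N C u ∧ u ∈ L.F (j + 1) ∧ u - r • y ∈ L.F (j + 1 + 1))
        ?_ ?_ ?_ ?_ hy
      · rintro _ ⟨x, hx, z, hz, rfl⟩ R
        obtain ⟨N, C, hNC⟩ := ih (R * ‖z‖)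
        refine ⟨(1 + N) + (N + 1), max (max ‖x‖ C) (max C ‖x‖), fun r hr => ?_⟩
        have hj0 : (0 : ℝ) < (j : ℝ) := by
          have : 0 < j := hj
          positivity
        have hpos : (0 : ℝ) < 1 + (j : ℝ)⁻¹ := by positivity
        set r' : ℝ := r / (1 + (j : ℝ)⁻¹) with hr'
        have hr'le : |r'| ≤ R := by
          rw [hr', abs_div, abs_of_pos hpos]
          refine le_trans ?_ hr
          apply div_le_self (abs_nonneg r)
          have : 0 < (j : ℝ)⁻¹ := by positivity
          linarith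
        obtain ⟨w, hw1, hw2, hw3⟩ := hNC (r' • z) (Submodule.smul_mem _ _ hz) (by
          rw [norm_smul, Real.norm_eq_abs]
          exact mul_le_mul_of_nonneg_right hr'le (norm_nonneg z))
        have hlead := comm_lead L hj hx (Submodule.smul_mem _ r' hz) hw2 hw3
        refine ⟨_, ?_, hlead.1, ?_⟩
        · have hxr := reach_one L hx (le_refl ‖x‖)
          exact reach_mul L (reach_mul L hxr hw1) (reach_inv L (reach_mul L hw1 hxr))
        · have h2 := hlead.2
          have e : (1 + (j : ℝ)⁻¹) • L.br x (r' • z) = r • L.br x z := by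
            rw [map_smul, smul_smul, hr', mul_div_cancel₀ _ hpos.ne']
          rw [e] at h2
          exact h2
      · intro R
        refine ⟨0, 0, fun r _ => ⟨0, reach_zero L 0 0, Submodule.zero_mem _, ?_⟩⟩
        rw [smul_zero, sub_zero]; exact Submodule.zero_mem _
      · intro a c _ _ ha hc R
        obtain ⟨N, C, h1⟩ := ha R
        obtain ⟨N', C', h2⟩ := hc R
        refine ⟨N + N', max C C', fun r hr => ?_⟩
        obtain ⟨u, hu1, hu2, hu3⟩ := h1 r hr
        obtain ⟨v, hv1, hv2, hv3⟩ := h2 r hr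
        obtain ⟨h3, h4⟩ := mul_lead L (Nat.succ_pos j) hu2 hv2 hu3 hv3
        exact ⟨_, reach_mul L hu1 hv1, h3, by rw [smul_add]; exact h4⟩
      · intro a c _ hc R
        obtain ⟨N, C, h1⟩ := hc (|a| * R)
        refine ⟨N, C, fun r hr => ?_⟩
        obtain ⟨u, hu1, hu2, hu3⟩ := h1 (a * r) (by
          rw [abs_mul]; exact mul_le_mul_of_nonneg_left hr (abs_nonneg a))
        refine ⟨u, hu1, hu2, ?_⟩
        have e : r • a • c = (a * r) • c := by rw [smul_smul, mul_comm]
        rw [e]; exact hu3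
    -- uniformity
    intro R
    let e := Module.finBasis ℝ (L.V (j + 1))
    obtain ⟨M, hM⟩ : ∃ M : ℝ, ∀ (y : L.V (j + 1)) (i : Fin (finrank ℝ (L.V (j + 1)))),
        ‖(y : E)‖ ≤ R → |e.repr y i| ≤ M := by
      let T : L.V (j + 1) →L[ℝ] (Fin (finrank ℝ (L.V (j + 1))) → ℝ) := e.equivFunL
      refine ⟨‖T‖ * R, fun y i hy => ?_⟩
      have h1 := T.le_opNorm y
      have h2 := norm_le_pi_norm (T y) i
      refine h2.trans (h1.trans ?_)
      exact mul_le_mul_of_nonneg_left hy (norm_nonneg _)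
    have hsum : ∀ s : Finset (Fin (finrank ℝ (L.V (j + 1)))), ∃ (N : ℕ) (C : ℝ),
        ∀ f : Fin (finrank ℝ (L.V (j + 1))) → ℝ, (∀ i, |f i| ≤ M) →
        ∃ u, L.Reach N C u ∧ u ∈ L.F (j + 1) ∧
          u - ∑ i ∈ s, f i • (e i : E) ∈ L.F (j + 1 + 1) := by
      intro s
      classical
      induction s using Finset.induction_on with
      | empty =>
        refine ⟨0, 0, fun f _ => ⟨0, reach_zero L 0 0, Submodule.zero_mem _, ?_⟩⟩
        rw [sum_empty, sub_zero]; exact Submodule.zero_mem _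
      | insert i s hi ih2 =>
        obtain ⟨N, C, h1⟩ := ih2
        obtain ⟨N', C', h2⟩ := hP (e i) (e i).2 M
        refine ⟨N' + N, max C' C, fun f hf => ?_⟩
        obtain ⟨u, hu1, hu2, hu3⟩ := h2 (f i) (hf i)
        obtain ⟨v, hv1, hv2, hv3⟩ := h1 f hf
        obtain ⟨h3, h4⟩ := mul_lead L (Nat.succ_pos j) hu2 hv2 hu3 hv3
        exact ⟨_, reach_mul L hu1 hv1, h3, by rw [sum_insert hi]; exact h4⟩
    obtain ⟨N, C, h1⟩ := hsum univ
    refine ⟨N, C, fun y hy hyR => ?_⟩
    obtain ⟨u, hu1, hu2, hu3⟩ := h1 (fun i => e.repr ⟨y, hy⟩ i) (fun i => hM ⟨y, hy⟩ i hyR)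
    refine ⟨u, hu1, hu2, ?_⟩
    have h2 : ∑ i, e.repr ⟨y, hy⟩ i • (e i : E) = y := by
      have := congrArg (L.V (j + 1)).subtype (e.sum_repr ⟨y, hy⟩)
      rw [map_sum] at this
      exact this
    rwa [h2] at hu3

theorem horiz_F (j : ℕ) : ∀ i, i + j = L.step + 1 → 1 ≤ i → ∀ R : ℝ, ∃ (N : ℕ) (C : ℝ),
    ∀ u ∈ L.F i, ‖u‖ ≤ R → L.Reach N C u := by
  induction j with
  | zero =>
    intro i hi _ R
    refine ⟨0, 0, fun u hu _ => ?_⟩
    rw [L.F_high (by omega) hu]
    exact reach_zero L 0 0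
  | succ j ih =>
    intro i hi hi1 R
    obtain ⟨N, C, h1⟩ := lead_reach L i hi1 (‖L.proj i‖ * R)
    obtain ⟨B, hB⟩ := reach_bounded L N C
    obtain ⟨B1, hB1⟩ := bounded_inv L B
    obtain ⟨B2, hB2⟩ := bounded_mul L B1 R
    obtain ⟨N', C', h2⟩ := ih (i + 1) (by omega) (by omega) B2
    refine ⟨N + N', max C C', fun u hu huR => ?_⟩
    obtain ⟨w, hw1, hw2, hw3⟩ := h1 (L.proj i u) (L.proj_mem i u)
      (((L.proj i).le_opNorm u).trans (mul_le_mul_of_nonneg_left huR (norm_nonneg _)))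
    have hv : L.mul (L.inv w) u ∈ L.F (i + 1) := by
      set v := L.mul (L.inv w) u with hv
      have hwv : L.mul w v = u := L.mul_inv_cancel_left' w u
      -- `v = A w ⁻¹ (u - w)`
      have h3 : L.A w v = u - w := by
        rw [← hwv]
        simp only [StratLie.mul]
        abel
      have h4 : u - w ∈ L.F (i + 1) := by
        have := Submodule.sub_mem _ (L.sub_proj_mem hu) hw3
        rwa [show u - L.proj i u - (w - L.proj i u) = u - w by abel] at this
      have h5 : ∀ l, l ≤ i + 1 → v ∈ L.F l := by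
        intro l
        induction l with
        | zero => intro _; exact L.mem_F_zero v
        | succ l ihl =>
          intro hl
          have h6 := L.A_sub_mem_F w (ihl (by omega))
          have h7 : v = L.A w v - (L.A w v - v) := by abel
          rw [h7]
          apply Submodule.sub_mem _ _ h6
          rw [h3]
          exact L.F_antitone hl h4
      exact h5 _ le_rfl
    have h3 := h2 _ hv (hB2 _ _ (hB1 _ (hB _ hw1)) huR)
    have h4 := reach_mul L hw1 h3
    rwa [L.mul_inv_cancel_left'] at h4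

theorem horiz (R : ℝ) : ∃ (N : ℕ) (C : ℝ), ∀ u : E, ‖u‖ ≤ R → L.Reach N C u := by
  obtain ⟨N, C, h⟩ := horiz_F L L.step 1 (by omega) le_rfl R
  exact ⟨N, C, fun u hu => h u (L.mem_F_one u) hu⟩

/-- A path along a list of horizontal elements. -/
noncomputable def StratLie.path : List E → Chain E 1
  | [] => 0
  | h :: l => affC ![0, h] + L.Tr h (StratLie.path l)

theorem boundary_path (l : List E) : boundary (L.path l) =
    affC (fun _ : Fin 1 => L.lprod l) - affC (fun _ : Fin 1 => (0 : E)) := by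
  induction l with
  | nil =>
    simp [StratLie.path, StratLie.lprod]
  | cons h l ih =>
    rw [StratLie.path, map_add, boundary_Tr, ih, boundary_affC, map_sub, Tr_affC, Tr_affC]
    simp only [L.mul_zero']
    rw [Fin.sum_univ_two]
    have e1 : (![0, h] : Fin 2 → E) ∘ (0 : Fin 2).succAbove = fun _ : Fin 1 => h := by
      funext i
      fin_cases i
      rfl
    have e2 : (![0, h] : Fin 2 → E) ∘ (1 : Fin 2).succAbove = fun _ : Fin 1 => (0 : E) := by
      funext i
      fin_cases i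
      rfl
    rw [e1, e2]
    have e3 : L.lprod (h :: l) = L.mul h (L.lprod l) := rfl
    rw [e3]
    simp only [Fin.val_zero, pow_zero, one_smul, Fin.val_one, pow_one, neg_smul]
    abel

theorem mass_path_le (l : List E) {C : ℝ} (hC : 0 ≤ C) (h : ∀ x ∈ l, x ∈ L.V 1 ∧ ‖x‖ ≤ C) :
    L.mass (L.path l) ≤ ENNReal.ofReal (l.length * C) := by
  induction l with
  | nil => simp [StratLie.path, mass_zero]
  | cons x l ih =>
    rw [StratLie.path]
    refine (mass_add_le L _ _).trans ?_
    have h1 := (mass_Tr_le L x (L.path l)).trans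
      (ih fun y hy => h y (List.mem_cons_of_mem _ hy))
    have h2 : L.mass (affC ![0, x]) ≤ ENNReal.ofReal C := by
      rw [affC, mass_single]
      exact (simpMass_horizontal L (h x List.mem_cons_self).1).trans
        (ENNReal.ofReal_le_ofReal (h x List.mem_cons_self).2)
    refine (add_le_add h2 h1).trans ?_
    rw [← ENNReal.ofReal_add hC (by positivity)]
    apply ENNReal.ofReal_le_ofReal
    rw [List.length_cons]
    push_cast
    linarith

theorem dil_lprod (t : ℝ) (l : List E) : L.dil t (L.lprod l) = L.lprod (l.map (L.dil t)) := by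
  induction l with
  | nil => simp [StratLie.lprod]
  | cons x l ih =>
    have e3 : L.lprod (x :: l) = L.mul x (L.lprod l) := rfl
    rw [e3, L.dil_mul, ih]
    rfl

/-- Points at bounded distance are joined, after dilation by `t`, by chains of mass `O(t)`. -/
theorem exists_path (R : ℝ) : ∃ C : ℝ, 0 < C ∧ ∀ t : ℝ, 0 ≤ t → ∀ u : E, ‖u‖ ≤ R →
    ∃ c : Chain E 1, boundary c = affC (fun _ : Fin 1 => L.dil t u) -
      affC (fun _ : Fin 1 => (0 : E)) ∧ L.mass c ≤ ENNReal.ofReal (C * t) := by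
  obtain ⟨N, C, h⟩ := horiz L R
  refine ⟨N * max C 0 + 1, by positivity, fun t ht u hu => ?_⟩
  obtain ⟨l, h1, h2, h3⟩ := h u hu
  refine ⟨L.path (l.map (L.dil t)), ?_, ?_⟩
  · rw [boundary_path, ← dil_lprod, h3]
  · refine (mass_path_le L _ (C := t * max C 0) (by positivity) ?_).trans ?_
    · intro x hx
      rw [List.mem_map] at hx
      obtain ⟨y, hy, rfl⟩ := hx
      refine ⟨L.dil_mem_V t (h2 y hy).1, ?_⟩
      rw [L.dil_of_mem t (h2 y hy).1, pow_one, norm_smul, Real.norm_eq_abs, abs_of_nonneg ht]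
      exact mul_le_mul_of_nonneg_left ((h2 y hy).2.trans (le_max_left _ _)) ht
    · apply ENNReal.ofReal_le_ofReal
      rw [List.length_map]
      have h4 : (l.length : ℝ) ≤ N := by exact_mod_cast h1
      have h5 : (l.length : ℝ) * (t * max C 0) ≤ N * (t * max C 0) :=
        mul_le_mul_of_nonneg_right h4 (by positivity)
      nlinarith

end Run7.h693
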