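import Pool.Agent.Run7.h693.Mean
import Pool.Agent.Run7.h693.Horiz

set_option linter.unusedSectionVars false
set_option linter.deprecated false

open Finset Filter Topology Module

namespace Run7.h693

section BSsec

variable {X : Type*} [NormedAddCommGroup X]

theorem BS.nonneg_bounds {f : X → ℝ} (hf : BS f) :
    ∃ C R : ℝ, 0 ≤ C ∧ 0 ≤ R ∧ (∀ x, |f x| ≤ C) ∧ ∀ x, R < ‖x‖ → f x = 0 := by
  obtain ⟨C, R, hC, hR⟩ := hf
  refine ⟨C, max R 0, (abs_nonneg _).trans (hC 0), le_max_right _ _, hC, fun x hx => ?_⟩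
  exact hR x (lt_of_le_of_lt (le_max_left _ _) hx)

theorem BS.zero : BS (0 : X → ℝ) := ⟨0, 0, fun x => by simp, fun x _ => rfl⟩

theorem BS.add {f g : X → ℝ} (hf : BS f) (hg : BS g) : BS (f + g) := by
  obtain ⟨C, R, hC, hR⟩ := hf
  obtain ⟨C', R', hC', hR'⟩ := hg
  refine ⟨C + C', max R R', fun x => (abs_add_le _ _).trans (add_le_add (hC x) (hC' x)),
    fun x hx => ?_⟩
  rw [Pi.add_apply, hR x (lt_of_le_of_lt (le_max_left _ _) hx),
    hR' x (lt_of_le_of_lt (le_max_right _ _) hx), add_zero]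

theorem BS.bdd_mul {β f : X → ℝ} (hβ : Bdd β) (hf : BS f) : BS (fun x => β x * f x) := by
  obtain ⟨K, hK⟩ := hβ
  obtain ⟨C, R, hC0, _, hC, hR⟩ := hf.nonneg_bounds
  refine ⟨|K| * C, R, fun x => ?_, fun x hx => by simp only [hR x hx, mul_zero]⟩
  rw [abs_mul]
  exact mul_le_mul ((hK x).trans (le_abs_self K)) (hC x) (abs_nonneg _) (abs_nonneg _)

theorem BS.smul {f : X → ℝ} (c : ℝ) (hf : BS f) : BS (c • f) :=
  BS.bdd_mul (β := fun _ => c) ⟨|c|, fun _ => le_rfl⟩ hf

theorem BS.neg {f : X → ℝ} (hf : BS f) : BS (-f) := by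
  have := hf.smul (-1)
  simpa using this

theorem BS.sub {f g : X → ℝ} (hf : BS f) (hg : BS g) : BS (f - g) := by
  rw [sub_eq_add_neg]; exact hf.add hg.neg

theorem BS.sum {ι : Type*} (s : Finset ι) {f : ι → X → ℝ} (hf : ∀ i ∈ s, BS (f i)) :
    BS (∑ i ∈ s, f i) := by
  classical
  induction s using Finset.induction_on with
  | empty => rw [sum_empty]; exact BS.zero
  | insert i s hi ih =>
    rw [sum_insert hi]
    exact (hf i (mem_insert_self i s)).add (ih fun j hj => hf j (mem_insert_of_mem hj))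

theorem BS.abs {f : X → ℝ} (hf : BS f) : BS (fun x => |f x|) := by
  obtain ⟨C, R, hC, hR⟩ := hf
  exact ⟨C, R, fun x => by rw [abs_abs]; exact hC x, fun x hx => by
    simp only [hR x hx, abs_zero]⟩

/-- Proper maps. -/
def ProperT (T : X → X) : Prop := ∀ R : ℝ, ∃ R' : ℝ, ∀ x, ‖T x‖ ≤ R → ‖x‖ ≤ R'

theorem BS.comp {f : X → ℝ} (hf : BS f) {T : X → X} (hT : ProperT T) :
    BS (fun x => f (T x)) := by
  obtain ⟨C, R, hC, hR⟩ := hf
  obtain ⟨R', hR'⟩ := hT R
  refine ⟨C, R', fun x => hC _, fun x hx => hR _ ?_⟩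
  by_contra h
  exact absurd (hR' x (not_lt.1 h)) (not_le.2 hx)

theorem ProperT.pi {T : X → X} (hT : ProperT T) {m : ℕ} :
    ProperT (fun (g : Fin m → X) j => T (g j)) := by
  intro R
  obtain ⟨R', hR'⟩ := hT R
  refine ⟨max R' 0, fun g hg => ?_⟩
  rw [pi_norm_le_iff_of_nonneg (le_max_right _ _)]
  intro j
  exact (hR' _ ((norm_le_pi_norm (fun j => T (g j)) j).trans hg)).trans (le_max_left _ _)

theorem norm_cons_left {m : ℕ} (x : X) (y : Fin m → X) :
    ‖x‖ ≤ ‖(Fin.cons x y : Fin (m + 1) → X)‖ :=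
  norm_le_pi_norm (Fin.cons x y : Fin (m + 1) → X) 0

theorem norm_cons_right {m : ℕ} (x : X) (y : Fin m → X) :
    ‖y‖ ≤ ‖(Fin.cons x y : Fin (m + 1) → X)‖ := by
  rw [pi_norm_le_iff_of_nonneg (norm_nonneg _)]
  intro j
  have := norm_le_pi_norm (Fin.cons x y : Fin (m + 1) → X) j.succ
  simpa using this

theorem BS.section' {m : ℕ} {f : (Fin (m + 1) → X) → ℝ} (hf : BS f) (x : X) :
    BS (fun y : Fin m → X => f (Fin.cons x y)) := by
  obtain ⟨C, R, hC, hR⟩ := hf
  exact ⟨C, R, fun y => hC _, fun y hy => hR _ (lt_of_lt_of_le hy (norm_cons_right x y))⟩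

/-- The indicator of a ball. -/
noncomputable def ind (R : ℝ) (x : X) : ℝ := if ‖x‖ ≤ R then 1 else 0

theorem BS_ind (R : ℝ) : BS (ind R : X → ℝ) := by
  refine ⟨1, R, fun x => ?_, fun x hx => ?_⟩
  · unfold ind; split_ifs <;> simp
  · unfold ind; rw [if_neg (not_le.2 hx)]

variable {Λ : (X → ℝ) → ℝ}

theorem IsFun.zero (h : IsFun Λ) : Λ 0 = 0 := by
  have := h.smul 0 0 BS.zero
  simpa using this

theorem IsFun.neg (h : IsFun Λ) {f : X → ℝ} (hf : BS f) : Λ (-f) = -Λ f := by
  have := h.smul (-1) f hf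
  simpa using this

theorem IsFun.sub (h : IsFun Λ) {f g : X → ℝ} (hf : BS f) (hg : BS g) :
    Λ (f - g) = Λ f - Λ g := by
  rw [sub_eq_add_neg, h.add f (-g) hf hg.neg, h.neg hg, sub_eq_add_neg]

theorem IsFun.sum (h : IsFun Λ) {ι : Type*} (s : Finset ι) {f : ι → X → ℝ}
    (hf : ∀ i ∈ s, BS (f i)) : Λ (∑ i ∈ s, f i) = ∑ i ∈ s, Λ (f i) := by
  classical
  induction s using Finset.induction_on with
  | empty => rw [sum_empty, sum_empty, h.zero]
  | insert i s hi ih =>
    rw [sum_insert hi, sum_insert hi, h.add _ _ (hf i (mem_insert_self i s))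
      (BS.sum s fun j hj => hf j (mem_insert_of_mem hj)),
      ih fun j hj => hf j (mem_insert_of_mem hj)]

theorem IsFun.mono (h : IsFun Λ) {f g : X → ℝ} (hf : BS f) (hg : BS g) (hfg : ∀ x, f x ≤ g x) :
    Λ f ≤ Λ g := by
  have h1 := h.nonneg (g - f) (hg.sub hf) fun x => sub_nonneg.2 (hfg x)
  rw [h.sub hg hf] at h1
  linarith

theorem IsFun.abs_le (h : IsFun Λ) {f g : X → ℝ} (hf : BS f) (hg : BS g)
    (hfg : ∀ x, |f x| ≤ g x) : |Λ f| ≤ Λ g := by
  rw [_root_.abs_le]
  constructor
  · rw [← h.neg hg]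
    exact h.mono hg.neg hf fun x => (_root_.abs_le.1 (hfg x)).1
  · exact h.mono hf hg fun x => (_root_.abs_le.1 (hfg x)).2

theorem IsFun.abs_le_ind (h : IsFun Λ) {f : X → ℝ} (hf : BS f) {C R : ℝ}
    (hC : ∀ x, |f x| ≤ C) (hR : ∀ x, R < ‖x‖ → f x = 0) : |Λ f| ≤ C * Λ (ind R) := by
  rw [← h.smul C _ (BS_ind R)]
  apply h.abs_le hf ((BS_ind R).smul C)
  intro x
  rw [Pi.smul_apply, smul_eq_mul]
  unfold ind
  split_ifs with hx
  · rw [mul_one]; exact hC x
  · rw [hR x (not_le.1 hx), abs_zero, mul_zero]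

theorem BS.outer {m : ℕ} {Λ' : ((Fin m → X) → ℝ) → ℝ} (h : IsFun Λ')
    {f : (Fin (m + 1) → X) → ℝ} (hf : BS f) :
    BS (fun x : X => Λ' fun y => f (Fin.cons x y)) := by
  have hf' := hf
  obtain ⟨C, R, hC, hR⟩ := hf
  refine ⟨C * Λ' (ind R), R, fun x => ?_, fun x hx => ?_⟩
  · exact h.abs_le_ind (hf'.section' x) (fun y => hC _)
      fun y hy => hR _ (lt_of_lt_of_le hy (norm_cons_right x y))
  · have : (fun y : Fin m → X => f (Fin.cons x y)) = 0 := by
      funext y
      exact hR _ (lt_of_lt_of_le hx (norm_cons_left x y))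
    simp only [this]
    exact h.zero

/-- The iterated functional. -/
noncomputable def powF (Λ : (X → ℝ) → ℝ) : ∀ m : ℕ, ((Fin m → X) → ℝ) → ℝ
  | 0, f => f Fin.elim0
  | m + 1, f => Λ fun x => powF Λ m fun y => f (Fin.cons x y)

theorem isFun_powF (h : IsFun Λ) (m : ℕ) : IsFun (powF Λ m) := by
  induction m with
  | zero => exact ⟨fun f g _ _ => rfl, fun c f _ => rfl, fun f _ h0 => h0 _⟩
  | succ m ih =>
    refine ⟨fun f g hf hg => ?_, fun c f hf => ?_, fun f hf h0 => ?_⟩
    · change Λ (fun x => powF Λ m ((fun y => f (Fin.cons x y)) + fun y => g (Fin.cons x y))) = _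
      have e : (fun x => powF Λ m ((fun y => f (Fin.cons x y)) + fun y => g (Fin.cons x y))) =
          (fun x => powF Λ m fun y => f (Fin.cons x y)) +
            fun x => powF Λ m fun y => g (Fin.cons x y) := by
        funext x
        exact ih.add _ _ (hf.section' x) (hg.section' x)
      rw [e]
      exact h.add _ _ (hf.outer ih) (hg.outer ih)
    · change Λ (fun x => powF Λ m (c • fun y => f (Fin.cons x y))) = _
      have e : (fun x => powF Λ m (c • fun y => f (Fin.cons x y))) =
          c • fun x => powF Λ m fun y => f (Fin.cons x y) := by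
        funext x
        exact ih.smul c _ (hf.section' x)
      rw [e]
      exact h.smul c _ (hf.outer ih)
    · exact h.nonneg _ (hf.outer ih) fun x => ih.nonneg _ (hf.section' x) fun y => h0 _

theorem BS.prod {m : ℕ} {F : Fin m → X → ℝ} (hF : ∀ j, BS (F j)) :
    BS (fun g : Fin m → X => ∏ j, F j (g j)) := by
  choose C R hC0 hR0 hC hR using fun j => (hF j).nonneg_bounds
  refine ⟨∏ j, C j, ∑ j, R j, fun g => ?_, fun g hg => ?_⟩
  · rw [abs_prod]
    exact prod_le_prod (fun _ _ => abs_nonneg _) fun j _ => hC j _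
  · by_contra hne
    have h1 : ‖g‖ ≤ ∑ j, R j := by
      rw [pi_norm_le_iff_of_nonneg (sum_nonneg fun j _ => hR0 j)]
      intro j
      by_contra h
      apply hne
      apply prod_eq_zero (mem_univ j)
      apply hR j
      exact lt_of_le_of_lt (single_le_sum (fun j _ => hR0 j) (mem_univ j)) (not_le.1 h)
    exact absurd h1 (not_le.2 hg)

theorem powF_prod (h : IsFun Λ) {m : ℕ} {F : Fin m → X → ℝ} (hF : ∀ j, BS (F j)) :
    powF Λ m (fun g => ∏ j, F j (g j)) = ∏ j, Λ (F j) := by
  induction m with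
  | zero => simp [powF]
  | succ m ih =>
    rw [Fin.prod_univ_succ]
    change Λ (fun x => powF Λ m fun y => ∏ j, F j ((Fin.cons x y : Fin (m + 1) → X) j)) = _
    have e : (fun x => powF Λ m fun y => ∏ j, F j ((Fin.cons x y : Fin (m + 1) → X) j)) =
        (∏ j : Fin m, Λ (F j.succ)) • F 0 := by
      funext x
      have e1 : (fun y : Fin m → X => ∏ j, F j ((Fin.cons x y : Fin (m + 1) → X) j)) =
          (F 0 x) • fun y : Fin m → X => ∏ j : Fin m, F j.succ (y j) := by
        funext y
        rw [Fin.prod_univ_succ]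
        simp
      rw [e1, (isFun_powF h m).smul _ _ (BS.prod fun j => hF j.succ), ih fun j => hF j.succ]
      simp [mul_comm]
    rw [e, h.smul _ _ (hF 0), mul_comm]

/-- Integrating out one variable. -/
theorem powF_insert (h : IsFun Λ) {m : ℕ} (i : Fin (m + 1)) {u : X → ℝ} {H : (Fin m → X) → ℝ}
    (hu : BS u) (hH : BS H) :
    BS (fun g : Fin (m + 1) → X => u (g i) * H (g ∘ i.succAbove)) ∧
    powF Λ (m + 1) (fun g => u (g i) * H (g ∘ i.succAbove)) = Λ u * powF Λ m H := by
  constructor
  · obtain ⟨C, R, hC0, hR0, hC, hR⟩ := hu.nonneg_bounds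
    obtain ⟨C', R', hC'0, hR'0, hC', hR'⟩ := hH.nonneg_bounds
    refine ⟨C * C', R + R', fun g => ?_, fun g hg => ?_⟩
    · rw [abs_mul]
      exact mul_le_mul (hC _) (hC' _) (abs_nonneg _) hC0
    · by_contra hne
      have h1 : ‖g i‖ ≤ R := by
        by_contra h; exact hne (by simp only [hR _ (not_le.1 h), zero_mul])
      have h2 : ‖g ∘ i.succAbove‖ ≤ R' := by
        by_contra h; exact hne (by simp only [hR' _ (not_le.1 h), mul_zero])
      have h3 : ‖g‖ ≤ R + R' := by
        rw [pi_norm_le_iff_of_nonneg (by positivity)]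
        intro j
        rcases Fin.eq_self_or_eq_succAbove i j with rfl | ⟨j, rfl⟩
        · linarith
        · have := (norm_le_pi_norm (g ∘ i.succAbove) j).trans h2
          rw [Function.comp_apply] at this
          linarith
      exact absurd h3 (not_le.2 hg)
  · induction m with
    | zero =>
      have hi : i = 0 := Fin.ext (by omega)
      subst hi
      change Λ (fun x => u x * H (_ ∘ _)) = Λ u * H Fin.elim0
      have e : (fun x : X => u x * H ((Fin.cons x Fin.elim0 : Fin 1 → X) ∘
          (0 : Fin 1).succAbove)) = (H Fin.elim0) • u := by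
        funext x
        have : (Fin.cons x Fin.elim0 : Fin 1 → X) ∘ (0 : Fin 1).succAbove = Fin.elim0 := by
          funext j; exact j.elim0
        rw [this]
        simp [mul_comm]
      exact (congrArg Λ e).trans ((h.smul _ _ hu).trans (mul_comm _ _))
    | succ m ih =>
      refine Fin.cases ?_ (fun i => ?_) i
      · change Λ (fun x => powF Λ (m + 1) fun y => u x *
          H ((Fin.cons x y : Fin (m + 2) → X) ∘ (0 : Fin (m + 2)).succAbove)) = _
        have e : (fun x => powF Λ (m + 1) fun y => u x *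
            H ((Fin.cons x y : Fin (m + 2) → X) ∘ (0 : Fin (m + 2)).succAbove)) =
            (powF Λ (m + 1) H) • u := by
          funext x
          have e1 : (fun y : Fin (m + 1) → X => u x *
              H ((Fin.cons x y : Fin (m + 2) → X) ∘ (0 : Fin (m + 2)).succAbove)) =
              (u x) • H := by
            funext y
            have : (Fin.cons x y : Fin (m + 2) → X) ∘ (0 : Fin (m + 2)).succAbove = y := by
              funext j; simp
            rw [this]
            rfl
          rw [e1, (isFun_powF h (m + 1)).smul _ _ hH]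
          simp [mul_comm]
        rw [e, h.smul _ _ hu, mul_comm]
      · change Λ (fun x => powF Λ (m + 1) fun y =>
          u ((Fin.cons x y : Fin (m + 2) → X) i.succ) *
          H ((Fin.cons x y : Fin (m + 2) → X) ∘ i.succ.succAbove)) = _
        have e : (fun x => powF Λ (m + 1) fun y =>
            u ((Fin.cons x y : Fin (m + 2) → X) i.succ) *
            H ((Fin.cons x y : Fin (m + 2) → X) ∘ i.succ.succAbove)) =
            (Λ u) • fun x => powF Λ m fun y => H (Fin.cons x y) := by
          funext x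
          have e1 : (fun y : Fin (m + 1) → X =>
              u ((Fin.cons x y : Fin (m + 2) → X) i.succ) *
              H ((Fin.cons x y : Fin (m + 2) → X) ∘ i.succ.succAbove)) =
              fun y => u (y i) * (fun z : Fin m → X => H (Fin.cons x z)) (y ∘ i.succAbove) := by
            funext y
            simp only [Fin.cons_succ]
            congr 2
            funext j
            refine Fin.cases ?_ (fun j => ?_) j
            · simp
            · simp
          rw [e1, ih i (hH.section' x)]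
          rfl
        rw [e, h.smul _ _ (hH.outer (isFun_powF h m))]
        rfl

/-- Invariance of the iterated functional. -/
theorem powF_map (h : IsFun Λ) {T : X → X}
    (hinv : ∀ f, BS f → Λ (fun x => f (T x)) = Λ f) {m : ℕ} {F : (Fin m → X) → ℝ} (hF : BS F) :
    powF Λ m (fun g => F fun j => T (g j)) = powF Λ m F := by
  induction m with
  | zero =>
    change F _ = F _
    congr 1
    funext j; exact j.elim0
  | succ m ih =>
    change Λ (fun x => powF Λ m fun y => F fun j => T ((Fin.cons x y : Fin (m + 1) → X) j)) =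
      Λ fun x => powF Λ m fun y => F (Fin.cons x y)
    rw [← hinv _ (hF.outer (isFun_powF h m))]
    congr 1
    funext x
    rw [← ih (hF.section' (T x))]
    congr 1
    funext y
    congr 1
    funext j
    refine Fin.cases ?_ (fun j => ?_) j
    · simp
    · simp

end BSsec

/-- Triangular maps. -/
def Tri {n : ℕ} (T : (Fin n → ℝ) → (Fin n → ℝ)) : Prop :=
  ∀ (i : Fin n) (x y : Fin n → ℝ), (∀ j < i, x j = y j) → T x i - x i = T y i - y i

theorem powF_tri {Λ : (ℝ → ℝ) → ℝ} (h : IsFun Λ)
    (htr : ∀ f, BS f → ∀ c, Λ (fun x => f (x + c)) = Λ f) {n : ℕ}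
    {T : (Fin n → ℝ) → (Fin n → ℝ)} (hT : Tri T) {f : (Fin n → ℝ) → ℝ} (hf : BS f)
    (hfT : BS fun x => f (T x)) : powF Λ n (fun x => f (T x)) = powF Λ n f := by
  induction n with
  | zero =>
    change f _ = f _
    congr 1
    funext j; exact j.elim0
  | succ n ih =>
    set c : ℝ := T 0 0 - (0 : Fin (n + 1) → ℝ) 0 with hc
    have hT0 : ∀ x, T x 0 = x 0 + c := by
      intro x
      have := hT 0 x 0 (fun j hj => absurd hj (Fin.not_lt_zero j))
      linarith
    let T' : ℝ → (Fin n → ℝ) → (Fin n → ℝ) := fun x y => Fin.tail (T (Fin.cons x y))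
    have hTc : ∀ x y, T (Fin.cons x y) = Fin.cons (x + c) (T' x y) := by
      intro x y
      funext j
      refine Fin.cases ?_ (fun j => ?_) j
      · rw [hT0]; simp
      · simp [T', Fin.tail]
    have hT' : ∀ x, Tri (T' x) := by
      intro x i y y' hy
      have := hT i.succ (Fin.cons x y) (Fin.cons x y') (fun j hj => by
        revert hj
        refine Fin.cases (fun _ => ?_) (fun j hj => ?_) j
        · simp
        · simp only [Fin.cons_succ]
          exact hy j (Fin.succ_lt_succ_iff.1 hj))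
      simpa [T', Fin.tail] using this
    change Λ (fun x => powF Λ n fun y => f (T (Fin.cons x y))) =
      Λ fun x => powF Λ n fun y => f (Fin.cons x y)
    rw [← htr _ (hf.outer (isFun_powF h n)) c]
    congr 1
    funext x
    have h1 := ih (hT' x) (hf.section' (x + c)) (by
      have := hfT.section' x
      simp only [hTc] at this
      exact this)
    rw [← h1]
    congr 1
    funext y
    rw [hTc]

variable {E : Type*} [NormedAddCommGroup E] [InnerProductSpace ℝ E] [FiniteDimensional ℝ E]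

/-- The functional on functions on `E`. -/
noncomputable def KE {n : ℕ} (b : Basis (Fin n) ℝ E) (f : E → ℝ) : ℝ :=
  powF JJ n fun c => f (b.equivFun.symm c)

theorem BS.equiv {n : ℕ} (b : Basis (Fin n) ℝ E) {f : E → ℝ} (hf : BS f) :
    BS (fun c : Fin n → ℝ => f (b.equivFun.symm c)) := by
  obtain ⟨C, R, hC0, hR0, hC, hR⟩ := hf.nonneg_bounds
  let T : E →L[ℝ] (Fin n → ℝ) := b.equivFunL
  refine ⟨C, ‖T‖ * R, fun x => hC _, fun x hx => hR _ ?_⟩
  by_contra h
  have h1 := T.le_opNorm (b.equivFun.symm x)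
  have h2 : T (b.equivFun.symm x) = x := b.equivFun.apply_symm_apply x
  rw [h2] at h1
  have h3 : ‖x‖ ≤ ‖T‖ * R := h1.trans (mul_le_mul_of_nonneg_left (not_lt.1 h) (norm_nonneg _))
  exact absurd h3 (not_le.2 hx)

theorem isFun_KE {n : ℕ} (b : Basis (Fin n) ℝ E) : IsFun (KE b) where
  add f g hf hg := (isFun_powF isFun_JJ n).add _ _ (hf.equiv b) (hg.equiv b)
  smul c f hf := (isFun_powF isFun_JJ n).smul c _ (hf.equiv b)
  nonneg f hf h0 := (isFun_powF isFun_JJ n).nonneg _ (hf.equiv b) fun x => h0 _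

variable (L : StratLie E)

theorem properT_mul (g : E) : ProperT (L.mul g) := by
  intro R
  obtain ⟨B, hB⟩ := bounded_mul L ‖L.inv g‖ R
  refine ⟨B, fun x hx => ?_⟩
  have := hB (L.inv g) (L.mul g x) le_rfl hx
  rwa [L.inv_mul_cancel_left'] at this

theorem KE_mul {n : ℕ} {b : Basis (Fin n) ℝ E} {wt : Fin n → ℕ} (hmono : Monotone wt)
    (hb : ∀ a, b a ∈ L.V (wt a)) (g : E) {f : E → ℝ} (hf : BS f) :
    KE b (fun x => f (L.mul g x)) = KE b f := by
  unfold KE
  let T : (Fin n → ℝ) → (Fin n → ℝ) := fun c => b.equivFun (L.mul g (b.equivFun.symm c))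
  have hT : Tri T := by
    intro i x y hxy
    have h1 : ∀ x : Fin n → ℝ, T x i - x i = b.repr g i +
        b.repr (L.A g (b.equivFun.symm x) - b.equivFun.symm x) i := by
      intro x
      have e1 : T x i = b.repr g i + b.repr (L.A g (b.equivFun.symm x)) i := by
        simp only [T, StratLie.mul, map_add, Basis.equivFun_apply, Finsupp.coe_add, Pi.add_apply]
      have e2 : b.repr (b.equivFun.symm x) i = x i := by
        have := congrFun (b.equivFun.apply_symm_apply x) i
        rwa [Basis.equivFun_apply] at this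
      rw [e1, map_sub, Finsupp.sub_apply, e2]
      ring
    rw [h1, h1]
    congr 1
    rw [← sub_eq_zero, ← Finsupp.sub_apply, ← map_sub]
    have e3 : L.A g (b.equivFun.symm x) - b.equivFun.symm x -
        (L.A g (b.equivFun.symm y) - b.equivFun.symm y) =
        L.A g (b.equivFun.symm (x - y)) - b.equivFun.symm (x - y) := by
      rw [map_sub, map_sub]; abel
    rw [e3]
    have h2 : b.equivFun.symm (x - y) ∈ L.F (wt i) := by
      rw [Basis.equivFun_symm_apply]
      refine Submodule.sum_mem _ fun j _ => ?_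
      rcases lt_or_ge j i with hj | hj
      · rw [Pi.sub_apply, hxy j hj, sub_self, zero_smul]; exact Submodule.zero_mem _
      · exact Submodule.smul_mem _ _ (L.V_le_F (hmono hj) (hb j))
    exact L.repr_of_mem_F hb (L.A_sub_mem_F g h2) (Nat.lt_succ_self _)
  have h3 : (fun c : Fin n → ℝ => f (L.mul g (b.equivFun.symm c))) =
      fun c => (fun c => f (b.equivFun.symm c)) (T c) := by
    funext c
    simp only [T, LinearEquiv.symm_apply_apply]
  rw [h3]
  apply powF_tri isFun_JJ (fun f hf c => JJ_trans hf c) hT (hf.equiv b)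
  rw [← h3]
  exact (hf.comp (properT_mul L g)).equiv b

theorem KE_pos {n : ℕ} (b : Basis (Fin n) ℝ E) {f : E → ℝ} (hf : BS f) (h0 : ∀ x, 0 ≤ f x)
    (h1 : ∀ x, (∀ i, b.repr x i ∈ Set.Ico (0 : ℝ) 1) → 1 ≤ f x) : 0 < KE b f := by
  have hind : BS (Set.indicator (Set.Ico (0 : ℝ) 1) fun _ => (1 : ℝ)) := by
    refine ⟨1, 1, fun x => ?_, fun x hx => ?_⟩
    · by_cases h : x ∈ Set.Ico (0 : ℝ) 1
      · rw [Set.indicator_of_mem h]; simp
      · rw [Set.indicator_of_notMem h]; simp
    · apply Set.indicator_of_notMem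
      rintro ⟨ha, hb⟩
      rw [Real.norm_eq_abs, abs_of_nonneg ha] at hx
      linarith
  have h2 : powF JJ n (fun c => ∏ j, (Set.indicator (Set.Ico (0 : ℝ) 1) fun _ => (1 : ℝ)) (c j))
      = 1 := by
    rw [powF_prod isFun_JJ (fun _ => hind)]
    simp [JJ_unit]
  have h3 : (1 : ℝ) ≤ KE b f := by
    rw [← h2]
    apply (isFun_powF isFun_JJ n).mono (BS.prod fun _ => hind) (hf.equiv b)
    intro c
    by_cases hc : ∀ i, c i ∈ Set.Ico (0 : ℝ) 1
    · rw [prod_eq_one fun j _ => Set.indicator_of_mem (hc j) _]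
      apply h1
      intro i
      have := congrFun (b.equivFun.apply_symm_apply c) i
      rw [Basis.equivFun_apply] at this
      rw [this]
      exact hc i
    · push Not at hc
      obtain ⟨i, hi⟩ := hc
      rw [prod_eq_zero (mem_univ i) (Set.indicator_of_notMem hi _)]
      exact h0 _
  linarith

end Run7.h693
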