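import Mathlib

set_option linter.unusedSectionVars false
set_option linter.deprecated false

open Finset

namespace Run7.h693.Grid

/-- The `j`-th vertex of the staircase path from `x` in the directions `π 0, π 1, ...`. -/
def pv {n : ℕ} (x : Fin n → ℕ) (π : Equiv.Perm (Fin n)) (j : ℕ) : Fin n → ℕ :=
  fun i => x i + if ((π⁻¹ i : Fin n) : ℕ) < j then 1 else 0

/-- The same path with the first step omitted. -/
def pv' {n : ℕ} (x : Fin n → ℕ) (π : Equiv.Perm (Fin n)) (j : ℕ) : Fin n → ℕ :=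
  fun i => x i + if 1 ≤ ((π⁻¹ i : Fin n) : ℕ) ∧ ((π⁻¹ i : Fin n) : ℕ) ≤ j then 1 else 0

/-- The cochain `c_0 ∪ dc_1 ∪ ... ∪ dc_m`. -/
noncomputable def W (m : ℕ) (c : ℕ → ℕ → ℝ) : ℝ :=
  c 0 0 * ∏ k ∈ range m, (c (k + 1) (k + 1) - c k (k + 1))

theorem W_congr {m : ℕ} {c c' : ℕ → ℕ → ℝ} (h : ∀ j ≤ m, c j = c' j) : W m c = W m c' := by
  unfold W
  rw [h 0 (Nat.zero_le _)]
  congr 1
  refine prod_congr rfl fun k hk => ?_
  have hk' := mem_range.1 hk
  rw [h (k + 1) (by omega), h k (by omega)]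

theorem leib (m : ℕ) (c : ℕ → ℕ → ℝ) :
    ∏ k ∈ range (m + 1), (c (k + 1) k - c k k) =
      ∑ i ∈ range (m + 2), (-1 : ℝ) ^ i * W m (fun j => c (if j < i then j else j + 1)) := by
  induction m with
  | zero =>
    simp [W, sum_range_succ]
    ring
  | succ m ih =>
    rw [prod_range_succ, ih]
    conv_rhs => rw [sum_range_succ, sum_range_succ]
    have hW : ∀ d : ℕ → ℕ → ℝ, W (m + 1) d = W m d * (d (m + 1) (m + 1) - d m (m + 1)) := by
      intro d
      simp only [W, prod_range_succ]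
      ring
    have h1 : ∑ i ∈ range (m + 1), (-1 : ℝ) ^ i *
        W (m + 1) (fun j => c (if j < i then j else j + 1)) =
        ∑ i ∈ range (m + 1), (-1 : ℝ) ^ i * W m (fun j => c (if j < i then j else j + 1)) *
          (c (m + 1 + 1) (m + 1) - c (m + 1) (m + 1)) := by
      refine sum_congr rfl fun i hi => ?_
      have hi' := mem_range.1 hi
      rw [hW]
      have e1 : ¬ (m + 1 < i) := by omega
      have e2 : ¬ (m < i) := by omega
      simp only [e1, e2, if_false]
      ring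
    rw [h1, hW, hW]
    have e1 : ¬ (m + 1 < m + 1) := by omega
    have e2 : m < m + 1 := by omega
    have e3 : m + 1 < m + 2 := by omega
    have e4 : m < m + 2 := by omega
    simp only [e1, e2, e3, e4, if_false, if_true]
    have h2 : W m (fun j => c (if j < m + 2 then j else j + 1)) = W m c :=
      W_congr fun j hj => by
        have : j < m + 2 := by omega
        simp only [this, if_true]
    have h3 : W m (fun j => c (if j < m + 1 then j else j + 1)) = W m c :=
      W_congr fun j hj => by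
        have : j < m + 1 := by omega
        simp only [this, if_true]
    rw [h2, h3, sum_range_succ _ (m + 1), h3, ← Finset.sum_mul]
    ring

/-- The discrete volume. -/
noncomputable def VN (m N : ℕ) (h : (Fin (m + 1) → ℕ) → ℕ → ℝ) : ℝ :=
  ∑ x : Fin (m + 1) → Fin N, ∑ π : Equiv.Perm (Fin (m + 1)), (Equiv.Perm.sign π : ℝ) *
    ∏ k ∈ range (m + 1), (h (pv (fun i => (x i : ℕ)) π (k + 1)) k -
      h (pv (fun i => (x i : ℕ)) π k) k)

/-- The discrete boundary functional. -/
noncomputable def BN (m N : ℕ) (h : (Fin m → ℕ) → ℕ → ℝ) : ℝ :=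
  ∑ y : Fin m → Fin N, ∑ ρ : Equiv.Perm (Fin m), (Equiv.Perm.sign ρ : ℝ) *
    W m (fun j => h (pv (fun i => (y i : ℕ)) ρ j))

/-- Inner faces cancel. -/
theorem inner_cancel {m : ℕ} (h : (Fin (m + 1) → ℕ) → ℕ → ℝ) (x : Fin (m + 1) → ℕ) {i : ℕ}
    (hi0 : 0 < i) (him : i < m + 1) :
    ∑ π : Equiv.Perm (Fin (m + 1)), (Equiv.Perm.sign π : ℝ) *
      W m (fun j => h (pv x π (if j < i then j else j + 1))) = 0 := by
  set a : Fin (m + 1) := ⟨i - 1, by omega⟩ with ha
  set b : Fin (m + 1) := ⟨i, him⟩ with hb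
  have hab : a ≠ b := by
    intro h
    have := congrArg Fin.val h
    simp only [ha, hb] at this
    omega
  set τ : Equiv.Perm (Fin (m + 1)) := Equiv.swap a b with hτ
  have key : ∀ (π : Equiv.Perm (Fin (m + 1))) (j : ℕ), j ≠ i → pv x (π * τ) j = pv x π j := by
    intro π j hj
    funext l
    simp only [pv]
    congr 1
    have : (π * τ)⁻¹ l = τ (π⁻¹ l) := by
      rw [mul_inv_rev, hτ, Equiv.swap_inv]; rfl
    rw [this]
    set q := π⁻¹ l
    have hq : ((τ q : Fin (m + 1)) : ℕ) < j ↔ (q : ℕ) < j := by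
      rw [hτ]
      by_cases hqa : q = a
      · rw [hqa, Equiv.swap_apply_left]
        simp only [ha, hb]
        omega
      · by_cases hqb : q = b
        · rw [hqb, Equiv.swap_apply_right]
          simp only [ha, hb]
          omega
        · rw [Equiv.swap_apply_of_ne_of_ne hqa hqb]
    simp only [hq]
  have h1 : ∑ π : Equiv.Perm (Fin (m + 1)), (Equiv.Perm.sign π : ℝ) *
      W m (fun j => h (pv x π (if j < i then j else j + 1))) =
      ∑ π : Equiv.Perm (Fin (m + 1)), (Equiv.Perm.sign (π * τ) : ℝ) *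
      W m (fun j => h (pv x (π * τ) (if j < i then j else j + 1))) :=
    (Fintype.sum_equiv (Equiv.mulRight τ) _ _ fun π => rfl).symm
  have h2 : ∑ π : Equiv.Perm (Fin (m + 1)), (Equiv.Perm.sign (π * τ) : ℝ) *
      W m (fun j => h (pv x (π * τ) (if j < i then j else j + 1))) =
      - ∑ π : Equiv.Perm (Fin (m + 1)), (Equiv.Perm.sign π : ℝ) *
      W m (fun j => h (pv x π (if j < i then j else j + 1))) := by
    rw [← Finset.sum_neg_distrib]
    refine sum_congr rfl fun π _ => ?_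
    have e : ∀ j, (if j < i then j else j + 1) ≠ i := by
      intro j; split_ifs <;> omega
    simp only [key π _ (e _)]
    rw [Equiv.Perm.sign_mul, hτ, Equiv.Perm.sign_swap hab]
    push_cast
    ring
  linarith [h1.trans h2]

theorem rot_pv {m : ℕ} (x : Fin (m + 1) → ℕ) (π : Equiv.Perm (Fin (m + 1))) {j : ℕ} (hj : j ≤ m) :
    pv x (π * finRotate (m + 1)) j = pv' x π j := by
  funext l
  simp only [pv, pv']
  congr 1
  set q := π⁻¹ l with hq
  have h1 : (π * finRotate (m + 1))⁻¹ l = (finRotate (m + 1))⁻¹ q := by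
    rw [mul_inv_rev]; rfl
  rw [h1]
  set r := (finRotate (m + 1))⁻¹ q with hr
  have hqr : q = finRotate (m + 1) r := by
    rw [hr]; simp
  have h2 : ((r : ℕ) < j) ↔ (1 ≤ (q : ℕ) ∧ (q : ℕ) ≤ j) := by
    rw [hqr, coe_finRotate]
    split_ifs with h
    · rw [h]
      simp only [Fin.val_last]
      omega
    · omega
  simp only [h2]

theorem sum_W_pv {m : ℕ} (h : (Fin (m + 1) → ℕ) → ℕ → ℝ) (x : Fin (m + 1) → ℕ) :
    ∑ π : Equiv.Perm (Fin (m + 1)), (Equiv.Perm.sign π : ℝ) *
      ∏ k ∈ range (m + 1), (h (pv x π (k + 1)) k - h (pv x π k) k) =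
    ∑ π : Equiv.Perm (Fin (m + 1)), (Equiv.Perm.sign π : ℝ) *
      (W m (fun j => h (pv' (x + Pi.single (π 0) 1) π j)) - W m (fun j => h (pv' x π j))) := by
  have h1 : ∀ π : Equiv.Perm (Fin (m + 1)), (Equiv.Perm.sign π : ℝ) *
      ∏ k ∈ range (m + 1), (h (pv x π (k + 1)) k - h (pv x π k) k) =
      ∑ i ∈ range (m + 2), (-1 : ℝ) ^ i * ((Equiv.Perm.sign π : ℝ) *
        W m (fun j => h (pv x π (if j < i then j else j + 1)))) := by
    intro π
    rw [leib m (fun j => h (pv x π j)), mul_sum]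
    refine sum_congr rfl fun i _ => ?_
    ring
  rw [sum_congr rfl fun π _ => h1 π, sum_comm]
  simp only [← mul_sum]
  rw [sum_range_succ, sum_range_succ']
  have h2 : ∑ k ∈ range m, (-1 : ℝ) ^ (k + 1) * ∑ π : Equiv.Perm (Fin (m + 1)),
      (Equiv.Perm.sign π : ℝ) * W m (fun j => h (pv x π (if j < k + 1 then j else j + 1))) = 0 := by
    refine sum_eq_zero fun k hk => ?_
    rw [inner_cancel h x (Nat.succ_pos k) (by have := mem_range.1 hk; omega), mul_zero]
  rw [h2, zero_add]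
  simp only [mul_sub]
  rw [sum_sub_distrib]
  have h3 : ∑ π : Equiv.Perm (Fin (m + 1)), (Equiv.Perm.sign π : ℝ) *
      W m (fun j => h (pv x π (if j < m + 1 then j else j + 1))) =
      (-1 : ℝ) ^ m * ∑ π : Equiv.Perm (Fin (m + 1)), (Equiv.Perm.sign π : ℝ) *
      W m (fun j => h (pv' x π j)) := by
    rw [← (Fintype.sum_equiv (Equiv.mulRight (finRotate (m + 1))) _ _ fun π => rfl), mul_sum]
    refine sum_congr rfl fun π _ => ?_
    have e : W m (fun j => h (pv x ((Equiv.mulRight (finRotate (m + 1))) π)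
        (if j < m + 1 then j else j + 1))) = W m (fun j => h (pv' x π j)) := by
      apply W_congr
      intro j hj
      have : j < m + 1 := by omega
      simp only [this, if_true, Equiv.coe_mulRight]
      rw [rot_pv x π hj]
    rw [e]
    simp only [Equiv.coe_mulRight, Equiv.Perm.sign_mul, sign_finRotate]
    push_cast
    ring
  rw [h3]
  have h4 : ∑ π : Equiv.Perm (Fin (m + 1)), (Equiv.Perm.sign π : ℝ) *
      W m (fun j => h (pv x π (if j < 0 then j else j + 1))) =
      ∑ π : Equiv.Perm (Fin (m + 1)), (Equiv.Perm.sign π : ℝ) *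
      W m (fun j => h (pv' (x + Pi.single (π 0) 1) π j)) := by
    refine sum_congr rfl fun π _ => ?_
    congr 2
    funext j
    simp only [Nat.not_lt_zero, if_false]
    congr 1
    funext l
    simp only [pv, pv', Pi.add_apply]
    have hl : (π⁻¹ l = 0) ↔ l = π 0 := by
      rw [Equiv.Perm.inv_eq_iff_eq]
    by_cases h0 : l = π 0
    · have h0' := hl.2 h0
      rw [h0']
      subst h0
      simp
    · have h0' : π⁻¹ l ≠ 0 := fun h => h0 (hl.1 h)
      have h0'' : ((π⁻¹ l : Fin (m + 1)) : ℕ) ≠ 0 := fun h => h0' (Fin.ext h)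
      rw [Pi.single_eq_of_ne h0]
      have : (((π⁻¹ l : Fin (m + 1)) : ℕ) < j + 1) ↔
        (1 ≤ ((π⁻¹ l : Fin (m + 1)) : ℕ) ∧ ((π⁻¹ l : Fin (m + 1)) : ℕ) ≤ j) := by omega
      simp only [this, add_zero]
  rw [h4]
  have h5 : ((-1 : ℝ)) ^ (m + 1) * (-1 : ℝ) ^ m = -1 := by
    rw [← pow_add, show m + 1 + m = 2 * m + 1 by ring, pow_succ, pow_mul]; simp
  rw [← mul_assoc, h5]
  ring

/-- The permutation `(j, ρ)`. -/
def permOf {m : ℕ} (p : Fin (m + 1) × Equiv.Perm (Fin m)) : Equiv.Perm (Fin (m + 1)) :=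
  (p.1.cycleRange)⁻¹ * Equiv.Perm.decomposeFin.symm (0, p.2)

theorem permOf_zero {m : ℕ} (p : Fin (m + 1) × Equiv.Perm (Fin m)) : permOf p 0 = p.1 := by
  simp only [permOf, Equiv.Perm.mul_apply, Equiv.Perm.decomposeFin_symm_apply_zero]
  exact Fin.cycleRange_symm_zero p.1

theorem permOf_succ {m : ℕ} (p : Fin (m + 1) × Equiv.Perm (Fin m)) (k : Fin m) :
    permOf p k.succ = p.1.succAbove (p.2 k) := by
  simp only [permOf, Equiv.Perm.mul_apply, Equiv.Perm.decomposeFin_symm_apply_succ,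
    Equiv.swap_self, Equiv.refl_apply]
  exact Fin.cycleRange_symm_succ p.1 (p.2 k)

theorem sign_permOf {m : ℕ} (p : Fin (m + 1) × Equiv.Perm (Fin m)) :
    (Equiv.Perm.sign (permOf p) : ℝ) = (-1) ^ (p.1 : ℕ) * (Equiv.Perm.sign p.2 : ℝ) := by
  simp only [permOf, Equiv.Perm.sign_mul, Equiv.Perm.sign_inv, Fin.sign_cycleRange,
    Equiv.Perm.decomposeFin.symm_sign]
  push_cast
  simp

theorem permOf_bijective {m : ℕ} : Function.Bijective (permOf (m := m)) := by
  rw [Fintype.bijective_iff_injective_and_card]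
  constructor
  · intro p q h
    have h0 : p.1 = q.1 := by rw [← permOf_zero p, h, permOf_zero q]
    have h1 : p.2 = q.2 := by
      ext k
      have := permOf_succ p k
      rw [h, permOf_succ q k, h0] at this
      rw [Fin.succAbove_right_injective this]
    exact Prod.ext h0 h1
  · simp [Fintype.card_perm, Nat.factorial_succ]

theorem pv'_insertNth {m : ℕ} (p : Fin (m + 1) × Equiv.Perm (Fin m)) (c : ℕ) (y : Fin m → ℕ)
    (k : ℕ) : pv' (p.1.insertNth (α := fun _ => ℕ) c y) (permOf p) k =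
      p.1.insertNth (α := fun _ => ℕ) c (pv y p.2 k) := by
  funext l
  rcases Fin.eq_self_or_eq_succAbove p.1 l with rfl | ⟨i, rfl⟩
  · have h : (permOf p)⁻¹ p.1 = 0 := by
      rw [Equiv.Perm.inv_eq_iff_eq, permOf_zero]
    simp only [pv', h]
    simp
  · have h : (permOf p)⁻¹ (p.1.succAbove i) = (p.2⁻¹ i).succ := by
      rw [Equiv.Perm.inv_eq_iff_eq, permOf_succ]
      simp
    simp only [pv', h, pv, Fin.insertNth_apply_succAbove, Fin.val_succ]
    congr 1
    have : (1 ≤ ((p.2⁻¹ i : Fin m) : ℕ) + 1 ∧ ((p.2⁻¹ i : Fin m) : ℕ) + 1 ≤ k) ↔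
      ((p.2⁻¹ i : Fin m) : ℕ) < k := by omega
    simp only [this]

theorem telescope {m N : ℕ} (j : Fin (m + 1)) (G : (Fin (m + 1) → ℕ) → ℝ) :
    ∑ x : Fin (m + 1) → Fin N, (G ((fun i => (x i : ℕ)) + Pi.single j 1) -
      G (fun i => (x i : ℕ))) =
    ∑ y : Fin m → Fin N, (G (j.insertNth (α := fun _ => ℕ) N (fun i => (y i : ℕ))) -
      G (j.insertNth (α := fun _ => ℕ) 0 (fun i => (y i : ℕ)))) := by
  rw [← Fintype.sum_equiv (Fin.insertNthEquiv (fun _ => Fin N) j) _ _ (fun _ => rfl)]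
  rw [Fintype.sum_prod_type, sum_comm]
  refine sum_congr rfl fun y _ => ?_
  have h1 : ∀ c : Fin N, (fun i => (((Fin.insertNthEquiv (fun _ => Fin N) j) (c, y)) i : ℕ)) =
      j.insertNth (α := fun _ => ℕ) (c : ℕ) (fun i => (y i : ℕ)) := by
    intro c
    funext l
    rcases Fin.eq_self_or_eq_succAbove j l with rfl | ⟨i, rfl⟩
    · simp
    · simp
  have h2 : ∀ c : ℕ, (j.insertNth (α := fun _ => ℕ) c (fun i => (y i : ℕ)) : Fin (m + 1) → ℕ) +
      Pi.single j 1 = j.insertNth (α := fun _ => ℕ) (c + 1) (fun i => (y i : ℕ)) := by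
    intro c
    funext l
    rcases Fin.eq_self_or_eq_succAbove j l with rfl | ⟨i, rfl⟩
    · simp
    · simp
  simp only [h1, h2]
  rw [Fin.sum_univ_eq_sum_range (fun c => G (j.insertNth (α := fun _ => ℕ) (c + 1)
    (fun i => (y i : ℕ))) - G (j.insertNth (α := fun _ => ℕ) c (fun i => (y i : ℕ))))]
  rw [sum_range_sub (fun c => G (j.insertNth (α := fun _ => ℕ) c (fun i => (y i : ℕ))))]

/-- Discrete Stokes formula for the grid. -/
theorem VN_eq (m N : ℕ) (h : (Fin (m + 1) → ℕ) → ℕ → ℝ) :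
    VN m N h = ∑ j : Fin (m + 1), (-1 : ℝ) ^ (j : ℕ) *
      (BN m N (fun z => h (j.insertNth (α := fun _ => ℕ) N z)) -
        BN m N (fun z => h (j.insertNth (α := fun _ => ℕ) 0 z))) := by
  unfold VN
  simp only [sum_W_pv]
  rw [sum_comm]
  have h1 : ∀ π : Equiv.Perm (Fin (m + 1)), ∑ x : Fin (m + 1) → Fin N,
      (Equiv.Perm.sign π : ℝ) * (W m (fun j => h (pv' ((fun i => (x i : ℕ)) +
        Pi.single (π 0) 1) π j)) - W m (fun j => h (pv' (fun i => (x i : ℕ)) π j))) =
      (Equiv.Perm.sign π : ℝ) * ∑ y : Fin m → Fin N,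
        (W m (fun j => h (pv' ((π 0).insertNth (α := fun _ => ℕ) N (fun i => (y i : ℕ))) π j)) -
        W m (fun j => h (pv' ((π 0).insertNth (α := fun _ => ℕ) 0 (fun i => (y i : ℕ))) π j))) := by
    intro π
    rw [← mul_sum]
    congr 1
    exact telescope (π 0) (fun z => W m (fun j => h (pv' z π j)))
  rw [sum_congr rfl fun π _ => h1 π]
  rw [← (Equiv.ofBijective (permOf (m := m)) permOf_bijective).sum_comp]
  rw [Fintype.sum_prod_type]
  refine sum_congr rfl fun j _ => ?_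
  simp only [Equiv.ofBijective_apply, permOf_zero, sign_permOf]
  have h2 : ∀ (ρ : Equiv.Perm (Fin m)) (c : ℕ) (y : Fin m → Fin N),
      W m (fun k => h (pv' (j.insertNth (α := fun _ => ℕ) c (fun i => (y i : ℕ)))
        (permOf (j, ρ)) k)) =
      W m (fun k => h (j.insertNth (α := fun _ => ℕ) c (pv (fun i => (y i : ℕ)) ρ k))) := by
    intro ρ c y
    congr 1
    funext k
    rw [pv'_insertNth (j, ρ) c]
  simp only [h2]
  unfold BN
  rw [← sum_sub_distrib]
  simp only [← sum_sub_distrib, ← mul_sub]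
  rw [sum_comm (s := (univ : Finset (Fin m → Fin N)))]
  simp only [mul_sum, mul_assoc]

end Run7.h693.Grid
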