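import Pool.Agent.Run7.h693.Grid

set_option linter.unusedSectionVars false
set_option linter.deprecated false

open Finset MeasureTheory Filter Topology

namespace Run7.h693.Grid

/-- The unit cube. -/
def cube (n : ℕ) : Set (Fin n → ℝ) := Set.pi Set.univ (fun _ => Set.Ico (0 : ℝ) 1)

/-- The small boxes. -/
def box {n : ℕ} (N : ℕ) (x : Fin n → Fin N) : Set (Fin n → ℝ) :=
  Set.pi Set.univ (fun i => Set.Ico (((x i : ℕ) : ℝ) / N) ((((x i : ℕ) : ℝ) + 1) / N))

theorem mem_box_iff {n N : ℕ} (hN : 0 < N) (x : Fin n → Fin N) (p : Fin n → ℝ) :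
    p ∈ box N x ↔ ∀ i, 0 ≤ p i ∧ ⌊(N : ℝ) * p i⌋₊ = (x i : ℕ) := by
  have hN' : (0 : ℝ) < N := by exact_mod_cast hN
  simp only [box, Set.mem_univ_pi, Set.mem_Ico]
  refine forall_congr' fun i => ?_
  rw [div_le_iff₀ hN', lt_div_iff₀ hN']
  constructor
  · rintro ⟨h1, h2⟩
    have h0 : 0 ≤ p i * N := le_trans (Nat.cast_nonneg _) h1
    refine ⟨nonneg_of_mul_nonneg_left h0 hN', ?_⟩
    rw [Nat.floor_eq_iff (by rw [mul_comm]; exact h0)]
    rw [mul_comm]
    exact ⟨h1, h2⟩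
  · rintro ⟨h0, h1⟩
    rw [Nat.floor_eq_iff (by positivity)] at h1
    rw [mul_comm]
    exact h1

theorem cube_eq {n N : ℕ} (hN : 0 < N) : cube n = ⋃ x : Fin n → Fin N, box N x := by
  have hN' : (0 : ℝ) < N := by exact_mod_cast hN
  ext p
  simp only [Set.mem_iUnion, mem_box_iff hN, cube, Set.mem_univ_pi, Set.mem_Ico]
  constructor
  · intro h
    have h1 : ∀ i, ⌊(N : ℝ) * p i⌋₊ < N := by
      intro i
      rw [Nat.floor_lt (mul_nonneg hN'.le (h i).1)]
      have := (h i).2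
      nlinarith
    exact ⟨fun i => ⟨_, h1 i⟩, fun i => ⟨(h i).1, rfl⟩⟩
  · rintro ⟨x, hx⟩ i
    refine ⟨(hx i).1, ?_⟩
    have h1 := (hx i).2
    rw [Nat.floor_eq_iff (mul_nonneg hN'.le (hx i).1)] at h1
    have h2 : ((x i : ℕ) : ℝ) + 1 ≤ N := by exact_mod_cast (x i).2
    have h3 : (N : ℝ) * p i < N * 1 := by linarith [h1.2]
    exact lt_of_mul_lt_mul_left h3 hN'.le

theorem measurable_floor_comp {n : ℕ} (N : ℕ) (G : (Fin n → ℕ) → ℝ) :
    Measurable (fun p : Fin n → ℝ => G (fun i => ⌊(N : ℝ) * p i⌋₊)) := by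
  have h1 : Measurable (fun p : Fin n → ℝ => (fun i => ⌊(N : ℝ) * p i⌋₊)) := by
    refine measurable_pi_lambda _ fun i => ?_
    exact Nat.measurable_floor.comp ((measurable_pi_apply i).const_mul _)
  have h2 : Measurable G := Measurable.of_discrete
  exact h2.comp h1

theorem riemann {n N : ℕ} (hN : 0 < N) (G : (Fin n → ℕ) → ℝ) :
    ∫ p in cube n, G (fun i => ⌊(N : ℝ) * p i⌋₊) =
      ∑ x : Fin n → Fin N, (1 / (N : ℝ)) ^ n * G (fun i => (x i : ℕ)) := by
  have hN' : (0 : ℝ) < N := by exact_mod_cast hN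
  have hmeas : ∀ x : Fin n → Fin N, MeasurableSet (box N x) := fun x =>
    MeasurableSet.univ_pi fun i => measurableSet_Ico
  have hcong : ∀ x : Fin n → Fin N, Set.EqOn (fun p : Fin n → ℝ =>
      G (fun i => ⌊(N : ℝ) * p i⌋₊)) (fun _ => G (fun i => (x i : ℕ))) (box N x) := by
    intro x p hp
    rw [mem_box_iff hN] at hp
    simp only
    congr 1
    funext i
    exact (hp i).2
  have hvol : ∀ x : Fin n → Fin N, volume (box N x) = ENNReal.ofReal ((1 / (N : ℝ)) ^ n) := by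
    intro x
    rw [box, Real.volume_pi_Ico]
    have : ∀ i : Fin n, (((x i : ℕ) : ℝ) + 1) / N - ((x i : ℕ) : ℝ) / N = 1 / N := by
      intro i; ring
    simp only [this, prod_const, card_univ, Fintype.card_fin]
    rw [ENNReal.ofReal_pow (by positivity)]
  rw [cube_eq hN, integral_iUnion_fintype hmeas]
  · refine sum_congr rfl fun x _ => ?_
    rw [setIntegral_congr_fun (hmeas x) (hcong x), setIntegral_const, smul_eq_mul]
    congr 1
    rw [Measure.real, hvol, ENNReal.toReal_ofReal (by positivity)]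
  · intro x y hxy
    rw [Function.onFun, Set.disjoint_left]
    intro p hp hq
    apply hxy
    rw [mem_box_iff hN] at hp hq
    funext i
    exact Fin.ext ((hp i).2.symm.trans (hq i).2)
  · intro x
    rw [integrableOn_congr_fun (hcong x) (hmeas x)]
    apply integrableOn_const
    · rw [hvol]; exact ENNReal.ofReal_ne_top
    · exact enorm_ne_top

/-- Scaling of grid points. -/
noncomputable def pt {n : ℕ} (N : ℕ) (z : Fin n → ℕ) : Fin n → ℝ := fun i => (z i : ℝ) / N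

/-- The difference quotient version of the determinant. -/
noncomputable def G {n : ℕ} (N : ℕ) (H : (Fin n → ℝ) → (Fin n → ℝ)) (x : Fin n → ℕ) : ℝ :=
  ∑ π : Equiv.Perm (Fin n), (Equiv.Perm.sign π : ℝ) *
    ∏ k : Fin n, ((N : ℝ) * (H (pt N (pv x π (k + 1))) k - H (pt N (pv x π k)) k))

theorem pt_pv_sub {n N : ℕ} (x : Fin n → ℕ) (π : Equiv.Perm (Fin n)) (k : Fin n) :
    pt N (pv x π (k + 1)) - pt N (pv x π k) = (1 / (N : ℝ)) • Pi.single (π k) 1 := by
  funext i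
  simp only [pt, pv, Pi.sub_apply, Pi.smul_apply, smul_eq_mul]
  by_cases h : i = π k
  · subst h
    have : (π⁻¹ (π k) : Fin n) = k := by simp
    rw [this]
    simp
    ring
  · rw [Pi.single_eq_of_ne h]
    have h1 : ((π⁻¹ i : Fin n) : ℕ) ≠ k := by
      intro h2
      apply h
      have h3 : π⁻¹ i = k := Fin.ext h2
      rw [← h3]; simp
    have : (((π⁻¹ i : Fin n) : ℕ) < k + 1) ↔ (((π⁻¹ i : Fin n) : ℕ) < k) := by omega
    simp only [this]
    ring

theorem norm_pt_pv_sub_le {n N : ℕ} (hN : 0 < N) (p : Fin n → ℝ) (hp : p ∈ cube n)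
    (π : Equiv.Perm (Fin n)) (k : ℕ) :
    ‖pt N (pv (fun i => ⌊(N : ℝ) * p i⌋₊) π k) - p‖ ≤ 1 / N := by
  have hN' : (0 : ℝ) < N := by exact_mod_cast hN
  rw [pi_norm_le_iff_of_nonneg (by positivity)]
  intro i
  simp only [pt, pv, Pi.sub_apply]
  simp only [cube, Set.mem_univ_pi, Set.mem_Ico] at hp
  have h0 : 0 ≤ (N : ℝ) * p i := mul_nonneg hN'.le (hp i).1
  have h1 := Nat.floor_le h0
  have h2 := Nat.lt_floor_add_one ((N : ℝ) * p i)
  rw [Real.norm_eq_abs]
  have e : ((⌊(N : ℝ) * p i⌋₊ + if ((π⁻¹ i : Fin n) : ℕ) < k then 1 else 0 : ℕ) : ℝ) / N - p i =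
    (((⌊(N : ℝ) * p i⌋₊ + if ((π⁻¹ i : Fin n) : ℕ) < k then 1 else 0 : ℕ) : ℝ) - N * p i) / N := by
    field_simp
  rw [e, abs_div, abs_of_pos hN', div_le_div_iff_of_pos_right hN', abs_le]
  push_cast
  split_ifs <;> constructor <;> linarith

theorem tendsto_quot {n : ℕ} {H : (Fin n → ℝ) → (Fin n → ℝ)} {H' : (Fin n → ℝ) →L[ℝ] (Fin n → ℝ)}
    {p v : Fin n → ℝ} (hH : HasFDerivAt H H' p) {q q' : ℕ → Fin n → ℝ}
    (hq : ∀ N : ℕ, ‖q N - p‖ ≤ 1 / ((N : ℝ) + 1)) (hq' : ∀ N : ℕ, ‖q' N - p‖ ≤ 1 / ((N : ℝ) + 1))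
    (hv : ∀ N : ℕ, q N - q' N = (1 / ((N : ℝ) + 1)) • v) :
    Tendsto (fun N : ℕ => ((N : ℝ) + 1) • (H (q N) - H (q' N))) atTop (𝓝 (H' v)) := by
  have hlim : Tendsto (fun N : ℕ => (1 : ℝ) / ((N : ℝ) + 1)) atTop (𝓝 0) :=
    tendsto_one_div_add_atTop_nhds_zero_nat
  have key : ∀ r : ℕ → Fin n → ℝ, (∀ N : ℕ, ‖r N - p‖ ≤ 1 / ((N : ℝ) + 1)) →
      Tendsto (fun N : ℕ => ((N : ℝ) + 1) • (H (r N) - H p - H' (r N - p))) atTop (𝓝 0) := by
    intro r hr
    have hrp : Tendsto r atTop (𝓝 p) := by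
      rw [tendsto_iff_norm_sub_tendsto_zero]
      exact squeeze_zero (fun _ => norm_nonneg _) hr hlim
    have h1 := hH.isLittleO.comp_tendsto hrp
    rw [Asymptotics.isLittleO_iff] at h1
    rw [Metric.tendsto_atTop]
    intro ε hε
    have h2 := h1 (half_pos hε)
    rw [eventually_atTop] at h2
    obtain ⟨N0, hN0⟩ := h2
    refine ⟨N0, fun N hN => ?_⟩
    have h3 := hN0 N hN
    simp only [Function.comp_apply] at h3
    rw [dist_zero_right, norm_smul]
    have hpos : (0 : ℝ) < (N : ℝ) + 1 := by positivity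
    rw [Real.norm_eq_abs, abs_of_pos hpos]
    have h4 : ((N : ℝ) + 1) * ‖r N - p‖ ≤ 1 := by
      have := mul_le_mul_of_nonneg_left (hr N) hpos.le
      rwa [mul_one_div_cancel hpos.ne'] at this
    have h6 : ((N : ℝ) + 1) * ‖H (r N) - H p - H' (r N - p)‖ ≤
        ((N : ℝ) + 1) * (ε / 2 * ‖r N - p‖) := mul_le_mul_of_nonneg_left h3 hpos.le
    nlinarith
  have h1 := (key q hq).sub (key q' hq')
  have h2 : (fun N : ℕ => ((N : ℝ) + 1) • (H (q N) - H (q' N))) =
      fun N : ℕ => (((N : ℝ) + 1) • (H (q N) - H p - H' (q N - p)) -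
        ((N : ℝ) + 1) • (H (q' N) - H p - H' (q' N - p))) + H' v := by
    funext N
    have hpos : ((N : ℝ) + 1) ≠ 0 := by positivity
    have h3 : H' v = ((N : ℝ) + 1) • (H' (q N - p) - H' (q' N - p)) := by
      rw [← map_sub, sub_sub_sub_cancel_right, hv N, map_smul, smul_smul,
        mul_one_div_cancel hpos, one_smul]
    rw [h3]
    simp only [smul_sub]
    abel
  rw [h2]
  simpa using h1.add_const (H' v)

theorem abs_G_le {n : ℕ} (N : ℕ) {H : (Fin n → ℝ) → (Fin n → ℝ)} {K : NNReal}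
    (hH : LipschitzWith K H) (x : Fin n → ℕ) : ‖G (N + 1) H x‖ ≤ (n.factorial : ℝ) * (K : ℝ) ^ n := by
  unfold G
  refine (norm_sum_le _ _).trans ?_
  have h1 : ∀ π ∈ (univ : Finset (Equiv.Perm (Fin n))), ‖(Equiv.Perm.sign π : ℝ) *
      ∏ k : Fin n, (((N + 1 : ℕ) : ℝ) * (H (pt (N + 1) (pv x π (k + 1))) k -
        H (pt (N + 1) (pv x π k)) k))‖ ≤ (K : ℝ) ^ n := by
    intro π _
    rw [norm_mul]
    have hs : ‖((Equiv.Perm.sign π : ℤ) : ℝ)‖ = 1 := by
      rcases Int.units_eq_one_or (Equiv.Perm.sign π) with h | h <;> simp [h]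
    rw [hs, one_mul, norm_prod]
    have h2 : ∀ k ∈ (univ : Finset (Fin n)), ‖((N + 1 : ℕ) : ℝ) *
        (H (pt (N + 1) (pv x π (k + 1))) k - H (pt (N + 1) (pv x π k)) k)‖ ≤ K := by
      intro k _
      have h3 := hH.dist_le_mul (pt (N + 1) (pv x π (k + 1))) (pt (N + 1) (pv x π k))
      rw [dist_eq_norm, dist_eq_norm, pt_pv_sub, norm_smul, Pi.norm_single] at h3
      have h4 := norm_le_pi_norm (H (pt (N + 1) (pv x π (k + 1))) - H (pt (N + 1) (pv x π k))) k
      rw [norm_mul]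
      have hpos : (0 : ℝ) < ((N + 1 : ℕ) : ℝ) := by positivity
      have h5 : ‖((N + 1 : ℕ) : ℝ)‖ = ((N + 1 : ℕ) : ℝ) := by
        rw [Real.norm_eq_abs, abs_of_pos hpos]
      have h6 : ‖(1 : ℝ) / ((N + 1 : ℕ) : ℝ)‖ = 1 / ((N + 1 : ℕ) : ℝ) := by
        rw [Real.norm_eq_abs, abs_of_pos (by positivity)]
      rw [h5]
      rw [h6, norm_one, mul_one] at h3
      have h7 := h4.trans h3
      have h8 := mul_le_mul_of_nonneg_left h7 hpos.le
      have h9 : ((N + 1 : ℕ) : ℝ) * (K * (1 / ((N + 1 : ℕ) : ℝ))) = K := by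
        field_simp
      rw [h9] at h8
      exact h8
    calc ∏ k : Fin n, ‖((N + 1 : ℕ) : ℝ) *
        (H (pt (N + 1) (pv x π (k + 1))) k - H (pt (N + 1) (pv x π k)) k)‖ ≤
        ∏ _k : Fin n, (K : ℝ) := prod_le_prod (fun _ _ => norm_nonneg _) h2
      _ = (K : ℝ) ^ n := by simp
  refine (sum_le_sum h1).trans ?_
  simp [Fintype.card_perm]

theorem tendsto_G {n : ℕ} {H : (Fin n → ℝ) → (Fin n → ℝ)} {p : Fin n → ℝ}
    (hH : DifferentiableAt ℝ H p) (hp : p ∈ cube n) :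
    Tendsto (fun N : ℕ => G (N + 1) H (fun i => ⌊((N + 1 : ℕ) : ℝ) * p i⌋₊)) atTop
      (𝓝 (Matrix.det (Matrix.of fun k j => fderiv ℝ H p (Pi.single j 1) k))) := by
  rw [← Matrix.det_transpose, Matrix.det_apply']
  unfold G
  refine tendsto_finset_sum _ fun π _ => ?_
  refine Tendsto.const_mul _ ?_
  refine tendsto_finset_prod _ fun k _ => ?_
  have h1 := tendsto_quot (v := Pi.single (π k) 1) hH.hasFDerivAt
    (q := fun N : ℕ => pt (N + 1) (pv (fun i => ⌊((N + 1 : ℕ) : ℝ) * p i⌋₊) π (k + 1)))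
    (q' := fun N : ℕ => pt (N + 1) (pv (fun i => ⌊((N + 1 : ℕ) : ℝ) * p i⌋₊) π k))
    (fun N => by
      have := norm_pt_pv_sub_le (Nat.succ_pos N) p hp π (k + 1)
      rw [Nat.succ_eq_add_one] at this
      convert this using 1
      push_cast
      rfl)
    (fun N => by
      have := norm_pt_pv_sub_le (Nat.succ_pos N) p hp π k
      rw [Nat.succ_eq_add_one] at this
      convert this using 1
      push_cast
      rfl)
    (fun N => by
      rw [pt_pv_sub]
      push_cast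
      rfl)
  have h2 := (continuous_apply k).tendsto _ |>.comp h1
  simp only [Matrix.transpose_apply, Matrix.of_apply]
  refine h2.congr fun N => ?_
  simp only [Function.comp_apply, Pi.smul_apply, Pi.sub_apply, smul_eq_mul]
  push_cast
  rfl

theorem tendsto_VN {m : ℕ} {H : (Fin (m + 1) → ℝ) → (Fin (m + 1) → ℝ)} {K : NNReal}
    (hH : LipschitzWith K H) :
    Tendsto (fun N : ℕ => VN m (N + 1) (fun z k => if hk : k < m + 1 then
        H (pt (N + 1) z) ⟨k, hk⟩ else 0)) atTop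
      (𝓝 (∫ p in cube (m + 1), Matrix.det (Matrix.of fun k j =>
        fderiv ℝ H p (Pi.single j 1) k))) := by
  have h1 : ∀ N : ℕ, VN m (N + 1) (fun z k => if hk : k < m + 1 then
        H (pt (N + 1) z) ⟨k, hk⟩ else 0) =
      ∫ p in cube (m + 1), G (N + 1) H (fun i => ⌊((N + 1 : ℕ) : ℝ) * p i⌋₊) := by
    intro N
    rw [riemann (Nat.succ_pos N)]
    unfold VN
    refine sum_congr rfl fun x _ => ?_
    unfold G
    rw [mul_sum]
    refine sum_congr rfl fun π _ => ?_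
    rw [prod_mul_distrib, prod_const, card_univ, Fintype.card_fin]
    have hne : ((N + 1 : ℕ) : ℝ) ≠ 0 := by positivity
    have e : (1 / ((N + 1 : ℕ) : ℝ)) ^ (m + 1) * ((N + 1 : ℕ) : ℝ) ^ (m + 1) = 1 := by
      rw [← mul_pow, one_div_mul_cancel hne, one_pow]
    rw [prod_range]
    have e2 : ∀ k : Fin (m + 1), (if hk : (k : ℕ) < m + 1 then
        H (pt (N + 1) (pv (fun i => (x i : ℕ)) π ((k : ℕ) + 1))) ⟨k, hk⟩ else 0) =
        H (pt (N + 1) (pv (fun i => (x i : ℕ)) π ((k : ℕ) + 1))) k := by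
      intro k; rw [dif_pos k.2]
    have e3 : ∀ k : Fin (m + 1), (if hk : (k : ℕ) < m + 1 then
        H (pt (N + 1) (pv (fun i => (x i : ℕ)) π (k : ℕ))) ⟨k, hk⟩ else 0) =
        H (pt (N + 1) (pv (fun i => (x i : ℕ)) π (k : ℕ))) k := by
      intro k; rw [dif_pos k.2]
    simp only [e2, e3]
    calc _ = (((1 / ((N + 1 : ℕ) : ℝ)) ^ (m + 1) * ((N + 1 : ℕ) : ℝ) ^ (m + 1))) *
          ((Equiv.Perm.sign π : ℝ) * ∏ k : Fin (m + 1),
          (H (pt (N + 1) (pv (fun i => (x i : ℕ)) π ((k : ℕ) + 1))) k -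
          H (pt (N + 1) (pv (fun i => (x i : ℕ)) π (k : ℕ))) k)) := by rw [e, one_mul]
      _ = _ := by ring
  simp only [h1]
  refine tendsto_integral_of_dominated_convergence
    (fun _ => ((m + 1).factorial : ℝ) * (K : ℝ) ^ (m + 1)) ?_ ?_ ?_ ?_
  · intro N
    exact (measurable_floor_comp (N + 1) (G (N + 1) H)).aestronglyMeasurable
  · have : volume (cube (m + 1)) ≠ ⊤ := by
      rw [cube, Real.volume_pi_Ico]
      simp
    exact integrableOn_const this enorm_ne_top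
  · intro N
    exact Eventually.of_forall fun p => abs_G_le N hH _
  · have h2 := hH.ae_differentiableAt (μ := (volume : Measure (Fin (m + 1) → ℝ)))
    have h3 : ∀ᵐ p ∂(volume.restrict (cube (m + 1))), p ∈ cube (m + 1) :=
      ae_restrict_mem (MeasurableSet.univ_pi fun i => measurableSet_Ico)
    filter_upwards [ae_restrict_of_ae h2, h3] with p hp hp'
    exact tendsto_G hp hp'

end Run7.h693.Grid
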