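import Pool.Agent.Run7.h693.Chains

/-!
Lie group structures on a Euclidean space `E` with identity `0`, the left-invariant Riemannian
metric which is the inner product of `E` at the identity, masses of Lipschitz chains and filling
functions.
-/

set_option linter.unusedSectionVars false
set_option linter.deprecated false

open Finset Module
open scoped ENNReal RealInnerProductSpace ContDiff

namespace Run7.h693

variable {E : Type*} [NormedAddCommGroup E] [InnerProductSpace ℝ E] [FiniteDimensional ℝ E]

namespace StratLie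

variable (L : StratLie E)

/-- The model group. -/
noncomputable def group : GroupLaw E where
  mul := L.mul
  inv := L.inv
  mul_assoc := L.mul_assoc'
  zero_mul := L.zero_mul'
  mul_zero := L.mul_zero'
  inv_mul := L.inv_mul'
  mul_inv := L.mul_inv'
  smooth_mul := L.contDiff_mul
  smooth_inv := L.contDiff_inv

theorem fderiv_mul (g x : E) : fderiv ℝ (L.group.mul g) x = L.A g := by
  have h : L.group.mul g = fun y => g + L.A g y := rfl
  rw [h, fderiv_const_add]
  exact (L.A g).fderiv

theorem group_gram {k : ℕ} (σ : Simp E k) {x : Fin k → ℝ} (hx : x ∈ ordSimplex k) :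
    L.group.gram σ x = L.gram σ x := by
  have h1 : fderivWithin ℝ σ.param (ordSimplex k) x =
      fderivWithin ℝ (fun y => σ.toFun (chart y)) (ordSimplex k) x :=
    fderivWithin_congr (fun y hy => param_eq σ hy) (param_eq σ hx)
  unfold GroupLaw.gram StratLie.gram GroupLaw.metric
  rw [h1, param_eq σ hx]
  simp only [fderiv_mul]
  have h : L.A (L.group.inv (σ.toFun (chart x))) = Ring.inverse (L.A (σ.toFun (chart x))) :=
    L.A_inv _
  rw [h]

theorem measurableSet_ordSimplex (k : ℕ) : MeasurableSet (ordSimplex k) := by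
  apply IsClosed.measurableSet
  have h1 : ordSimplex k = (⋂ i : Fin k, ⋂ j : Fin k, ⋂ _ : i ≤ j, {x | x j ≤ x i}) ∩
      ⋂ i : Fin k, {x | 0 ≤ x i ∧ x i ≤ 1} := by
    ext x
    simp only [ordSimplex, Set.mem_inter_iff, Set.mem_iInter, Set.mem_setOf_eq]
    rfl
  rw [h1]
  refine IsClosed.inter ?_ ?_
  · refine isClosed_iInter fun i => isClosed_iInter fun j => isClosed_iInter fun _ => ?_
    exact isClosed_le (continuous_apply j) (continuous_apply i)
  · refine isClosed_iInter fun i => ?_
    exact (isClosed_le continuous_const (continuous_apply i)).inter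
      (isClosed_le (continuous_apply i) continuous_const)

theorem group_simpMass {k : ℕ} (σ : Simp E k) : L.group.simpMass σ = L.simpMass σ := by
  unfold GroupLaw.simpMass StratLie.simpMass
  apply MeasureTheory.setLIntegral_congr_fun (measurableSet_ordSimplex k)
  intro x hx
  simp only
  rw [L.group_gram σ hx]

theorem group_mass {k : ℕ} (a : Chain E k) : L.group.mass a = L.mass a := by
  unfold GroupLaw.mass StratLie.mass
  simp only [group_simpMass]

theorem group_FV (k : ℕ) (r : ℝ) : L.group.FV k r = L.FV k r := by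
  unfold GroupLaw.FV StratLie.FV
  simp only [group_mass]

/-- The inverse of the degree derivation. -/
noncomputable def Di : E →L[ℝ] E := ∑ i ∈ Finset.Ioc 0 L.step, ((i : ℝ))⁻¹ • L.proj i

theorem proj_Di (j : ℕ) (x : E) : L.proj j (L.Di x) = ((j : ℝ))⁻¹ • L.proj j x := by
  have h : L.Di = L.res 0 := by
    unfold Di res
    simp
  rw [h, L.proj_res]
  split_ifs with hj
  · simp
  · have : j = 0 := by omega
    subst this
    simp

theorem D_Di (x : E) : L.D (L.Di x) = x := by
  apply L.ext_proj
  intro i
  rw [L.proj_D, L.proj_Di, smul_smul]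
  rcases Nat.eq_zero_or_pos i with rfl | hi
  · rw [L.proj_zero_layer, smul_zero]
  · rw [mul_inv_cancel₀ (by positivity), one_smul]

theorem Di_D (x : E) : L.Di (L.D x) = x := by
  apply L.ext_proj
  intro i
  rw [L.proj_Di, L.proj_D, smul_smul]
  rcases Nat.eq_zero_or_pos i with rfl | hi
  · rw [L.proj_zero_layer, smul_zero]
  · rw [inv_mul_cancel₀ (by positivity), one_smul]

theorem Di_of_mem {i : ℕ} {x : E} (hx : x ∈ L.V i) : L.Di x = ((i : ℝ))⁻¹ • x := by
  apply L.ext_proj
  intro j
  rw [L.proj_Di, map_smul]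
  by_cases h : i = j
  · rw [h]
  · rw [L.proj_of_mem_ne hx h, smul_zero, smul_zero]

theorem dA_zero (v w : E) :
    (∑ i ∈ Finset.range (L.step + 1), L.res i * L.br v * L.proj i) w = L.br (L.Di v) w := by
  refine L.layer_induction (P := fun v =>
    (∑ i ∈ Finset.range (L.step + 1), L.res i * L.br v * L.proj i) w = L.br (L.Di v) w)
    ?_ ?_ ?_ v
  · simp
  · intro x y hx hy
    simp only [map_add, ContinuousLinearMap.add_apply, ← hx, ← hy]
    rw [← ContinuousLinearMap.add_apply, ← Finset.sum_add_distrib]
    congr 1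
    refine Finset.sum_congr rfl fun i _ => ?_
    rw [mul_add, add_mul]
  · intro i hi _ x hx
    rw [L.res_br_sum hi hx, L.Di_of_mem hx]
    simp

theorem fderiv_field (v w : E) : fderiv ℝ (L.group.field w) 0 v = L.br (L.Di v) w := by
  have h1 : L.group.field w = fun g => L.A g w := by
    funext g
    rw [GroupLaw.field, L.fderiv_mul]
  have h2 : DifferentiableAt ℝ (fun g => L.A g w) 0 := by
    have h3 : ContDiff ℝ 1 L.A := L.contDiff_A
    have h4 : ContDiff ℝ 1 (fun g => L.A g w) := h3.clm_apply contDiff_const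
    exact h4.differentiable (by simp) 0
  rw [h1]
  have h3 := h2.hasFDerivAt.hasLineDerivAt v
  have h4 : HasDerivAt (fun t : ℝ => L.A (0 + t • v) w) (fderiv ℝ (fun g => L.A g w) 0 v) 0 := h3
  simp only [zero_add] at h4
  have h5 : HasDerivAt (fun s : ℝ => L.A (s • v) w) (L.br (L.Di v) w) 0 := by
    rw [← L.dA_zero]
    have := (L.hasDerivAt_A_smul v).clm_apply (hasDerivAt_const (0 : ℝ) w)
    simpa using this
  exact h4.unique h5

theorem group_bracket (v w : E) :
    L.Di (L.group.bracket v w) = L.br (L.Di v) (L.Di w) := by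
  have h0 : ∀ u, L.group.field u 0 = u := by
    intro u
    rw [GroupLaw.field, L.fderiv_mul, L.A_zero]
    rfl
  have h1 : L.group.bracket v w = L.D (L.br (L.Di v) (L.Di w)) := by
    unfold GroupLaw.bracket VectorField.lieBracket
    rw [h0, h0, fderiv_field, fderiv_field, L.D_br, L.D_Di, L.D_Di, L.br_swap (L.Di w) v]
    abel
  rw [h1, L.Di_D]

/-- The isomorphism of the Lie algebra of the model group with the given Lie algebra. -/
noncomputable def lieEquiv : E ≃ₗ[ℝ] E :=
  LinearEquiv.ofLinear (L.Di : E →ₗ[ℝ] E) (L.D : E →ₗ[ℝ] E)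
    (LinearMap.ext fun x => L.Di_D x) (LinearMap.ext fun x => L.D_Di x)

theorem lieEquiv_bracket (v w : E) :
    L.lieEquiv (L.group.bracket v w) = L.br (L.lieEquiv v) (L.lieEquiv w) :=
  L.group_bracket v w

/-- The stratified Lie algebra isomorphic to `L` by the degree derivation `L.D`; its model group
has the Lie algebra `L` itself. -/
noncomputable def twist : StratLie E where
  br := (ContinuousLinearMap.compL ℝ E E E L.Di).comp
    (((ContinuousLinearMap.compL ℝ E E E).flip L.D).comp (L.br.comp L.D))
  br_self x := by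
    change L.Di (L.br (L.D x) (L.D x)) = 0
    rw [L.br_self, map_zero]
  jacobi x y z := by
    change L.Di (L.br (L.D x) (L.D (L.Di (L.br (L.D y) (L.D z))))) +
      L.Di (L.br (L.D y) (L.D (L.Di (L.br (L.D z) (L.D x))))) +
      L.Di (L.br (L.D z) (L.D (L.Di (L.br (L.D x) (L.D y))))) = 0
    rw [L.D_Di, L.D_Di, L.D_Di, ← map_add, ← map_add, L.jacobi, map_zero]
  step := L.step
  V := L.V
  internal := L.internal
  V_zero := L.V_zero
  V_high := L.V_high
  gen i hi := by
    have key : ∀ x ∈ L.V 1, ∀ y ∈ L.V i, L.Di (L.br (L.D x) (L.D y)) =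
        ((i : ℝ) * ((i : ℝ) + 1)⁻¹) • L.br x y := by
      intro x hx y hy
      have hz : L.br x y ∈ L.V (i + 1) := by
        rw [← L.gen i hi]
        exact Submodule.subset_span ⟨x, hx, y, hy, rfl⟩
      rw [L.D_of_mem hx, L.D_of_mem hy]
      simp only [Nat.cast_one, one_smul, map_smul]
      rw [L.Di_of_mem hz, smul_smul]
      push_cast
      rfl
    rw [← L.gen i hi]
    have hi' : (0 : ℝ) < i := by exact_mod_cast hi
    apply le_antisymm
    · rw [Submodule.span_le]
      rintro _ ⟨x, hx, y, hy, rfl⟩
      change L.Di (L.br (L.D x) (L.D y)) ∈ _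
      rw [key x hx y hy]
      exact Submodule.smul_mem _ _ (Submodule.subset_span ⟨x, hx, y, hy, rfl⟩)
    · rw [Submodule.span_le]
      rintro _ ⟨x, hx, y, hy, rfl⟩
      have h1 : L.br x y = ((i : ℝ) * ((i : ℝ) + 1)⁻¹)⁻¹ • L.Di (L.br (L.D x) (L.D y)) := by
        rw [key x hx y hy, smul_smul, inv_mul_cancel₀ (by positivity), one_smul]
      rw [h1]
      exact Submodule.smul_mem _ _ (Submodule.subset_span ⟨x, hx, y, hy, rfl⟩)
  last := L.last

theorem twist_br (x y : E) : L.twist.br x y = L.Di (L.br (L.D x) (L.D y)) := rfl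

theorem twist_Di : L.twist.Di = L.Di := rfl

/-- The group with Lie algebra `L`. -/
noncomputable def lieGroup : GroupLaw E := L.twist.group

/-- The Lie algebra of `L.lieGroup` is `L`. -/
theorem lieGroup_bracket (v w : E) : L.lieGroup.bracket v w = L.br v w := by
  have h := L.twist.group_bracket v w
  rw [twist_br, twist_Di, L.D_Di, L.D_Di] at h
  have h2 := congrArg L.D h
  rwa [L.D_Di, L.D_Di] at h2

/-- Non-abelian means at least two layers. -/
theorem two_le_step (h : ∃ x y, L.br x y ≠ 0) : 2 ≤ L.step := by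
  by_contra hlt
  obtain ⟨x, y, hxy⟩ := h
  apply hxy
  have h1 : L.br x y ∈ L.F (1 + 1) := L.br_mem_F (L.mem_F_one x) (L.mem_F_one y)
  exact L.F_high (by omega) h1

end StratLie

end Run7.h693
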