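import Pool.Agent.Run7.h693.Group

/-!
The left-invariant frame of a Lie group structure on `E`, its structure equation, and the
Jacobi identity.
-/

set_option linter.unusedSectionVars false
set_option linter.deprecated false

open scoped ENNReal RealInnerProductSpace ContDiff

namespace Run7.h693

namespace GroupLaw

variable {E : Type*} [NormedAddCommGroup E] [InnerProductSpace ℝ E] (G : GroupLaw E)

theorem smooth_mul_left (g : E) : ContDiff ℝ ∞ (G.mul g) :=
  G.smooth_mul.comp (contDiff_const.prodMk contDiff_id)

theorem smooth_mul_right (g : E) : ContDiff ℝ ∞ (fun x => G.mul x g) :=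
  G.smooth_mul.comp (contDiff_id.prodMk contDiff_const)

theorem differentiable_mul_left (g : E) : Differentiable ℝ (G.mul g) :=
  (G.smooth_mul_left g).differentiable (by simp)

/-- The derivative at the identity of the left translation by `g`. -/
noncomputable def l (g : E) : E →L[ℝ] E := fderiv ℝ (G.mul g) 0

/-- The derivative at `g` of the left translation by the inverse of `g`. -/
noncomputable def om (g : E) : E →L[ℝ] E := fderiv ℝ (G.mul (G.inv g)) g

theorem field_apply (v g : E) : G.field v g = G.l g v := rfl

theorem smooth_l : ContDiff ℝ ∞ G.l := by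
  have h : ContDiff ℝ ∞ (Function.uncurry G.mul) := G.smooth_mul
  exact h.fderiv (g := fun _ => (0 : E)) contDiff_const le_rfl

theorem smooth_om : ContDiff ℝ ∞ G.om := by
  have h : ContDiff ℝ ∞ (Function.uncurry fun g x => G.mul (G.inv g) x) :=
    G.smooth_mul.comp ((G.smooth_inv.comp contDiff_fst).prodMk contDiff_snd)
  exact h.fderiv (g := fun g => g) contDiff_id le_rfl

theorem l_zero : G.l 0 = ContinuousLinearMap.id ℝ E := by
  have h : G.mul 0 = fun x => x := funext G.zero_mul
  unfold l
  rw [h, fderiv_fun_id]

theorem mul_mul (g h : E) : G.mul (G.mul g h) = G.mul g ∘ G.mul h :=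
  funext fun x => G.mul_assoc g h x

theorem fderiv_mul_l (g h v : E) : fderiv ℝ (G.mul g) h (G.l h v) = G.l (G.mul g h) v := by
  have h1 : G.l (G.mul g h) = (fderiv ℝ (G.mul g) (G.mul h 0)).comp (fderiv ℝ (G.mul h) 0) := by
    unfold l
    rw [mul_mul, fderiv_comp 0 (G.differentiable_mul_left g _) (G.differentiable_mul_left h _)]
  rw [h1, G.mul_zero]
  rfl

theorem om_l (g v : E) : G.om g (G.l g v) = v := by
  have h := G.fderiv_mul_l (G.inv g) g v
  rw [G.inv_mul, l_zero] at h
  exact h

theorem l_om (g v : E) : G.l g (G.om g v) = v := by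
  have h1 : fderiv ℝ (G.mul g ∘ G.mul (G.inv g)) g =
      (fderiv ℝ (G.mul g) (G.mul (G.inv g) g)).comp (fderiv ℝ (G.mul (G.inv g)) g) :=
    fderiv_comp g (G.differentiable_mul_left g _) (G.differentiable_mul_left _ _)
  rw [← mul_mul, G.mul_inv, G.inv_mul] at h1
  have h2 : G.mul 0 = fun x => x := funext G.zero_mul
  rw [h2, fderiv_fun_id] at h1
  have h3 := congrArg (fun f : E →L[ℝ] E => f v) h1
  exact h3.symm

theorem fderiv_field (v g u : E) : fderiv ℝ (G.field v) g u = fderiv ℝ G.l g u v := by
  have h1 : HasFDerivAt G.l (fderiv ℝ G.l g) g :=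
    (G.smooth_l.differentiable (by simp) g).hasFDerivAt
  have h2 : HasFDerivAt (G.field v) ((fderiv ℝ G.l g).flip v) g := by
    have h3 := h1.clm_apply (hasFDerivAt_const v g)
    rwa [ContinuousLinearMap.comp_zero, zero_add] at h3
  rw [h2.fderiv]
  rfl

theorem bracket_eq (v w : E) : G.bracket v w = fderiv ℝ G.l 0 v w - fderiv ℝ G.l 0 w v := by
  unfold bracket VectorField.lieBracket
  rw [fderiv_field, fderiv_field, field_apply, field_apply, l_zero]
  rfl

/-- The structure equation: left-invariant fields have a left-invariant bracket. -/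
theorem structure_eq (g v w : E) :
    fderiv ℝ G.l g (G.l g v) w - fderiv ℝ G.l g (G.l g w) v = G.l g (G.bracket v w) := by
  -- the second derivative of the left translation
  have hs : ContDiff ℝ ∞ (G.mul g) := G.smooth_mul_left g
  have hs1 : ContDiff ℝ ∞ (fderiv ℝ (G.mul g)) := (contDiff_infty_iff_fderiv.1 hs).2
  have hsym : ∀ v w, fderiv ℝ (fderiv ℝ (G.mul g)) 0 v w = fderiv ℝ (fderiv ℝ (G.mul g)) 0 w v := by
    intro v w
    have h := (hs.contDiffAt (x := (0 : E))).isSymmSndFDerivAt (by
      simp only [minSmoothness_of_isRCLikeNormedField]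
      exact ENat.LEInfty.out)
    exact h v w
  have key : ∀ v w, fderiv ℝ G.l g (G.l g v) w =
      fderiv ℝ (fderiv ℝ (G.mul g)) 0 v w + G.l g (fderiv ℝ G.l 0 v w) := by
    intro v w
    have hl : Differentiable ℝ G.l := G.smooth_l.differentiable (by simp)
    -- two ways to differentiate `h ↦ G.l (G.mul g h) w`
    have h1 : HasFDerivAt (fun h => G.l (G.mul g h))
        ((fderiv ℝ G.l (G.mul g 0)).comp (G.l g)) 0 :=
      (hl _).hasFDerivAt.comp 0 (G.differentiable_mul_left g 0).hasFDerivAt
    have h2 := h1.clm_apply (hasFDerivAt_const w (0 : E))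
    have h3 : HasFDerivAt (fun h => fderiv ℝ (G.mul g) h)
        (fderiv ℝ (fderiv ℝ (G.mul g)) 0) 0 := (hs1.differentiable (by simp) 0).hasFDerivAt
    have h4 : HasFDerivAt (fun h => G.l h w) (fderiv ℝ (G.field w) 0) 0 := by
      have : DifferentiableAt ℝ (fun h => G.l h w) 0 :=
        (hl 0).clm_apply (differentiableAt_const w)
      exact this.hasFDerivAt
    have h5 := h3.clm_apply h4
    have h6 : (fun h => fderiv ℝ (G.mul g) h (G.l h w)) = fun h => G.l (G.mul g h) w := by
      funext h
      exact G.fderiv_mul_l g h w
    rw [h6] at h5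
    have h7 := congrArg (fun f : E →L[ℝ] E => f v) (h2.unique h5)
    simp only [ContinuousLinearMap.add_apply, ContinuousLinearMap.comp_apply,
      ContinuousLinearMap.flip_apply, ContinuousLinearMap.zero_apply, map_zero, zero_add,
      G.fderiv_field, G.l_zero, ContinuousLinearMap.id_apply, G.mul_zero] at h7
    rw [h7, add_comm]
    rfl
  rw [key v w, key w v, hsym w v, G.bracket_eq, map_sub]
  abel

theorem lieBracket_field (v w : E) :
    VectorField.lieBracket ℝ (G.field v) (G.field w) = G.field (G.bracket v w) := by
  funext g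
  unfold VectorField.lieBracket
  rw [fderiv_field, fderiv_field, field_apply, field_apply, field_apply]
  exact G.structure_eq g v w

theorem field_zero (v : E) : G.field v 0 = v := by
  rw [field_apply, l_zero]
  rfl

theorem smooth_field (v : E) : ContDiff ℝ ∞ (G.field v) :=
  G.smooth_l.clm_apply contDiff_const

theorem bracket_self (v : E) : G.bracket v v = 0 := by
  rw [bracket_eq, sub_self]

theorem bracket_jacobi' (x y z : E) : G.bracket x (G.bracket y z) =
    G.bracket (G.bracket x y) z + G.bracket y (G.bracket x z) := by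
  have h := VectorField.leibniz_identity_lieBracket (𝕜 := ℝ) (n := ∞) (by
      simp only [minSmoothness_of_isRCLikeNormedField]
      exact ENat.LEInfty.out) (x := (0 : E))
    (G.smooth_field x).contDiffAt (G.smooth_field y).contDiffAt (G.smooth_field z).contDiffAt
  simp only [lieBracket_field, field_zero] at h
  exact h

theorem bracket_swap (x y : E) : G.bracket x y = - G.bracket y x := by
  rw [bracket_eq, bracket_eq, neg_sub]

theorem bracket_jacobi (x y z : E) : G.bracket x (G.bracket y z) + G.bracket y (G.bracket z x) +
    G.bracket z (G.bracket x y) = 0 := by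
  have h := G.bracket_jacobi' x y z
  have e1 : G.bracket y (G.bracket z x) = - G.bracket y (G.bracket x z) := by
    rw [G.bracket_swap z x, G.bracket_eq y (-_), G.bracket_eq y (G.bracket x z)]
    simp only [map_neg, ContinuousLinearMap.neg_apply]
    abel
  rw [h, e1, G.bracket_swap z (G.bracket x y)]
  abel

/-- The stratified Lie algebra of a stratified group. -/
noncomputable def Stratification.toStratLie {G : GroupLaw E} (S : G.Stratification) :
    StratLie E where
  br := fderiv ℝ G.l 0 - (fderiv ℝ G.l 0).flip
  br_self x := by simp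
  jacobi x y z := by
    have e : ∀ v w, (fderiv ℝ G.l 0 - (fderiv ℝ G.l 0).flip) v w = G.bracket v w := by
      intro v w
      rw [G.bracket_eq]
      rfl
    simp only [e]
    exact G.bracket_jacobi x y z
  step := S.step
  V := S.V
  internal := S.internal
  V_zero := S.V_zero
  V_high := S.V_high
  gen i hi := by
    have e : ∀ v w, (fderiv ℝ G.l 0 - (fderiv ℝ G.l 0).flip) v w = G.bracket v w := by
      intro v w
      rw [G.bracket_eq]
      rfl
    simp only [e]
    exact S.gen i hi
  last := S.last

theorem Stratification.toStratLie_br {G : GroupLaw E} (S : G.Stratification) (v w : E) :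
    S.toStratLie.br v w = G.bracket v w := by
  rw [G.bracket_eq]
  rfl

end GroupLaw

end Run7.h693
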