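import Mathlib

/-!
Translation-invariant means on bounded functions on the real line, and a translation-invariant
positive functional on bounded functions with bounded support.
-/

set_option linter.unusedSectionVars false
set_option linter.deprecated false

open Finset Filter Topology

namespace Run7.h693

/-- Averaging operator. -/
noncomputable def avOp (N : ℕ) (r : ℝ) (g : ℝ → ℝ) : ℝ → ℝ :=
  fun x => (∑ c ∈ range (N + 1), g (x + c * r)) / ((N : ℝ) + 1)

/-- Iterated averages. -/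
noncomputable def avs (N : ℕ) (l : List ℝ) (h : ℝ → ℝ) : ℝ → ℝ := l.foldr (avOp N) h

theorem avOp_add (N : ℕ) (r : ℝ) (g h : ℝ → ℝ) : avOp N r (g + h) = avOp N r g + avOp N r h := by
  funext x
  simp only [avOp, Pi.add_apply, sum_add_distrib, add_div]

theorem avOp_smul (N : ℕ) (r c : ℝ) (g : ℝ → ℝ) : avOp N r (c • g) = c • avOp N r g := by
  funext x
  simp only [avOp, Pi.smul_apply, smul_eq_mul, ← mul_sum, mul_div_assoc]

theorem avOp_trans (N : ℕ) (r c : ℝ) (g : ℝ → ℝ) :
    avOp N r (fun x => g (x + c)) = fun x => avOp N r g (x + c) := by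
  funext x
  simp only [avOp]
  congr 1
  refine sum_congr rfl fun k _ => ?_
  congr 1
  ring

theorem avOp_nonneg (N : ℕ) (r : ℝ) {g : ℝ → ℝ} (hg : ∀ x, 0 ≤ g x) (x : ℝ) :
    0 ≤ avOp N r g x := by
  unfold avOp
  exact div_nonneg (sum_nonneg fun _ _ => hg _) (by positivity)

theorem avOp_bound (N : ℕ) (r : ℝ) {g : ℝ → ℝ} {C : ℝ} (hg : ∀ x, |g x| ≤ C) (x : ℝ) :
    |avOp N r g x| ≤ C := by
  unfold avOp
  have hpos : (0 : ℝ) < (N : ℝ) + 1 := by positivity
  rw [abs_div, abs_of_pos hpos, div_le_iff₀ hpos]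
  refine (abs_sum_le_sum_abs _ _).trans ?_
  refine (sum_le_sum fun (c : ℕ) _ => hg (x + (c : ℝ) * r)).trans ?_
  rw [sum_const, card_range, nsmul_eq_mul]
  push_cast
  linarith

theorem avOp_invariant (N : ℕ) (r : ℝ) {g : ℝ → ℝ} {C : ℝ} (hg : ∀ x, |g x| ≤ C) (x : ℝ) :
    |avOp N r g (x + r) - avOp N r g x| ≤ 2 * C / ((N : ℝ) + 1) := by
  unfold avOp
  have hpos : (0 : ℝ) < (N : ℝ) + 1 := by positivity
  rw [← sub_div, abs_div, abs_of_pos hpos, div_le_div_iff_of_pos_right hpos, ← sum_sub_distrib]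
  have h1 : ∑ c ∈ range (N + 1), (g (x + r + c * r) - g (x + c * r)) =
      ∑ c ∈ range (N + 1), (g (x + ((c + 1 : ℕ) : ℝ) * r) - g (x + (c : ℝ) * r)) := by
    refine sum_congr rfl fun c _ => ?_
    congr 2
    push_cast
    ring
  rw [h1, sum_range_sub (fun c : ℕ => g (x + (c : ℝ) * r))]
  refine (abs_sub _ _).trans ?_
  linarith [hg (x + ((N + 1 : ℕ) : ℝ) * r), hg (x + ((0 : ℕ) : ℝ) * r)]

theorem avs_add (N : ℕ) (l : List ℝ) (g h : ℝ → ℝ) : avs N l (g + h) = avs N l g + avs N l h := by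
  induction l with
  | nil => rfl
  | cons r l ih =>
    change avOp N r (avs N l (g + h)) = avOp N r (avs N l g) + avOp N r (avs N l h)
    rw [ih, avOp_add]

theorem avs_smul (N : ℕ) (l : List ℝ) (c : ℝ) (g : ℝ → ℝ) :
    avs N l (c • g) = c • avs N l g := by
  induction l with
  | nil => rfl
  | cons r l ih =>
    change avOp N r (avs N l (c • g)) = c • avOp N r (avs N l g)
    rw [ih, avOp_smul]

theorem avs_trans (N : ℕ) (l : List ℝ) (c : ℝ) (g : ℝ → ℝ) :
    avs N l (fun x => g (x + c)) = fun x => avs N l g (x + c) := by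
  induction l with
  | nil => rfl
  | cons r l ih =>
    change avOp N r (avs N l (fun x => g (x + c))) = fun x => avOp N r (avs N l g) (x + c)
    rw [ih, avOp_trans]

theorem avs_nonneg (N : ℕ) (l : List ℝ) {g : ℝ → ℝ} (hg : ∀ x, 0 ≤ g x) (x : ℝ) :
    0 ≤ avs N l g x := by
  induction l generalizing x with
  | nil => exact hg x
  | cons r l ih => exact avOp_nonneg N r ih x

theorem avs_bound (N : ℕ) (l : List ℝ) {g : ℝ → ℝ} {C : ℝ} (hg : ∀ x, |g x| ≤ C) (x : ℝ) :
    |avs N l g x| ≤ C := by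
  induction l generalizing x with
  | nil => exact hg x
  | cons r l ih => exact avOp_bound N r ih x

theorem avs_invariant (N : ℕ) (l : List ℝ) {r : ℝ} (hr : r ∈ l) {g : ℝ → ℝ} {C : ℝ}
    (hg : ∀ x, |g x| ≤ C) (x : ℝ) :
    |avs N l g (x + r) - avs N l g x| ≤ 2 * C / ((N : ℝ) + 1) := by
  induction l generalizing x with
  | nil => simp at hr
  | cons q l ih =>
    rcases List.mem_cons.1 hr with rfl | hr'
    · exact avOp_invariant N r (avs_bound N l hg) x
    · have h1 := ih hr'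
      have h2 : avs N (q :: l) g (x + r) - avs N (q :: l) g x =
          avOp N q (fun y => avs N l g (y + r) - avs N l g y) x := by
        change avOp N q (avs N l g) (x + r) - avOp N q (avs N l g) x = _
        unfold avOp
        rw [← sub_div, ← sum_sub_distrib]
        congr 1
        refine sum_congr rfl fun c _ => ?_
        congr 2
        ring
      rw [h2]
      exact avOp_bound N q h1 x

theorem avs_one (N : ℕ) (l : List ℝ) : avs N l (fun _ => 1) = fun _ => 1 := by
  induction l with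
  | nil => rfl
  | cons r l ih =>
    change avOp N r (avs N l (fun _ => 1)) = fun _ => 1
    rw [ih]
    funext x
    have hpos : (N : ℝ) + 1 ≠ 0 := by positivity
    simp [avOp, hpos]

/-- An ultrafilter on the index set. -/
noncomputable def ulf : Ultrafilter (Finset ℝ × ℕ) := Ultrafilter.of atTop

/-- The averages at the origin. -/
noncomputable def av0 (h : ℝ → ℝ) (i : Finset ℝ × ℕ) : ℝ := avs i.2 i.1.toList h 0

/-- The mean. -/
noncomputable def mean (h : ℝ → ℝ) : ℝ := limUnder (ulf : Filter (Finset ℝ × ℕ)) (av0 h)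

/-- Boundedness. -/
def Bdd {X : Type*} (h : X → ℝ) : Prop := ∃ C : ℝ, ∀ x, |h x| ≤ C

theorem tendsto_mean {h : ℝ → ℝ} (hb : Bdd h) :
    Tendsto (av0 h) (ulf : Filter (Finset ℝ × ℕ)) (𝓝 (mean h)) := by
  obtain ⟨C, hC⟩ := hb
  have h1 : ((ulf.map (av0 h) : Ultrafilter ℝ) : Filter ℝ) ≤ 𝓟 (Set.Icc (-C) C) := by
    rw [Ultrafilter.coe_map, le_principal_iff, Filter.mem_map]
    apply univ_mem'
    intro i
    have := avs_bound i.2 i.1.toList hC 0
    rw [abs_le] at this
    exact this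
  obtain ⟨a, _, ha⟩ := isCompact_Icc.ultrafilter_le_nhds _ h1
  have h2 : Tendsto (av0 h) (ulf : Filter (Finset ℝ × ℕ)) (𝓝 a) := ha
  exact tendsto_nhds_limUnder ⟨a, h2⟩

theorem mean_add {g h : ℝ → ℝ} (hg : Bdd g) (hh : Bdd h) : mean (g + h) = mean g + mean h := by
  have hgh : Bdd (g + h) := by
    obtain ⟨C, hC⟩ := hg
    obtain ⟨C', hC'⟩ := hh
    exact ⟨C + C', fun x => (abs_add_le _ _).trans (add_le_add (hC x) (hC' x))⟩
  have h1 := tendsto_mean hgh
  have h2 := (tendsto_mean hg).add (tendsto_mean hh)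
  refine tendsto_nhds_unique h1 (h2.congr fun i => ?_)
  simp only [av0, avs_add, Pi.add_apply]

theorem mean_smul (c : ℝ) {g : ℝ → ℝ} (hg : Bdd g) : mean (c • g) = c * mean g := by
  have hgh : Bdd (c • g) := by
    obtain ⟨C, hC⟩ := hg
    refine ⟨|c| * C, fun x => ?_⟩
    rw [Pi.smul_apply, smul_eq_mul, abs_mul]
    exact mul_le_mul_of_nonneg_left (hC x) (abs_nonneg c)
  have h1 := tendsto_mean hgh
  have h2 := (tendsto_mean hg).const_mul c
  refine tendsto_nhds_unique h1 (h2.congr fun i => ?_)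
  simp only [av0, avs_smul, Pi.smul_apply, smul_eq_mul]

theorem mean_nonneg {g : ℝ → ℝ} (hg : Bdd g) (h0 : ∀ x, 0 ≤ g x) : 0 ≤ mean g :=
  ge_of_tendsto' (tendsto_mean hg) fun i => avs_nonneg i.2 i.1.toList h0 0

theorem mean_one : mean (fun _ => 1) = 1 := by
  have h1 := tendsto_mean (h := fun _ => 1) ⟨1, fun x => by simp⟩
  refine tendsto_nhds_unique h1 (tendsto_const_nhds.congr fun i => ?_)
  simp only [av0, avs_one]

theorem mean_trans {g : ℝ → ℝ} (hg : Bdd g) (r : ℝ) : mean (fun x => g (x + r)) = mean g := by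
  obtain ⟨C, hC⟩ := hg
  have hg : Bdd g := ⟨C, hC⟩
  have hg' : Bdd (fun x => g (x + r)) := ⟨C, fun x => hC _⟩
  have h1 := (tendsto_mean hg').sub (tendsto_mean hg)
  have h2 : Tendsto (fun i => av0 (fun x => g (x + r)) i - av0 g i)
      (ulf : Filter (Finset ℝ × ℕ)) (𝓝 0) := by
    have h3 : Tendsto (fun i : Finset ℝ × ℕ => 2 * C / ((i.2 : ℝ) + 1)) atTop (𝓝 0) := by
      have h4 : Tendsto (fun N : ℕ => 2 * C / ((N : ℝ) + 1)) atTop (𝓝 0) := by
        have := (tendsto_one_div_add_atTop_nhds_zero_nat (𝕜 := ℝ)).const_mul (2 * C)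
        rw [mul_zero] at this
        refine this.congr fun N => ?_
        ring
      have h5 : Tendsto (fun i : Finset ℝ × ℕ => i.2) atTop atTop := by
        rw [← prod_atTop_atTop_eq]
        exact tendsto_snd
      exact h4.comp h5
    have h4 : ∀ᶠ i : Finset ℝ × ℕ in (ulf : Filter (Finset ℝ × ℕ)), r ∈ i.1 := by
      apply (Ultrafilter.of_le atTop)
      filter_upwards [mem_atTop (({r}, 0) : Finset ℝ × ℕ)] with i hi
      exact hi.1 (mem_singleton_self r)
    have h5 := h3.mono_left (Ultrafilter.of_le (atTop : Filter (Finset ℝ × ℕ)))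
    refine squeeze_zero_norm' ?_ h5
    filter_upwards [h4] with i hi
    rw [Real.norm_eq_abs]
    simp only [av0, avs_trans]
    exact avs_invariant i.2 i.1.toList (mem_toList.2 hi) hC 0
  have h3 := tendsto_nhds_unique h1 h2
  linarith

/-- Bounded functions with bounded support. -/
def BS {X : Type*} [NormedAddCommGroup X] (f : X → ℝ) : Prop :=
  ∃ C R : ℝ, (∀ x, |f x| ≤ C) ∧ ∀ x, R < ‖x‖ → f x = 0

/-- Positive functionals on bounded functions with bounded support. -/
structure IsFun {X : Type*} [NormedAddCommGroup X] (Λ : (X → ℝ) → ℝ) : Prop where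
  add : ∀ f g, BS f → BS g → Λ (f + g) = Λ f + Λ g
  smul : ∀ (c : ℝ) f, BS f → Λ (c • f) = c * Λ f
  nonneg : ∀ f, BS f → (∀ x, 0 ≤ f x) → 0 ≤ Λ f

/-- Sum over integer translates. -/
noncomputable def per (f : ℝ → ℝ) : ℝ → ℝ := fun x => ∑ᶠ m : ℤ, f (x + m)

theorem per_support {f : ℝ → ℝ} {R : ℝ} (hR : ∀ x, R < ‖x‖ → f x = 0) (x : ℝ) :
    Function.support (fun m : ℤ => f (x + m)) ⊆ ↑(Finset.Icc ⌈-R - x⌉ ⌊R - x⌋) := by
  intro m hm
  rw [Function.mem_support] at hm
  have h1 : ‖x + m‖ ≤ R := by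
    by_contra h
    exact hm (hR _ (not_le.1 h))
  rw [Real.norm_eq_abs, abs_le] at h1
  rw [Finset.coe_Icc, Set.mem_Icc, Int.ceil_le, Int.le_floor]
  constructor <;> linarith

theorem per_finite {f : ℝ → ℝ} {R : ℝ} (hR : ∀ x, R < ‖x‖ → f x = 0) (x : ℝ) :
    (Function.support (fun m : ℤ => f (x + m))).Finite :=
  (Finset.finite_toSet _).subset (per_support hR x)

theorem per_bdd {f : ℝ → ℝ} (hf : BS f) : Bdd (per f) := by
  obtain ⟨C, R, hC, hR⟩ := hf
  have hC0 : 0 ≤ C := (abs_nonneg _).trans (hC 0)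
  refine ⟨(2 * |R| + 1) * C, fun x => ?_⟩
  unfold per
  rw [finsum_eq_sum_of_support_subset _ (per_support hR x)]
  refine (abs_sum_le_sum_abs _ _).trans ?_
  refine (sum_le_sum fun (m : ℤ) _ => hC (x + (m : ℝ))).trans ?_
  rw [sum_const, nsmul_eq_mul]
  apply mul_le_mul_of_nonneg_right _ hC0
  rw [Int.card_Icc]
  have h1 : (⌊R - x⌋ : ℝ) ≤ R - x := Int.floor_le _
  have h2 : -R - x ≤ (⌈-R - x⌉ : ℝ) := Int.le_ceil _
  have h3 := le_abs_self R
  have h4 := abs_nonneg R
  rcases le_total 0 (⌊R - x⌋ + 1 - ⌈-R - x⌉) with h | h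
  · have h5 : (((⌊R - x⌋ + 1 - ⌈-R - x⌉).toNat : ℤ) : ℝ) =
        ((⌊R - x⌋ + 1 - ⌈-R - x⌉ : ℤ) : ℝ) := by rw [Int.toNat_of_nonneg h]
    rw [Int.cast_natCast] at h5
    rw [h5]
    push_cast
    linarith
  · rw [Int.toNat_of_nonpos h]
    push_cast
    linarith

/-- The translation-invariant functional on the line. -/
noncomputable def JJ (f : ℝ → ℝ) : ℝ := mean (per f)

theorem isFun_JJ : IsFun JJ where
  add f g hf hg := by
    have hf' := hf
    have hg' := hg
    obtain ⟨_, R, _, hR⟩ := hf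
    obtain ⟨_, R', _, hR'⟩ := hg
    unfold JJ
    rw [← mean_add (per_bdd hf') (per_bdd hg')]
    congr 1
    funext x
    simp only [per, Pi.add_apply]
    exact finsum_add_distrib (per_finite hR x) (per_finite hR' x)
  smul c f hf := by
    have hf' := hf
    obtain ⟨_, R, _, hR⟩ := hf
    unfold JJ
    rw [← mean_smul c (per_bdd hf')]
    congr 1
    funext x
    simp only [per, Pi.smul_apply, smul_eq_mul]
    exact (mul_finsum _ _).symm
  nonneg f hf h0 := by
    apply mean_nonneg (per_bdd hf)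
    intro x
    exact finsum_nonneg fun m => h0 _

theorem JJ_trans {f : ℝ → ℝ} (hf : BS f) (r : ℝ) : JJ (fun x => f (x + r)) = JJ f := by
  unfold JJ
  rw [← mean_trans (per_bdd hf) r]
  congr 1
  funext x
  simp only [per]
  congr 1
  funext m
  congr 1
  ring

theorem JJ_unit : JJ (Set.indicator (Set.Ico 0 1) fun _ => 1) = 1 := by
  unfold JJ
  have : per (Set.indicator (Set.Ico (0 : ℝ) 1) fun _ => 1) = fun _ => 1 := by
    funext x
    unfold per
    rw [finsum_eq_single _ (-⌊x⌋)]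
    · rw [Set.indicator_of_mem]
      push_cast
      rw [← sub_eq_add_neg]
      exact ⟨by linarith [Int.floor_le x], by linarith [Int.lt_floor_add_one x]⟩
    · intro m hm
      apply Set.indicator_of_notMem
      rintro ⟨h1, h2⟩
      apply hm
      have h3 : ⌊x⌋ = -m := by
        rw [Int.floor_eq_iff]
        push_cast
        constructor <;> linarith
      rw [h3, neg_neg]
  rw [this, mean_one]

end Run7.h693
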