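import Pool.Agent.Run7.h693.Flow

set_option linter.unusedSectionVars false
set_option linter.deprecated false

open Finset Filter Topology Module
open scoped ContDiff

namespace Run7.h693

variable {E : Type*} [NormedAddCommGroup E] [InnerProductSpace ℝ E] [FiniteDimensional ℝ E]

variable (L : StratLie E)

theorem BS.of_sum {X : Type*} [NormedAddCommGroup X] {ι : Type*} (s : Finset ι) {f : ι → X → ℝ}
    (hf : ∀ i ∈ s, BS (f i)) : BS (fun x => ∑ i ∈ s, f i x) := by
  have := BS.sum s hf
  have e : (fun x => ∑ i ∈ s, f i x) = ∑ i ∈ s, f i := by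
    funext x; rw [Finset.sum_apply]
  rw [e]; exact this

theorem IsFun.of_sum {X : Type*} [NormedAddCommGroup X] {Λ : (X → ℝ) → ℝ} (h : IsFun Λ)
    {ι : Type*} (s : Finset ι) {f : ι → X → ℝ} (hf : ∀ i ∈ s, BS (f i)) :
    Λ (fun x => ∑ i ∈ s, f i x) = ∑ i ∈ s, Λ (f i) := by
  have e : (fun x => ∑ i ∈ s, f i x) = ∑ i ∈ s, f i := by
    funext x; rw [Finset.sum_apply]
  rw [e]; exact h.sum s hf

theorem IsFun.of_mul {X : Type*} [NormedAddCommGroup X] {Λ : (X → ℝ) → ℝ} (h : IsFun Λ)
    (c : ℝ) {f : X → ℝ} (hf : BS f) : Λ (fun x => c * f x) = c * Λ f := h.smul c f hf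

section det

variable {n : ℕ} {b : Basis (Fin (n + 1)) ℝ E} {wt : Fin (n + 1) → ℕ} (hmono : Monotone wt)
  (hb : ∀ a, b a ∈ L.V (wt a)) {f : E → ℝ} (hf : ContDiff ℝ ∞ f) (hfc : HasCompactSupport f)

include hmono hb hf hfc

/-- Pairing with the determinant of the derivatives. -/
theorem det_pairing {β : (Fin (n + 1) → E) → ℝ} (hβ : Bdd β)
    (hinv : ∀ x u, β (L.lact x u) = β u) :
    powF (KE b) (n + 1) (fun u => β u * (Matrix.of fun a j => L.dv (b a) f (u j)).det) = 0 := by
  classical
  set fa : Fin (n + 1) → E → ℝ := fun a => L.dv (b a) f with hfa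
  have hfas : ∀ a, ContDiff ℝ ∞ (fa a) := fun a => contDiff_dv L (b a) hf
  have hfac : ∀ a, HasCompactSupport (fa a) := fun a => compact_dv L (b a) hfc
  let Fπ : Equiv.Perm (Fin (n + 1)) → Fin (n + 1) → E → ℝ := fun π j => if j = 0 then f else fa (π j)
  have hFs : ∀ π j, ContDiff ℝ ∞ (Fπ π j) := by
    intro π j
    simp only [Fπ]
    split_ifs
    · exact hf
    · exact hfas _
  have hFc : ∀ π j, HasCompactSupport (Fπ π j) := by
    intro π j
    simp only [Fπ]
    split_ifs
    · exact hfc
    · exact hfac _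
  let Q : Equiv.Perm (Fin (n + 1)) → (Fin (n + 1) → E) → ℝ := fun π u =>
    ∑ l, ∏ j, (Function.update (Fπ π) l (L.dv (b (π 0)) (Fπ π l))) j (u j)
  have hQ : ∀ π, powF (KE b) (n + 1) (fun u => β u * Q π u) = 0 := fun π =>
    prod_pairing L hmono hb (L.one_le_wt hb (π 0)) (hb (π 0)) (hFs π) (hFc π) hβ hinv
  have hQbs : ∀ π, BS (Q π) := by
    intro π
    apply BS.of_sum
    intro l _
    apply BS.prod
    intro j
    by_cases h : j = l
    · subst h
      rw [Function.update_self]
      exact BS_of_compact (contDiff_dv L _ (hFs π j)).continuous (compact_dv L _ (hFc π j))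
    · rw [Function.update_of_ne h]
      exact BS_of_compact (hFs π j).continuous (hFc π j)
  -- the pointwise identity
  have hpt : ∀ u : Fin (n + 1) → E, (Matrix.of fun a j => fa a (u j)).det =
      ∑ π : Equiv.Perm (Fin (n + 1)), (Equiv.Perm.sign π : ℝ) * Q π u := by
    intro u
    set p : Fin (n + 1) → Fin (n + 1) → ℝ := fun a j => fa a (u j) with hp
    set q : Fin (n + 1) → Fin (n + 1) → Fin (n + 1) → ℝ :=
      fun a c j => L.dv (b a) (fa c) (u j) with hq
    have hQu : ∀ π, Q π u = (∏ j, p (π j) j) + f (u 0) *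
        ∑ l ∈ univ.erase (0 : Fin (n + 1)), q (π 0) (π l) l *
        ∏ j ∈ (univ.erase (0 : Fin (n + 1))).erase l, p (π j) j := by
      intro π
      simp only [Q, update_prod]
      rw [← add_sum_erase _ _ (mem_univ (0 : Fin (n + 1)))]
      congr 1
      · rw [← mul_prod_erase univ (fun j => p (π j) j) (mem_univ (0 : Fin (n + 1)))]
        congr 1
        refine prod_congr rfl fun j hj => ?_
        simp only [Fπ, if_neg (mem_erase.1 hj).1]
        rfl
      · rw [mul_sum]
        refine sum_congr rfl fun l hl => ?_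
        have hl0 := (mem_erase.1 hl).1
        have h0 : (0 : Fin (n + 1)) ∈ univ.erase l := mem_erase.2 ⟨hl0.symm, mem_univ _⟩
        rw [← mul_prod_erase _ _ h0]
        have e1 : Fπ π l = fa (π l) := by simp only [Fπ, if_neg hl0]
        have e2 : Fπ π 0 = f := by simp only [Fπ, if_true]
        rw [e1, e2, erase_right_comm (a := l) (b := 0)]
        have e3 : ∏ x ∈ (univ.erase (0 : Fin (n + 1))).erase l, Fπ π x (u x) =
            ∏ j ∈ (univ.erase (0 : Fin (n + 1))).erase l, p (π j) j := by
          refine prod_congr rfl fun j hj => ?_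
          have hj0 := (mem_erase.1 (mem_erase.1 hj).2).1
          simp only [Fπ, if_neg hj0]
          rfl
        rw [e3]
        ring
    simp only [hQu, mul_add]
    rw [sum_add_distrib]
    have e1 : ∑ π : Equiv.Perm (Fin (n + 1)), (Equiv.Perm.sign π : ℝ) * (f (u 0) *
        ∑ l ∈ univ.erase (0 : Fin (n + 1)), q (π 0) (π l) l *
        ∏ j ∈ (univ.erase (0 : Fin (n + 1))).erase l, p (π j) j) = 0 := by
      have h := alt_cancel p q (fun a c k => b.repr (L.br (b a) (b c)) k) (fun a c j => by
          simp only [hq, hp, hfa]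
          rw [dv_comm L (b a) (b c) hf (u j)]
          congr 1
          conv_lhs => rw [← b.sum_repr (L.br (b a) (b c))]
          rw [dv_sum])
        (fun a c => by
          have h1 := L.br_mem (hb a) (hb c)
          exact L.repr_of_mem_F hb (L.V_le_F le_rfl h1) (by have := L.one_le_wt hb c; omega))
        (fun a c => by
          have h1 := L.br_mem (hb a) (hb c)
          exact L.repr_of_mem_F hb (L.V_le_F le_rfl h1) (by have := L.one_le_wt hb a; omega))
      calc _ = f (u 0) * ∑ π : Equiv.Perm (Fin (n + 1)), (Equiv.Perm.sign π : ℝ) *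
            ∑ l ∈ univ.erase (0 : Fin (n + 1)), q (π 0) (π l) l *
            ∏ j ∈ (univ.erase (0 : Fin (n + 1))).erase l, p (π j) j := by
            rw [mul_sum]
            refine sum_congr rfl fun π _ => ?_
            ring
        _ = 0 := by rw [h, mul_zero]
    rw [e1, add_zero, Matrix.det_apply']
    rfl
  have e2 : (fun u => β u * (Matrix.of fun a j => fa a (u j)).det) = fun u =>
      ∑ π : Equiv.Perm (Fin (n + 1)), (Equiv.Perm.sign π : ℝ) * (β u * Q π u) := by
    funext u
    rw [hpt, mul_sum]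
    refine sum_congr rfl fun π _ => ?_
    ring
  have hΛ := isFun_powF (isFun_KE b) (n + 1)
  rw [e2, hΛ.of_sum]
  · apply sum_eq_zero
    intro π _
    rw [hΛ.of_mul _ (BS.bdd_mul hβ (hQbs π)), hQ, mul_zero]
  · intro π _
    exact (BS.bdd_mul hβ (hQbs π)).smul _

end det

theorem BS_fdet {k : ℕ} {f : E → ℝ} (hf : BS f) {c : Fin k → E → ℝ} (hc : ∀ a, BS (c a)) :
    BS (fun u : Fin (k + 1) → E => f (u 0) * (Matrix.of fun a l : Fin k => c a (u l.succ)).det) := by
  have e : (fun u : Fin (k + 1) → E => f (u 0) *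
      (Matrix.of fun a l : Fin k => c a (u l.succ)).det) = fun u =>
      ∑ σ : Equiv.Perm (Fin k), (Equiv.Perm.sign σ : ℝ) *
        ∏ j, (Fin.cons f (fun l : Fin k => c (σ l)) : Fin (k + 1) → E → ℝ) j (u j) := by
    funext u
    rw [Matrix.det_apply', mul_sum]
    refine sum_congr rfl fun σ _ => ?_
    rw [Fin.prod_univ_succ]
    simp only [Fin.cons_zero, Fin.cons_succ, Matrix.of_apply]
    ring
  rw [e]
  apply BS.of_sum
  intro σ _
  apply BS.smul
  apply BS.prod
  intro j
  refine Fin.cases ?_ (fun j => ?_) j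
  · exact hf
  · exact hc _

theorem BS_det {k : ℕ} {c : Fin k → E → ℝ} (hc : ∀ a, BS (c a)) :
    BS (fun u : Fin k → E => (Matrix.of fun a l : Fin k => c a (u l)).det) := by
  have e : (fun u : Fin k → E => (Matrix.of fun a l : Fin k => c a (u l)).det) = fun u =>
      ∑ σ : Equiv.Perm (Fin k), (Equiv.Perm.sign σ : ℝ) * ∏ j, c (σ j) (u j) := by
    funext u
    rw [Matrix.det_apply']
    rfl
  rw [e]
  apply BS.of_sum
  intro σ _
  apply BS.smul
  exact BS.prod fun j => hc _

section pairing

variable {n : ℕ} {b : Basis (Fin (n + 1)) ℝ E} {wt : Fin (n + 1) → ℕ} (hmono : Monotone wt)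
  (hb : ∀ a, b a ∈ L.V (wt a)) {f : E → ℝ} (hf : ContDiff ℝ ∞ f) (hfc : HasCompactSupport f)

/-- The weight function. -/
noncomputable def ww (L : StratLie E) {n : ℕ} (b : Basis (Fin (n + 1)) ℝ E) (f : E → ℝ)
    (g : Fin (n + 2) → E) : ℝ :=
  f (g 0) * (Matrix.of fun a j : Fin (n + 1) => L.dv (b a) f (g j.succ)).det

include hmono hb hf hfc

theorem BS_ww : BS (ww L b f) :=
  BS_fdet (BS_of_compact hf.continuous hfc) fun a =>
    BS_of_compact (contDiff_dv L (b a) hf).continuous (compact_dv L (b a) hfc)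

/-- The coboundary of a bounded invariant function pairs to zero with the weight. -/
theorem dS_pairing {β : (Fin (n + 1) → E) → ℝ} (hβ : Bdd β)
    (hinv : ∀ x u, β (L.lact x u) = β u) :
    powF (KE b) (n + 2) (fun g => dS β g * ww L b f g) = 0 := by
  have hΛ1 := isFun_KE b
  have hΛ := isFun_powF hΛ1 (n + 2)
  have hfbs : BS f := BS_of_compact hf.continuous hfc
  have hfabs : ∀ a, BS (L.dv (b a) f) := fun a =>
    BS_of_compact (contDiff_dv L (b a) hf).continuous (compact_dv L (b a) hfc)
  have hww := BS_ww L hmono hb hf hfc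
  have hβi : ∀ i : Fin (n + 2), Bdd fun g : Fin (n + 2) → E => β (g ∘ i.succAbove) := by
    intro i
    obtain ⟨K, hK⟩ := hβ
    exact ⟨K, fun g => hK _⟩
  have e : (fun g => dS β g * ww L b f g) = fun g => ∑ i : Fin (n + 2), (-1 : ℝ) ^ (i : ℕ) *
      (β (g ∘ i.succAbove) * ww L b f g) := by
    funext g
    unfold dS
    rw [sum_mul]
    refine sum_congr rfl fun i _ => ?_
    rw [zsmul_eq_mul]
    push_cast
    ring
  rw [e, hΛ.of_sum]
  swap
  · intro i _
    exact (BS.bdd_mul (hβi i) hww).smul _
  apply sum_eq_zero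
  intro i _
  rw [hΛ.of_mul _ (BS.bdd_mul (hβi i) hww)]
  suffices h : powF (KE b) (n + 2) (fun g => β (g ∘ i.succAbove) * ww L b f g) = 0 by
    rw [h, mul_zero]
  refine Fin.cases ?_ (fun j => ?_) i
  · -- the face opposite to the first vertex
    set H : (Fin (n + 1) → E) → ℝ := fun u =>
      β u * (Matrix.of fun a j => L.dv (b a) f (u j)).det with hH
    have hHbs : BS H := BS.bdd_mul hβ (BS_det hfabs)
    have e1 : (fun g : Fin (n + 2) → E => β (g ∘ (0 : Fin (n + 2)).succAbove) * ww L b f g) =
        fun g => f (g 0) * H (g ∘ (0 : Fin (n + 2)).succAbove) := by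
      funext g
      simp only [hH, ww, Function.comp_apply, Fin.zero_succAbove]
      ring
    rw [e1, (powF_insert hΛ1 0 hfbs hHbs).2, det_pairing L hmono hb hf hfc hβ hinv, mul_zero]
  · -- the other faces
    set H : Fin (n + 1) → (Fin (n + 1) → E) → ℝ := fun a u => (-1 : ℝ) ^ ((a : ℕ) + (j : ℕ)) *
      (β u * (f (u 0) * (Matrix.of fun a' l : Fin n =>
        L.dv (b (a.succAbove a')) f (u l.succ)).det)) with hH
    have hHbs : ∀ a, BS (H a) := fun a =>
      BS.smul _ (BS.bdd_mul hβ (BS_fdet hfbs fun a' => hfabs _))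
    have e1 : (fun g : Fin (n + 2) → E => β (g ∘ j.succ.succAbove) * ww L b f g) =
        fun g => ∑ a : Fin (n + 1), L.dv (b a) f (g j.succ) * H a (g ∘ j.succ.succAbove) := by
      funext g
      rw [ww, Matrix.det_succ_column _ j, mul_sum, mul_sum]
      refine sum_congr rfl fun a _ => ?_
      simp only [hH, Function.comp_apply, Fin.succ_succAbove_zero, Fin.succ_succAbove_succ,
        Matrix.of_apply]
      have e2 : ((Matrix.of fun a j : Fin (n + 1) => L.dv (b a) f (g j.succ)).submatrix
          a.succAbove j.succAbove) = Matrix.of fun a' l : Fin n =>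
          L.dv (b (a.succAbove a')) f (g (j.succAbove l).succ) := by
        ext i l
        rfl
      rw [e2]
      ring
    rw [e1, hΛ.of_sum]
    · apply sum_eq_zero
      intro a _
      rw [(powF_insert hΛ1 j.succ (hfabs a) (hHbs a)).2,
        KE_dv L hmono hb (L.one_le_wt hb a) (hb a) hf hfc, zero_mul]
    · intro a _
      exact (powF_insert hΛ1 j.succ (hfabs a) (hHbs a)).1

/-- The matrix of the main term. -/
theorem det_main (hpos : KE b f ≠ 0) :
    (Matrix.of fun a c : Fin (n + 1) => KE b fun y => L.dv (b a) f y * b.repr y c).det ≠ 0 := by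
  have hΛ := isFun_KE b
  have hcoord : ∀ c, ContDiff ℝ ∞ fun y : E => b.repr y c := by
    intro c
    let T : E →L[ℝ] (Fin (n + 1) → ℝ) := b.equivFunL
    have h2 : ContDiff ℝ ∞ fun y : E => T y c :=
      (contDiff_apply ℝ ℝ c).comp T.contDiff
    exact h2
  have hentry : ∀ a c : Fin (n + 1), c ≤ a →
      (KE b fun y => L.dv (b a) f y * b.repr y c) = if c = a then - (wt a : ℝ) * KE b f else 0 := by
    intro a c hca
    have hs : ContDiff ℝ ∞ fun y : E => f y * b.repr y c := hf.mul (hcoord c)
    have hsc : HasCompactSupport fun y : E => f y * b.repr y c := hfc.mul_right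
    have h1 := KE_dv L hmono hb (L.one_le_wt hb a) (hb a) hs hsc
    -- the Leibniz rule
    have h2 : L.dv (b a) (fun y : E => f y * b.repr y c) = fun y =>
        L.dv (b a) f y * b.repr y c + (if c = a then (wt a : ℝ) else 0) * f y := by
      funext y
      unfold StratLie.dv
      have hd1 : HasFDerivAt f (fderiv ℝ f y) y := (hf.differentiable (by simp) y).hasFDerivAt
      let T : E →L[ℝ] (Fin (n + 1) → ℝ) := b.equivFunL
      let Tc : E →L[ℝ] ℝ := (ContinuousLinearMap.proj (R := ℝ) (φ := fun _ => ℝ) c).comp T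
      have hd2 : HasFDerivAt (fun y : E => b.repr y c) Tc y := Tc.hasFDerivAt
      have hd3 := (hd1.mul hd2).fderiv
      have e0 : fderiv ℝ (fun y : E => f y * b.repr y c) y =
        f y • Tc + b.repr y c • fderiv ℝ f y := hd3
      rw [e0]
      have e1 : Tc (L.vf (b a) y) = if c = a then (wt a : ℝ) else 0 := by
        change b.repr (L.vf (b a) y) c = _
        unfold StratLie.vf
        rw [L.D_of_mem (hb a), map_add, Finsupp.add_apply, map_smul, Finsupp.smul_apply,
          b.repr_self, Finsupp.single_apply]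
        have e2 : b.repr (L.br (b a) y) c = 0 := by
          have h3 := L.br_mem_F (L.V_le_F le_rfl (hb a)) (L.mem_F_one y)
          apply L.repr_of_mem_F hb h3
          have := hmono hca
          omega
        rw [e2, add_zero, smul_eq_mul]
        by_cases h : c = a
        · simp [h]
        · simp [h, Ne.symm h]
      simp only [ContinuousLinearMap.add_apply, ContinuousLinearMap.smul_apply, smul_eq_mul]
      rw [e1]
      ring
    have hb1 : BS fun y : E => L.dv (b a) f y * b.repr y c :=
      BS_of_compact ((contDiff_dv L (b a) hf).mul (hcoord c)).continuous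
        (compact_dv L (b a) hfc).mul_right
    have hb2 : BS f := BS_of_compact hf.continuous hfc
    rw [h2] at h1
    have h3 := hΛ.add _ _ hb1 (hb2.smul (if c = a then (wt a : ℝ) else 0))
    have h4 : KE b (fun y => L.dv (b a) f y * b.repr y c +
        (if c = a then (wt a : ℝ) else 0) * f y) =
        (KE b fun y => L.dv (b a) f y * b.repr y c) +
        KE b ((if c = a then (wt a : ℝ) else 0) • f) := h3
    rw [h4, hΛ.smul _ _ hb2] at h1
    by_cases h : c = a
    · rw [if_pos h] at h1 ⊢
      linarith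
    · rw [if_neg h] at h1 ⊢
      linarith
  rw [Matrix.det_of_upperTriangular]
  · rw [Finset.prod_ne_zero_iff]
    intro a _
    rw [Matrix.of_apply, hentry a a le_rfl, if_pos rfl]
    apply mul_ne_zero _ hpos
    have := L.one_le_wt hb a
    rw [neg_ne_zero]
    positivity
  · intro a c hac
    have hac' : c < a := hac
    rw [Matrix.of_apply, hentry a c hac'.le, if_neg hac'.ne]

end pairing

end Run7.h693
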