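import Pool.Agent.Run7.h693.Chains
import Pool.Agent.Run7.h693.GridLim

set_option linter.unusedSectionVars false
set_option linter.deprecated false

open Finset MeasureTheory Filter Topology Module

namespace Run7.h693

/-! ### Faces of the cube and faces of the simplex -/

section faces

variable {k : ℕ}

theorem cum_insertNth_one (i : Fin (k + 1)) (x : Fin k → ℝ) (j : ℕ) :
    cum (i.insertNth (α := fun _ => ℝ) 1 x) j = cum x (if j ≤ i then j else j - 1) := by
  apply le_antisymm
  · apply le_cum
    intro l hl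
    have h := cum_le (i.insertNth (α := fun _ => ℝ) 1 x) (j := j) (i.succAbove l) (by
      rcases Nat.lt_or_ge (l : ℕ) (i : ℕ) with h | h
      · rw [Fin.succAbove_of_castSucc_lt _ _ (by rw [Fin.lt_def]; simpa using h)]
        simp only [Fin.val_castSucc]
        split_ifs at hl <;> omega
      · rw [Fin.succAbove_of_le_castSucc _ _ (by rw [Fin.le_def]; simpa using h)]
        simp only [Fin.val_succ]
        split_ifs at hl <;> omega)
    rwa [Fin.insertNth_apply_succAbove] at h
  · apply le_cum
    intro l hl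
    rcases Fin.eq_self_or_eq_succAbove i l with rfl | ⟨l, rfl⟩
    · rw [Fin.insertNth_apply_same, Set.projIcc_of_right_le zero_le_one le_rfl]
      exact le_top
    · rw [Fin.insertNth_apply_succAbove]
      apply cum_le
      rcases Nat.lt_or_ge (l : ℕ) (i : ℕ) with h | h
      · rw [Fin.succAbove_of_castSucc_lt _ _ (by rw [Fin.lt_def]; simpa using h)] at hl
        simp only [Fin.val_castSucc] at hl
        split_ifs <;> omega
      · rw [Fin.succAbove_of_le_castSucc _ _ (by rw [Fin.le_def]; simpa using h)] at hl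
        simp only [Fin.val_succ] at hl
        split_ifs <;> omega

theorem cumE_insertNth_one (i : Fin (k + 1)) (x : Fin k → ℝ) (j : ℕ) :
    cumE (i.insertNth (α := fun _ => ℝ) 1 x) j = cumE x (if j ≤ i then j else j - 1) := by
  unfold cumE
  rw [cum_insertNth_one]
  have hi := i.2
  split_ifs <;> first | rfl | omega

theorem cumE_insertNth_last (x : Fin k → ℝ) (j : ℕ) :
    cumE ((Fin.last k).insertNth (α := fun _ => ℝ) 0 x) j = cumE x j := by
  unfold cumE
  by_cases hj : j ≤ k
  · rw [if_pos (by omega), if_pos hj]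
    congr 1
    apply le_antisymm
    · apply le_cum
      intro l hl
      have h := cum_le ((Fin.last k).insertNth (α := fun _ => ℝ) 0 x) (j := j)
        ((Fin.last k).succAbove l) (by simpa using hl)
      rwa [Fin.insertNth_apply_succAbove] at h
    · apply le_cum
      intro l hl
      rcases Fin.eq_self_or_eq_succAbove (Fin.last k) l with rfl | ⟨l, rfl⟩
      · simp at hl; omega
      · rw [Fin.insertNth_apply_succAbove]
        apply cum_le
        simpa using hl
  · rw [if_neg hj]
    split_ifs with h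
    · have h1 := cum_le ((Fin.last k).insertNth (α := fun _ => ℝ) 0 x) (j := j)
        (Fin.last k) (by simp; omega)
      rw [Fin.insertNth_apply_same, Set.projIcc_of_le_left zero_le_one le_rfl] at h1
      have h2 : ((cum ((Fin.last k).insertNth (α := fun _ => ℝ) 0 x) j : Set.Icc (0 : ℝ) 1) : ℝ)
        ≤ 0 := h1
      exact le_antisymm h2 (cum ((Fin.last k).insertNth (α := fun _ => ℝ) 0 x) j).2.1
    · rfl

theorem map_succAbove_self (i : Fin (k + 2)) (s : stdSimplex ℝ (Fin (k + 1))) :
    (stdSimplex.map i.succAbove s : Fin (k + 2) → ℝ) i = 0 := by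
  rw [stdSimplex.map_coe, FunOnFinite.linearMap_apply_apply]
  apply sum_eq_zero
  intro l hl
  exact absurd (mem_filter.1 hl).2 (Fin.succAbove_ne i l)

theorem map_succAbove_succAbove (i : Fin (k + 2)) (s : stdSimplex ℝ (Fin (k + 1)))
    (q : Fin (k + 1)) :
    (stdSimplex.map i.succAbove s : Fin (k + 2) → ℝ) (i.succAbove q) = s q := by
  rw [stdSimplex.map_coe, FunOnFinite.linearMap_apply_apply]
  rw [sum_eq_single q]
  · intro l hl hlq
    exact absurd (Fin.succAbove_right_injective (mem_filter.1 hl).2) hlq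
  · intro h
    exact absurd (by simp) h

theorem chart_insertNth_one (i : Fin (k + 1)) (x : Fin k → ℝ) :
    chart (i.insertNth (α := fun _ => ℝ) 1 x) =
      stdSimplex.map (S := ℝ) i.castSucc.succAbove (chart x) := by
  apply stdSimplex.ext
  funext p
  rcases Fin.eq_self_or_eq_succAbove i.castSucc p with rfl | ⟨q, rfl⟩
  · rw [map_succAbove_self, chart_apply, bary, cumE_insertNth_one, cumE_insertNth_one]
    simp
  · rw [map_succAbove_succAbove, chart_apply, chart_apply, bary, bary, cumE_insertNth_one,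
      cumE_insertNth_one]
    rcases Nat.lt_or_ge (q : ℕ) (i : ℕ) with h | h
    · rw [Fin.succAbove_of_castSucc_lt _ _ (by rw [Fin.lt_def]; simpa using h)]
      simp only [Fin.val_castSucc]
      rw [if_pos (by omega), if_pos (by omega)]
    · rw [Fin.succAbove_of_le_castSucc _ _ (by rw [Fin.le_def]; simpa using h)]
      simp only [Fin.val_succ]
      rw [if_neg (by omega), if_neg (by omega)]
      simp

theorem chart_insertNth_last (x : Fin k → ℝ) :
    chart ((Fin.last k).insertNth (α := fun _ => ℝ) 0 x) =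
      stdSimplex.map (S := ℝ) (Fin.last (k + 1)).succAbove (chart x) := by
  apply stdSimplex.ext
  funext p
  rcases Fin.eq_self_or_eq_succAbove (Fin.last (k + 1)) p with rfl | ⟨q, rfl⟩
  · rw [map_succAbove_self, chart_apply, bary, cumE_insertNth_last, cumE_insertNth_last]
    unfold cumE
    simp
  · rw [map_succAbove_succAbove, chart_apply, chart_apply, bary, bary, cumE_insertNth_last,
      cumE_insertNth_last]
    simp

theorem cum_insertNth_zero (i : Fin (k + 1)) (x : Fin k → ℝ) {j : ℕ} (hj : (i : ℕ) < j) :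
    cum (i.insertNth (α := fun _ => ℝ) 0 x) j = ⊥ := by
  apply le_antisymm _ bot_le
  have h1 := cum_le (i.insertNth (α := fun _ => ℝ) 0 x) (j := j) i hj
  rw [Fin.insertNth_apply_same, Set.projIcc_of_le_left zero_le_one le_rfl] at h1
  exact h1

/-- On the face `x i = 0` of the cube, the chart does not depend on the later variables. -/
theorem chart_insertNth_zero_congr (i : Fin (k + 1)) {x y : Fin k → ℝ}
    (h : ∀ l : Fin k, (l : ℕ) < i → x l = y l) :
    chart (i.insertNth (α := fun _ => ℝ) 0 x) = chart (i.insertNth (α := fun _ => ℝ) 0 y) := by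
  have h1 : ∀ j, cum (i.insertNth (α := fun _ => ℝ) 0 x) j =
      cum (i.insertNth (α := fun _ => ℝ) 0 y) j := by
    intro j
    rcases Nat.lt_or_ge (i : ℕ) j with hj | hj
    · rw [cum_insertNth_zero i x hj, cum_insertNth_zero i y hj]
    · apply cum_congr
      intro l hl
      rcases Fin.eq_self_or_eq_succAbove i l with rfl | ⟨l, rfl⟩
      · simp
      · simp only [Fin.insertNth_apply_succAbove]
        apply h
        rcases Nat.lt_or_ge (l : ℕ) (i : ℕ) with h' | h'
        · exact h'
        · rw [Fin.succAbove_of_le_castSucc _ _ (by rw [Fin.le_def]; simpa using h')] at hl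
          simp only [Fin.val_succ] at hl
          omega
  apply stdSimplex.ext
  funext p
  rw [chart_apply, chart_apply, bary, bary]
  unfold cumE
  rw [h1, h1]

end faces

/-! ### The discrete boundary functional on a degenerate face -/

theorem Grid.BN_zero {m N : ℕ} (h : (Fin (m + 1) → ℕ) → ℕ → ℝ)
    (hh : ∀ z z' : Fin (m + 1) → ℕ, (∀ l : Fin (m + 1), l ≠ Fin.last m → z l = z' l) →
      h z = h z') : Grid.BN (m + 1) N h = 0 := by
  unfold Grid.BN
  refine sum_eq_zero fun y _ => sum_eq_zero fun ρ _ => ?_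
  have hz : Grid.W (m + 1) (fun j => h (Grid.pv (fun i => (y i : ℕ)) ρ j)) = 0 := by
    unfold Grid.W
    set k := ρ⁻¹ (Fin.last m) with hk
    have hmem : (k : ℕ) ∈ range (m + 1) := mem_range.2 k.2
    have : (h (Grid.pv (fun i => (y i : ℕ)) ρ (k + 1)) (k + 1) -
        h (Grid.pv (fun i => (y i : ℕ)) ρ k) (k + 1)) = 0 := by
      have e : h (Grid.pv (fun i => (y i : ℕ)) ρ (k + 1)) =
          h (Grid.pv (fun i => (y i : ℕ)) ρ k) := ?_
      · rw [e, sub_self]
      apply hh
      intro l hl
      simp only [Grid.pv]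
      congr 1
      have h1 : ((ρ⁻¹ l : Fin (m + 1)) : ℕ) ≠ k := by
        intro h2
        have h3 : ρ⁻¹ l = ρ⁻¹ (Fin.last m) := Fin.ext h2
        exact hl (ρ⁻¹.injective h3)
      have : (((ρ⁻¹ l : Fin (m + 1)) : ℕ) < k + 1) ↔ (((ρ⁻¹ l : Fin (m + 1)) : ℕ) < k) := by
        omega
      simp only [this]
    rw [prod_eq_zero hmem this, mul_zero]
  rw [hz, mul_zero]

/-! ### The volume functional -/

section volume

variable {E : Type*} [NormedAddCommGroup E] [InnerProductSpace ℝ E] [FiniteDimensional ℝ E]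
variable {m : ℕ} (b : Basis (Fin (m + 1)) ℝ E)

/-- The signed volume of a singular simplex of top dimension, computed on the cube. -/
noncomputable def volC (σ : Simp E (m + 1)) : ℝ :=
  ∫ p in Grid.cube (m + 1), b.det fun j => fderiv ℝ (fun x => σ.1 (chart x)) p (Pi.single j 1)

/-- The discrete approximation. -/
noncomputable def volN (N : ℕ) (σ : Simp E (m + 1)) : ℝ :=
  Grid.VN m N (fun z k => if hk : k < m + 1 then
    b.repr (σ.1 (chart (Grid.pt N z))) ⟨k, hk⟩ else 0)

/-- The discrete boundary functional. -/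
noncomputable def bdN (N : ℕ) (τ : Simp E m) : ℝ :=
  Grid.BN m N (fun z k => if hk : k < m + 1 then
    b.repr (τ.1 (chart (Grid.pt N z))) ⟨k, hk⟩ else 0)

theorem pt_insertNth {N : ℕ} (j : Fin (m + 1)) (c : ℕ) (z : Fin m → ℕ) :
    Grid.pt N (j.insertNth (α := fun _ => ℕ) c z) =
      j.insertNth (α := fun _ => ℝ) ((c : ℝ) / N) (Grid.pt N z) := by
  funext l
  rcases Fin.eq_self_or_eq_succAbove j l with rfl | ⟨l, rfl⟩
  · simp [Grid.pt]
  · simp [Grid.pt]

theorem volN_eq {N : ℕ} (hN : 0 < N) (σ : Simp E (m + 1)) :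
    volN b N σ = ∑ i : Fin (m + 2), (-1 : ℝ) ^ (i : ℕ) * bdN b N (σ.face i) := by
  have hN' : (N : ℝ) ≠ 0 := by exact_mod_cast hN.ne'
  unfold volN
  rw [Grid.VN_eq]
  conv_rhs => rw [Fin.sum_univ_castSucc]
  simp only [mul_sub]
  rw [sum_sub_distrib]
  have h1 : ∀ j : Fin (m + 1), Grid.BN m N (fun z k => if hk : k < m + 1 then
      b.repr (σ.1 (chart (Grid.pt N (j.insertNth (α := fun _ => ℕ) N z)))) ⟨k, hk⟩ else 0) =
      bdN b N (σ.face j.castSucc) := by
    intro j
    unfold bdN
    congr 1
    funext z k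
    rw [pt_insertNth, div_self hN', chart_insertNth_one]
    rfl
  have h2 : Grid.BN m N (fun z k => if hk : k < m + 1 then
      b.repr (σ.1 (chart (Grid.pt N ((Fin.last m).insertNth (α := fun _ => ℕ) 0 z)))) ⟨k, hk⟩
      else 0) = bdN b N (σ.face (Fin.last (m + 1))) := by
    unfold bdN
    congr 1
    funext z k
    rw [pt_insertNth, Nat.cast_zero, zero_div, chart_insertNth_last]
    rfl
  have h3 : ∀ j : Fin (m + 1), j ≠ Fin.last m → Grid.BN m N (fun z k => if hk : k < m + 1 then
      b.repr (σ.1 (chart (Grid.pt N (j.insertNth (α := fun _ => ℕ) 0 z)))) ⟨k, hk⟩ else 0) =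
      0 := by
    intro j hj
    have hj' : (j : ℕ) < m := by
      have := j.2
      have h : (j : ℕ) ≠ m := fun h => hj (Fin.ext h)
      omega
    obtain ⟨m', rfl⟩ : ∃ m', m = m' + 1 := ⟨m - 1, by omega⟩
    apply Grid.BN_zero
    intro z z' hz
    funext k
    rw [pt_insertNth, pt_insertNth, Nat.cast_zero, zero_div]
    rw [chart_insertNth_zero_congr j (x := Grid.pt N z) (y := Grid.pt N z')]
    intro l hl
    simp only [Grid.pt]
    rw [hz l]
    intro h
    rw [h] at hl
    simp only [Fin.val_last] at hl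
    omega
  rw [sum_eq_single (Fin.last m) (f := fun j : Fin (m + 1) => (-1 : ℝ) ^ (j : ℕ) *
    Grid.BN m N (fun z k => if hk : k < m + 1 then
      b.repr (σ.1 (chart (Grid.pt N (j.insertNth (α := fun _ => ℕ) 0 z)))) ⟨k, hk⟩ else 0))
    (fun j _ hj => by rw [h3 j hj, mul_zero]) (fun h => absurd (mem_univ _) h)]
  rw [h2]
  simp only [h1]
  simp only [Fin.val_last, Fin.val_castSucc]
  rw [pow_succ]
  ring

theorem lipschitz_comp_chart {k : ℕ} (σ : Simp E k) :
    ∃ K, LipschitzWith K (fun x : Fin k → ℝ => σ.1 (chart x)) := by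
  obtain ⟨K, hK⟩ := σ.2
  exact ⟨K * 2, hK.comp lipschitz_chart⟩

theorem tendsto_volN (σ : Simp E (m + 1)) :
    Tendsto (fun N : ℕ => volN b (N + 1) σ) atTop (𝓝 (volC b σ)) := by
  obtain ⟨K, hK⟩ := lipschitz_comp_chart σ
  have hH : LipschitzWith (‖(b.equivFunL : E →L[ℝ] (Fin (m + 1) → ℝ))‖₊ * K)
      (fun x : Fin (m + 1) → ℝ => b.equivFunL (σ.1 (chart x))) :=
    (b.equivFunL : E →L[ℝ] (Fin (m + 1) → ℝ)).lipschitz.comp hK
  have h1 := Grid.tendsto_VN hH
  have h2 : volC b σ = ∫ p in Grid.cube (m + 1), Matrix.det (Matrix.of fun k j =>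
        fderiv ℝ (fun x : Fin (m + 1) → ℝ => b.equivFunL (σ.1 (chart x))) p (Pi.single j 1) k) := by
    unfold volC
    congr 1
    funext p
    rw [Basis.det_apply]
    congr 1
    ext k j
    have h3 : fderiv ℝ (fun x : Fin (m + 1) → ℝ => b.equivFunL (σ.1 (chart x))) p =
        (b.equivFunL : E →L[ℝ] (Fin (m + 1) → ℝ)).comp
          (fderiv ℝ (fun x => σ.1 (chart x)) p) :=
      b.equivFunL.comp_fderiv
    rw [Basis.toMatrix_apply, Matrix.of_apply, h3]
    rfl
  rw [h2]
  exact h1

/-- The signed volume of chains. -/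
noncomputable def VolC : Chain E (m + 1) →ₗ[ℤ] ℝ := Finsupp.linearCombination ℤ (volC b)

/-- The signed volume of a cycle vanishes. -/
theorem VolC_cycle {z : Chain E (m + 1)} (hz : boundary z = 0) : VolC b z = 0 := by
  have h1 : ∀ N : ℕ, Finsupp.linearCombination ℤ (volN b (N + 1)) z = 0 := by
    intro N
    have h2 : (Finsupp.linearCombination ℤ (volN b (N + 1)) : Chain E (m + 1) →ₗ[ℤ] ℝ) =
        (Finsupp.linearCombination ℤ (bdN b (N + 1)) : Chain E m →ₗ[ℤ] ℝ) ∘ₗ boundary := by
      apply Finsupp.lhom_ext'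
      intro σ
      apply LinearMap.ext_ring
      simp only [LinearMap.comp_apply, Finsupp.lsingle_apply, boundary,
        Finsupp.linearCombination_single, one_smul, map_sum, map_smul]
      rw [volN_eq b (Nat.succ_pos N)]
      refine sum_congr rfl fun i _ => ?_
      rw [zsmul_eq_mul]
      push_cast
      rfl
    rw [h2, LinearMap.comp_apply, hz, map_zero]
  have h3 : Tendsto (fun N : ℕ => Finsupp.linearCombination ℤ (volN b (N + 1)) z) atTop
      (𝓝 (VolC b z)) := by
    unfold VolC
    simp only [Finsupp.linearCombination_apply, Finsupp.sum]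
    refine tendsto_finset_sum _ fun σ _ => ?_
    exact (tendsto_volN b σ).const_smul (z σ)
  simp only [h1] at h3
  exact (tendsto_nhds_unique h3 tendsto_const_nhds)

end volume

end Run7.h693
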