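import Pool.Agent.Run7.h693.Cover

/-!
Filling functions are invariants of isometric isomorphisms, and the model group computes the
filling functions of every Lie group structure on `E` with the same Lie algebra.
-/

set_option linter.unusedSectionVars false
set_option linter.deprecated false

open Topology Finset MeasureTheory
open scoped ENNReal RealInnerProductSpace ContDiff

namespace Run7.h693

variable {E : Type*} [NormedAddCommGroup E] [InnerProductSpace ℝ E] [FiniteDimensional ℝ E]

theorem lipschitz_smooth_comp {k : ℕ} {f : E → E} (hf : ContDiff ℝ ∞ f) (σ : Simp E k) :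
    ∃ K, LipschitzWith K fun s => f (σ.toFun s) := by
  obtain ⟨K, hK⟩ := σ.lip
  have h1 : LocallyLipschitz f := (hf.of_le (by simp)).locallyLipschitz (𝕂 := ℝ)
  have h2 : IsCompact (Set.range σ.toFun) := isCompact_range hK.continuous
  obtain ⟨K', hK'⟩ := LocallyLipschitzOn.exists_lipschitzOnWith_of_compact h2
    (h1.locallyLipschitzOn)
  refine ⟨K' * K, ?_⟩
  intro s t
  have h3 := hK' (Set.mem_range_self s) (Set.mem_range_self t)
  have h4 := hK s t
  refine h3.trans ?_
  rw [ENNReal.coe_mul, mul_assoc]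
  gcongr

/-- The image of a singular simplex by a smooth map. -/
noncomputable def push {k : ℕ} (f : E → E) (hf : ContDiff ℝ ∞ f) (σ : Simp E k) : Simp E k :=
  ⟨fun s => f (σ.toFun s), lipschitz_smooth_comp hf σ⟩

theorem push_face {k : ℕ} {f : E → E} (hf : ContDiff ℝ ∞ f) (σ : Simp E (k + 1))
    (i : Fin (k + 2)) : (push f hf σ).face i = push f hf (σ.face i) := rfl

theorem push_push {k : ℕ} {f g : E → E} (hf : ContDiff ℝ ∞ f) (hg : ContDiff ℝ ∞ g)
    (h : ∀ x, f (g x) = x) (σ : Simp E k) : push f hf (push g hg σ) = σ := by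
  apply Simp.ext
  funext s
  exact h _

theorem push_injective {k : ℕ} {f g : E → E} (hf : ContDiff ℝ ∞ f) (hg : ContDiff ℝ ∞ g)
    (h : ∀ x, g (f x) = x) : Function.Injective (push f hf : Simp E k → Simp E k) := by
  intro σ τ hστ
  have := congrArg (push g hg) hστ
  rwa [push_push hg hf h, push_push hg hf h] at this

/-- The image of a chain by a smooth map. -/
noncomputable def Push {k : ℕ} (f : E → E) (hf : ContDiff ℝ ∞ f) : Chain E k →ₗ[ℤ] Chain E k :=
  Finsupp.lmapDomain ℤ ℤ (push f hf)

theorem Push_single {k : ℕ} {f : E → E} (hf : ContDiff ℝ ∞ f) (σ : Simp E k) :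
    Push f hf (Finsupp.single σ 1) = Finsupp.single (push f hf σ) 1 := by
  simp [Push, Finsupp.lmapDomain_apply, Finsupp.mapDomain_single]

theorem boundary_Push {k : ℕ} {f : E → E} (hf : ContDiff ℝ ∞ f) (a : Chain E (k + 1)) :
    boundary (Push f hf a) = Push f hf (boundary a) := by
  have h : (boundary : Chain E (k + 1) →ₗ[ℤ] Chain E k) ∘ₗ Push f hf = Push f hf ∘ₗ boundary := by
    apply chain_hom_ext
    intro σ
    simp only [LinearMap.comp_apply, Push_single, boundary_single, map_sum, map_smul, push_face]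
  exact congrArg (fun f => f a) h

theorem Push_Push {k : ℕ} {f g : E → E} (hf : ContDiff ℝ ∞ f) (hg : ContDiff ℝ ∞ g)
    (h : ∀ x, f (g x) = x) (a : Chain E k) : Push f hf (Push g hg a) = a := by
  have e : (Push f hf : Chain E k →ₗ[ℤ] Chain E k) ∘ₗ Push g hg = LinearMap.id := by
    apply chain_hom_ext
    intro σ
    simp only [LinearMap.comp_apply, Push_single, push_push hf hg h, LinearMap.id_apply]
  exact congrArg (fun f => f a) e

theorem mass_Push {k : ℕ} {f g : E → E} (hf : ContDiff ℝ ∞ f) (hg : ContDiff ℝ ∞ g)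
    (h : ∀ x, g (f x) = x) {G M : GroupLaw E}
    (hm : ∀ σ : Simp E k, M.simpMass (push f hf σ) = G.simpMass σ) (a : Chain E k) :
    M.mass (Push f hf a) = G.mass a := by
  classical
  have hinj := push_injective (k := k) hf hg h
  unfold GroupLaw.mass Push
  rw [Finsupp.lmapDomain_apply, Finsupp.mapDomain_support_of_injective hinj,
    sum_image fun x _ y _ hxy => hinj hxy]
  refine sum_congr rfl fun σ _ => ?_
  rw [Finsupp.mapDomain_apply hinj, hm]

theorem isCycle_Push {k : ℕ} {f : E → E} (hf : ContDiff ℝ ∞ f) {a : Chain E k} (ha : IsCycle a) :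
    IsCycle (Push f hf a) := by
  cases k with
  | zero => trivial
  | succ k =>
    change boundary (Push f hf a) = 0
    rw [boundary_Push]
    have : boundary a = 0 := ha
    rw [this, map_zero]

theorem FV_le {f g : E → E} (hf : ContDiff ℝ ∞ f) (hg : ContDiff ℝ ∞ g)
    (h : ∀ x, g (f x) = x) (h' : ∀ x, f (g x) = x) {G M : GroupLaw E}
    (hm : ∀ k, ∀ σ : Simp E k, M.simpMass (push f hf σ) = G.simpMass σ)
    (hm' : ∀ k, ∀ σ : Simp E k, G.simpMass (push g hg σ) = M.simpMass σ) (k : ℕ) (r : ℝ) :
    M.FV k r ≤ G.FV k r := by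
  unfold GroupLaw.FV
  refine iSup_le fun a => iSup_le fun ha => iSup_le fun har => ?_
  refine le_iSup_of_le (Push g hg a) (le_iSup_of_le (isCycle_Push hg ha) (le_iSup_of_le ?_ ?_))
  · rw [mass_Push hg hf h' (hm' k)]
    exact har
  · refine le_iInf fun b => le_iInf fun hb => ?_
    refine iInf_le_of_le (Push f hf b) (iInf_le_of_le ?_ ?_)
    · rw [boundary_Push, hb, Push_Push hf hg h']
    · rw [mass_Push hf hg h (hm (k + 1))]

section isometry

theorem simpMass_eq_ordInt (G : GroupLaw E) {k : ℕ} (σ : Simp E k) :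
    G.simpMass σ = ∫⁻ x in ordInt k, ENNReal.ofReal (Real.sqrt (Matrix.det (Matrix.of fun i j =>
      G.metric (σ.toFun (chart x)) (fderiv ℝ (fun y => σ.toFun (chart y)) x (Pi.single i 1))
        (fderiv ℝ (fun y => σ.toFun (chart y)) x (Pi.single j 1))))) := by
  unfold GroupLaw.simpMass
  rw [setLIntegral_congr (ordSimplex_ae_eq k)]
  apply setLIntegral_congr_fun (isOpen_ordInt k).measurableSet
  intro x hx
  have h1 : ordSimplex k ∈ 𝓝 x :=
    Filter.mem_of_superset ((isOpen_ordInt k).mem_nhds hx) (ordInt_subset k)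
  have h2 : fderivWithin ℝ σ.param (ordSimplex k) x = fderiv ℝ (fun y => σ.toFun (chart y)) x := by
    rw [← fderivWithin_of_mem_nhds h1]
    exact fderivWithin_congr (fun y hy => param_eq σ hy) (param_eq σ (ordInt_subset k hx))
  simp only [GroupLaw.gram, h2, param_eq σ (ordInt_subset k hx)]

theorem simpMass_push {f g : E → E} (hf : ContDiff ℝ ∞ f)
    (hg : ContDiff ℝ ∞ g) (h : ∀ x, g (f x) = x) {G M : GroupLaw E}
    (hiso : ∀ p v w, M.metric (f p) (fderiv ℝ f p v) (fderiv ℝ f p w) = G.metric p v w)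
    {k : ℕ} (σ : Simp E k) : M.simpMass (push f hf σ) = G.simpMass σ := by
  rw [simpMass_eq_ordInt, simpMass_eq_ordInt]
  congr 1
  funext x
  have h1 : fderiv ℝ (fun y => (push f hf σ).toFun (chart y)) x =
      (fderiv ℝ f (σ.toFun (chart x))).comp (fderiv ℝ (fun y => σ.toFun (chart y)) x) := by
    have e1 : (fun y => (push f hf σ).toFun (chart y)) = f ∘ fun y => σ.toFun (chart y) := rfl
    rw [e1]
    by_cases hd : DifferentiableAt ℝ (fun y => σ.toFun (chart y)) x
    · exact fderiv_comp x (hf.differentiable (by simp) _) hd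
    · have hd' : ¬ DifferentiableAt ℝ (f ∘ fun y => σ.toFun (chart y)) x := by
        intro hc
        apply hd
        have e2 : (fun y => σ.toFun (chart y)) = g ∘ (f ∘ fun y => σ.toFun (chart y)) := by
          funext y
          exact (h _).symm
        rw [e2]
        exact (hg.differentiable (by simp) _).comp x hc
      rw [fderiv_zero_of_not_differentiableAt hd', fderiv_zero_of_not_differentiableAt hd,
        ContinuousLinearMap.comp_zero]
  simp only [h1, ContinuousLinearMap.comp_apply]
  have e : ∀ v w, M.metric ((push f hf σ).toFun (chart x))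
      (fderiv ℝ f (σ.toFun (chart x)) v) (fderiv ℝ f (σ.toFun (chart x)) w) =
      G.metric (σ.toFun (chart x)) v w := fun v w => hiso _ v w
  simp only [e]

end isometry

/-- The filling functions of `G` are those of the model group with the same Lie algebra. -/
theorem FV_eq_model (L : StratLie E) (G : GroupLaw E)
    (hGL : ∀ v w, G.bracket v w = L.group.bracket v w) (k : ℕ) (r : ℝ) :
    G.FV k r = L.group.FV k r := by
  obtain ⟨ψ, hψ, h0, hD⟩ := exists_dev L G hGL
  have hbij := dev_bijective L G hψ h0 hD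
  have hopen : IsOpenMap ψ := isOpenMap_of_hasStrictFDerivAt_equiv (dev_hasStrict L G hψ hD)
  let Φ : E ≃ₜ E := (Equiv.ofBijective ψ hbij).toHomeomorphOfContinuousOpen hψ.continuous hopen
  have hφ : ContDiff ℝ ∞ Φ.symm :=
    Φ.contDiff_symm (fun x => (dev_hasStrict L G hψ hD x).hasFDerivAt) hψ
  have h1 : ∀ x, Φ.symm (ψ x) = x := fun x => Φ.symm_apply_apply x
  have h2 : ∀ x, ψ (Φ.symm x) = x := fun x => Φ.apply_symm_apply x
  have hiso : ∀ p v w, L.group.metric (ψ p) (fderiv ℝ ψ p v) (fderiv ℝ ψ p w) =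
      G.metric p v w := by
    have key : ∀ p v, L.group.om (ψ p) (fderiv ℝ ψ p v) = G.om p v := by
      intro p v
      have e1 := hD p (G.om p v)
      rw [G.l_om] at e1
      rw [e1]
      have e2 := L.group.om_l (ψ p) (G.om p v)
      rwa [L.group_l] at e2
    intro p v w
    unfold GroupLaw.metric
    have e1 := key p v
    have e2 := key p w
    unfold GroupLaw.om at e1 e2
    rw [e1, e2]
  have hcomp : ∀ p v, fderiv ℝ ψ (Φ.symm p) (fderiv ℝ Φ.symm p v) = v := by
    intro p v
    have e1 : HasFDerivAt (fun x => ψ (Φ.symm x))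
        ((fderiv ℝ ψ (Φ.symm p)).comp (fderiv ℝ Φ.symm p)) p :=
      (hψ.differentiable (by simp) _).hasFDerivAt.comp p
        (hφ.differentiable (by simp) p).hasFDerivAt
    have e2 : (fun x => ψ (Φ.symm x)) = fun x => x := funext h2
    rw [e2] at e1
    have e3 := congrArg (fun f : E →L[ℝ] E => f v) (e1.unique (hasFDerivAt_id p))
    exact e3
  have hiso' : ∀ p v w, G.metric (Φ.symm p) (fderiv ℝ Φ.symm p v) (fderiv ℝ Φ.symm p w) =
      L.group.metric p v w := by
    intro p v w
    rw [← hiso, hcomp, hcomp, h2]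
  apply le_antisymm
  · exact FV_le hφ hψ h2 h1 (fun k σ => simpMass_push hφ hψ h2 hiso' σ)
      (fun k σ => simpMass_push hψ hφ h1 hiso σ) k r
  · exact FV_le hψ hφ h1 h2 (fun k σ => simpMass_push hψ hφ h1 hiso σ)
      (fun k σ => simpMass_push hφ hψ h2 hiso' σ) k r

end Run7.h693
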