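import Pool.Agent.Run7.h693.Stokes

set_option linter.unusedSectionVars false
set_option linter.deprecated false

open Finset MeasureTheory Filter Topology Module
open scoped ENNReal RealInnerProductSpace

namespace Run7.h693

/-- The open order simplex. -/
def ordInt (k : ℕ) : Set (Fin k → ℝ) := {x | StrictAnti x ∧ ∀ i, 0 < x i ∧ x i < 1}

theorem ordInt_subset (k : ℕ) : ordInt k ⊆ ordSimplex k :=
  fun _ hx => ⟨hx.1.antitone, fun i => ⟨(hx.2 i).1.le, (hx.2 i).2.le⟩⟩

theorem ordInt_subset_cube (k : ℕ) : ordInt k ⊆ Grid.cube k :=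
  fun _ hx i _ => ⟨(hx.2 i).1.le, (hx.2 i).2⟩

theorem isOpen_ordInt (k : ℕ) : IsOpen (ordInt k) := by
  have h : ordInt k = (⋂ i : Fin k, ⋂ j : Fin k, {x : Fin k → ℝ | i < j → x j < x i}) ∩
      ⋂ i : Fin k, ({x : Fin k → ℝ | 0 < x i} ∩ {x | x i < 1}) := by
    ext x
    simp only [ordInt, Set.mem_setOf_eq, Set.mem_inter_iff, Set.mem_iInter, StrictAnti]
  rw [h]
  apply IsOpen.inter
  · refine isOpen_iInter_of_finite fun i => isOpen_iInter_of_finite fun j => ?_
    by_cases hij : i < j
    · have : {x : Fin k → ℝ | i < j → x j < x i} = {x | x j < x i} := by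
        ext x; simp [hij]
      rw [this]
      exact isOpen_lt (continuous_apply j) (continuous_apply i)
    · have : {x : Fin k → ℝ | i < j → x j < x i} = Set.univ := by
        ext x; simp [hij]
      rw [this]
      exact isOpen_univ
  · refine isOpen_iInter_of_finite fun i => ?_
    exact (isOpen_lt continuous_const (continuous_apply i)).inter
      (isOpen_lt (continuous_apply i) continuous_const)

theorem ae_ne {k : ℕ} {i j : Fin k} (h : i ≠ j) : ∀ᵐ x : Fin k → ℝ, x i ≠ x j := by
  have h1 : volume {x : Fin k → ℝ | ¬ (x i ≠ x j)} = 0 := by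
    let s : Submodule ℝ (Fin k → ℝ) :=
      LinearMap.ker (LinearMap.proj (R := ℝ) (φ := fun _ : Fin k => ℝ) i -
        LinearMap.proj (R := ℝ) (φ := fun _ : Fin k => ℝ) j)
    have hs : s ≠ ⊤ := by
      intro hs
      have : Pi.single i (1 : ℝ) ∈ s := by rw [hs]; trivial
      rw [LinearMap.mem_ker] at this
      simp [Pi.single_eq_of_ne h.symm] at this
    have h2 := Measure.addHaar_submodule (volume : Measure (Fin k → ℝ)) s hs
    have h3 : {x : Fin k → ℝ | ¬ (x i ≠ x j)} = (s : Set (Fin k → ℝ)) := by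
      ext x
      simp only [not_not, Set.mem_setOf_eq, SetLike.mem_coe]
      rw [LinearMap.mem_ker]
      simp [sub_eq_zero]
    rw [h3]
    exact h2
  exact h1

theorem ae_ne_const {k : ℕ} (i : Fin k) (c : ℝ) : ∀ᵐ x : Fin k → ℝ, x i ≠ c := by
  have h1 : volume {x : Fin k → ℝ | ¬ (x i ≠ c)} = 0 := by
    simp only [not_not]
    exact Measure.pi_hyperplane (fun _ : Fin k => (volume : Measure ℝ)) i c
  exact h1

theorem ae_generic (k : ℕ) : ∀ᵐ x : Fin k → ℝ, (∀ i j, i ≠ j → x i ≠ x j) ∧
    (∀ i, x i ≠ 0) ∧ (∀ i, x i ≠ 1) := by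
  have h1 : ∀ᵐ x : Fin k → ℝ, ∀ i j, i ≠ j → x i ≠ x j := by
    rw [ae_all_iff]
    intro i
    rw [ae_all_iff]
    intro j
    by_cases h : i = j
    · exact Eventually.of_forall fun x hne => absurd h hne
    · filter_upwards [ae_ne h] with x hx _ using hx
  have h2 : ∀ᵐ x : Fin k → ℝ, ∀ i, x i ≠ 0 := by
    rw [ae_all_iff]; exact fun i => ae_ne_const i 0
  have h3 : ∀ᵐ x : Fin k → ℝ, ∀ i, x i ≠ 1 := by
    rw [ae_all_iff]; exact fun i => ae_ne_const i 1
  filter_upwards [h1, h2, h3] with x a b c using ⟨a, b, c⟩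

theorem ordSimplex_ae_eq (k : ℕ) :
    (ordSimplex k : Set (Fin k → ℝ)) =ᵐ[volume] (ordInt k : Set (Fin k → ℝ)) := by
  rw [eventuallyEq_set]
  filter_upwards [ae_generic k] with x hx
  constructor
  · intro h
    refine ⟨fun i j hij => lt_of_le_of_ne (h.1 hij.le) (hx.1 j i hij.ne'), fun i =>
      ⟨lt_of_le_of_ne (h.2 i).1 (hx.2.1 i).symm, lt_of_le_of_ne (h.2 i).2 (hx.2.2 i)⟩⟩
  · exact fun h => ordInt_subset k h

/-- If `x i < x j` with `i < j`, the chart does not depend on `x j` as long as `x j ≥ x i`. -/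
theorem chart_update {k : ℕ} (x : Fin k → ℝ) {i j : Fin k} (hij : i < j) {v w : ℝ}
    (hv : x i ≤ v) (hw : x i ≤ w) :
    chart (Function.update x j v) = chart (Function.update x j w) := by
  have key : ∀ (v w : ℝ), x i ≤ v → x i ≤ w → ∀ l : ℕ,
      cum (Function.update x j v) l ≤ cum (Function.update x j w) l := by
    intro v w hv hw l
    apply le_cum
    intro q hq
    by_cases hqj : q = j
    · rw [hqj, Function.update_self]
      have h1 := cum_le (Function.update x j v) (j := l) i (by
        rw [hqj] at hq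
        exact lt_trans hij hq)
      rw [Function.update_of_ne hij.ne] at h1
      exact h1.trans (Set.monotone_projIcc zero_le_one hw)
    · rw [Function.update_of_ne hqj]
      have h1 := cum_le (Function.update x j v) (j := l) q hq
      rwa [Function.update_of_ne hqj] at h1
  have h1 : ∀ l, cum (Function.update x j v) l = cum (Function.update x j w) l :=
    fun l => le_antisymm (key v w hv hw l) (key w v hw hv l)
  apply stdSimplex.ext
  funext p
  rw [chart_apply, chart_apply, bary, bary]
  unfold cumE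
  rw [h1, h1]

variable {E : Type*} [NormedAddCommGroup E] [InnerProductSpace ℝ E] [FiniteDimensional ℝ E]

theorem fderiv_eq_zero_of_lt {k : ℕ} (f : stdSimplex ℝ (Fin (k + 1)) → E) (x : Fin k → ℝ)
    {i j : Fin k} (hij : i < j) (hx : x i < x j) :
    fderiv ℝ (fun y => f (chart y)) x (Pi.single j 1) = 0 := by
  by_cases hd : DifferentiableAt ℝ (fun y => f (chart y)) x
  · have h1 : HasDerivAt (fun t : ℝ => f (chart (x + t • Pi.single j 1)))
        (fderiv ℝ (fun y => f (chart y)) x (Pi.single j 1)) 0 :=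
      hd.hasFDerivAt.hasLineDerivAt (Pi.single j 1)
    have h2 : (fun t : ℝ => f (chart (x + t • Pi.single j 1))) =ᶠ[𝓝 0] fun _ => f (chart x) := by
      have h3 : ∀ᶠ t : ℝ in 𝓝 0, x i < x j + t := by
        have : Tendsto (fun t : ℝ => x j + t) (𝓝 0) (𝓝 (x j)) := by
          have h : Continuous fun t : ℝ => x j + t := by fun_prop
          have := h.tendsto 0
          simpa using this
        exact this.eventually (lt_mem_nhds hx)
      filter_upwards [h3] with t ht
      congr 1
      have e1 : x + t • Pi.single j (1 : ℝ) = Function.update x j (x j + t) := by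
        funext l
        by_cases hl : l = j
        · subst hl; simp
        · simp [hl]
      have e2 : x = Function.update x j (x j) := by simp
      rw [e1]
      conv_rhs => rw [e2]
      exact chart_update x hij ht.le hx.le
    have h4 : HasDerivAt (fun _ : ℝ => f (chart x))
        (fderiv ℝ (fun y => f (chart y)) x (Pi.single j 1)) 0 := h1.congr_of_eventuallyEq h2.symm
    exact h4.unique (hasDerivAt_const _ _)
  · rw [fderiv_zero_of_not_differentiableAt hd]
    rfl

section top

variable {m : ℕ} (b : Basis (Fin (m + 1)) ℝ E)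

theorem volC_eq (σ : Simp E (m + 1)) : volC b σ =
    ∫ p in ordInt (m + 1), b.det fun j =>
      fderiv ℝ (fun x => σ.1 (chart x)) p (Pi.single j 1) := by
  unfold volC
  apply setIntegral_eq_of_subset_of_ae_diff_eq_zero
  · exact (MeasurableSet.univ_pi fun i => measurableSet_Ico).nullMeasurableSet
  · exact ordInt_subset_cube _
  · filter_upwards [ae_generic (m + 1)] with x hx hx'
    obtain ⟨hc, hn⟩ := hx'
    have hc' : ∀ i, 0 ≤ x i ∧ x i < 1 := fun i => hc i (Set.mem_univ i)
    have h1 : ∃ i j, i < j ∧ x i < x j := by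
      by_contra hne
      push Not at hne
      apply hn
      refine ⟨fun i j hij => lt_of_le_of_ne (hne i j hij) (hx.1 j i hij.ne'), fun i =>
        ⟨lt_of_le_of_ne (hc' i).1 (hx.2.1 i).symm, (hc' i).2⟩⟩
    obtain ⟨i, j, hij, hlt⟩ := h1
    exact b.det.map_coord_zero j (fderiv_eq_zero_of_lt σ.1 x hij hlt)

end top

/-- The Gram matrix with respect to the metric at `g`. -/
noncomputable def StratLie.gramAt (L : StratLie E) {k : ℕ} (g : E) (v : Fin k → E) :
    Matrix (Fin k) (Fin k) ℝ :=
  Matrix.of fun i j => ⟪L.Ai g (v i), L.Ai g (v j)⟫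

variable (L : StratLie E)

theorem simpMass_eq {k : ℕ} (σ : Simp E k) : L.simpMass σ =
    ∫⁻ x in ordInt k, ENNReal.ofReal (Real.sqrt (L.gramAt (σ.1 (chart x)) fun j =>
      fderiv ℝ (fun y => σ.1 (chart y)) x (Pi.single j 1)).det) := by
  unfold StratLie.simpMass
  rw [setLIntegral_congr (ordSimplex_ae_eq k)]
  apply setLIntegral_congr_fun (isOpen_ordInt k).measurableSet
  intro x hx
  have h1 : ordSimplex k ∈ 𝓝 x :=
    mem_of_superset ((isOpen_ordInt k).mem_nhds hx) (ordInt_subset k)
  have h2 : L.gram σ x = L.gramAt (σ.1 (chart x)) fun j =>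
      fderiv ℝ (fun y => σ.1 (chart y)) x (Pi.single j 1) := by
    unfold StratLie.gram StratLie.gramAt
    rw [fderivWithin_of_mem_nhds h1]
    rfl
  simp only [h2]

theorem sqrt_det_gramAt {n : ℕ} (ob : OrthonormalBasis (Fin n) ℝ E) (g : E) (v : Fin n → E) :
    Real.sqrt (L.gramAt g v).det = |ob.toBasis.det v| := by
  have h1 : L.gramAt g v = (ob.toBasis.toMatrix (L.Ai g ∘ v)).transpose *
      (ob.toBasis.toMatrix (L.Ai g ∘ v)) := by
    ext i j
    rw [Matrix.mul_apply]
    simp only [StratLie.gramAt, Matrix.of_apply, Matrix.transpose_apply, Basis.toMatrix_apply,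
      OrthonormalBasis.coe_toBasis_repr_apply, Function.comp_apply,
      OrthonormalBasis.repr_apply_apply]
    rw [← ob.sum_inner_mul_inner]
    refine sum_congr rfl fun l _ => ?_
    rw [real_inner_comm]
  have h2 : ob.toBasis.det (L.Ai g ∘ v) = ob.toBasis.det v := by
    have := Basis.det_comp ob.toBasis (L.Ai g : E →ₗ[ℝ] E) v
    rw [L.det_Ai, one_mul] at this
    exact this
  rw [h1, Matrix.det_mul, Matrix.det_transpose, ← Basis.det_apply, h2, ← sq, Real.sqrt_sq_eq_abs]

/-- The signed volume is at most the mass. -/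
theorem abs_volC_le {m : ℕ} (ob : OrthonormalBasis (Fin (m + 1)) ℝ E) (σ : Simp E (m + 1)) :
    ENNReal.ofReal |volC ob.toBasis σ| ≤ L.simpMass σ := by
  rw [volC_eq, simpMass_eq]
  have h1 := enorm_integral_le_lintegral_enorm (μ := volume.restrict (ordInt (m + 1)))
    (fun p => ob.toBasis.det fun j => fderiv ℝ (fun x => σ.1 (chart x)) p (Pi.single j 1))
  rw [← Real.norm_eq_abs, ofReal_norm_eq_enorm]
  refine h1.trans (lintegral_mono fun p => ?_)
  rw [sqrt_det_gramAt L ob, ← Real.norm_eq_abs, ofReal_norm_eq_enorm]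

end Run7.h693
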